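import Pool.Agent.HYP.Defs

/-! Basic API for sums over leaves and nodes. -/

set_option autoImplicit false

namespace Pool.Agent.HYP

open Finset

theorem sum_leaf_leaf {M : Type} [AddCommMonoid M] (c : Bool) (f : Leaf (.leaf c) → M) :
    ∑ x, f x = f () :=
  Fintype.sum_unique (ι := Unit) f

theorem sum_leaf_node {M : Type} [AddCommMonoid M] (l r : Tr) (f : Leaf (.node l r) → M) :
    ∑ x, f x = ∑ x : Leaf l, f (Sum.inl x) + ∑ x : Leaf r, f (Sum.inr x) :=
  Fintype.sum_sum_type (α₁ := Leaf l) (α₂ := Leaf r) f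

theorem sum_node_leaf {M : Type} [AddCommMonoid M] (c : Bool) (f : Node (.leaf c) → M) :
    ∑ x, f x = 0 :=
  Fintype.sum_empty (ι := Empty) f

theorem sum_node_node {M : Type} [AddCommMonoid M] (l r : Tr) (f : Node (.node l r) → M) :
    ∑ x, f x = f none + (∑ x : Node l, f (some (Sum.inl x)) + ∑ x : Node r, f (some (Sum.inr x))) :=
  (Fintype.sum_option (α := Node l ⊕ Node r) f).trans (congrArg (f none + ·)
    (Fintype.sum_sum_type (α₁ := Node l) (α₂ := Node r) fun x => f (some x)))

theorem zc_eq (T : Tr) : zc T = ∑ x, if col T x = true then 1 else 0 := by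
  simp [zc]

theorem zc_leaf (c : Bool) : zc (.leaf c) = if c then 1 else 0 := by
  cases c <;> rfl

theorem zc_node (l r : Tr) : zc (.node l r) = zc l + zc r := by
  rw [zc_eq, zc_eq, zc_eq, sum_leaf_node]
  rfl

theorem zc_XT (r : ℕ) : zc (XT r) = 2 * r + 2 := by
  induction r with
  | zero => simp [XT, zc_node, zc_leaf]
  | succ r ih => simp [XT, Leg, zc_node, zc_leaf, ih]; ring

theorem zc_TT (r : ℕ) (par : Bool) : zc (TT r par) = if par then 2 * r + 3 else 2 * r + 4 := by
  cases par <;> simp [TT, Leg, zc_node, zc_leaf, zc_XT]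

theorem card_ZN_eq (T : Tr) : Fintype.card (ZN T) = ∑ ν, if isZ T ν = true then 1 else 0 := by
  rw [Fintype.card_subtype]
  simp

theorem lbl_node_inl {R : Type} (l r : Tr) (s : R) (b : Leaf (.node l r) → R) :
    (fun x => lbl (.node l r) s b (Sum.inl x)) = lbl l s (fun x => b (Sum.inl x)) := rfl

theorem lbl_node_inr {R : Type} (l r : Tr) (s : R) (b : Leaf (.node l r) → R) :
    (fun x => lbl (.node l r) s b (Sum.inr x)) = lbl r s (fun x => b (Sum.inr x)) := rfl

end Pool.Agent.HYP
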