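import Pool.Agent.HYP.Basic

/-! # The real cone is generated by the exponents of degree one -/

set_option autoImplicit false

namespace Pool.Agent.HYP

open Finset

/-! ### Linearity of `lab` and `Adm` -/

theorem cn_lab_add {R : Type} [CommRing R] (T : Tr) (a a' : Leaf T → R) (e e' : Node T → R) :
    lab T (fun x => a x + a' x) (fun x => e x + e' x) = lab T a e + lab T a' e' := by
  induction T with
  | leaf c => rfl
  | node l r ihl ihr =>
    simp only [lab]
    rw [ihl, ihr]
    ring

theorem cn_lab_smul {R : Type} [CommRing R] (T : Tr) (t : R) (a : Leaf T → R) (e : Node T → R) :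
    lab T (fun x => t * a x) (fun x => t * e x) = t * lab T a e := by
  induction T with
  | leaf c => rfl
  | node l r ihl ihr =>
    simp only [lab]
    rw [ihl, ihr]
    ring

theorem cn_lab_eq {R : Type} [CommRing R] (T : Tr) (a : Leaf T → R) (e : Node T → R) :
    lab T a e = ∑ x, a x - 2 * ∑ ν, e ν := by
  induction T with
  | leaf c =>
    rw [sum_leaf_leaf, sum_node_leaf]
    simp [lab]
  | node l r ihl ihr =>
    rw [sum_leaf_node, sum_node_node]
    simp only [lab]
    rw [ihl, ihr]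
    ring

/-- the three constraint functionals at every node. -/
def cn_cons {R : Type} [Ring R] : (T : Tr) → (Leaf T → R) → (Node T → R) → Node T → Fin 3 → R
  | .node l r, a, e, none, j => match j with
    | 0 => e none
    | 1 => lab l (fun x => a (Sum.inl x)) (fun x => e (some (Sum.inl x))) - e none
    | 2 => lab r (fun x => a (Sum.inr x)) (fun x => e (some (Sum.inr x))) - e none
  | .node l _, a, e, some (Sum.inl x), j =>
      cn_cons l (fun x => a (Sum.inl x)) (fun x => e (some (Sum.inl x))) x j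
  | .node _ r, a, e, some (Sum.inr x), j =>
      cn_cons r (fun x => a (Sum.inr x)) (fun x => e (some (Sum.inr x))) x j

theorem cn_adm_iff {R : Type} [CommRing R] [LinearOrder R] [IsStrictOrderedRing R] (T : Tr)
    (a : Leaf T → R) (e : Node T → R) : Adm T a e ↔ ∀ ν j, 0 ≤ cn_cons T a e ν j := by
  induction T with
  | leaf c => exact ⟨fun _ ν => Empty.elim ν, fun _ => trivial⟩
  | node l r ihl ihr =>
    simp only [Adm]
    rw [ihl, ihr]
    constructor
    · rintro ⟨h1, h2, h3, h4, h5⟩ ν j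
      rcases ν with _ | ν | ν
      · fin_cases j
        · exact h3
        · exact sub_nonneg.mpr h4
        · exact sub_nonneg.mpr h5
      · exact h1 ν j
      · exact h2 ν j
    · intro h
      exact ⟨fun ν j => h (some (Sum.inl ν)) j, fun ν j => h (some (Sum.inr ν)) j, h none 0,
        sub_nonneg.mp (h none 1), sub_nonneg.mp (h none 2)⟩

theorem cn_cons_zero {R : Type} [CommRing R] (T : Tr) (a : Leaf T → R) (e : Node T → R)
    (ν : Node T) : cn_cons T a e ν 0 = e ν := by
  induction T with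
  | leaf c => exact Empty.elim ν
  | node l r ihl ihr =>
    rcases ν with _ | ν | ν
    · rfl
    · exact ihl _ _ ν
    · exact ihr _ _ ν

theorem cn_cons_add {R : Type} [CommRing R] (T : Tr) (a a' : Leaf T → R) (e e' : Node T → R)
    (ν : Node T) (j : Fin 3) :
    cn_cons T (fun x => a x + a' x) (fun x => e x + e' x) ν j
      = cn_cons T a e ν j + cn_cons T a' e' ν j := by
  induction T with
  | leaf c => exact Empty.elim ν
  | node l r ihl ihr =>
    rcases ν with _ | ν | ν
    · fin_cases j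
      · rfl
      · simp only [cn_cons]
        rw [cn_lab_add]
        ring
      · simp only [cn_cons]
        rw [cn_lab_add]
        ring
    · exact ihl _ _ _ _ ν
    · exact ihr _ _ _ _ ν

theorem cn_cons_smul {R : Type} [CommRing R] (T : Tr) (t : R) (a : Leaf T → R) (e : Node T → R)
    (ν : Node T) (j : Fin 3) :
    cn_cons T (fun x => t * a x) (fun x => t * e x) ν j = t * cn_cons T a e ν j := by
  induction T with
  | leaf c => exact Empty.elim ν
  | node l r ihl ihr =>
    rcases ν with _ | ν | ν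
    · fin_cases j
      · rfl
      · simp only [cn_cons]
        rw [cn_lab_smul]
        ring
      · simp only [cn_cons]
        rw [cn_lab_smul]
        ring
    · exact ihl _ _ ν
    · exact ihr _ _ ν

/-- cast from the integers. -/
theorem cn_lab_cast (T : Tr) (a : Leaf T → ℤ) (e : Node T → ℤ) :
    ((lab T a e : ℤ) : ℝ) = lab T (fun x => (a x : ℝ)) (fun x => (e x : ℝ)) := by
  rw [cn_lab_eq, cn_lab_eq]
  push_cast
  ring

theorem cn_cons_cast (T : Tr) (a : Leaf T → ℤ) (e : Node T → ℤ) (ν : Node T) (j : Fin 3) :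
    ((cn_cons T a e ν j : ℤ) : ℝ) = cn_cons T (fun x => (a x : ℝ)) (fun x => (e x : ℝ)) ν j := by
  induction T with
  | leaf c => exact Empty.elim ν
  | node l r ihl ihr =>
    rcases ν with _ | ν | ν
    · fin_cases j
      · rfl
      · simp only [cn_cons]
        rw [← cn_lab_cast]
        push_cast
        ring
      · simp only [cn_cons]
        rw [← cn_lab_cast]
        push_cast
        ring
    · exact ihl _ _ ν
    · exact ihr _ _ ν

/-! ### y-nodes -/

theorem cn_y {R : Type} [CommRing R] [LinearOrder R] [IsStrictOrderedRing R] (T : Tr) (s : R)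
    (e : Node T → R) (h : Adm T (lbl T s 0) e) (ν : Node T) (hν : isZ T ν = false) : e ν = 0 := by
  induction T with
  | leaf c => exact Empty.elim ν
  | node l r ihl ihr =>
    obtain ⟨h1, h2, h3, h4, h5⟩ := h
    rcases ν with _ | ν | ν
    · have hr : r.isY = true := by
        simpa [isZ] using hν
      have hr' : r = .leaf false := by
        cases r with
        | leaf c => cases c with
          | false => rfl
          | true => simp [Tr.isY] at hr
        | node a b => simp [Tr.isY] at hr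
      subst hr'
      have h6 : lab (Tr.leaf false) (fun x => lbl (.node l (.leaf false)) s 0 (Sum.inr x))
          (fun x => e (some (Sum.inr x))) = 0 := by
        simp [lab, lbl, col]
        rfl
      rw [h6] at h5
      exact le_antisymm h5 h3
    · exact ihl _ h1 ν hν
    · exact ihr _ h2 ν hν

/-- elements of `AA` vanish at the `y`-nodes -/
theorem AA_y (T : Tr) (J : ℕ) (e : Node T → ℕ) (he : e ∈ AA T J) (ν : Node T)
    (hν : isZ T ν = false) : e ν = 0 := by
  have := cn_y T 1 (fun ν => (e ν : ℤ)) he.1 ν hν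
  exact_mod_cast this

/-! ### Counting -/

theorem cn_sumZ (T : Tr) {M : Type} [AddCommMonoid M] (g : Node T → M)
    (hg : ∀ ν, isZ T ν = false → g ν = 0) : ∑ ν : ZN T, g ν.1 = ∑ ν, g ν := by
  classical
  have h1 : ∑ ν ∈ (Finset.univ.filter fun ν : Node T => isZ T ν = true), g ν
      = ∑ ν : ZN T, g ν.1 := Finset.sum_subtype _ (fun x => by simp) g
  rw [← h1]
  refine Finset.sum_filter_of_ne fun ν _ hν => ?_
  by_contra hcon
  exact hν (hg ν (by simpa using hcon))

theorem cn_sum_lbl {R : Type} [CommRing R] (T : Tr) (s : R) :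
    ∑ x, lbl T s 0 x = (zc T : R) * s := by
  rw [zc_eq]
  push_cast
  rw [Finset.sum_mul]
  refine Finset.sum_congr rfl fun x _ => ?_
  unfold lbl
  split_ifs <;> simp

theorem cn_AA_sum (T : Tr) (p J : ℕ) (hN : zc T = 2 * p + J) (e : Node T → ℕ) (he : e ∈ AA T J) :
    ∑ ν, (e ν : ℤ) = p := by
  have h1 := he.2
  rw [cn_lab_eq, cn_sum_lbl] at h1
  have h2 : (zc T : ℤ) = 2 * p + J := by exact_mod_cast hN
  linarith

/-- number of `z`-nodes, recursively. -/
def cn_nz : Tr → ℕ
  | .leaf _ => 0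
  | .node l r => (if r.isY = true then 0 else 1) + (cn_nz l + cn_nz r)

theorem cn_nz_eq (T : Tr) : Fintype.card (ZN T) = cn_nz T := by
  induction T with
  | leaf c => rw [card_ZN_eq, sum_node_leaf]; rfl
  | node l r ihl ihr =>
    rw [card_ZN_eq] at ihl ihr ⊢
    rw [sum_node_node]
    refine congrArg₂ (· + ·) ?_ (congrArg₂ (· + ·) ihl ihr)
    show (if (!r.isY) = true then 1 else 0) = (if r.isY = true then 0 else 1)
    by_cases h : r.isY = true <;> simp [h]

theorem cn_nz_XT (r : ℕ) : cn_nz (XT r) = 2 * r + 1 := by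
  induction r with
  | zero => simp [XT, cn_nz, Tr.isY]
  | succ r ih =>
    simp only [XT, Leg, cn_nz, Tr.isY, ih]
    simp
    ring

theorem card_ZN (r : ℕ) (par : Bool) : Fintype.card (ZN (TT r par)) = zc (TT r par) - 1 := by
  rw [zc_TT, cn_nz_eq]
  cases par
  · simp only [TT, Leg, cn_nz, Tr.isY, cn_nz_XT]
    simp
    ring
  · simp only [TT, cn_nz, Tr.isY, cn_nz_XT]
    simp
    ring

/-! ### Nonnegative combinations are in the cone -/

theorem cn_cons_sum {A : Type} (T : Tr) (s : Finset A) (c : A → ℝ) (a : A → Leaf T → ℝ)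
    (E : A → Node T → ℝ) (ν : Node T) (j : Fin 3) :
    cn_cons T (fun x => ∑ i ∈ s, c i * a i x) (fun x => ∑ i ∈ s, c i * E i x) ν j
      = ∑ i ∈ s, c i * cn_cons T (a i) (E i) ν j := by
  classical
  induction s using Finset.induction_on with
  | empty =>
    have := cn_cons_smul T (0 : ℝ) (fun _ => 0) (fun _ => 0) ν j
    simpa using this
  | insert i s hi ih =>
    rw [Finset.sum_insert hi, ← ih, ← cn_cons_smul, ← cn_cons_add]
    congr 1
    · funext x
      rw [Finset.sum_insert hi]
    · funext x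
      rw [Finset.sum_insert hi]

theorem CR_of_cone (r : ℕ) (par : Bool) (p J : ℕ) (hp : 1 ≤ p) (hN : zc (TT r par) = 2 * p + J)
    (s : Finset (Node (TT r par) → ℕ)) (hs : (s : Set (Node (TT r par) → ℕ)) ⊆ AA (TT r par) J)
    (c : (Node (TT r par) → ℕ) → ℝ) (hc : ∀ e ∈ s, 0 ≤ c e) :
    CR (TT r par) p (fun ν => ∑ e ∈ s, c e * (e ν.1 : ℝ)) := by
  generalize TT r par = T at *
  have hp0 : (p : ℝ) ≠ 0 := by positivity
  have hy : ∀ e ∈ s, ∀ ν, isZ T ν = false → e ν = 0 := fun e he ν hν => AA_y T J e (hs he) ν hν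
  have h1 : (∑ ν : ZN T, ∑ e ∈ s, c e * (e ν.1 : ℝ)) = (∑ e ∈ s, c e) * p := by
    rw [Finset.sum_comm, Finset.sum_mul]
    refine Finset.sum_congr rfl fun e he => ?_
    rw [← Finset.mul_sum]
    congr 1
    rw [cn_sumZ T (fun ν => (e ν : ℝ)) (fun ν hν => by simp only [hy e he ν hν, Nat.cast_zero])]
    have := cn_AA_sum T p J hN e (hs he)
    exact_mod_cast this
  have h2 : lbl T ((∑ ν : ZN T, ∑ e ∈ s, c e * (e ν.1 : ℝ)) / (p : ℝ)) 0
      = fun x => ∑ e ∈ s, c e * (fun _ x => lbl T (1 : ℝ) 0 x) e x := by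
    funext x
    rw [h1, mul_div_assoc, div_self hp0, mul_one, ← Finset.sum_mul]
    unfold lbl
    split_ifs <;> simp
  have h3 : ext T (fun ν : ZN T => ∑ e ∈ s, c e * (e ν.1 : ℝ))
      = fun ν => ∑ e ∈ s, c e * (fun (e : Node T → ℕ) ν => (e ν : ℝ)) e ν := by
    funext ν
    unfold ext
    split_ifs with h
    · rfl
    · refine (Finset.sum_eq_zero fun e he => ?_).symm
      rw [Bool.not_eq_true] at h
      simp only [hy e he ν h, Nat.cast_zero, mul_zero]
  unfold CR
  rw [h2, h3, cn_adm_iff]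
  intro ν j
  rw [cn_cons_sum]
  refine Finset.sum_nonneg fun e he => mul_nonneg (hc e he) ?_
  have h4 := (cn_adm_iff T _ _).mp (hs he).1 ν j
  have h5 : (0 : ℝ) ≤ ((cn_cons T (lbl T 1 0) (fun ν => (e ν : ℤ)) ν j : ℤ) : ℝ) := by
    exact_mod_cast h4
  rw [cn_cons_cast] at h5
  have h6 : (fun x => ((lbl T (1 : ℤ) 0 x : ℤ) : ℝ)) = lbl T (1 : ℝ) 0 := by
    funext x
    unfold lbl
    split_ifs <;> simp
  rw [h6] at h5
  simpa using h5

/-! ### Abstract generation lemma -/

/-- `x` is a nonnegative combination of the `vec a`, `a` in `S`. -/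
def cn_InC {V A : Type} [AddCommGroup V] [Module ℝ V] (S : Set A) (vec : A → V) (x : V) : Prop :=
  ∃ (s : Finset A) (c : A → ℝ), (s : Set A) ⊆ S ∧ (∀ a ∈ s, 0 ≤ c a) ∧ x = ∑ a ∈ s, c a • vec a

theorem cn_InC_zero {V A : Type} [AddCommGroup V] [Module ℝ V] (S : Set A) (vec : A → V) :
    cn_InC S vec 0 := ⟨∅, fun _ => 0, by simp, by simp, by simp⟩

theorem cn_InC_add {V A : Type} [AddCommGroup V] [Module ℝ V] {S : Set A} {vec : A → V} {x : V}
    (h : cn_InC S vec x) (a : A) (ha : a ∈ S) (t : ℝ) (ht : 0 ≤ t) :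
    cn_InC S vec (x + t • vec a) := by
  classical
  obtain ⟨s, c, hs, hc, rfl⟩ := h
  refine ⟨insert a s, fun b => (if b ∈ s then c b else 0) + (if b = a then t else 0), ?_, ?_, ?_⟩
  · intro b hb
    rcases Finset.mem_insert.mp (Finset.mem_coe.mp hb) with h1 | h1
    · rw [h1]; exact ha
    · exact hs h1
  · intro b _
    refine add_nonneg ?_ ?_
    · split_ifs with h1
      · exact hc b h1
      · exact le_refl 0
    · split_ifs
      · exact ht
      · exact le_refl 0
  · simp only [add_smul, Finset.sum_add_distrib, ite_smul, zero_smul]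
    congr 1
    · rw [← Finset.sum_filter]
      have h1 : (insert a s).filter (fun b => b ∈ s) = s := by
        ext b
        simp only [Finset.mem_filter, Finset.mem_insert]
        tauto
      rw [h1]
    · rw [Finset.sum_ite_eq' (insert a s) a]
      simp

theorem cn_cone_gen {V A ι : Type} [AddCommGroup V] [Module ℝ V] [Fintype ι]
    (f : ι → V → ℝ) (hf : ∀ i x y t, f i (x - t • y) = f i x - t * f i y) (S : Set A) (vec : A → V)
    (hpt : ∀ x, (∀ i, f i x = 0) → x = 0)
    (hC : ∀ a ∈ S, ∀ i, 0 ≤ f i (vec a)) (hne : ∀ a ∈ S, vec a ≠ 0)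
    (hround : ∀ x, (∀ i, 0 ≤ f i x) → x ≠ 0 → ∃ a ∈ S, ∀ i, f i x = 0 → f i (vec a) = 0) :
    ∀ (n : ℕ) (x : V), (∀ i, 0 ≤ f i x) → (Finset.univ.filter fun i => f i x ≠ 0).card ≤ n →
      cn_InC S vec x := by
  classical
  intro n
  induction n with
  | zero =>
    intro x hx hn
    have h1 : ∀ i, f i x = 0 := by
      intro i
      by_contra hcon
      have h2 : i ∈ (Finset.univ.filter fun i => f i x ≠ 0) := by simp [hcon]
      rw [Nat.le_zero, Finset.card_eq_zero] at hn
      rw [hn] at h2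
      simp at h2
    rw [hpt x h1]
    exact cn_InC_zero S vec
  | succ n ih =>
    intro x hx hn
    by_cases hx0 : x = 0
    · rw [hx0]; exact cn_InC_zero S vec
    obtain ⟨a, ha, hta⟩ := hround x hx hx0
    have hI : (Finset.univ.filter fun i => 0 < f i (vec a)).Nonempty := by
      by_contra hcon
      rw [Finset.not_nonempty_iff_eq_empty, Finset.filter_eq_empty_iff] at hcon
      exact hne a ha (hpt _ fun i => le_antisymm (not_lt.mp (hcon (Finset.mem_univ i)))
        (hC a ha i))
    obtain ⟨i0, hi0, hmin⟩ := Finset.exists_min_image _ (fun i => f i x / f i (vec a)) hI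
    rw [Finset.mem_filter] at hi0
    set t := f i0 x / f i0 (vec a) with ht
    have ht0 : 0 ≤ t := div_nonneg (hx i0) hi0.2.le
    have hy : ∀ i, 0 ≤ f i (x - t • vec a) := by
      intro i
      rw [hf]
      rcases (hC a ha i).lt_or_eq with h1 | h1
      · have h2 := hmin i (by simp [h1])
        have h3 : t * f i (vec a) ≤ f i x := by
          rwa [le_div_iff₀ h1] at h2
        linarith
      · rw [← h1, mul_zero, sub_zero]
        exact hx i
    have hcard : (Finset.univ.filter fun i => f i (x - t • vec a) ≠ 0).card ≤ n := by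
      have h1 : (Finset.univ.filter fun i => f i (x - t • vec a) ≠ 0)
          ⊂ (Finset.univ.filter fun i => f i x ≠ 0) := by
        rw [Finset.ssubset_iff_of_subset]
        · refine ⟨i0, ?_, ?_⟩
          · rw [Finset.mem_filter]
            exact ⟨Finset.mem_univ _, fun h => hi0.2.ne' (hta i0 h)⟩
          · rw [Finset.mem_filter, not_and, not_not]
            intro _
            rw [hf, ht, div_mul_cancel₀ _ hi0.2.ne', sub_self]
        · intro i hi
          rw [Finset.mem_filter] at hi ⊢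
          refine ⟨hi.1, fun h => hi.2 ?_⟩
          rw [hf, h, hta i h, mul_zero, sub_zero]
      have h2 := Finset.card_lt_card h1
      omega
    have h3 := cn_InC_add (ih _ hy hcard) a ha t ht0
    rwa [sub_add_cancel] at h3

/-! ### Local rounding -/

theorem cn_local (γ γ' β : ℝ) (h0 : 0 ≤ γ) (h0' : 0 ≤ γ') (hβ : 0 ≤ β) (hβ1 : β ≤ 1)
    (h1 : γ - γ' ≤ β) (h2 : γ' - γ ≤ β) (h3 : β ≤ γ + γ') (G : ℤ) (hG : γ - 1 < G)
    (hG' : (G : ℝ) < γ + 1) :
    ∃ B G' : ℤ, 0 ≤ B ∧ B ≤ 1 ∧ γ' - 1 < G' ∧ (G' : ℝ) < γ' + 1 ∧ G - G' ≤ B ∧ G' - G ≤ B ∧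
      B ≤ G + G' ∧ (β = 0 → B = 0) ∧ (β = 1 → B = 1) ∧ (γ' = γ + β → G' = G + B) ∧
      (γ = γ' + β → G = G' + B) ∧ (β = γ + γ' → B = G + G') := by
  have hGn : 0 ≤ G := by
    have : (-1 : ℝ) < G := by linarith
    have : (-1 : ℤ) < G := by exact_mod_cast this
    omega
  have fl1 := Int.floor_le γ'
  have fl2 := Int.lt_floor_add_one γ'
  have ce1 := Int.le_ceil γ'
  have ce2 := Int.ceil_lt_add_one γ'
  rcases eq_or_ne β 0 with b0 | b0
  · -- `β = 0`
    have e : γ' = γ := by linarith
    refine ⟨0, G, le_refl 0, zero_le_one, by linarith, by linarith, by omega, by omega, by omega,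
      fun _ => rfl, fun h => by linarith, fun _ => by omega, fun _ => by omega, fun h => ?_⟩
    have : (G : ℝ) < 1 := by linarith
    have : G < 1 := by exact_mod_cast this
    omega
  rcases eq_or_ne β 1 with b1 | b1
  · subst b1
    rcases eq_or_ne γ' (γ + 1) with c1 | c1
    · refine ⟨1, G + 1, by omega, le_refl 1, by push_cast; linarith, by push_cast; linarith,
        by omega, by omega, by omega, fun h => absurd h b0, fun _ => rfl, fun _ => rfl,
        fun h => by linarith, fun h => ?_⟩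
      have : (G : ℝ) < 1 := by linarith
      have : G < 1 := by exact_mod_cast this
      omega
    rcases eq_or_ne γ (γ' + 1) with c2 | c2
    · have hG1 : 1 ≤ G := by
        have : (0 : ℝ) < G := by linarith
        have : 0 < G := by exact_mod_cast this
        omega
      refine ⟨1, G - 1, by omega, le_refl 1, by push_cast; linarith, by push_cast; linarith,
        by omega, by omega, by omega, fun h => absurd h b0, fun _ => rfl,
        fun h => absurd h c1, fun _ => by omega, fun h => ?_⟩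
      have : (G : ℝ) < 2 := by linarith
      have : G < 2 := by exact_mod_cast this
      omega
    rcases eq_or_ne 1 (γ + γ') with c3 | c3
    · have hG1 : G ≤ 1 := by
        have : (G : ℝ) < 2 := by linarith
        have : G < 2 := by exact_mod_cast this
        omega
      refine ⟨1, 1 - G, by omega, le_refl 1, by push_cast; linarith, by push_cast; linarith,
        by omega, by omega, by omega, fun h => absurd h b0, fun _ => rfl,
        fun h => absurd h c1, fun h => absurd h c2, fun _ => by omega⟩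
    have s1 : γ' < γ + 1 := lt_of_le_of_ne (by linarith) c1
    have s2 : γ < γ' + 1 := lt_of_le_of_ne (by linarith) c2
    have s3 : 1 < γ + γ' := lt_of_le_of_ne h3 c3
    by_cases hGγ : (G : ℝ) ≤ γ
    · rcases Nat.eq_zero_or_pos G.toNat with hz | hz
      · have hG0 : G = 0 := by omega
        subst hG0
        push_cast at hG hG'
        refine ⟨1, 1, by omega, le_refl 1, by push_cast; linarith, by push_cast; linarith,
          by omega, by omega, by omega, fun h => absurd h b0, fun _ => rfl,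
          fun h => absurd h c1, fun h => absurd h c2, fun h => absurd h c3⟩
      · have hG1 : 1 ≤ G := by omega
        have u1 : G - 1 ≤ ⌊γ'⌋ := by
          have : (G : ℝ) - 2 < ⌊γ'⌋ := by linarith
          have : G - 2 < ⌊γ'⌋ := by exact_mod_cast this
          omega
        have u2 : ⌊γ'⌋ ≤ G + 1 := by
          have : (⌊γ'⌋ : ℝ) < G + 2 := by linarith
          have : ⌊γ'⌋ < G + 2 := by exact_mod_cast this
          omega
        refine ⟨1, ⌊γ'⌋, by omega, le_refl 1, by linarith, by linarith,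
          by omega, by omega, by omega, fun h => absurd h b0, fun _ => rfl,
          fun h => absurd h c1, fun h => absurd h c2, fun h => absurd h c3⟩
    · rw [not_le] at hGγ
      have hG1 : 1 ≤ G := by
        have : (0 : ℝ) < G := by linarith
        have : 0 < G := by exact_mod_cast this
        omega
      have u1 : G - 1 ≤ ⌈γ'⌉ := by
        have : (G : ℝ) - 2 < ⌈γ'⌉ := by linarith
        have : G - 2 < ⌈γ'⌉ := by exact_mod_cast this
        omega
      have u2 : ⌈γ'⌉ ≤ G + 1 := by
        have : (⌈γ'⌉ : ℝ) < G + 2 := by linarith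
        have : ⌈γ'⌉ < G + 2 := by exact_mod_cast this
        omega
      refine ⟨1, ⌈γ'⌉, by omega, le_refl 1, by linarith, by linarith,
        by omega, by omega, by omega, fun h => absurd h b0, fun _ => rfl,
        fun h => absurd h c1, fun h => absurd h c2, fun h => absurd h c3⟩
  · have hb0 : 0 < β := lt_of_le_of_ne hβ (Ne.symm b0)
    have hb1 : β < 1 := lt_of_le_of_ne hβ1 b1
    rcases eq_or_ne β (γ + γ') with c3 | c3
    · have hG1 : G ≤ 1 := by
        have : (G : ℝ) < 2 := by linarith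
        have : G < 2 := by exact_mod_cast this
        omega
      refine ⟨G, 0, by omega, by omega, by push_cast; linarith, by push_cast; linarith,
        by omega, by omega, by omega, fun h => absurd h b0, fun h => absurd h b1,
        fun h => ?_, fun h => by omega, fun _ => by omega⟩
      have : (G : ℝ) < 1 := by linarith
      have : G < 1 := by exact_mod_cast this
      omega
    · by_cases hGγ : (G : ℝ) ≤ γ
      · have hGf : G = ⌊γ⌋ := by
          symm
          rw [Int.floor_eq_iff]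
          exact ⟨hGγ, by linarith⟩
        have hn : 0 ≤ ⌊γ'⌋ := Int.floor_nonneg.mpr h0'
        have v1 : G - ⌊γ'⌋ ≤ 1 := by
          have : (G : ℝ) - 2 < ⌊γ'⌋ := by linarith
          have : G - 2 < ⌊γ'⌋ := by exact_mod_cast this
          omega
        have v2 : ⌊γ'⌋ - G ≤ 1 := by
          have : (⌊γ'⌋ : ℝ) < G + 2 := by linarith
          have : ⌊γ'⌋ < G + 2 := by exact_mod_cast this
          omega
        refine ⟨|G - ⌊γ'⌋|, ⌊γ'⌋, abs_nonneg _, abs_le.mpr ⟨by omega, by omega⟩, by linarith,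
          by linarith, le_abs_self _, by rw [abs_sub_comm]; exact le_abs_self _,
          abs_le.mpr ⟨by omega, by omega⟩, fun h => absurd h b0, fun h => absurd h b1,
          fun h => ?_, fun h => ?_, fun h => absurd h c3⟩
        · have : ⌊γ⌋ ≤ ⌊γ'⌋ := Int.floor_le_floor (by linarith)
          rw [abs_of_nonpos (by omega)]
          omega
        · have : ⌊γ'⌋ ≤ ⌊γ⌋ := Int.floor_le_floor (by linarith)
          rw [abs_of_nonneg (by omega)]
          omega
      · rw [not_le] at hGγ
        have hGf : G = ⌈γ⌉ := by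
          symm
          rw [Int.ceil_eq_iff]
          exact ⟨by linarith, hGγ.le⟩
        have hn : 0 ≤ ⌈γ'⌉ := Int.ceil_nonneg h0'
        have v1 : G - ⌈γ'⌉ ≤ 1 := by
          have : (G : ℝ) - 2 < ⌈γ'⌉ := by linarith
          have : G - 2 < ⌈γ'⌉ := by exact_mod_cast this
          omega
        have v2 : ⌈γ'⌉ - G ≤ 1 := by
          have : (⌈γ'⌉ : ℝ) < G + 2 := by linarith
          have : ⌈γ'⌉ < G + 2 := by exact_mod_cast this
          omega
        refine ⟨|G - ⌈γ'⌉|, ⌈γ'⌉, abs_nonneg _, abs_le.mpr ⟨by omega, by omega⟩, by linarith,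
          by linarith, le_abs_self _, by rw [abs_sub_comm]; exact le_abs_self _,
          abs_le.mpr ⟨by omega, by omega⟩, fun h => absurd h b0, fun h => absurd h b1,
          fun h => ?_, fun h => ?_, fun h => absurd h c3⟩
        · have : ⌈γ⌉ ≤ ⌈γ'⌉ := Int.ceil_le_ceil (by linarith)
          rw [abs_of_nonpos (by omega)]
          omega
        · have : ⌈γ'⌉ ≤ ⌈γ⌉ := Int.ceil_le_ceil (by linarith)
          rw [abs_of_nonneg (by omega)]
          omega

/-! ### Rounding on trees -/

/-- function on the nodes of a composite tree. -/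
def cn_join {R : Type} {l r : Tr} (c : R) (f : Node l → R) (g : Node r → R) :
    Node (.node l r) → R
  | none => c
  | some (Sum.inl x) => f x
  | some (Sum.inr x) => g x

/-- `E` is an integral rounding of `e`: admissible, all tight constraints are preserved. -/
def cn_R (T : Tr) (e : Node T → ℝ) (E : Node T → ℤ) : Prop :=
  (∀ ν j, 0 ≤ cn_cons T (lbl T 1 0) E ν j) ∧
    (∀ ν j, cn_cons T (lbl T 1 0) e ν j = 0 → cn_cons T (lbl T 1 0) E ν j = 0)

theorem cn_R_leaf (c : Bool) (e : Node (.leaf c) → ℝ) (E : Node (.leaf c) → ℤ) :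
    cn_R (.leaf c) e E := ⟨fun ν => Empty.elim ν, fun ν => Empty.elim ν⟩

theorem cn_R_node (l r : Tr) (e : Node (.node l r) → ℝ) (El : Node l → ℤ) (Er : Node r → ℤ)
    (E0 : ℤ) (hl : cn_R l (fun x => e (some (Sum.inl x))) El)
    (hr : cn_R r (fun x => e (some (Sum.inr x))) Er)
    (h0 : 0 ≤ E0) (h1 : E0 ≤ lab l (lbl l 1 0) El) (h2 : E0 ≤ lab r (lbl r 1 0) Er)
    (t0 : e none = 0 → E0 = 0)
    (t1 : e none = lab l (lbl l 1 0) (fun x => e (some (Sum.inl x))) → E0 = lab l (lbl l 1 0) El)
    (t2 : e none = lab r (lbl r 1 0) (fun x => e (some (Sum.inr x))) → E0 = lab r (lbl r 1 0) Er) :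
    cn_R (.node l r) e (cn_join E0 El Er) := by
  refine ⟨fun ν j => ?_, fun ν j h => ?_⟩
  · rcases ν with _ | ν | ν
    · fin_cases j
      · exact h0
      · exact sub_nonneg.mpr h1
      · exact sub_nonneg.mpr h2
    · exact hl.1 ν j
    · exact hr.1 ν j
  · rcases ν with _ | ν | ν
    · fin_cases j
      · exact t0 h
      · exact sub_eq_zero.mpr (t1 (sub_eq_zero.mp h).symm).symm
      · exact sub_eq_zero.mpr (t2 (sub_eq_zero.mp h).symm).symm
    · exact hl.2 ν j h
    · exact hr.2 ν j h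

theorem cn_lab_z {R : Type} [CommRing R] (e : Node (.leaf true) → R) :
    lab (.leaf true) (lbl (.leaf true) 1 0) e = 1 := by
  simp [lab, lbl, col]

theorem cn_lab_y {R : Type} [CommRing R] (e : Node (.leaf false) → R) :
    lab (.leaf false) (lbl (.leaf false) 1 0) e = 0 := by
  simp [lab, lbl, col]
  rfl

theorem cn_lab_node {R : Type} [CommRing R] (l r : Tr) (e : Node (.node l r) → R) :
    lab (.node l r) (lbl (.node l r) 1 0) e
      = lab l (lbl l 1 0) (fun x => e (some (Sum.inl x))) +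
        lab r (lbl r 1 0) (fun x => e (some (Sum.inr x))) - 2 * e none := rfl

theorem cn_adm_node (l r : Tr) (e : Node (.node l r) → ℝ)
    (h : Adm (.node l r) (lbl (.node l r) 1 0) e) :
    Adm l (lbl l 1 0) (fun x => e (some (Sum.inl x))) ∧
    Adm r (lbl r 1 0) (fun x => e (some (Sum.inr x))) ∧ 0 ≤ e none ∧
    e none ≤ lab l (lbl l 1 0) (fun x => e (some (Sum.inl x))) ∧
    e none ≤ lab r (lbl r 1 0) (fun x => e (some (Sum.inr x))) := h

/-- adding a `y`-leaf at the top. -/
theorem cn_round_y (l : Tr) (e : Node (.node l (.leaf false)) → ℝ)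
    (h : Adm (.node l (.leaf false)) (lbl (.node l (.leaf false)) 1 0) e) (El : Node l → ℤ)
    (hl : cn_R l (fun x => e (some (Sum.inl x))) El) (G : ℤ)
    (hG : lab l (lbl l 1 0) El = 2 * G)
    (h1 : lab l (lbl l 1 0) (fun x => e (some (Sum.inl x))) / 2 - 1 < G)
    (h2 : (G : ℝ) < lab l (lbl l 1 0) (fun x => e (some (Sum.inl x))) / 2 + 1) :
    ∃ E : Node (.node l (.leaf false)) → ℤ, cn_R (.node l (.leaf false)) e E ∧
      lab (.node l (.leaf false)) (lbl (.node l (.leaf false)) 1 0) E = 2 * G ∧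
      lab (.node l (.leaf false)) (lbl (.node l (.leaf false)) 1 0) e
        = lab l (lbl l 1 0) (fun x => e (some (Sum.inl x))) := by
  obtain ⟨ha, hb, hc, hd, he⟩ := cn_adm_node _ _ e h
  rw [cn_lab_y] at he
  have e0 : e none = 0 := le_antisymm he hc
  have hGn : 0 ≤ G := by
    have : (-1 : ℝ) < G := by linarith
    have : (-1 : ℤ) < G := by exact_mod_cast this
    omega
  refine ⟨cn_join 0 El (fun x => Empty.elim x), ?_, ?_, ?_⟩
  · refine cn_R_node _ _ _ _ _ _ hl (cn_R_leaf _ _ _) (le_refl 0) (by rw [hG]; omega)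
      (by rw [cn_lab_y]) (fun _ => rfl) (fun h3 => ?_) (fun _ => by rw [cn_lab_y])
    rw [hG]
    rw [e0] at h3
    rw [← h3] at h2
    have : (G : ℝ) < 1 := by linarith
    have : G < 1 := by exact_mod_cast this
    omega
  · rw [cn_lab_node, cn_lab_y]
    show lab l (lbl l 1 0) El + 0 - 2 * 0 = 2 * G
    rw [hG]
    ring
  · rw [cn_lab_node, cn_lab_y, e0]
    ring

/-- rounding of a cherry. -/
theorem cn_round_cherry (e : Node (.node (.leaf true) (.leaf true)) → ℝ) (B : ℤ)
    (hB0 : 0 ≤ B) (hB1 : B ≤ 1) (b0 : 1 - e none = 0 → B = 0) (b1 : 1 - e none = 1 → B = 1) :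
    ∃ E : Node (.node (.leaf true) (.leaf true)) → ℤ,
      cn_R (.node (.leaf true) (.leaf true)) e E ∧
      lab (.node (.leaf true) (.leaf true)) (lbl (.node (.leaf true) (.leaf true)) 1 0) E
        = 2 * B := by
  refine ⟨cn_join (1 - B) (fun x => Empty.elim x) (fun x => Empty.elim x), ?_, ?_⟩
  · refine cn_R_node _ _ _ _ _ _ (cn_R_leaf _ _ _) (cn_R_leaf _ _ _) (by omega)
      (by rw [cn_lab_z]; omega) (by rw [cn_lab_z]; omega) (fun h => ?_) (fun h => ?_) (fun h => ?_)
    · have := b1 (by linarith)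
      omega
    · rw [cn_lab_z] at h ⊢
      have := b0 (by linarith)
      omega
    · rw [cn_lab_z] at h ⊢
      have := b0 (by linarith)
      omega
  · rw [cn_lab_node, cn_lab_z, cn_lab_z]
    show 1 + 1 - 2 * (1 - B) = 2 * B
    ring

/-- rounding of a leg with prescribed value. -/
theorem cn_round_leg (e : Node Leg → ℝ) (h : Adm Leg (lbl Leg 1 0) e) (β : ℝ)
    (hβ : lab Leg (lbl Leg 1 0) e = 2 * β) (B : ℤ) (hB0 : 0 ≤ B) (hB1 : B ≤ 1)
    (b0 : β = 0 → B = 0) (b1 : β = 1 → B = 1) :
    0 ≤ β ∧ β ≤ 1 ∧ ∃ E : Node Leg → ℤ, cn_R Leg e E ∧ lab Leg (lbl Leg 1 0) E = 2 * B := by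
  obtain ⟨ha, hb, hc, hd, he⟩ := cn_adm_node _ _ e h
  rw [cn_lab_y] at he
  have e0 : e none = 0 := le_antisymm he hc
  have hβ' : lab (.node (.leaf true) (.leaf true)) (lbl (.node (.leaf true) (.leaf true)) 1 0)
      (fun x => e (some (Sum.inl x))) = 2 * β := by
    have h1 : lab Leg (lbl Leg 1 0) e = lab (.node (.leaf true) (.leaf true))
      (lbl (.node (.leaf true) (.leaf true)) 1 0) (fun x => e (some (Sum.inl x))) +
        lab (.leaf false) (lbl (.leaf false) 1 0) (fun x => e (some (Sum.inr x))) - 2 * e none :=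
      rfl
    rw [hβ, cn_lab_y, e0] at h1
    linarith
  have hx : (1 : ℝ) + 1 - 2 * e (some (Sum.inl none)) = 2 * β := by
    rw [cn_lab_node, cn_lab_z, cn_lab_z] at hβ'
    exact hβ'
  obtain ⟨_, _, hc', hd', _⟩ := cn_adm_node _ _ _ ha
  rw [cn_lab_z] at hd'
  have hc2 : 0 ≤ e (some (Sum.inl none)) := hc'
  have hd2 : e (some (Sum.inl none)) ≤ 1 := hd'
  have hβ0 : 0 ≤ β := by linarith
  have hβ1 : β ≤ 1 := by linarith
  refine ⟨hβ0, hβ1, ?_⟩
  obtain ⟨Ec, hEc, hlab⟩ := cn_round_cherry (fun x => e (some (Sum.inl x))) B hB0 hB1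
    (fun h3 => b0 (by
      have h4 : 1 - e (some (Sum.inl none)) = 0 := h3
      linarith))
    (fun h3 => b1 (by
      have h4 : 1 - e (some (Sum.inl none)) = 1 := h3
      linarith))
  refine ⟨cn_join 0 Ec (fun x => Empty.elim x), ?_, ?_⟩
  · refine cn_R_node _ _ _ _ _ _ hEc (cn_R_leaf _ _ _) (le_refl 0) (by rw [hlab]; omega)
      (by rw [cn_lab_y]) (fun _ => rfl) (fun h3 => ?_) (fun _ => by rw [cn_lab_y])
    rw [hlab]
    rw [e0, hβ'] at h3
    have := b0 (by linarith)
    omega
  · show lab _ _ Ec + lab (.leaf false) (lbl (.leaf false) 1 0) _ - 2 * 0 = 2 * B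
    rw [cn_lab_y]
    have h5 : lab (.node (.leaf true) (.leaf true)) (lbl (.node (.leaf true) (.leaf true)) 1 0) Ec
      = 2 * B := hlab
    rw [show (fun x => lbl Leg (1 : ℤ) 0 (Sum.inl x))
      = lbl (.node (.leaf true) (.leaf true)) 1 0 from rfl, h5]
    ring

/-- a leg is attached. -/
theorem cn_round_step (l : Tr) (e : Node (.node l Leg) → ℝ)
    (h : Adm (.node l Leg) (lbl (.node l Leg) 1 0) e) (El : Node l → ℤ)
    (hl : cn_R l (fun x => e (some (Sum.inl x))) El) (G : ℤ)
    (hG : lab l (lbl l 1 0) El = 2 * G)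
    (h1 : lab l (lbl l 1 0) (fun x => e (some (Sum.inl x))) / 2 - 1 < G)
    (h2 : (G : ℝ) < lab l (lbl l 1 0) (fun x => e (some (Sum.inl x))) / 2 + 1) :
    ∃ E : Node (.node l Leg) → ℤ, cn_R (.node l Leg) e E ∧
      ∃ G' : ℤ, lab (.node l Leg) (lbl (.node l Leg) 1 0) E = 2 * G' ∧
      lab (.node l Leg) (lbl (.node l Leg) 1 0) e / 2 - 1 < G' ∧
      (G' : ℝ) < lab (.node l Leg) (lbl (.node l Leg) 1 0) e / 2 + 1 := by
  obtain ⟨ha, hb, hc, hd, he⟩ := cn_adm_node _ _ e h
  set γ := lab l (lbl l 1 0) (fun x => e (some (Sum.inl x))) / 2 with hγ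
  set β := lab Leg (lbl Leg 1 0) (fun x => e (some (Sum.inr x))) / 2 with hβ
  set γ' := lab (.node l Leg) (lbl (.node l Leg) 1 0) e / 2 with hγ'
  have hl2 : lab l (lbl l 1 0) (fun x => e (some (Sum.inl x))) = 2 * γ := by rw [hγ]; ring
  have hr2 : lab Leg (lbl Leg 1 0) (fun x => e (some (Sum.inr x))) = 2 * β := by rw [hβ]; ring
  have hn2 : lab (.node l Leg) (lbl (.node l Leg) 1 0) e = 2 * γ' := by rw [hγ']; ring
  have hrel : 2 * γ' = 2 * γ + 2 * β - 2 * e none := by
    rw [← hn2, cn_lab_node, hl2, hr2]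
  rw [hl2] at hd
  rw [hr2] at he
  have hβb := cn_round_leg _ hb β hr2 0 (le_refl 0) zero_le_one (fun _ => rfl)
  have hβ0 : 0 ≤ β := by linarith
  have hβ1 : β ≤ 1 := by
    by_contra hcon
    have := hβb (fun h3 => absurd h3 (by linarith))
    exact hcon this.2.1
  obtain ⟨B, G', hB0, hB1, g1, g2, c1, c2, c3, t1, t2, t3, t4, t5⟩ :=
    cn_local γ γ' β (by linarith) (by linarith) hβ0 hβ1 (by linarith) (by linarith) (by linarith)
      G h1 h2
  obtain ⟨_, _, Er, hEr, hlabr⟩ := cn_round_leg _ hb β hr2 B hB0 hB1 t1 t2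
  refine ⟨cn_join (G + B - G') El Er, ?_, G', ?_, g1, g2⟩
  · refine cn_R_node _ _ _ _ _ _ hl hEr (by omega) (by rw [hG]; omega) (by rw [hlabr]; omega)
      (fun h3 => ?_) (fun h3 => ?_) (fun h3 => ?_)
    · have := t3 (by linarith)
      omega
    · rw [hl2] at h3
      rw [hG]
      have := t5 (by linarith)
      omega
    · rw [hr2] at h3
      rw [hlabr]
      have := t4 (by linarith)
      omega
  · rw [cn_lab_node]
    show lab l (lbl l 1 0) El + lab Leg (lbl Leg 1 0) Er - 2 * (G + B - G') = 2 * G'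
    rw [hG, hlabr]
    ring

theorem cn_round_XT (r : ℕ) : ∀ (e : Node (XT r) → ℝ), Adm (XT r) (lbl (XT r) 1 0) e →
    ∃ E : Node (XT r) → ℤ, cn_R (XT r) e E ∧ ∃ G : ℤ, lab (XT r) (lbl (XT r) 1 0) E = 2 * G ∧
      lab (XT r) (lbl (XT r) 1 0) e / 2 - 1 < G ∧
      (G : ℝ) < lab (XT r) (lbl (XT r) 1 0) e / 2 + 1 := by
  induction r with
  | zero =>
    intro e h
    obtain ⟨_, _, hc, hd, _⟩ := cn_adm_node (.leaf true) (.leaf true) e h
    rw [cn_lab_z] at hd
    have hlab : lab (XT 0) (lbl (XT 0) 1 0) e = 2 - 2 * e none := by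
      have h1 := cn_lab_node (.leaf true) (.leaf true) e
      rw [cn_lab_z, cn_lab_z] at h1
      exact h1.trans (by ring)
    rw [hlab]
    obtain ⟨E, hE, hl⟩ := cn_round_cherry e (if 1 - e none = 0 then 0 else 1)
      (by split_ifs <;> omega) (by split_ifs <;> omega) (fun h3 => if_pos h3)
      (fun h3 => if_neg (by rw [h3]; norm_num))
    refine ⟨E, hE, _, hl, ?_, ?_⟩
    · split_ifs with h3
      · push_cast; linarith
      · push_cast
        linarith
    · split_ifs with h3
      · push_cast; linarith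
      · push_cast
        have : 0 < 1 - e none := lt_of_le_of_ne (by linarith) (Ne.symm h3)
        linarith
  | succ r ih =>
    intro e h
    have h' := cn_adm_node (.node (XT r) (.leaf false)) Leg e h
    have h'' := cn_adm_node (XT r) (.leaf false) _ h'.1
    obtain ⟨E1, hE1, G1, hG1, g1, g2⟩ := ih _ h''.1
    obtain ⟨E2, hE2, hG2, hl2⟩ := cn_round_y (XT r) _ h'.1 E1 hE1 G1 hG1 g1 g2
    exact cn_round_step (.node (XT r) (.leaf false)) e h E2 hE2 G1 hG2 (by rw [hl2]; exact g1)
      (by rw [hl2]; exact g2)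

/-- rounding on the full tree. -/
theorem cn_round_TT (r : ℕ) (par : Bool) (J : ℕ) (hJ : 2 ≤ J)
    (hpar : (zc (TT r par) : ℤ) % 2 = J % 2) (e : Node (TT r par) → ℝ)
    (h : Adm (TT r par) (lbl (TT r par) 1 0) e)
    (hlab : lab (TT r par) (lbl (TT r par) 1 0) e = J) :
    ∃ E : Node (TT r par) → ℤ, cn_R (TT r par) e E ∧
      lab (TT r par) (lbl (TT r par) 1 0) E = J := by
  rw [zc_TT] at hpar
  cases par with
  | false =>
    have h' := cn_adm_node (XT r) Leg e h
    obtain ⟨E1, hE1, G1, hG1, g1, g2⟩ := cn_round_XT r _ h'.1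
    obtain ⟨E, hE, G', hG', k1, k2⟩ := cn_round_step (XT r) e h E1 hE1 G1 hG1 g1 g2
    refine ⟨E, hE, ?_⟩
    have hlab' : lab (.node (XT r) Leg) (lbl (.node (XT r) Leg) 1 0) e = J := hlab
    rw [hlab'] at k1 k2
    have hpar' : (J : ℤ) % 2 = 0 := by
      simp at hpar
      omega
    obtain ⟨j, hj⟩ : ∃ j : ℤ, (J : ℤ) = 2 * j := ⟨J / 2, by omega⟩
    have hj' : (J : ℝ) = 2 * j := by exact_mod_cast hj
    rw [hj'] at k1 k2
    have k3 : j - 1 < G' := by
      have : (j : ℝ) - 1 < G' := by linarith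
      exact_mod_cast this
    have k4 : G' < j + 1 := by
      have : (G' : ℝ) < j + 1 := by linarith
      exact_mod_cast this
    have k5 : G' = j := by omega
    have hG'' : lab (TT r false) (lbl (TT r false) 1 0) E = 2 * G' := hG'
    rw [hG'', hj, k5]
  | true =>
    have h' := cn_adm_node (XT r) (.leaf true) e h
    obtain ⟨E1, hE1, G, hG, g1, g2⟩ := cn_round_XT r _ h'.1
    obtain ⟨_, _, hc, hd, he⟩ := h'
    rw [cn_lab_z] at he
    have hlab0 := cn_lab_node (XT r) (.leaf true) e
    rw [cn_lab_z] at hlab0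
    have hlab' := hlab0.symm.trans hlab
    obtain ⟨j, hj⟩ : ∃ j : ℤ, (J : ℤ) = 2 * j + 1 := ⟨J / 2, by
      simp at hpar
      omega⟩
    have hj' : (J : ℝ) = 2 * j + 1 := by exact_mod_cast hj
    rw [hj'] at hlab'
    have hj1 : 1 ≤ j := by omega
    have hj1' : (1 : ℝ) ≤ j := by exact_mod_cast hj1
    set γ := lab (XT r) (lbl (XT r) 1 0) (fun x => e (some (Sum.inl x))) / 2 with hγ
    have hγ2 : lab (XT r) (lbl (XT r) 1 0) (fun x => e (some (Sum.inl x))) = 2 * γ := by
      rw [hγ]; ring
    rw [hγ2] at hlab' hd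
    have e1 : e none = γ - j := by linarith
    have u1 : j - 1 < G := by
      have : (j : ℝ) - 1 < G := by linarith
      exact_mod_cast this
    have u2 : G < j + 2 := by
      have : (G : ℝ) < j + 2 := by linarith
      exact_mod_cast this
    refine ⟨cn_join (G - j) E1 (fun x => Empty.elim x), ?_, ?_⟩
    · refine cn_R_node _ _ _ _ _ _ hE1 (cn_R_leaf _ _ _) (by omega) (by rw [hG]; omega)
        (by rw [cn_lab_z]; omega) (fun h3 => ?_) (fun h3 => ?_) (fun h3 => ?_)
      · have w : (G : ℝ) < j + 1 := by linarith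
        have : G < j + 1 := by exact_mod_cast w
        omega
      · rw [hγ2] at h3
        exfalso
        linarith
      · rw [cn_lab_z] at h3 ⊢
        have w : (j : ℝ) < G := by linarith
        have : j < G := by exact_mod_cast w
        omega
    · have h5 := cn_lab_node (XT r) (.leaf true) (cn_join (G - j) E1 (fun x => Empty.elim x))
      rw [cn_lab_z] at h5
      refine h5.trans ?_
      show lab (XT r) (lbl (XT r) 1 0) E1 + 1 - 2 * (G - j) = J
      rw [hG, hj]
      ring

theorem cn_ext_apply (T : Tr) (v : ZN T → ℝ) (ν : ZN T) : ext T v ν.1 = v ν := by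
  unfold ext
  rw [dif_pos ν.2]

theorem cn_sum_ext (T : Tr) (v : ZN T → ℝ) : ∑ ν, ext T v ν = ∑ ν, v ν := by
  rw [← cn_sumZ T (ext T v) (fun ν hν => by
    unfold ext
    rw [dif_neg (by rw [hν]; exact Bool.false_ne_true)])]
  exact Finset.sum_congr rfl fun ν _ => cn_ext_apply T v ν

theorem cone_of_CR (r : ℕ) (par : Bool) (p J : ℕ) (hp : 1 ≤ p) (hJ : 2 ≤ J)
    (hN : zc (TT r par) = 2 * p + J) (v : ZN (TT r par) → ℝ) (hv : CR (TT r par) p v) :
    ∃ (s : Finset (Node (TT r par) → ℕ)) (c : (Node (TT r par) → ℕ) → ℝ),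
      (s : Set (Node (TT r par) → ℕ)) ⊆ AA (TT r par) J ∧ (∀ e ∈ s, 0 ≤ c e) ∧
      v = fun ν => ∑ e ∈ s, c e * (e ν.1 : ℝ) := by
  classical
  have hround := cn_round_TT r par J hJ (by rw [hN]; push_cast; omega)
  revert v
  generalize TT r par = T at *
  intro v hv
  have hp0 : (p : ℝ) ≠ 0 := by positivity
  have hpp : (0 : ℝ) < p := by positivity
  let f : Node T × Fin 3 → (ZN T → ℝ) → ℝ := fun i v =>
    cn_cons T (lbl T ((∑ ν, v ν) / (p : ℝ)) 0) (ext T v) i.1 i.2
  have hf : ∀ i x y t, f i (x - t • y) = f i x - t * f i y := by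
    intro i x y t
    have h1 : lbl T ((∑ ν, (x - t • y) ν) / (p : ℝ)) 0
        = fun z => lbl T ((∑ ν, x ν) / (p : ℝ)) 0 z + (-t) * lbl T ((∑ ν, y ν) / (p : ℝ)) 0 z := by
      funext z
      unfold lbl
      split_ifs
      · simp only [Pi.sub_apply, Pi.smul_apply, smul_eq_mul, Finset.sum_sub_distrib,
          ← Finset.mul_sum]
        ring
      · simp
    have h2 : ext T (x - t • y) = fun z => ext T x z + (-t) * ext T y z := by
      funext z
      unfold ext
      split_ifs
      · simp only [Pi.sub_apply, Pi.smul_apply, smul_eq_mul]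
        ring
      · simp
    simp only [f]
    rw [h1, h2, cn_cons_add, cn_cons_smul]
    ring
  have hfe : ∀ (x : ZN T → ℝ) (ν : ZN T), f (ν.1, 0) x = x ν := by
    intro x ν
    simp only [f]
    rw [cn_cons_zero, cn_ext_apply]
  let vec : (Node T → ℕ) → (ZN T → ℝ) := fun e ν => (e ν.1 : ℝ)
  have hvsum : ∀ e ∈ AA T J, ∑ ν, vec e ν = p := by
    intro e he
    simp only [vec]
    rw [cn_sumZ T (fun ν => (e ν : ℝ)) (fun ν hν => by rw [AA_y T J e he ν hν, Nat.cast_zero])]
    have := cn_AA_sum T p J hN e he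
    exact_mod_cast this
  have hvext : ∀ e ∈ AA T J, ext T (vec e) = fun ν => (e ν : ℝ) := by
    intro e he
    funext ν
    unfold ext
    split_ifs with h
    · rfl
    · rw [Bool.not_eq_true] at h
      rw [AA_y T J e he ν h, Nat.cast_zero]
  have hlblc : (fun x => ((lbl T (1 : ℤ) 0 x : ℤ) : ℝ)) = lbl T (1 : ℝ) 0 := by
    funext x
    unfold lbl
    split_ifs <;> simp
  have hvf : ∀ e ∈ AA T J, ∀ i, f i (vec e)
      = ((cn_cons T (lbl T 1 0) (fun ν => (e ν : ℤ)) i.1 i.2 : ℤ) : ℝ) := by
    intro e he i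
    simp only [f]
    rw [hvsum e he, hvext e he, div_self hp0, cn_cons_cast, hlblc]
    simp
  have main := cn_cone_gen f hf (AA T J) vec ?_ ?_ ?_ ?_
    (Finset.univ.filter fun i => f i v ≠ 0).card v ?_ (le_refl _)
  · obtain ⟨s, c, hs, hc, hx⟩ := main
    refine ⟨s, c, hs, hc, ?_⟩
    rw [hx]
    funext ν
    rw [Finset.sum_apply]
    rfl
  · intro x hx
    funext ν
    rw [← hfe x ν]
    exact hx _
  · intro e he i
    rw [hvf e he]
    have := (cn_adm_iff T _ _).mp he.1 i.1 i.2
    exact_mod_cast this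
  · intro e he h0
    have := hvsum e he
    rw [h0] at this
    simp at this
    exact hp0 this.symm
  · intro x hx hx0
    have hxn : ∀ ν, 0 ≤ x ν := fun ν => by rw [← hfe x ν]; exact hx _
    have hs0 : 0 < ∑ ν, x ν := by
      refine lt_of_le_of_ne (Finset.sum_nonneg fun ν _ => hxn ν) fun h => hx0 ?_
      funext ν
      exact (Finset.sum_eq_zero_iff_of_nonneg (fun ν _ => hxn ν)).mp h.symm ν (Finset.mem_univ ν)
    set t : ℝ := p / ∑ ν, x ν with ht
    have ht0 : 0 < t := div_pos hpp hs0
    -- the rescaled point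
    have hlt : (fun z => t * lbl T ((∑ ν, x ν) / (p : ℝ)) 0 z) = lbl T 1 0 := by
      funext z
      unfold lbl
      split_ifs
      · rw [ht]
        field_simp
      · simp
    have hcons : ∀ ν j, cn_cons T (lbl T 1 0) (fun z => t * ext T x z) ν j = t * f (ν, j) x := by
      intro ν j
      rw [← hlt, cn_cons_smul]
    have hadm : Adm T (lbl T 1 0) (fun z => t * ext T x z) := by
      rw [cn_adm_iff]
      intro ν j
      rw [hcons]
      exact mul_nonneg ht0.le (hx _)
    have hlabJ : lab T (lbl T 1 0) (fun z => t * ext T x z) = J := by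
      rw [cn_lab_eq, cn_sum_lbl, ← Finset.mul_sum, cn_sum_ext, ht, div_mul_cancel₀ _ hs0.ne', hN]
      push_cast
      ring
    obtain ⟨E, hE, hEJ⟩ := hround _ hadm hlabJ
    have hEn : ∀ ν, 0 ≤ E ν := fun ν => by rw [← cn_cons_zero T (lbl T 1 0) E ν]; exact hE.1 ν 0
    have hcast : (fun ν => (((fun ν => (E ν).toNat) ν : ℕ) : ℤ)) = E := by
      funext ν
      exact Int.toNat_of_nonneg (hEn ν)
    have hmem : (fun ν => (E ν).toNat) ∈ AA T J := by
      refine ⟨?_, ?_⟩
      · rw [hcast, cn_adm_iff]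
        exact hE.1
      · rw [hcast]
        exact hEJ
    refine ⟨fun ν => (E ν).toNat, hmem, ?_⟩
    intro i hi
    rw [hvf _ hmem, hcast]
    have h1 := hE.2 i.1 i.2 (by rw [hcons, hi, mul_zero])
    rw [h1, Int.cast_zero]
  · intro i
    exact (cn_adm_iff T _ _).mp hv i.1 i.2

end Pool.Agent.HYP
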