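import Pool.Agent.HYP.Basic

/-!
# MP_31bda2_co, module C: Clebsch-Gordan count of admissible exponents
-/

set_option autoImplicit false

namespace Pool.Agent.HYP

open Finset

theorem lab_eq {R : Type} [CommRing R] (T : Tr) (a : Leaf T → R) (e : Node T → R) :
    lab T a e = ∑ x, a x - 2 * ∑ ν, e ν := by
  induction T with
  | leaf c =>
    rw [sum_leaf_leaf, sum_node_leaf]
    simp [lab]
  | node l r ihl ihr =>
    rw [sum_leaf_node, sum_node_node, lab, ihl, ihr]
    ring

theorem lab_add {R : Type} [CommRing R] (T : Tr) (a a' : Leaf T → R) (e e' : Node T → R) :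
    lab T (a + a') (e + e') = lab T a e + lab T a' e' := by
  rw [lab_eq, lab_eq, lab_eq]
  simp only [Pi.add_apply, Finset.sum_add_distrib]
  ring

theorem lab_nonneg (T : Tr) {R : Type} [CommRing R] [LinearOrder R] [IsStrictOrderedRing R]
    (a : Leaf T → R) (e : Node T → R) (ha : ∀ x, 0 ≤ a x) (h : Adm T a e) : 0 ≤ lab T a e := by
  cases T with
  | leaf c => exact ha ()
  | node l r =>
    obtain ⟨_, _, _, h1, h2⟩ := h
    rw [lab]
    linarith

theorem Adm.add {R : Type} [CommRing R] [LinearOrder R] [IsStrictOrderedRing R] (T : Tr)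
    {a a' : Leaf T → R} {e e' : Node T → R} (h : Adm T a e) (h' : Adm T a' e') :
    Adm T (a + a') (e + e') := by
  induction T with
  | leaf c => trivial
  | node l r ihl ihr =>
    obtain ⟨h1, h2, h3, h4, h5⟩ := h
    obtain ⟨g1, g2, g3, g4, g5⟩ := h'
    refine ⟨ihl h1 g1, ihr h2 g2, ?_, ?_, ?_⟩
    · change (0 : R) ≤ e none + e' none
      linarith
    · have := lab_add l (fun x => a (Sum.inl x)) (fun x => a' (Sum.inl x))
        (fun x => e (some (Sum.inl x))) (fun x => e' (some (Sum.inl x)))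
      change e none + e' none ≤ lab l ((fun x => a (Sum.inl x)) + fun x => a' (Sum.inl x))
        ((fun x => e (some (Sum.inl x))) + fun x => e' (some (Sum.inl x)))
      rw [this]; linarith
    · have := lab_add r (fun x => a (Sum.inr x)) (fun x => a' (Sum.inr x))
        (fun x => e (some (Sum.inr x))) (fun x => e' (some (Sum.inr x)))
      change e none + e' none ≤ lab r ((fun x => a (Sum.inr x)) + fun x => a' (Sum.inr x))
        ((fun x => e (some (Sum.inr x))) + fun x => e' (some (Sum.inr x)))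
      rw [this]; linarith

/-! ### The finite set of admissible exponents -/

/-- combine exponents of the two subtrees and of the root -/
def c_cmb {l r : Tr} (p : (Node l → ℕ) × (Node r → ℕ)) (k : ℕ) : Node (.node l r) → ℕ
  | none => k
  | some (Sum.inl x) => p.1 x
  | some (Sum.inr x) => p.2 x

theorem c_cmb_inj {l r : Tr} {p p' : (Node l → ℕ) × (Node r → ℕ)} {k k' : ℕ}
    (h : c_cmb p k = c_cmb p' k') : p = p' ∧ k = k' := by
  refine ⟨Prod.ext ?_ ?_, ?_⟩
  · funext x; exact congrFun h (some (Sum.inl x))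
  · funext x; exact congrFun h (some (Sum.inr x))
  · exact congrFun h none

/-- cap of the root exponent -/
def c_cap (l r : Tr) (a : Leaf (.node l r) → ℤ) (p : (Node l → ℕ) × (Node r → ℕ)) : ℕ :=
  (min (lab l (fun x => a (Sum.inl x)) (fun ν => (p.1 ν : ℤ)))
    (lab r (fun x => a (Sum.inr x)) (fun ν => (p.2 ν : ℤ))) + 1).toNat

/-- all admissible exponents -/
noncomputable def c_adm : (T : Tr) → (Leaf T → ℤ) → Finset (Node T → ℕ)
  | .leaf _, _ => {fun x => nomatch x}
  | .node l r, a =>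
      ((c_adm l (fun x => a (Sum.inl x)) ×ˢ c_adm r (fun x => a (Sum.inr x))).sigma
        (fun p => Finset.range (c_cap l r a p))).image (fun q => c_cmb q.1 q.2)

theorem c_mem_adm (T : Tr) (a : Leaf T → ℤ) (e : Node T → ℕ) :
    e ∈ c_adm T a ↔ Adm T a (fun ν => (e ν : ℤ)) := by
  induction T with
  | leaf c =>
    constructor
    · intro _; trivial
    · intro _
      rw [c_adm, Finset.mem_singleton]
      funext x
      exact nomatch x
  | node l r ihl ihr =>
    rw [c_adm, Finset.mem_image]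
    constructor
    · rintro ⟨⟨p, k⟩, hq, rfl⟩
      rw [Finset.mem_sigma, Finset.mem_product, Finset.mem_range] at hq
      obtain ⟨⟨h1, h2⟩, h3⟩ := hq
      simp only at h1 h2 h3
      rw [ihl] at h1
      rw [ihr] at h2
      unfold c_cap at h3
      rw [Int.lt_toNat] at h3
      refine ⟨h1, h2, ?_, ?_, ?_⟩
      · simp only [c_cmb]; omega
      · change (k : ℤ) ≤ lab l (fun x => a (Sum.inl x)) (fun ν => (p.1 ν : ℤ))
        omega
      · change (k : ℤ) ≤ lab r (fun x => a (Sum.inr x)) (fun ν => (p.2 ν : ℤ))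
        omega
    · rintro ⟨h1, h2, h3, h4, h5⟩
      refine ⟨⟨(fun x => e (some (Sum.inl x)), fun x => e (some (Sum.inr x))), e none⟩, ?_, ?_⟩
      · rw [Finset.mem_sigma, Finset.mem_product, Finset.mem_range]
        refine ⟨⟨(ihl _ _).mpr h1, (ihr _ _).mpr h2⟩, ?_⟩
        unfold c_cap
        rw [Int.lt_toNat]
        have h4' : (e none : ℤ) ≤ lab l (fun x => a (Sum.inl x))
          (fun ν => ((e (some (Sum.inl ν)) : ℕ) : ℤ)) := h4
        have h5' : (e none : ℤ) ≤ lab r (fun x => a (Sum.inr x))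
          (fun ν => ((e (some (Sum.inr ν)) : ℕ) : ℤ)) := h5
        exact lt_of_le_of_lt (le_min h4' h5') (lt_add_one _)
      · funext x
        rcases x with _ | x | x <;> rfl

theorem QQ_finite (T : Tr) (a : Leaf T → ℤ) (w : ℤ) : (QQ T a w).Finite := by
  apply (c_adm T a).finite_toSet.subset
  intro e he
  rw [Finset.mem_coe, c_mem_adm]
  exact he.1

/-! ### The generating polynomial -/

open Polynomial in
/-- `1 + X + ... + X^n` -/
noncomputable def c_geo (n : ℕ) : Polynomial ℤ := ∑ j ∈ Finset.range (n + 1), X ^ j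

open Polynomial in
theorem c_geo_mul_le (m n : ℕ) (h : n ≤ m) : c_geo m * c_geo n =
    ∑ e ∈ Finset.range (n + 1), X ^ e * c_geo (m + n - 2 * e) := by
  have hne : (X - 1 : Polynomial ℤ) ≠ 0 := by
    have := X_sub_C_ne_zero (1 : ℤ)
    simpa using this
  apply mul_right_cancel₀ hne
  have hg : ∀ n, c_geo n * (X - 1) = X ^ (n + 1) - 1 := fun n => geom_sum_mul X (n + 1)
  have e1 : c_geo m * c_geo n * (X - 1) = ∑ j ∈ Finset.range (n + 1), (X ^ (m + 1 + j) - X ^ j) := by
    have : c_geo m * c_geo n * (X - 1) = (c_geo m * (X - 1)) * c_geo n := by ring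
    rw [this, hg, c_geo, Finset.mul_sum]
    apply Finset.sum_congr rfl
    intro j _
    ring
  rw [e1, Finset.sum_mul, Finset.sum_sub_distrib,
    ← Finset.sum_range_reflect (fun j => (X : Polynomial ℤ) ^ (m + 1 + j)), ← Finset.sum_sub_distrib]
  apply Finset.sum_congr rfl
  intro e he
  rw [Finset.mem_range] at he
  rw [mul_assoc, hg, mul_sub, ← pow_add, mul_one]
  congr 2
  omega

open Polynomial in
theorem c_geo_mul (m n : ℕ) : c_geo m * c_geo n =
    ∑ e ∈ Finset.range (min m n + 1), X ^ e * c_geo (m + n - 2 * e) := by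
  rcases le_total n m with h | h
  · rw [min_eq_right h]; exact c_geo_mul_le m n h
  · rw [min_eq_left h, mul_comm, add_comm m n]; exact c_geo_mul_le n m h

open Polynomial in
/-- the generating polynomial of the exponents -/
noncomputable def c_gp {ι : Type} [Fintype ι] (a : ι → ℤ) : Polynomial ℤ :=
  ∏ x, ∑ j ∈ Finset.range (a x + 1).toNat, X ^ j

open Polynomial in
theorem c_gp_coeff {ι : Type} [Fintype ι] [DecidableEq ι] (a : ι → ℤ) (d : ℕ) :
    (c_gp a).coeff d = cnt a d := by
  unfold c_gp cnt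
  rw [Finset.prod_univ_sum, Polynomial.finset_sum_coeff, Finset.card_filter]
  push_cast
  apply Finset.sum_congr rfl
  intro p _
  rw [Finset.prod_pow_eq_pow_sum, Polynomial.coeff_X_pow]
  have : (∑ i, (p i : ℤ) = (d : ℤ)) ↔ d = ∑ i, p i := by
    constructor
    · intro h; have h' : ((∑ i, p i : ℕ) : ℤ) = (d : ℤ) := by push_cast; exact h
      exact_mod_cast h'.symm
    · intro h; rw [h]; push_cast; rfl
  by_cases h : d = ∑ i, p i
  · rw [if_pos h, if_pos (this.mpr h)]
  · rw [if_neg h, if_neg (fun h' => h (this.mp h'))]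

theorem c_cnt_neg {ι : Type} [Fintype ι] [DecidableEq ι] (a : ι → ℤ) (d : ℤ) (hd : d < 0) :
    cnt a d = 0 := by
  unfold cnt
  rw [Nat.cast_eq_zero, Finset.card_eq_zero, Finset.filter_eq_empty_iff]
  intro m _ h
  have : (0 : ℤ) ≤ ∑ i, (m i : ℤ) := Finset.sum_nonneg (fun i _ => by positivity)
  omega

open Polynomial in
theorem c_gp_eq (T : Tr) : ∀ (a : Leaf T → ℤ), (∀ x, 0 ≤ a x) → c_gp a =
    ∑ e ∈ c_adm T a, X ^ (∑ ν, e ν) * c_geo (lab T a (fun ν => (e ν : ℤ))).toNat := by
  induction T with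
  | leaf c =>
    intro a ha
    have h0 := ha ()
    rw [c_adm, Finset.sum_singleton, sum_node_leaf, pow_zero, one_mul]
    unfold c_gp c_geo
    have e1 : (∏ x : Leaf (.leaf c), ∑ j ∈ Finset.range (a x + 1).toNat, (X : Polynomial ℤ) ^ j) =
        ∑ j ∈ Finset.range (a () + 1).toNat, (X : Polynomial ℤ) ^ j :=
      Fintype.prod_unique (ι := Unit)
        (fun x : Unit => ∑ j ∈ Finset.range (a x + 1).toNat, (X : Polynomial ℤ) ^ j)
    rw [e1]
    congr 2
    simp only [lab]
    omega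
  | node l r ihl ihr =>
    intro a ha
    have hl := ihl (fun x => a (Sum.inl x)) (fun x => ha _)
    have hr := ihr (fun x => a (Sum.inr x)) (fun x => ha _)
    have hprod : c_gp a = c_gp (fun x : Leaf l => a (Sum.inl x)) *
        c_gp (fun x : Leaf r => a (Sum.inr x)) := by
      unfold c_gp
      exact Fintype.prod_sum_type (α₁ := Leaf l) (α₂ := Leaf r)
        (fun x => ∑ j ∈ Finset.range (a x + 1).toNat, (X : Polynomial ℤ) ^ j)
    rw [hprod, hl, hr, Finset.sum_mul_sum, ← Finset.sum_product', c_adm, Finset.sum_image,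
      Finset.sum_sigma]
    · apply Finset.sum_congr rfl
      intro p hp
      rw [Finset.mem_product, c_mem_adm, c_mem_adm] at hp
      have n1 := lab_nonneg l (fun x => a (Sum.inl x)) (fun ν => (p.1 ν : ℤ)) (fun x => ha _) hp.1
      have n2 := lab_nonneg r (fun x => a (Sum.inr x)) (fun ν => (p.2 ν : ℤ)) (fun x => ha _) hp.2
      have hcap : c_cap l r a p =
          min (lab l (fun x => a (Sum.inl x)) (fun ν => (p.1 ν : ℤ))).toNat
            (lab r (fun x => a (Sum.inr x)) (fun ν => (p.2 ν : ℤ))).toNat + 1 := by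
        unfold c_cap; omega
      have e1 : ∀ (A B C D : Polynomial ℤ), A * B * (C * D) = A * C * (B * D) := fun A B C D => by ring
      rw [e1, c_geo_mul, Finset.mul_sum, hcap]
      apply Finset.sum_congr rfl
      intro k hk
      rw [Finset.mem_range] at hk
      have s1 : ∑ ν, c_cmb p k ν = k + (∑ ν, p.1 ν + ∑ ν, p.2 ν) := by
        rw [sum_node_node]; rfl
      have s2 : (lab (.node l r) a (fun ν => (c_cmb p k ν : ℤ))).toNat =
          (lab l (fun x => a (Sum.inl x)) (fun ν => (p.1 ν : ℤ))).toNat +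
          (lab r (fun x => a (Sum.inr x)) (fun ν => (p.2 ν : ℤ))).toNat - 2 * k := by
        have : lab (.node l r) a (fun ν => (c_cmb p k ν : ℤ)) =
          lab l (fun x => a (Sum.inl x)) (fun ν => (p.1 ν : ℤ)) +
          lab r (fun x => a (Sum.inr x)) (fun ν => (p.2 ν : ℤ)) - 2 * (k : ℤ) := rfl
        rw [this]; omega
      simp only
      rw [s1, s2]
      ring
    · rintro ⟨p, k⟩ _ ⟨p', k'⟩ _ h
      obtain ⟨h1, h2⟩ := c_cmb_inj h
      subst h1 h2
      rfl

theorem c_cnt_eq (T : Tr) (a : Leaf T → ℤ) (ha : ∀ x, 0 ≤ a x) (d : ℤ) (hd : 2 * d ≤ ∑ x, a x) :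
    cnt a d = (((c_adm T a).filter (fun e => ((∑ ν, e ν : ℕ) : ℤ) ≤ d)).card : ℤ) := by
  rcases lt_or_ge d 0 with h | h
  · rw [c_cnt_neg a d h, eq_comm, Nat.cast_eq_zero, Finset.card_eq_zero,
      Finset.filter_eq_empty_iff]
    intro e _ h'
    have : (0 : ℤ) ≤ ((∑ ν, e ν : ℕ) : ℤ) := by positivity
    omega
  · obtain ⟨m, rfl⟩ := Int.eq_ofNat_of_zero_le h
    rw [← c_gp_coeff, c_gp_eq T a ha, Polynomial.finset_sum_coeff, Finset.card_filter]
    push_cast
    apply Finset.sum_congr rfl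
    intro e he
    rw [c_mem_adm] at he
    have hn := lab_nonneg T a (fun ν => (e ν : ℤ)) ha he
    have hl := lab_eq T a (fun ν => (e ν : ℤ))
    have hs : ∑ ν, (e ν : ℤ) = ((∑ ν, e ν : ℕ) : ℤ) := by push_cast; rfl
    rw [hs] at hl
    rw [Polynomial.coeff_X_pow_mul']
    unfold c_geo
    rw [Polynomial.finset_sum_coeff]
    simp only [Polynomial.coeff_X_pow]
    by_cases h1 : ∑ ν, e ν ≤ m
    · have h2 : (∑ ν, (e ν : ℤ)) ≤ (m : ℤ) := by rw [hs]; exact_mod_cast h1
      rw [if_pos h1, if_pos h2, Finset.sum_ite_eq, if_pos]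
      rw [Finset.mem_range]
      omega
    · have h2 : ¬ (∑ ν, (e ν : ℤ)) ≤ (m : ℤ) := by
        rw [hs]; intro h'; exact h1 (by exact_mod_cast h')
      rw [if_neg h1, if_neg h2]

theorem ncard_QQ (T : Tr) (a : Leaf T → ℤ) (ha : ∀ x, 0 ≤ a x) (w d : ℤ) (hw : 0 ≤ w)
    (hd : 2 * d = ∑ x, a x - w) : ((QQ T a w).ncard : ℤ) = cnt a d - cnt a (d - 1) := by
  rw [c_cnt_eq T a ha d (by omega), c_cnt_eq T a ha (d - 1) (by omega)]
  have hQ : QQ T a w = ((c_adm T a).filter (fun e => ((∑ ν, e ν : ℕ) : ℤ) = d) :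
      Finset (Node T → ℕ)) := by
    ext e
    rw [Finset.coe_filter, Set.mem_ofPred_eq, c_mem_adm]
    have hl := lab_eq T a (fun ν => (e ν : ℤ))
    have hs : ∑ ν, (e ν : ℤ) = ((∑ ν, e ν : ℕ) : ℤ) := by push_cast; rfl
    rw [hs] at hl
    constructor
    · rintro ⟨h1, h2⟩; exact ⟨h1, by omega⟩
    · rintro ⟨h1, h2⟩; exact ⟨h1, by omega⟩
  rw [hQ, Set.ncard_coe_finset]
  have hU : (c_adm T a).filter (fun e => ((∑ ν, e ν : ℕ) : ℤ) ≤ d) =
      (c_adm T a).filter (fun e => ((∑ ν, e ν : ℕ) : ℤ) = d) ∪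
      (c_adm T a).filter (fun e => ((∑ ν, e ν : ℕ) : ℤ) ≤ d - 1) := by
    rw [← Finset.filter_or]
    apply Finset.filter_congr
    intro e _
    omega
  have hD : Disjoint ((c_adm T a).filter (fun e => ((∑ ν, e ν : ℕ) : ℤ) = d))
      ((c_adm T a).filter (fun e => ((∑ ν, e ν : ℕ) : ℤ) ≤ d - 1)) := by
    rw [Finset.disjoint_filter]
    intro e _ h1 h2
    omega
  rw [hU, Finset.card_union_of_disjoint hD]
  push_cast
  ring

end Pool.Agent.HYP
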