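import Mathlib

/-!
# MP_31bda2_co: ascending half of the h*-vector of hypersimplices -- definitions

Blueprint: `Pool/Agent/HYP/BLUEPRINT.md`; exact module statements: `Pool/Agent/HYP/Skel.lean.txt`.
-/

set_option autoImplicit false

namespace Pool.Agent.HYP

open MvPolynomial Finset

/-! ### Polynomials with bounded exponents, the operator `F = ∑ ∂_i` -/

section Poly

variable {ι : Type} [Fintype ι]

/-- Polynomials all of whose monomials `m` satisfy `m i ≤ a i` for all `i` and have total degree
`d` (`a`, `d` integers: everything is zero if some `a i < 0` or `d < 0`). -/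
noncomputable def PS (a : ι → ℤ) (d : ℤ) : Submodule ℝ (MvPolynomial ι ℝ) where
  carrier := {f | ∀ m ∈ f.support, (∀ i, (m i : ℤ) ≤ a i) ∧ ∑ i, (m i : ℤ) = d}
  zero_mem' := by simp
  add_mem' := by
    classical
    intro f g hf hg m hm
    rcases Finset.mem_union.1 (MvPolynomial.support_add hm) with h | h
    · exact hf m h
    · exact hg m h
  smul_mem' := by
    intro c f hf m hm
    exact hf m (MvPolynomial.support_smul hm)

/-- `F = ∑_i ∂/∂z_i`. -/
noncomputable def FF : MvPolynomial ι ℝ →ₗ[ℝ] MvPolynomial ι ℝ :=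
  ∑ i, ((pderiv i : Derivation ℝ (MvPolynomial ι ℝ) (MvPolynomial ι ℝ)) :
    MvPolynomial ι ℝ →ₗ[ℝ] MvPolynomial ι ℝ)

/-- Translation invariant polynomials in `PS a d`. -/
noncomputable def Inv (a : ι → ℤ) (d : ℤ) : Submodule ℝ (MvPolynomial ι ℝ) :=
  PS a d ⊓ LinearMap.ker FF

/-- Number of exponent vectors `m` with `m i ≤ a i` and `∑ m i = d`. -/
noncomputable def cnt [DecidableEq ι] (a : ι → ℤ) (d : ℤ) : ℤ :=
  (((Fintype.piFinset fun i => Finset.range (a i + 1).toNat).filter
    fun m : ι → ℕ => ∑ i, (m i : ℤ) = d).card : ℤ)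

end Poly

/-- `cz N S d` = number of `x : Fin N → {0,…,S-1}` with `∑ x = d`. -/
noncomputable def cz (N S : ℕ) (d : ℤ) : ℤ :=
  (((Finset.univ : Finset (Fin N → Fin S)).filter fun x => ∑ i, ((x i : ℕ) : ℤ) = d).card : ℤ)

/-! ### Graded families of submodules over a ring `P` and elements `θ_j ∈ P` -/

section Graded

variable {P : Type} [CommRing P] [Algebra ℝ P] {n : ℕ}

/-- `TB θ B S = ∑_j θ_j · B_{S-1}` (and `⊥` for `S = 0`). -/
noncomputable def TB (θ : Fin n → P) (B : ℕ → Submodule ℝ P) : ℕ → Submodule ℝ P
  | 0 => ⊥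
  | S + 1 => ⨆ j, (B S).map (LinearMap.mulLeft ℝ (θ j))

/-- `q_S = dim B_S / θ B_{S-1}` -/
noncomputable def qq (θ : Fin n → P) (B : ℕ → Submodule ℝ P) (S : ℕ) : ℕ :=
  Module.finrank ℝ (B S) - Module.finrank ℝ (TB θ B S)

/-- The family is free over `ℝ[θ]` in degrees `≤ k`, numerically. -/
def FreeUpTo (θ : Fin n → P) (B : ℕ → Submodule ℝ P) (k : ℕ) : Prop :=
  ∀ S ≤ k, Module.finrank ℝ (B S) =
    ∑ l ∈ Finset.range (S + 1), Nat.multichoose n (S - l) * qq θ B l

end Graded

/-! ### Binary trees with two kinds of leaves -/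

/-- Binary trees; `leaf true` is a `z`-leaf, `leaf false` is a `y`-leaf. -/
inductive Tr : Type
  | leaf (c : Bool) : Tr
  | node (l r : Tr) : Tr

/-- The leaves of a tree. -/
def Leaf : Tr → Type
  | .leaf _ => Unit
  | .node l r => Leaf l ⊕ Leaf r

/-- The inner nodes of a tree (`none` is the root). -/
def Node : Tr → Type
  | .leaf _ => Empty
  | .node l r => Option (Node l ⊕ Node r)

instance Leaf.instFintype : (T : Tr) → Fintype (Leaf T)
  | .leaf _ => inferInstanceAs (Fintype Unit)
  | .node l r => @instFintypeSum _ _ (Leaf.instFintype l) (Leaf.instFintype r)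

instance Leaf.instDecidableEq : (T : Tr) → DecidableEq (Leaf T)
  | .leaf _ => inferInstanceAs (DecidableEq Unit)
  | .node l r => @instDecidableEqSum _ _ (Leaf.instDecidableEq l) (Leaf.instDecidableEq r)

instance Node.instFintype : (T : Tr) → Fintype (Node T)
  | .leaf _ => inferInstanceAs (Fintype Empty)
  | .node l r => @instFintypeOption _ (@instFintypeSum _ _ (Node.instFintype l)
      (Node.instFintype r))

instance Node.instDecidableEq : (T : Tr) → DecidableEq (Node T)
  | .leaf _ => inferInstanceAs (DecidableEq Empty)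
  | .node l r =>
      have : DecidableEq (Node l) := Node.instDecidableEq l
      have : DecidableEq (Node r) := Node.instDecidableEq r
      inferInstanceAs (DecidableEq (Option (Node l ⊕ Node r)))

/-- colour of a leaf -/
def col : (T : Tr) → Leaf T → Bool
  | .leaf c, _ => c
  | .node l _, Sum.inl x => col l x
  | .node _ r, Sum.inr x => col r x

/-- is the tree a single `y`-leaf? -/
def Tr.isY : Tr → Bool
  | .leaf false => true
  | _ => false

/-- `isZ T ν = false` iff `ν` is a `y`-node, i.e. its right child is a `y`-leaf. -/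
def isZ : (T : Tr) → Node T → Bool
  | .node _ r, none => !r.isY
  | .node l _, some (Sum.inl x) => isZ l x
  | .node _ r, some (Sum.inr x) => isZ r x

section Lab

variable {R : Type} [Ring R]

/-- The label of (the top edge of) a tree, for leaf labels `a` and exponents `e`. -/
def lab : (T : Tr) → (Leaf T → R) → (Node T → R) → R
  | .leaf _, a, _ => a ()
  | .node l r, a, e => lab l (fun x => a (Sum.inl x)) (fun x => e (some (Sum.inl x))) +
      lab r (fun x => a (Sum.inr x)) (fun x => e (some (Sum.inr x))) - 2 * e none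

/-- Admissible exponents: `0 ≤ e_ν ≤ label of both children` at every node. -/
def Adm [LE R] : (T : Tr) → (Leaf T → R) → (Node T → R) → Prop
  | .leaf _, _, _ => True
  | .node l r, a, e =>
      Adm l (fun x => a (Sum.inl x)) (fun x => e (some (Sum.inl x))) ∧
      Adm r (fun x => a (Sum.inr x)) (fun x => e (some (Sum.inr x))) ∧
      0 ≤ e none ∧
      e none ≤ lab l (fun x => a (Sum.inl x)) (fun x => e (some (Sum.inl x))) ∧
      e none ≤ lab r (fun x => a (Sum.inr x)) (fun x => e (some (Sum.inr x)))

end Lab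

/-- Admissible natural exponents with leaf labels `a` and root label `w`. -/
def QQ (T : Tr) (a : Leaf T → ℤ) (w : ℤ) : Set (Node T → ℕ) :=
  {e | Adm T a (fun ν => (e ν : ℤ)) ∧ lab T a (fun ν => (e ν : ℤ)) = w}

/-- Leaf labels: `s` on the `z`-leaves, `b` on the `y`-leaves. -/
def lbl {R : Type} (T : Tr) (s : R) (b : Leaf T → R) : Leaf T → R :=
  fun x => if col T x then s else b x

/-! ### The special trees -/

/-- cherry with a `y`-leaf on its edge -/
def Leg : Tr := .node (.node (.leaf true) (.leaf true)) (.leaf false)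

/-- spine: `X 0` = cherry, `X (r+1)` = (X r with `y`) joined with a leg -/
def XT : ℕ → Tr
  | 0 => .node (.leaf true) (.leaf true)
  | r + 1 => .node (.node (XT r) (.leaf false)) Leg

/-- The full tree: `par = true`: one more `z`-leaf at the root (`2 r + 3` `z`-leaves), `par = false`:
one more leg at the root (`2 r + 4` `z`-leaves). -/
def TT (r : ℕ) : Bool → Tr
  | true => .node (XT r) (.leaf true)
  | false => .node (XT r) Leg

/-- The special `y`-leaf: the one of the leg at the root (only for `par = false`). -/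
def spec (r : ℕ) : (par : Bool) → Leaf (TT r par) → Prop
  | true, _ => False
  | false, x => x = Sum.inr (Sum.inr ())

/-- number of `z`-leaves -/
def zc (T : Tr) : ℕ := (Finset.univ.filter fun x : Leaf T => col T x = true).card

/-- The `z`-nodes. -/
abbrev ZN (T : Tr) : Type := {ν : Node T // isZ T ν = true}

/-- extension by zero to the `y`-nodes -/
def ext (T : Tr) (v : ZN T → ℝ) : Node T → ℝ := fun ν => if h : isZ T ν = true then v ⟨ν, h⟩ else 0

/-- The real cone (the leaf label at the `z`-leaves is `(∑ v) / p`, at the `y`-leaves `0`). -/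
def CR (T : Tr) (p : ℕ) (v : ZN T → ℝ) : Prop :=
  Adm T (lbl T ((∑ ν, v ν) / (p : ℝ)) 0) (ext T v)

/-- The exponents of degree one: leaf labels `1` and `0`, root label `J`. -/
def AA (T : Tr) (J : ℕ) : Set (Node T → ℕ) := QQ T (lbl T 1 0) (J : ℤ)

/-! ### Leading exponents -/

/-- depth -/
def dep : Tr → ℕ
  | .leaf _ => 0
  | .node l r => max (dep l) (dep r) + 1

/-- weight of a node = depth of the subtree below it (strictly larger than all weights below) -/
def wtn : (T : Tr) → Node T → ℕ
  | .node l r, none => dep (.node l r)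
  | .node l _, some (Sum.inl x) => wtn l x
  | .node _ r, some (Sum.inr x) => wtn r x

/-- weight of an exponent vector -/
def wte (T : Tr) (e : Node T → ℕ) : ℕ := ∑ ν, e ν * wtn T ν

/-- Positions of the leaves: the first child sits at the position of the node, the second child at
distance `X_ν`. -/
noncomputable def posn : (T : Tr) → Leaf T → MvPolynomial (Node T) ℝ
  | .leaf _, _ => 0
  | .node l _, Sum.inl x => rename (fun ν => some (Sum.inl ν)) (posn l x)
  | .node _ r, Sum.inr x => rename (fun ν => some (Sum.inr ν)) (posn r x) + X none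

/-- substitution of the positions -/
noncomputable def Phi (T : Tr) : MvPolynomial (Leaf T) ℝ →ₐ[ℝ] MvPolynomial (Node T) ℝ :=
  aeval (posn T)

/-- `g` has leading exponent `e` with coefficient one: all other monomials have smaller weight. -/
def Lead (T : Tr) (g : MvPolynomial (Node T) ℝ) (e : Node T → ℕ) : Prop :=
  coeff (Finsupp.equivFunOnFinite.symm e) g = 1 ∧
    ∀ m ∈ g.support, m ≠ Finsupp.equivFunOnFinite.symm e → wte T m < wte T e

/-! ### Generic points of a finitely generated cone -/

section Cone

variable {V : Type} [AddCommGroup V] [Module ℝ V] {𝒜 : Type} [Fintype 𝒜]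

/-- `x` lies in the cone generated by the vectors `vec a`. -/
def InCone (vec : 𝒜 → V) (x : V) : Prop := ∃ c : 𝒜 → ℝ, (∀ a, 0 ≤ c a) ∧ x = ∑ a, c a • vec a

/-- generic point of the cone: not in any proper subspace spanned by generators -/
def Gen (vec : 𝒜 → V) (x : V) : Prop :=
  InCone vec x ∧ ∀ s : Finset 𝒜, Submodule.span ℝ (vec '' (s : Set 𝒜)) ≠ ⊤ →
    x ∉ Submodule.span ℝ (vec '' (s : Set 𝒜))

end Cone

/-- The module `𝓜(b, κ)`: degree `S` part = translation invariant polynomials with
exponents `≤ S-1` at `z`-leaves, `≤ b` at `y`-leaves, total degree `S p - κ`. -/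
noncomputable def Mod (T : Tr) (b : Leaf T → ℤ) (p : ℕ) (κ : ℤ) :
    ℕ → Submodule ℝ (MvPolynomial (Leaf T) ℝ) :=
  fun S => Inv (lbl T ((S : ℤ) - 1) b) ((S : ℤ) * p - κ)

end Pool.Agent.HYP
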