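import Pool.Agent.HYP.Defs

/-!
# MP_31bda2_co, module G: Hilbert function linear algebra
-/

set_option autoImplicit false

namespace Pool.Agent.HYP

open Finset Module

namespace Gr

/-- rank nullity for a linear map restricted to a submodule -/
theorem rk {V W : Type} [AddCommGroup V] [Module ℝ V] [AddCommGroup W] [Module ℝ W]
    (f : V →ₗ[ℝ] W) (M : Submodule ℝ V) [FiniteDimensional ℝ M] :
    finrank ℝ M = finrank ℝ (M.map f) + finrank ℝ (M ⊓ LinearMap.ker f : Submodule ℝ V) := by
  have h := LinearMap.finrank_range_add_finrank_ker (f.domRestrict M)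
  rw [LinearMap.range_domRestrict] at h
  have e : finrank ℝ (LinearMap.ker (f.domRestrict M)) =
      finrank ℝ (M ⊓ LinearMap.ker f : Submodule ℝ V) := by
    have this : (LinearMap.ker (f.domRestrict M)).map M.subtype = M ⊓ LinearMap.ker f := by
      ext x
      simp only [Submodule.mem_map, LinearMap.mem_ker, LinearMap.domRestrict_apply,
        Submodule.subtype_apply, Submodule.mem_inf]
      constructor
      · rintro ⟨y, hy, rfl⟩; exact ⟨y.2, hy⟩
      · rintro ⟨h1, h2⟩; exact ⟨⟨x, h1⟩, h2, rfl⟩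
    rw [← Submodule.finrank_map_subtype_eq M (LinearMap.ker (f.domRestrict M)), this]
  rw [e] at h
  exact h.symm

theorem finrank_sup_le {V : Type} [AddCommGroup V] [Module ℝ V] {ι : Type} [DecidableEq ι]
    (f : ι → Submodule ℝ V) (hf : ∀ i, FiniteDimensional ℝ (f i)) (s : Finset ι) :
    FiniteDimensional ℝ (s.sup f : Submodule ℝ V) ∧
      finrank ℝ (s.sup f : Submodule ℝ V) ≤ ∑ i ∈ s, finrank ℝ (f i) := by
  induction s using Finset.induction_on with
  | empty =>
    rw [Finset.sup_empty]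
    exact ⟨inferInstance, by simp⟩
  | insert a s ha ih =>
    obtain ⟨h1, h2⟩ := ih
    have := hf a
    rw [Finset.sup_insert, Finset.sum_insert ha]
    refine ⟨inferInstance, ?_⟩
    exact (Submodule.finrank_add_le_finrank_add_finrank _ _).trans (Nat.add_le_add_left h2 _)

/-- relative complement -/
theorem compl {V : Type} [AddCommGroup V] [Module ℝ V] {A B : Submodule ℝ V} (h : A ≤ B)
    [FiniteDimensional ℝ B] : ∃ W ≤ B, A ⊔ W = B ∧ finrank ℝ W = finrank ℝ B - finrank ℝ A := by
  obtain ⟨C, hC⟩ := A.exists_isCompl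
  refine ⟨C ⊓ B, inf_le_right, ?_, ?_⟩
  · rw [← sup_inf_assoc_of_le _ h, hC.sup_eq_top, top_inf_eq]
  · have hAf : FiniteDimensional ℝ A := Submodule.finiteDimensional_of_le h
    have hWf : FiniteDimensional ℝ (C ⊓ B : Submodule ℝ V) :=
      Submodule.finiteDimensional_of_le inf_le_right
    have h1 := Submodule.finrank_sup_add_finrank_inf_eq A (C ⊓ B)
    have h2 : A ⊔ C ⊓ B = B := by
      rw [← sup_inf_assoc_of_le _ h, hC.sup_eq_top, top_inf_eq]
    have h3 : A ⊓ (C ⊓ B) = ⊥ := by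
      rw [← inf_assoc, hC.inf_eq_bot, bot_inf_eq]
    rw [h2, h3, finrank_bot] at h1
    omega

section

variable {P : Type} [CommRing P] [Algebra ℝ P] {n : ℕ}

/-- span of the products of `d` of the `θ` with the elements of `W` -/
noncomputable def mon (θ : Fin n → P) (d : ℕ) (W : Submodule ℝ P) : Submodule ℝ P :=
  (Finset.univ : Finset (Sym (Fin n) d)).sup fun s =>
    W.map (LinearMap.mulLeft ℝ ((s : Multiset (Fin n)).map θ).prod)

theorem mon_finrank (θ : Fin n → P) (d : ℕ) (W : Submodule ℝ P) [FiniteDimensional ℝ W] :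
    FiniteDimensional ℝ (mon θ d W) ∧ finrank ℝ (mon θ d W) ≤ Nat.multichoose n d * finrank ℝ W := by
  classical
  obtain ⟨h1, h2⟩ := finrank_sup_le (V := P) (fun s : Sym (Fin n) d =>
    W.map (LinearMap.mulLeft ℝ ((s : Multiset (Fin n)).map θ).prod)) (fun s => inferInstance)
    Finset.univ
  refine ⟨h1, h2.trans ?_⟩
  have h3 : ∀ s ∈ (Finset.univ : Finset (Sym (Fin n) d)),
      finrank ℝ (W.map (LinearMap.mulLeft ℝ ((s : Multiset (Fin n)).map θ).prod)) ≤ finrank ℝ W :=
    fun s _ => Submodule.finrank_map_le _ _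
  refine (Finset.sum_le_sum h3).trans ?_
  rw [Finset.sum_const, smul_eq_mul, Finset.card_univ, Sym.card_sym_fin_eq_multichoose]

theorem mem_mon (θ : Fin n → P) {d : ℕ} {W : Submodule ℝ P} (s : Sym (Fin n) d) {x : P}
    (hx : x ∈ W) : ((s : Multiset (Fin n)).map θ).prod * x ∈ mon θ d W := by
  have h : W.map (LinearMap.mulLeft ℝ ((s : Multiset (Fin n)).map θ).prod) ≤ mon θ d W :=
    Finset.le_sup (f := fun s : Sym (Fin n) d =>
      W.map (LinearMap.mulLeft ℝ ((s : Multiset (Fin n)).map θ).prod)) (Finset.mem_univ s)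
  exact h ⟨x, hx, rfl⟩

theorem mon_step (θ : Fin n → P) (d : ℕ) (W : Submodule ℝ P) (j : Fin n) :
    mon θ d W ≤ (mon θ (d + 1) W).comap (LinearMap.mulLeft ℝ (θ j)) := by
  unfold mon
  refine Finset.sup_le ?_
  intro s _
  rintro _ ⟨x, hx, rfl⟩
  rw [Submodule.mem_comap]
  have h := mem_mon θ (d := d + 1) (j ::ₛ s) hx
  rw [Sym.coe_cons, Multiset.map_cons, Multiset.prod_cons] at h
  simp only [LinearMap.mulLeft_apply]
  rw [← mul_assoc]
  exact h

theorem le_mon_zero (θ : Fin n → P) (W : Submodule ℝ P) : W ≤ mon θ 0 W := by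
  intro x hx
  have h := mem_mon θ (d := 0) (Sym.nil) hx
  simpa using h

theorem TB_le (θ : Fin n → P) (B : ℕ → Submodule ℝ P)
    (hθ : ∀ S j, ∀ f ∈ B S, θ j * f ∈ B (S + 1)) (S : ℕ) : TB θ B S ≤ B S := by
  cases S with
  | zero => exact bot_le
  | succ S =>
    refine iSup_le fun j => ?_
    rintro _ ⟨x, hx, rfl⟩
    exact hθ S j x hx

/-- a linear map which is compatible with the generators of `TB` -/
theorem TB_le_comap {P' : Type} [CommRing P'] [Algebra ℝ P'] (θ : Fin n → P)
    (B : ℕ → Submodule ℝ P) (L : P →ₗ[ℝ] P') (N : Submodule ℝ P') (S : ℕ)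
    (h : ∀ j, ∀ f ∈ B S, L (θ j * f) ∈ N) : TB θ B (S + 1) ≤ N.comap L := by
  refine iSup_le fun j => ?_
  rintro _ ⟨x, hx, rfl⟩
  exact h j x hx

theorem mem_TB (θ : Fin n → P) (B : ℕ → Submodule ℝ P) (S : ℕ) (j : Fin n) {f : P} (hf : f ∈ B S) :
    θ j * f ∈ TB θ B (S + 1) :=
  (le_iSup (fun j => (B S).map (LinearMap.mulLeft ℝ (θ j))) j) ⟨f, hf, rfl⟩

end

/-! ### the power series inversion -/

open PowerSeries in
theorem coeff_pow (n i : ℕ) :
    PowerSeries.coeff (R := ℤ) i ((1 - X : PowerSeries ℤ) ^ n) = (-1) ^ i * (n.choose i : ℤ) := by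
  induction n generalizing i with
  | zero =>
    cases i with
    | zero => simp
    | succ i => simp [PowerSeries.coeff_one]
  | succ n ih =>
    rw [pow_succ, mul_sub, mul_one, map_sub, ih]
    cases i with
    | zero => simp
    | succ i =>
      rw [PowerSeries.coeff_succ_mul_X, ih, Nat.choose_succ_succ]
      push_cast
      ring

open PowerSeries in
theorem inv_series (n : ℕ) : (1 - X : PowerSeries ℤ) ^ n *
    PowerSeries.mk (fun d => (Nat.multichoose n d : ℤ)) = 1 := by
  induction n with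
  | zero =>
    ext d
    cases d with
    | zero => simp
    | succ d => simp [PowerSeries.coeff_one]
  | succ n ih =>
    have h : (1 - X : PowerSeries ℤ) * PowerSeries.mk (fun d => (Nat.multichoose (n + 1) d : ℤ)) =
        PowerSeries.mk (fun d => (Nat.multichoose n d : ℤ)) := by
      ext d
      rw [sub_mul, one_mul, map_sub]
      cases d with
      | zero => simp
      | succ d =>
        rw [mul_comm, PowerSeries.coeff_succ_mul_X, PowerSeries.coeff_mk, PowerSeries.coeff_mk,
          PowerSeries.coeff_mk, Nat.multichoose_succ_succ]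
        push_cast
        ring
    rw [pow_succ, mul_assoc, h, ih]

open PowerSeries in
theorem invert (n k : ℕ) (b q : ℕ → ℤ)
    (hb : ∀ S ≤ k, b S = ∑ l ∈ range (S + 1), (Nat.multichoose n (S - l) : ℤ) * q l) :
    ∑ l ∈ range (k + 1), (-1 : ℤ) ^ l * (n.choose l : ℤ) * b (k - l) = q k := by
  set b' : ℕ → ℤ := fun S => ∑ l ∈ range (S + 1), (Nat.multichoose n (S - l) : ℤ) * q l with hb'
  have e1 : PowerSeries.mk b' = PowerSeries.mk q *
      PowerSeries.mk (fun d => (Nat.multichoose n d : ℤ)) := by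
    ext S
    rw [PowerSeries.coeff_mk, PowerSeries.coeff_mul,
      Finset.Nat.sum_antidiagonal_eq_sum_range_succ_mk]
    simp only [PowerSeries.coeff_mk, hb']
    exact Finset.sum_congr rfl (fun l _ => by ring)
  have e2 : (1 - X : PowerSeries ℤ) ^ n * PowerSeries.mk b' = PowerSeries.mk q := by
    rw [e1, mul_left_comm, inv_series, mul_one]
  have e3 := congrArg (PowerSeries.coeff (R := ℤ) k) e2
  rw [PowerSeries.coeff_mul, Finset.Nat.sum_antidiagonal_eq_sum_range_succ_mk,
    PowerSeries.coeff_mk] at e3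
  rw [← e3]
  refine Finset.sum_congr rfl fun l hl => ?_
  rw [coeff_pow, PowerSeries.coeff_mk, hb (k - l) (Nat.sub_le _ _)]

end Gr

section G

variable {P : Type} [CommRing P] [Algebra ℝ P] {n : ℕ}

theorem finrank_le_sum (θ : Fin n → P) (B : ℕ → Submodule ℝ P)
    (hfin : ∀ S, FiniteDimensional ℝ (B S)) (hθ : ∀ S j, ∀ f ∈ B S, θ j * f ∈ B (S + 1)) (S : ℕ) :
    finrank ℝ (B S) ≤ ∑ l ∈ Finset.range (S + 1), Nat.multichoose n (S - l) * qq θ B l := by
  have hc : ∀ l, ∃ W ≤ B l, TB θ B l ⊔ W = B l ∧ finrank ℝ W = qq θ B l := by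
    intro l
    have := hfin l
    exact Gr.compl (Gr.TB_le θ B hθ l)
  choose W hWle hWsup hWrk using hc
  have hWfin : ∀ l, FiniteDimensional ℝ (W l) := fun l => by
    have := hfin l
    exact Submodule.finiteDimensional_of_le (hWle l)
  have key : ∀ S, B S ≤ (Finset.range (S + 1)).sup (fun l => Gr.mon θ (S - l) (W l)) := by
    intro S
    induction S with
    | zero =>
      rw [← hWsup 0]
      refine sup_le bot_le ?_
      refine (Gr.le_mon_zero θ (W 0)).trans ?_
      exact Finset.le_sup (f := fun l => Gr.mon θ (0 - l) (W l)) (b := 0) (by simp)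
    | succ S ih =>
      rw [← hWsup (S + 1)]
      refine sup_le ?_ ?_
      · refine iSup_le fun j => ?_
        rw [Submodule.map_le_iff_le_comap]
        refine ih.trans (Finset.sup_le ?_)
        intro l hl
        have hl' : l ≤ S := Nat.lt_succ_iff.mp (Finset.mem_range.mp hl)
        refine (Gr.mon_step θ (S - l) (W l) j).trans (Submodule.comap_mono ?_)
        have e : S - l + 1 = S + 1 - l := by omega
        rw [e]
        exact Finset.le_sup (f := fun l => Gr.mon θ (S + 1 - l) (W l)) (b := l)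
          (Finset.mem_range.mpr (by omega))
      · have e : (0 : ℕ) = S + 1 - (S + 1) := by omega
        refine (Gr.le_mon_zero θ (W (S + 1))).trans ?_
        rw [e]
        exact Finset.le_sup (f := fun l => Gr.mon θ (S + 1 - l) (W l)) (b := S + 1)
          (Finset.mem_range.mpr (by omega))
  have hmf : ∀ l, FiniteDimensional ℝ (Gr.mon θ (S - l) (W l)) := fun l => by
    have := hWfin l
    exact (Gr.mon_finrank θ (S - l) (W l)).1
  obtain ⟨h1, h2⟩ := Gr.finrank_sup_le (fun l => Gr.mon θ (S - l) (W l)) hmf (Finset.range (S + 1))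
  refine (Submodule.finrank_mono (key S)).trans (h2.trans ?_)
  refine Finset.sum_le_sum fun l _ => ?_
  have := hWfin l
  have h3 := (Gr.mon_finrank θ (S - l) (W l)).2
  rwa [hWrk] at h3

theorem FreeUpTo.retract {P' : Type} [CommRing P'] [Algebra ℝ P'] (θ : Fin n → P) (θ' : Fin n → P')
    (B : ℕ → Submodule ℝ P) (B' : ℕ → Submodule ℝ P')
    (hfin : ∀ S, FiniteDimensional ℝ (B S)) (hθ : ∀ S j, ∀ f ∈ B S, θ j * f ∈ B (S + 1))
    (hfin' : ∀ S, FiniteDimensional ℝ (B' S)) (hθ' : ∀ S j, ∀ f ∈ B' S, θ' j * f ∈ B' (S + 1))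
    (inc : P →ₗ[ℝ] P') (pr : P' →ₗ[ℝ] P)
    (hinc : ∀ S, ∀ g ∈ B S, inc g ∈ B' S) (hpr : ∀ S, ∀ f ∈ B' S, pr f ∈ B S)
    (hpi : ∀ S, ∀ g ∈ B S, pr (inc g) = g)
    (hincθ : ∀ S j, ∀ g ∈ B S, inc (θ j * g) = θ' j * inc g)
    (hprθ : ∀ S j, ∀ f ∈ B' S, pr (θ' j * f) = θ j * pr f)
    (k : ℕ) (h : FreeUpTo θ' B' k) : FreeUpTo θ B k := by
  set B'' : ℕ → Submodule ℝ P' := fun S => B' S ⊓ LinearMap.ker pr with hB''
  have hfin'' : ∀ S, FiniteDimensional ℝ (B'' S) := fun S => by
    have := hfin' S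
    exact Submodule.finiteDimensional_of_le (inf_le_left : B' S ⊓ LinearMap.ker pr ≤ B' S)
  have hθ'' : ∀ S j, ∀ f ∈ B'' S, θ' j * f ∈ B'' (S + 1) := by
    intro S j f hf
    refine ⟨hθ' S j f hf.1, ?_⟩
    rw [SetLike.mem_coe, LinearMap.mem_ker, hprθ S j f hf.1, LinearMap.mem_ker.mp hf.2, mul_zero]
  -- dimensions of the modules
  have hmap : ∀ S, (B' S).map pr = B S := by
    intro S
    apply le_antisymm
    · rintro _ ⟨f, hf, rfl⟩; exact hpr S f hf
    · intro g hg; exact ⟨inc g, hinc S g hg, hpi S g hg⟩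
  have hdim : ∀ S, finrank ℝ (B' S) = finrank ℝ (B S) + finrank ℝ (B'' S) := by
    intro S
    have := hfin' S
    rw [Gr.rk pr (B' S), hmap S]
  -- dimensions of the images of `θ`
  have hTdim : ∀ S, finrank ℝ (TB θ' B' S) = finrank ℝ (TB θ B S) + finrank ℝ (TB θ' B'' S) := by
    intro S
    cases S with
    | zero =>
      have e0 : TB θ' B' 0 = ⊥ := rfl
      have e1 : TB θ B 0 = ⊥ := rfl
      have e2 : TB θ' B'' 0 = ⊥ := rfl
      rw [e0, e1, e2, finrank_bot, finrank_bot]
    | succ S =>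
      have hf : FiniteDimensional ℝ (TB θ' B' (S + 1)) := by
        have := hfin' (S + 1)
        exact Submodule.finiteDimensional_of_le (Gr.TB_le θ' B' hθ' (S + 1))
      have e1 : (TB θ' B' (S + 1)).map pr = TB θ B (S + 1) := by
        apply le_antisymm
        · rw [Submodule.map_le_iff_le_comap]
          apply Gr.TB_le_comap
          intro j f hf
          rw [hprθ S j f hf]
          exact Gr.mem_TB θ B S j (hpr S f hf)
        · refine iSup_le fun j => ?_
          rintro _ ⟨g, hg, rfl⟩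
          refine ⟨θ' j * inc g, Gr.mem_TB θ' B' S j (hinc S g hg), ?_⟩
          rw [hprθ S j _ (hinc S g hg), hpi S g hg]
          rfl
      have e2 : TB θ' B' (S + 1) ⊓ LinearMap.ker pr = TB θ' B'' (S + 1) := by
        apply le_antisymm
        · rintro x ⟨hx, hx0⟩
          have hle : TB θ' B' (S + 1) ≤ (TB θ' B'' (S + 1)).comap
              (LinearMap.id - inc ∘ₗ pr : P' →ₗ[ℝ] P') := by
            apply Gr.TB_le_comap
            intro j f hf
            have e : (LinearMap.id - inc ∘ₗ pr : P' →ₗ[ℝ] P') (θ' j * f) =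
                θ' j * (f - inc (pr f)) := by
              simp only [LinearMap.sub_apply, LinearMap.id_apply, LinearMap.comp_apply]
              rw [hprθ S j f hf, hincθ S j _ (hpr S f hf), mul_sub]
            rw [e]
            apply Gr.mem_TB
            refine ⟨(B' S).sub_mem hf (hinc S _ (hpr S f hf)), ?_⟩
            rw [SetLike.mem_coe, LinearMap.mem_ker, map_sub, hpi S _ (hpr S f hf), sub_self]
          have := hle hx
          rw [Submodule.mem_comap] at this
          simp only [LinearMap.sub_apply, LinearMap.id_apply, LinearMap.comp_apply,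
            LinearMap.mem_ker.mp hx0, map_zero, sub_zero] at this
          exact this
        · refine le_inf ?_ ?_
          · refine iSup_le fun j => ?_
            rintro _ ⟨f, hf, rfl⟩
            exact Gr.mem_TB θ' B' S j hf.1
          · refine iSup_le fun j => ?_
            rintro _ ⟨f, hf, rfl⟩
            exact (hθ'' S j f hf).2
      rw [Gr.rk pr (TB θ' B' (S + 1)), e1, e2]
  have hle : ∀ S, finrank ℝ (TB θ B S) ≤ finrank ℝ (B S) := fun S => by
    have := hfin S
    exact Submodule.finrank_mono (Gr.TB_le θ B hθ S)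
  have hle'' : ∀ S, finrank ℝ (TB θ' B'' S) ≤ finrank ℝ (B'' S) := fun S => by
    have := hfin'' S
    exact Submodule.finrank_mono (Gr.TB_le θ' B'' hθ'' S)
  have hq : ∀ l, qq θ' B' l = qq θ B l + qq θ' B'' l := by
    intro l
    unfold qq
    have h1 := hdim l
    have h2 := hTdim l
    have h3 := hle l
    have h4 := hle'' l
    omega
  intro S hS
  have h1 := h S hS
  have h2 := finrank_le_sum θ B hfin hθ S
  have h3 := finrank_le_sum θ' B'' hfin'' hθ'' S
  have h4 := hdim S
  have h5 : ∑ l ∈ Finset.range (S + 1), Nat.multichoose n (S - l) * qq θ' B' l =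
      ∑ l ∈ Finset.range (S + 1), Nat.multichoose n (S - l) * qq θ B l +
      ∑ l ∈ Finset.range (S + 1), Nat.multichoose n (S - l) * qq θ' B'' l := by
    rw [← Finset.sum_add_distrib]
    exact Finset.sum_congr rfl (fun l _ => by rw [hq l, mul_add])
  omega

theorem diff_nonneg (θ : Fin n → P) (B A : ℕ → Submodule ℝ P)
    (hfinB : ∀ S, FiniteDimensional ℝ (B S)) (hθB : ∀ S j, ∀ f ∈ B S, θ j * f ∈ B (S + 1))
    (hfinA : ∀ S, FiniteDimensional ℝ (A S)) (hθA : ∀ S j, ∀ f ∈ A S, θ j * f ∈ A (S + 1))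
    (E : P →ₗ[ℝ] P) (hE : ∀ S, ∀ f ∈ B S, E f ∈ A S)
    (hEθ : ∀ S j, ∀ f ∈ B S, E (θ j * f) = θ j * E f)
    (k : ℕ) (hsurj : ∀ g ∈ A k, ∃ f ∈ B k, E f = g)
    (hB : FreeUpTo θ B k) (hA : FreeUpTo θ A k) :
    0 ≤ ∑ l ∈ Finset.range (k + 1), (-1 : ℤ) ^ l * (n.choose l : ℤ) *
      ((finrank ℝ (B (k - l)) : ℤ) - finrank ℝ (A (k - l))) := by
  have hBf := hfinB k
  have hAf := hfinA k
  have iB := Gr.invert n k (fun S => (finrank ℝ (B S) : ℤ)) (fun l => (qq θ B l : ℤ))
    (fun S hS => by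
      have := hB S hS
      rw [this]; push_cast; rfl)
  have iA := Gr.invert n k (fun S => (finrank ℝ (A S) : ℤ)) (fun l => (qq θ A l : ℤ))
    (fun S hS => by
      have := hA S hS
      rw [this]; push_cast; rfl)
  have hsum : ∑ l ∈ Finset.range (k + 1), (-1 : ℤ) ^ l * (n.choose l : ℤ) *
      ((finrank ℝ (B (k - l)) : ℤ) - finrank ℝ (A (k - l))) = (qq θ B k : ℤ) - qq θ A k := by
    rw [← iB, ← iA, ← Finset.sum_sub_distrib]
    exact Finset.sum_congr rfl (fun l _ => by ring)
  rw [hsum]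
  have hmapA : (B k).map E = A k := by
    apply le_antisymm
    · rintro _ ⟨f, hf, rfl⟩; exact hE k f hf
    · intro g hg
      obtain ⟨f, hf, rfl⟩ := hsurj g hg
      exact ⟨f, hf, rfl⟩
  have hmapT : (TB θ B k).map E ≤ TB θ A k := by
    cases k with
    | zero => simp [TB]
    | succ k =>
      rw [Submodule.map_le_iff_le_comap]
      apply Gr.TB_le_comap
      intro j f hf
      rw [hEθ k j f hf]
      exact Gr.mem_TB θ A k j (hE k f hf)
  have hTBf : FiniteDimensional ℝ (TB θ B k) :=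
    Submodule.finiteDimensional_of_le (Gr.TB_le θ B hθB k)
  have hTAf : FiniteDimensional ℝ (TB θ A k) :=
    Submodule.finiteDimensional_of_le (Gr.TB_le θ A hθA k)
  have r1 := Gr.rk E (B k)
  have r2 := Gr.rk E (TB θ B k)
  rw [hmapA] at r1
  have r3 : finrank ℝ ((TB θ B k).map E) ≤ finrank ℝ (TB θ A k) := Submodule.finrank_mono hmapT
  have hkerf : FiniteDimensional ℝ (B k ⊓ LinearMap.ker E : Submodule ℝ P) :=
    Submodule.finiteDimensional_of_le (inf_le_left : B k ⊓ LinearMap.ker E ≤ B k)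
  have r4 : finrank ℝ (TB θ B k ⊓ LinearMap.ker E : Submodule ℝ P) ≤
      finrank ℝ (B k ⊓ LinearMap.ker E : Submodule ℝ P) :=
    Submodule.finrank_mono (inf_le_inf_right _ (Gr.TB_le θ B hθB k))
  have r5 : finrank ℝ (TB θ A k) ≤ finrank ℝ (A k) := Submodule.finrank_mono (Gr.TB_le θ A hθA k)
  have r6 : finrank ℝ (TB θ B k) ≤ finrank ℝ (B k) := Submodule.finrank_mono (Gr.TB_le θ B hθB k)
  unfold qq
  omega

end G

end Pool.Agent.HYP
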