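import Pool.Agent.HYP.Defs

/-!
# Module LP: optimal bases (regular triangulation by linear programming)
-/

set_option autoImplicit false

namespace Pool.Agent.HYP

open Finset Module

section LP

variable {V : Type} [AddCommGroup V] [Module ℝ V] {𝒜 : Type} [Fintype 𝒜]

/-- genericity of the cost vector `ω` -/
def LPGen (vec : 𝒜 → V) (ω : 𝒜 → ℝ) : Prop :=
  ∀ (s : Finset 𝒜) (a' : 𝒜), a' ∉ s → LinearIndepOn ℝ vec (s : Set 𝒜) →
    ∀ κ : 𝒜 → ℝ, vec a' = ∑ a ∈ s, κ a • vec a → ω a' ≠ ∑ a ∈ s, κ a * ω a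

theorem lp_exists_gen (vec : 𝒜 → V) : ∃ ω : 𝒜 → ℝ, LPGen vec ω := by
  classical
  let P : Finset 𝒜 × 𝒜 → Prop := fun q => ∃ κ : 𝒜 → ℝ, vec q.2 = ∑ a ∈ q.1, κ a • vec a
  let κ : Finset 𝒜 × 𝒜 → 𝒜 → ℝ := fun q => if h : P q then h.choose else 0
  let f : Finset 𝒜 × 𝒜 → ((𝒜 → ℝ) →ₗ[ℝ] ℝ) := fun q =>
    LinearMap.proj q.2 - ∑ a ∈ q.1, κ q a • (LinearMap.proj a : (𝒜 → ℝ) →ₗ[ℝ] ℝ)
  have hf : ∀ q ω, f q ω = ω q.2 - ∑ a ∈ q.1, κ q a * ω a := by
    intro q ω
    simp only [f, LinearMap.sub_apply, LinearMap.proj_apply, LinearMap.sum_apply, LinearMap.smul_apply,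
      smul_eq_mul]
  let S : Finset (Submodule ℝ (𝒜 → ℝ)) :=
    ((Finset.univ : Finset (Finset 𝒜 × 𝒜)).filter (fun q => q.2 ∉ q.1)).image
      (fun q => LinearMap.ker (f q))
  have htop : (⊤ : Submodule ℝ (𝒜 → ℝ)) ∉ S := by
    intro h
    rw [Finset.mem_image] at h
    obtain ⟨q, hq, hk⟩ := h
    have hq' := (Finset.mem_filter.1 hq).2
    have h1 : (Pi.single q.2 (1 : ℝ) : 𝒜 → ℝ) ∈ LinearMap.ker (f q) := by rw [hk]; trivial
    rw [LinearMap.mem_ker, hf, Pi.single_eq_same] at h1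
    have h2 : ∑ a ∈ q.1, κ q a * (Pi.single q.2 (1 : ℝ) : 𝒜 → ℝ) a = 0 := by
      refine Finset.sum_eq_zero fun a ha => ?_
      have : a ≠ q.2 := fun h => hq' (h ▸ ha)
      rw [Pi.single_eq_of_ne this, mul_zero]
    rw [h2, sub_zero] at h1
    exact one_ne_zero h1
  have hne := Subspace.biUnion_ne_univ_of_top_notMem htop
  obtain ⟨ω, hω⟩ := (Set.ne_univ_iff_exists_notMem _).1 hne
  refine ⟨ω, fun s a' ha' hli κ' hκ' heq => hω ?_⟩
  rw [Set.mem_iUnion₂]
  refine ⟨LinearMap.ker (f (s, a')), Finset.mem_image.2 ⟨(s, a'), by simp [ha'], rfl⟩, ?_⟩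
  rw [SetLike.mem_coe, LinearMap.mem_ker, hf]
  have hP : P (s, a') := ⟨κ', hκ'⟩
  have hκ : vec a' = ∑ a ∈ s, κ (s, a') a • vec a := by
    have : κ (s, a') = hP.choose := by simp only [κ, dif_pos hP]
    rw [this]
    exact hP.choose_spec
  have heqκ : ∀ a ∈ s, κ (s, a') a = κ' a := by
    have h0 : ∑ a ∈ s, (κ (s, a') a - κ' a) • vec a = 0 := by
      simp only [sub_smul, Finset.sum_sub_distrib]
      rw [← hκ, ← hκ', sub_self]
    intro a ha
    have := linearIndepOn_finset_iff.1 hli _ h0 a ha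
    linarith
  rw [heq]
  simp only
  rw [sub_eq_zero]
  exact Finset.sum_congr rfl fun a ha => by rw [heqκ a ha]

/-- feasible set -/
def LPFeas (vec : 𝒜 → V) (x : V) : Set (𝒜 → ℝ) := {l | (∀ a, 0 ≤ l a) ∧ ∑ a, l a • vec a = x}

/-- cost -/
def LPcost (ω l : 𝒜 → ℝ) : ℝ := ∑ a, l a * ω a

/-- optimal representation -/
def LPOpt (vec : 𝒜 → V) (ω : 𝒜 → ℝ) (x : V) (l : 𝒜 → ℝ) : Prop :=
  l ∈ LPFeas vec x ∧ ∀ l' ∈ LPFeas vec x, LPcost ω l ≤ LPcost ω l'

theorem lp_exists_opt (vec : 𝒜 → V) (deg : V →ₗ[ℝ] ℝ) (hdeg : ∀ a, deg (vec a) = 1) (ω : 𝒜 → ℝ)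
    (x : V) (hx : InCone vec x) : ∃ l, LPOpt vec ω x l := by
  obtain ⟨l0, hl0, hl0x⟩ := hx
  have hne : (LPFeas vec x).Nonempty := ⟨l0, hl0, hl0x.symm⟩
  let φ : (𝒜 → ℝ) →ₗ[ℝ] V := ∑ a, (LinearMap.proj a : (𝒜 → ℝ) →ₗ[ℝ] ℝ).smulRight (vec a)
  have hφ : ∀ l, φ l = ∑ a, l a • vec a := by
    intro l
    simp only [φ, LinearMap.sum_apply, LinearMap.smulRight_apply, LinearMap.proj_apply]
  have hclosed : IsClosed (LPFeas vec x) := by
    have e : LPFeas vec x = (⋂ a, {l : 𝒜 → ℝ | 0 ≤ l a}) ∩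
        (fun l : 𝒜 → ℝ => l - l0) ⁻¹' (LinearMap.ker φ : Set (𝒜 → ℝ)) := by
      ext l
      have e1 : l ∈ (⋂ a, {l : 𝒜 → ℝ | 0 ≤ l a}) ↔ ∀ a, 0 ≤ l a := by
        rw [Set.mem_iInter]; rfl
      rw [Set.mem_inter_iff, e1, Set.mem_preimage, SetLike.mem_coe, LinearMap.mem_ker, map_sub, hφ, hφ,
        sub_eq_zero, ← hl0x]
      rfl
    rw [e]
    refine IsClosed.inter (isClosed_iInter fun a => ?_) ?_
    · exact isClosed_le continuous_const (continuous_apply a)
    · exact (Submodule.closed_of_finiteDimensional _).preimage (by fun_prop)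
  have hsub : LPFeas vec x ⊆ Set.Icc (0 : 𝒜 → ℝ) (fun _ => deg x) := by
    intro l hl
    refine ⟨fun a => hl.1 a, fun a => ?_⟩
    have h1 : deg x = ∑ b, l b := by
      rw [← hl.2, map_sum]
      refine Finset.sum_congr rfl fun b _ => ?_
      rw [map_smul, hdeg, smul_eq_mul, mul_one]
    rw [h1]
    exact Finset.single_le_sum (fun b _ => hl.1 b) (Finset.mem_univ a)
  have hcomp : IsCompact (LPFeas vec x) := IsCompact.of_isClosed_subset isCompact_Icc hclosed hsub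
  have hcont : ContinuousOn (LPcost ω) (LPFeas vec x) := by
    apply Continuous.continuousOn
    unfold LPcost
    fun_prop
  obtain ⟨l, hl, hmin⟩ := hcomp.exists_isMinOn hne hcont
  exact ⟨l, hl, fun l' hl' => hmin hl'⟩

/-- moving in an admissible direction does not decrease the cost -/
theorem lp_dir {vec : 𝒜 → V} {ω : 𝒜 → ℝ} {x : V} {l : 𝒜 → ℝ} (h : LPOpt vec ω x l) (d : 𝒜 → ℝ)
    (hd0 : ∑ a, d a • vec a = 0) (hd : ∀ a, l a = 0 → 0 ≤ d a) : 0 ≤ LPcost ω d := by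
  have hev : ∀ a, ∀ᶠ t in nhdsWithin (0 : ℝ) (Set.Ioi 0), 0 ≤ l a + t * d a := by
    intro a
    rcases (h.1.1 a).eq_or_lt with h0 | h0
    · filter_upwards [self_mem_nhdsWithin] with t ht
      have := hd a h0.symm
      have ht' : (0 : ℝ) < t := ht
      rw [← h0, zero_add]
      positivity
    · have hc : Filter.Tendsto (fun t : ℝ => l a + t * d a) (nhds 0) (nhds (l a + 0 * d a)) := by
        apply Continuous.tendsto
        fun_prop
      rw [zero_mul, add_zero] at hc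
      exact (hc.mono_left nhdsWithin_le_nhds).eventually_const_le h0
  have hall := (Filter.eventually_all.2 hev).and (self_mem_nhdsWithin (s := Set.Ioi (0 : ℝ)))
  obtain ⟨t, ht, htpos⟩ := hall.exists
  have htpos' : (0 : ℝ) < t := htpos
  have hfeas : (fun a => l a + t * d a) ∈ LPFeas vec x := by
    refine ⟨ht, ?_⟩
    simp only [add_smul, mul_smul, Finset.sum_add_distrib, ← Finset.smul_sum, hd0, smul_zero, add_zero]
    exact h.1.2
  have h1 := h.2 _ hfeas
  have h2 : LPcost ω (fun a => l a + t * d a) = LPcost ω l + t * LPcost ω d := by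
    simp only [LPcost, add_mul, Finset.sum_add_distrib, Finset.mul_sum, mul_assoc]
  rw [h2] at h1
  by_contra hneg
  push Not at hneg
  have := mul_neg_of_pos_of_neg htpos' hneg
  linarith

/-- the support of an optimal representation is linearly independent -/
theorem lp_li {vec : 𝒜 → V} {ω : 𝒜 → ℝ} (hω : LPGen vec ω) {x : V} {l : 𝒜 → ℝ}
    (h : LPOpt vec ω x l) : LinearIndepOn ℝ vec {a | l a ≠ 0} := by
  classical
  obtain ⟨b, hb, -, hspan, hli⟩ :=
    exists_linearIndepOn_extension (linearIndepOn_empty ℝ vec) (Set.empty_subset {a | l a ≠ 0})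
  by_cases hbe : b = {a | l a ≠ 0}
  · rwa [← hbe]
  exfalso
  obtain ⟨a', ha', hab⟩ : ∃ a', a' ∈ {a | l a ≠ 0} ∧ a' ∉ b := by
    by_contra hcon
    push Not at hcon
    exact hbe (Set.Subset.antisymm hb hcon)
  set s : Finset 𝒜 := Finset.univ.filter (· ∈ b) with hs
  have hsb : (s : Set 𝒜) = b := by ext a; simp [hs]
  have hmem : vec a' ∈ Submodule.span ℝ (vec '' (s : Set 𝒜)) := by
    rw [hsb]; exact hspan (Set.mem_image_of_mem vec ha')
  obtain ⟨κ, hκ⟩ := (Submodule.mem_span_image_finset_iff_exists_fun' ℝ).1 hmem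
  have has : a' ∉ s := by rw [← Finset.mem_coe, hsb]; exact hab
  have hgen := hω s a' has (by rw [hsb]; exact hli) κ hκ.symm
  -- the direction
  set d : 𝒜 → ℝ := fun a => (if a = a' then 1 else 0) - (if a ∈ s then κ a else 0) with hd
  have hd0 : ∑ a, d a • vec a = 0 := by
    simp only [hd, sub_smul, Finset.sum_sub_distrib, ite_smul, one_smul, zero_smul,
      Finset.sum_ite_eq', Finset.mem_univ, if_true]
    rw [Finset.sum_ite_mem, Finset.univ_inter, hκ, sub_self]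
  have hcost : LPcost ω d = ω a' - ∑ a ∈ s, κ a * ω a := by
    simp only [LPcost, hd, sub_mul, Finset.sum_sub_distrib, ite_mul, one_mul, zero_mul,
      Finset.sum_ite_eq', Finset.mem_univ, if_true]
    rw [Finset.sum_ite_mem, Finset.univ_inter]
  have hzero : ∀ a, l a = 0 → d a = 0 := by
    intro a ha
    have h1 : a ≠ a' := fun h => ha' (h ▸ ha)
    have h2 : a ∉ s := by
      intro h2
      have h3 : a ∈ b := by rw [← hsb]; exact h2
      exact hb h3 ha
    simp only [hd, if_neg h1, if_neg h2, sub_zero]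
  have h1 := lp_dir h d hd0 fun a ha => (hzero a ha).ge
  have h2 := lp_dir h (fun a => -d a) (by simp only [neg_smul, Finset.sum_neg_distrib, hd0, neg_zero])
    fun a ha => by rw [hzero a ha, neg_zero]
  have h3 : LPcost ω (fun a => -d a) = -LPcost ω d := by
    simp only [LPcost, neg_mul, Finset.sum_neg_distrib]
  rw [h3] at h2
  rw [hcost] at h1 h2
  exact hgen (by linarith)

/-- strict inequality of reduced costs outside of the support -/
theorem lp_reduced {vec : 𝒜 → V} {ω : 𝒜 → ℝ} (hω : LPGen vec ω) {x : V} {l : 𝒜 → ℝ}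
    (h : LPOpt vec ω x l) {s : Finset 𝒜} (hs : ∀ a, a ∈ s ↔ l a ≠ 0) {a' : 𝒜} (ha' : a' ∉ s)
    {κ : 𝒜 → ℝ} (hκ : vec a' = ∑ a ∈ s, κ a • vec a) : ∑ a ∈ s, κ a * ω a < ω a' := by
  classical
  have hsb : (s : Set 𝒜) = {a | l a ≠ 0} := by ext a; exact hs a
  have hgen := hω s a' ha' (by rw [hsb]; exact lp_li hω h) κ hκ
  set d : 𝒜 → ℝ := fun a => (if a = a' then 1 else 0) - (if a ∈ s then κ a else 0) with hd
  have hd0 : ∑ a, d a • vec a = 0 := by
    simp only [hd, sub_smul, Finset.sum_sub_distrib, ite_smul, one_smul, zero_smul,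
      Finset.sum_ite_eq', Finset.mem_univ, if_true]
    rw [Finset.sum_ite_mem, Finset.univ_inter, hκ, sub_self]
  have hcost : LPcost ω d = ω a' - ∑ a ∈ s, κ a * ω a := by
    simp only [LPcost, hd, sub_mul, Finset.sum_sub_distrib, ite_mul, one_mul, zero_mul,
      Finset.sum_ite_eq', Finset.mem_univ, if_true]
    rw [Finset.sum_ite_mem, Finset.univ_inter]
  have h1 := lp_dir h d hd0 fun a ha => by
    have h2 : a ∉ s := fun h2 => (hs a).1 h2 ha
    simp only [hd, if_neg h2, sub_zero]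
    split_ifs <;> norm_num
  rw [hcost] at h1
  rcases (sub_nonneg.1 h1).lt_or_eq with h2 | h2
  · exact h2
  · exact absurd h2.symm hgen

theorem lp_basis {vec : 𝒜 → V} {ω : 𝒜 → ℝ} (hω : LPGen vec ω) {x : V} (hx : Gen vec x) {l : 𝒜 → ℝ}
    (h : LPOpt vec ω x l) {s : Finset 𝒜} (hs : ∀ a, a ∈ s ↔ l a ≠ 0) :
    Submodule.span ℝ (vec '' (s : Set 𝒜)) = ⊤ ∧ LinearIndependent ℝ (fun a : s => vec a) ∧
      s.card = finrank ℝ V := by
  have hspan : Submodule.span ℝ (vec '' (s : Set 𝒜)) = ⊤ := by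
    by_contra hne
    apply hx.2 s hne
    rw [← h.1.2]
    refine Submodule.sum_mem _ fun a _ => ?_
    by_cases ha : l a = 0
    · rw [ha, zero_smul]; exact Submodule.zero_mem _
    · exact Submodule.smul_mem _ _ (Submodule.subset_span (Set.mem_image_of_mem vec ((hs a).2 ha)))
  have hsb : (s : Set 𝒜) = {a | l a ≠ 0} := by ext a; exact hs a
  have hli : LinearIndependent ℝ (fun a : s => vec a) := by
    have h1 := lp_li hω h
    rw [← hsb] at h1
    exact h1
  refine ⟨hspan, hli, ?_⟩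
  have hspan' : ⊤ ≤ Submodule.span ℝ (Set.range (fun a : s => vec a)) := by
    rw [← hspan]
    apply Submodule.span_mono
    rintro _ ⟨a, ha, rfl⟩
    exact ⟨⟨a, ha⟩, rfl⟩
  have := finrank_eq_card_basis (Basis.mk hli hspan')
  rw [this, Fintype.card_coe]

/-- the dual functional of an optimal basis -/
theorem lp_dual {vec : 𝒜 → V} {ω : 𝒜 → ℝ} (hω : LPGen vec ω) {x : V} (hx : Gen vec x) {l : 𝒜 → ℝ}
    (h : LPOpt vec ω x l) {s : Finset 𝒜} (hs : ∀ a, a ∈ s ↔ l a ≠ 0) :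
    ∃ y : V →ₗ[ℝ] ℝ, (∀ a ∈ s, y (vec a) = ω a) ∧ ∀ a, a ∉ s → y (vec a) < ω a := by
  obtain ⟨hspan, hli, -⟩ := lp_basis hω hx h hs
  have hspan' : ⊤ ≤ Submodule.span ℝ (Set.range (fun a : s => vec a)) := by
    rw [← hspan]
    apply Submodule.span_mono
    rintro _ ⟨a, ha, rfl⟩
    exact ⟨⟨a, ha⟩, rfl⟩
  set b := Basis.mk hli hspan' with hb
  have hy : ∀ a (ha : a ∈ s), (b.constr ℝ (fun a : s => ω a)) (vec a) = ω a := by
    intro a ha
    have h1 : vec a = b ⟨a, ha⟩ := by rw [hb, Basis.mk_apply]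
    rw [h1, Basis.constr_basis]
  refine ⟨b.constr ℝ (fun a : s => ω a), hy, fun a ha => ?_⟩
  have hmem : vec a ∈ Submodule.span ℝ (vec '' (s : Set 𝒜)) := by rw [hspan]; trivial
  obtain ⟨κ, hκ⟩ := (Submodule.mem_span_image_finset_iff_exists_fun' ℝ).1 hmem
  have h1 := lp_reduced hω h hs ha hκ.symm
  rw [← hκ, map_sum]
  calc ∑ c ∈ s, (b.constr ℝ (fun a : s => ω a)) (κ c • vec c) = ∑ c ∈ s, κ c * ω c := by
        refine Finset.sum_congr rfl fun c hc => ?_
        rw [map_smul, hy c hc, smul_eq_mul]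
    _ < ω a := h1

/-- points in the cell of `x`: every optimal representation is supported in the cell -/
theorem lp_cell {vec : 𝒜 → V} {ω : 𝒜 → ℝ} (hω : LPGen vec ω) {x : V} (hx : Gen vec x) {l : 𝒜 → ℝ}
    (h : LPOpt vec ω x l) {s : Finset 𝒜} (hs : ∀ a, a ∈ s ↔ l a ≠ 0) {z : V} {c : 𝒜 → ℝ}
    (hc : ∀ a, 0 ≤ c a) (hcs : ∀ a, a ∉ s → c a = 0) (hz : z = ∑ a, c a • vec a) {m : 𝒜 → ℝ}
    (hm : LPOpt vec ω z m) : LPcost ω m = LPcost ω c ∧ ∀ a, a ∉ s → m a = 0 := by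
  obtain ⟨y, hy1, hy2⟩ := lp_dual hω hx h hs
  have hle : ∀ a, y (vec a) ≤ ω a := fun a => by
    by_cases ha : a ∈ s
    · exact (hy1 a ha).le
    · exact (hy2 a ha).le
  have hyz : ∀ μ : 𝒜 → ℝ, μ ∈ LPFeas vec z → y z = ∑ a, μ a * y (vec a) := by
    intro μ hμ
    rw [← hμ.2, map_sum]
    exact Finset.sum_congr rfl fun a _ => by rw [map_smul, smul_eq_mul]
  have hcf : c ∈ LPFeas vec z := ⟨hc, hz.symm⟩
  have h1 : LPcost ω m ≤ LPcost ω c := hm.2 c hcf
  have h2 : LPcost ω c = y z := by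
    rw [hyz c hcf]
    refine Finset.sum_congr rfl fun a _ => ?_
    by_cases ha : a ∈ s
    · rw [hy1 a ha]
    · rw [hcs a ha, zero_mul, zero_mul]
  have h3 : y z ≤ LPcost ω m := by
    rw [hyz m hm.1]
    exact Finset.sum_le_sum fun a _ => mul_le_mul_of_nonneg_left (hle a) (hm.1.1 a)
  have h4 : LPcost ω m = LPcost ω c := le_antisymm h1 (h2.le.trans h3)
  refine ⟨h4, fun a ha => ?_⟩
  have h5 : ∑ a, m a * (ω a - y (vec a)) = 0 := by
    have h6 : LPcost ω m = ∑ a, m a * y (vec a) := by rw [h4, h2, hyz m hm.1]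
    simp only [mul_sub, Finset.sum_sub_distrib]
    rw [← h6]
    exact sub_self _
  have h7 := (Finset.sum_eq_zero_iff_of_nonneg fun a _ =>
    mul_nonneg (hm.1.1 a) (sub_nonneg.2 (hle a))).1 h5 a (Finset.mem_univ a)
  rcases mul_eq_zero.1 h7 with h8 | h8
  · exact h8
  · exact absurd h8 (sub_pos.2 (hy2 a ha)).ne'

variable [FiniteDimensional ℝ V] [DecidableEq 𝒜]

omit [Fintype 𝒜] in
/-- Lagrange interpolation -/
theorem lp_vandermonde (n : ℕ) (τ : 𝒜 → ℝ) (hτ : Function.Injective τ) (s : Finset 𝒜) (hs : s.card = n)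
    (a₀ : 𝒜) (ha₀ : a₀ ∈ s) :
    ∃ ν : Fin n → ℝ, ∀ a ∈ s, ∑ j, ν j * τ a ^ (j : ℕ) = if a = a₀ then 1 else 0 := by
  have hinj : Set.InjOn τ s := hτ.injOn
  set p := Lagrange.basis s τ a₀ with hp
  have hdeg : p.natDegree < n := by
    rw [hp, Lagrange.natDegree_basis hinj ha₀]
    have : 0 < s.card := Finset.card_pos.2 ⟨a₀, ha₀⟩
    omega
  refine ⟨fun j => p.coeff j, fun a ha => ?_⟩
  have h1 : p.eval (τ a) = ∑ j : Fin n, p.coeff j * τ a ^ (j : ℕ) := by
    rw [Polynomial.eval_eq_sum_range' hdeg, Finset.sum_range]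
  rw [← h1]
  split_ifs with h
  · rw [h, hp, Lagrange.eval_basis_self hinj ha₀]
  · rw [hp, Lagrange.eval_basis_of_ne (fun h' => h h'.symm) ha]

theorem exists_triangulation (vec : 𝒜 → V) (deg : V →ₗ[ℝ] ℝ) (hdeg : ∀ a, deg (vec a) = 1) :
    ∃ (ω : 𝒜 → ℝ) (c : Fin (finrank ℝ V) → 𝒜 → ℝ) (hh : V → ℝ) (sg : V → Finset 𝒜)
      (co : V → 𝒜 → ℝ),
      (∀ x, Gen vec x → (sg x).card = finrank ℝ V ∧
        LinearIndependent ℝ (fun a : sg x => vec a) ∧
        (∀ a ∈ sg x, 0 < co x a) ∧ (∀ a, a ∉ sg x → co x a = 0) ∧ x = ∑ a, co x a • vec a) ∧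
      (∀ x a, Gen vec x → Gen vec (x + vec a) → a ∉ sg x → hh (x + vec a) < hh x + ω a) ∧
      (∀ x a, Gen vec x → Gen vec (x + vec a) → a ∈ sg x →
        hh (x + vec a) = hh x + ω a ∧ sg (x + vec a) = sg x) ∧
      (∀ x, Gen vec x → ∀ a₀ ∈ sg x, ∃ ν : Fin (finrank ℝ V) → ℝ,
        ∀ a ∈ sg x, ∑ j, ν j * c j a = if a = a₀ then 1 else 0) ∧
      (∀ x y, Gen vec x → Gen vec y →
        (∃ c' : 𝒜 → ℝ, (∀ a, 0 ≤ c' a) ∧ (∀ a, a ∉ sg y → c' a = 0) ∧ x = ∑ a, c' a • vec a) →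
        sg x = sg y) := by
  classical
  obtain ⟨ω, hω⟩ := lp_exists_gen vec
  set τ : 𝒜 → ℝ := fun a => ((Fintype.equivFin 𝒜 a : ℕ) : ℝ) with hτ
  have hτinj : Function.Injective τ := by
    intro a b hab
    have : ((Fintype.equivFin 𝒜 a : ℕ)) = (Fintype.equivFin 𝒜 b : ℕ) := Nat.cast_injective (R := ℝ) hab
    exact (Fintype.equivFin 𝒜).injective (Fin.ext this)
  set co : V → 𝒜 → ℝ := fun x => if h : ∃ l, LPOpt vec ω x l then h.choose else 0 with hco
  set sg : V → Finset 𝒜 := fun x => Finset.univ.filter (fun a => co x a ≠ 0) with hsg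
  have hs : ∀ x a, a ∈ sg x ↔ co x a ≠ 0 := fun x a => by simp [hsg]
  have hopt : ∀ x, InCone vec x → LPOpt vec ω x (co x) := by
    intro x hx
    have h := lp_exists_opt vec deg hdeg ω x hx
    have h1 : co x = h.choose := by simp only [hco, dif_pos h]
    rw [h1]
    exact h.choose_spec
  have hcell : ∀ x y, Gen vec x → Gen vec y →
      (∃ c' : 𝒜 → ℝ, (∀ a, 0 ≤ c' a) ∧ (∀ a, a ∉ sg y → c' a = 0) ∧ x = ∑ a, c' a • vec a) →
      sg x = sg y := by
    rintro x y hx hy ⟨c', hc0, hcs, hxc⟩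
    have h1 := lp_cell hω hy (hopt y hy.1) (hs y) hc0 hcs hxc (hopt x hx.1)
    have hsub : sg x ⊆ sg y := by
      intro a ha
      by_contra hn
      exact (hs x a).1 ha (h1.2 a hn)
    have hcx := (lp_basis hω hx (hopt x hx.1) (hs x)).2.2
    have hcy := (lp_basis hω hy (hopt y hy.1) (hs y)).2.2
    exact Finset.eq_of_subset_of_card_le hsub (by rw [hcx, hcy])
  have haddf : ∀ x a, Gen vec x → (fun b => co x b + if b = a then 1 else 0) ∈ LPFeas vec (x + vec a) := by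
    intro x a hx
    refine ⟨fun b => ?_, ?_⟩
    · have := (hopt x hx.1).1.1 b
      show 0 ≤ co x b + if b = a then 1 else 0
      split_ifs <;> linarith
    · simp only [add_smul, Finset.sum_add_distrib, ite_smul, one_smul, zero_smul, Finset.sum_ite_eq',
        Finset.mem_univ, if_true]
      rw [(hopt x hx.1).1.2]
  have hcostadd : ∀ x a, LPcost ω (fun b => co x b + if b = a then 1 else 0) = LPcost ω (co x) + ω a := by
    intro x a
    simp only [LPcost, add_mul, Finset.sum_add_distrib, ite_mul, one_mul, zero_mul, Finset.sum_ite_eq',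
      Finset.mem_univ, if_true]
  refine ⟨ω, fun j a => τ a ^ (j : ℕ), fun x => LPcost ω (co x), sg, co, ?_, ?_, ?_, ?_, hcell⟩
  · intro x hx
    obtain ⟨-, hli, hcard⟩ := lp_basis hω hx (hopt x hx.1) (hs x)
    refine ⟨hcard, hli, fun a ha => ?_, fun a ha => ?_, (hopt x hx.1).1.2.symm⟩
    · exact lt_of_le_of_ne ((hopt x hx.1).1.1 a) ((hs x a).1 ha).symm
    · by_contra hn
      exact ha ((hs x a).2 hn)
  · intro x a hx hxa ha
    have h1 := (hopt _ hxa.1).2 _ (haddf x a hx)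
    rw [hcostadd] at h1
    refine lt_of_le_of_ne h1 fun heq => ?_
    -- then `co x + e_a` is optimal, its support has `finrank + 1` elements
    have hopt' : LPOpt vec ω (x + vec a) (fun b => co x b + if b = a then 1 else 0) := by
      refine ⟨haddf x a hx, fun l' hl' => ?_⟩
      rw [hcostadd, ← heq]
      exact (hopt _ hxa.1).2 l' hl'
    have hs' : ∀ b, b ∈ insert a (sg x) ↔ (co x b + if b = a then 1 else 0) ≠ 0 := by
      intro b
      have hb0 := (hopt x hx.1).1.1 b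
      rw [Finset.mem_insert, hs]
      constructor
      · rintro (rfl | hb)
        · simp only [if_true]; positivity
        · have : 0 < co x b := lt_of_le_of_ne hb0 hb.symm
          split_ifs <;> positivity
      · intro hne
        by_cases hba : b = a
        · exact Or.inl hba
        · rw [if_neg hba, add_zero] at hne
          exact Or.inr hne
    have hc1 := (lp_basis hω hxa hopt' hs').2.2
    have hc2 := (lp_basis hω hx (hopt x hx.1) (hs x)).2.2
    rw [Finset.card_insert_of_notMem ha] at hc1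
    omega
  · intro x a hx hxa ha
    have hc0 : ∀ b, 0 ≤ co x b + if b = a then (1 : ℝ) else 0 := fun b => by
      have := (hopt x hx.1).1.1 b
      split_ifs <;> linarith
    have hcs : ∀ b, b ∉ sg x → (co x b + if b = a then (1 : ℝ) else 0) = 0 := by
      intro b hb
      have h1 : co x b = 0 := by
        by_contra hn
        exact hb ((hs x b).2 hn)
      have h2 : b ≠ a := fun h => hb (h ▸ ha)
      rw [h1, if_neg h2, add_zero]
    have h1 := lp_cell hω hx (hopt x hx.1) (hs x) hc0 hcs (haddf x a hx).2.symm (hopt _ hxa.1)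
    refine ⟨?_, hcell _ _ hxa hx ⟨_, hc0, hcs, (haddf x a hx).2.symm⟩⟩
    show LPcost ω (co (x + vec a)) = LPcost ω (co x) + ω a
    rw [h1.1, hcostadd]
  · intro x hx a₀ ha₀
    have hcard := (lp_basis hω hx (hopt x hx.1) (hs x)).2.2
    exact lp_vandermonde (finrank ℝ V) τ hτinj (sg x) hcard a₀ ha₀

end LP

end Pool.Agent.HYP
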