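import Mathlib
import Pool.Agent.HYP.Defs
import Pool.Agent.HYP.Graded
import Pool.Agent.HYP.LP

set_option autoImplicit false

namespace Pool.Agent.HYP

open MvPolynomial Finset Module

section FL

variable {P : Type} [CommRing P] [Algebra ℝ P] {V : Type} [AddCommGroup V] [Module ℝ V]
  {𝒜 : Type} [Fintype 𝒜] [DecidableEq 𝒜]
  {X : Type} [AddCancelCommMonoid X] [DecidableEq X]

omit [Fintype 𝒜] [DecidableEq 𝒜] [DecidableEq X] in
lemma fl_nsmul (ex : 𝒜 → X) (Q : ℕ → Finset X)
    (hadd : ∀ S a, ∀ m ∈ Q S, ex a + m ∈ Q (S + 1))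
    (vec : 𝒜 → V) (pos : X → V) (hpos : ∀ S a, ∀ m ∈ Q S, pos (ex a + m) = pos m + vec a)
    (a : 𝒜) (j S : ℕ) (m : X) (hm : m ∈ Q S) :
    j • ex a + m ∈ Q (S + j) ∧ pos (j • ex a + m) = pos m + (j : ℝ) • vec a := by
  induction j with
  | zero => simpa using hm
  | succ j ih =>
    obtain ⟨h1, h2⟩ := ih
    have e : (j + 1) • ex a + m = ex a + (j • ex a + m) := by
      rw [succ_nsmul', add_assoc]
    rw [e]
    refine ⟨hadd _ a _ h1, ?_⟩
    rw [hpos _ a _ h1, h2]
    push_cast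
    rw [add_smul, one_smul, add_assoc]

omit [Fintype 𝒜] [DecidableEq X] in
lemma fl_sum (ex : 𝒜 → X) (Q : ℕ → Finset X)
    (hadd : ∀ S a, ∀ m ∈ Q S, ex a + m ∈ Q (S + 1))
    (vec : 𝒜 → V) (pos : X → V) (hpos : ∀ S a, ∀ m ∈ Q S, pos (ex a + m) = pos m + vec a)
    (κ : 𝒜 → ℕ) (s : Finset 𝒜) (S : ℕ) (m : X) (hm : m ∈ Q S) :
    (∑ a ∈ s, κ a • ex a) + m ∈ Q (S + ∑ a ∈ s, κ a) ∧
      pos ((∑ a ∈ s, κ a • ex a) + m) = pos m + ∑ a ∈ s, (κ a : ℝ) • vec a := by
  induction s using Finset.induction_on with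
  | empty => simpa using hm
  | insert a s ha ih =>
    obtain ⟨h1, h2⟩ := ih
    obtain ⟨h3, h4⟩ := fl_nsmul ex Q hadd vec pos hpos a (κ a) _ _ h1
    rw [Finset.sum_insert ha, Finset.sum_insert ha, Finset.sum_insert ha]
    have e : κ a • ex a + ∑ a ∈ s, κ a • ex a + m = κ a • ex a + (∑ a ∈ s, κ a • ex a + m) := by
      rw [add_assoc]
    rw [e]
    constructor
    · have e2 : S + (κ a + ∑ a ∈ s, κ a) = S + ∑ a ∈ s, κ a + κ a := by ring
      rw [e2]
      exact h3
    · rw [h4, h2]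
      abel

lemma fl_multichoose_sum (c n : ℕ) :
    ∑ p ∈ Finset.HasAntidiagonal.antidiagonal n, Nat.multichoose c p.2 = Nat.multichoose (c + 1) n := by
  induction n with
  | zero => simp
  | succ n ih =>
    rw [Finset.Nat.sum_antidiagonal_succ, ih, Nat.multichoose_succ_succ]

lemma fl_card_piAntidiag {α : Type} [DecidableEq α] (s : Finset α) (n : ℕ) :
    (Finset.piAntidiag s n).card = Nat.multichoose s.card n := by
  induction s using Finset.cons_induction generalizing n with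
  | empty =>
    cases n with
    | zero => simp
    | succ n => simp [Nat.multichoose_zero_succ]
  | cons a s ha ih =>
    rw [Finset.piAntidiag_cons, Finset.card_disjiUnion]
    simp only [Finset.card_map, Finset.card_cons, ih]
    exact fl_multichoose_sum _ _

omit [DecidableEq X] in
/-- the counting step -/
lemma fl_count {n : ℕ} (vec : 𝒜 → V) (ex : 𝒜 → X) (Q : ℕ → Finset X)
    (hadd : ∀ S a, ∀ m ∈ Q S, ex a + m ∈ Q (S + 1))
    (pos : X → V) (hpos : ∀ S a, ∀ m ∈ Q S, pos (ex a + m) = pos m + vec a)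
    (k : ℕ) (hgen : ∀ S ≤ k, ∀ m ∈ Q S, Gen vec (pos m))
    (sg : V → Finset 𝒜) (co : V → 𝒜 → ℝ)
    (T1 : ∀ x, Gen vec x → (sg x).card = n ∧
        LinearIndependent ℝ (fun a : sg x => vec a) ∧
        (∀ a ∈ sg x, 0 < co x a) ∧ (∀ a, a ∉ sg x → co x a = 0) ∧ x = ∑ a, co x a • vec a)
    (T5 : ∀ x y, Gen vec x → Gen vec y →
        (∃ c' : 𝒜 → ℝ, (∀ a, 0 ≤ c' a) ∧ (∀ a, a ∉ sg y → c' a = 0) ∧ x = ∑ a, c' a • vec a) →
        sg x = sg y)
    (box : ℕ → Finset X) (hbox : ∀ S, box S ⊆ Q S)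
    (hbox1 : ∀ S, ∀ m ∈ box S, ∀ a ∈ sg (pos m), co (pos m) a ≤ 1)
    (S : ℕ) (hS : S ≤ k) :
    ∑ l ∈ Finset.range (S + 1), Nat.multichoose n (S - l) * (box l).card ≤ (Q S).card := by
  classical
  set Ξ : Finset (Σ _ : ℕ, Σ _ : X, (𝒜 → ℕ)) :=
    (Finset.range (S + 1)).sigma fun l => (box l).sigma fun m => Finset.piAntidiag (sg (pos m)) (S - l)
    with hΞ
  have hcard : Ξ.card = ∑ l ∈ Finset.range (S + 1), Nat.multichoose n (S - l) * (box l).card := by
    rw [hΞ, Finset.card_sigma]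
    refine Finset.sum_congr rfl fun l hl => ?_
    rw [Finset.card_sigma]
    have hl' : l ≤ S := Nat.lt_succ_iff.1 (Finset.mem_range.1 hl)
    rw [Finset.sum_congr rfl (g := fun _ => Nat.multichoose n (S - l))]
    · rw [Finset.sum_const, smul_eq_mul, mul_comm]
    · intro m hm
      rw [fl_card_piAntidiag, (T1 _ (hgen l (hl'.trans hS) m (hbox l hm))).1]
  rw [← hcard]
  have key : ∀ q ∈ Ξ, q.1 ≤ S ∧ q.2.1 ∈ Q q.1 ∧ q.2.1 ∈ box q.1 ∧
      (∀ a, a ∉ sg (pos q.2.1) → q.2.2 a = 0) ∧ ∑ a, q.2.2 a = S - q.1 ∧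
      (∑ a, q.2.2 a • ex a) + q.2.1 ∈ Q S ∧
      pos ((∑ a, q.2.2 a • ex a) + q.2.1) =
        ∑ a, (co (pos q.2.1) a + q.2.2 a) • vec a ∧
      sg (pos ((∑ a, q.2.2 a • ex a) + q.2.1)) = sg (pos q.2.1) := by
    rintro ⟨l, m, κ⟩ hq
    simp only [hΞ, Finset.mem_sigma, Finset.mem_range, Finset.mem_piAntidiag] at hq
    obtain ⟨hl, hm, hκ1, hκ2⟩ := hq
    have hl' : l ≤ S := Nat.lt_succ_iff.1 hl
    have hsupp : ∀ a, a ∉ sg (pos m) → κ a = 0 := by
      intro a ha
      by_contra hne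
      exact ha (hκ2 a hne)
    have hsum : ∑ a, κ a = S - l := by
      rw [← hκ1]
      symm
      apply Finset.sum_subset (Finset.subset_univ _)
      intro a _ ha
      exact hsupp a ha
    have hmQ := hbox l hm
    obtain ⟨h1, h2⟩ := fl_sum ex Q hadd vec pos hpos κ Finset.univ l m hmQ
    rw [hsum] at h1
    have e : l + (S - l) = S := by omega
    rw [e] at h1
    have hg := hgen l (hl'.trans hS) m hmQ
    obtain ⟨t1, t2, t3, t4, t5⟩ := T1 _ hg
    have h3 : pos ((∑ a, κ a • ex a) + m) = ∑ a, (co (pos m) a + κ a) • vec a := by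
      rw [h2]
      nth_rewrite 1 [t5]
      rw [← Finset.sum_add_distrib]
      refine Finset.sum_congr rfl fun a _ => ?_
      rw [add_smul]
    refine ⟨hl', hmQ, hm, hsupp, hsum, h1, h3, ?_⟩
    apply T5 _ _ (hgen S hS _ h1) hg
    refine ⟨fun a => co (pos m) a + κ a, ?_, ?_, h3⟩
    · intro a
      by_cases ha : a ∈ sg (pos m)
      · have := t3 a ha
        positivity
      · simp only [t4 a ha, zero_add]
        positivity
    · intro a ha
      simp only [t4 a ha, hsupp a ha]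
      simp
  apply Finset.card_le_card_of_injOn (fun q : (Σ _ : ℕ, Σ _ : X, (𝒜 → ℕ)) => (∑ a, q.2.2 a • ex a) + q.2.1)
  · intro q hq
    exact (key q hq).2.2.2.2.2.1
  · rintro ⟨l, m, κ⟩ hq ⟨l', m', κ'⟩ hq' heq
    obtain ⟨a1, a2, a3, a4, a5, a6, a7, a8⟩ := key _ hq
    obtain ⟨b1, b2, b3, b4, b5, b6, b7, b8⟩ := key _ hq'
    simp only at heq a1 a2 a3 a4 a5 a6 a7 a8 b1 b2 b3 b4 b5 b6 b7 b8
    rw [heq] at a8 a7
    have hsg : sg (pos m) = sg (pos m') := a8.symm.trans b8
    have hg := hgen l (a1.trans hS) m a2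
    have hg' := hgen l' (b1.trans hS) m' b2
    obtain ⟨t1, t2, t3, t4, t5⟩ := T1 _ hg
    obtain ⟨u1, u2, u3, u4, u5⟩ := T1 _ hg'
    have hz : ∑ a, ((co (pos m) a + κ a) - (co (pos m') a + κ' a)) • vec a = 0 := by
      simp only [sub_smul, Finset.sum_sub_distrib]
      rw [← a7, ← b7, sub_self]
    have hz' : ∑ a : sg (pos m), ((co (pos m) a + κ a) - (co (pos m') a + κ' a)) • vec a = 0 := by
      rw [← hz]
      rw [Finset.sum_coe_sort (sg (pos m))
        (fun a => ((co (pos m) a + κ a) - (co (pos m') a + κ' a)) • vec a)]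
      apply Finset.sum_subset (Finset.subset_univ _)
      intro a _ ha
      rw [t4 a ha, a4 a ha, u4 a (hsg ▸ ha), b4 a (hsg ▸ ha)]
      simp
    have hcoord := (Fintype.linearIndependent_iff.1 t2) _ hz'
    have hκ : κ = κ' := by
      funext a
      by_cases ha : a ∈ sg (pos m)
      · have h0 := hcoord ⟨a, ha⟩
        simp only at h0
        have p1 := t3 a ha
        have p2 := hbox1 l m a3 a ha
        have ha' : a ∈ sg (pos m') := hsg ▸ ha
        have p3 := u3 a ha'
        have p4 := hbox1 l' m' b3 a ha'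
        have p5 : (κ a : ℝ) < κ' a + 1 := by linarith
        have p6 : (κ' a : ℝ) < κ a + 1 := by linarith
        have p5' : κ a < κ' a + 1 := by exact_mod_cast p5
        have p6' : κ' a < κ a + 1 := by exact_mod_cast p6
        omega
      · rw [a4 a ha, b4 a (hsg ▸ ha)]
    subst hκ
    have hm : m = m' := add_left_cancel heq
    subst hm
    have hl : l = l' := by omega
    subst hl
    rfl

/-- the exponents of the degeneration -/
noncomputable def flE (ex : 𝒜 → X) (wt : X →+ ℕ) (ω : 𝒜 → ℝ) (h h' : X → ℝ) (Λ : ℝ) (a : 𝒜)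
    (m m'' : X) : ℝ :=
  (ω a + Λ * wt (ex a)) + (h m + Λ * wt m) - (h' m'' + Λ * wt m'')

lemma fl_tendsto_exp (E : ℝ) (hE : 0 < E) (C : ℝ) :
    Filter.Tendsto (fun τ : ℝ => C * Real.exp (-(τ * E))) Filter.atTop (nhds 0) := by
  have h1 : Filter.Tendsto (fun τ : ℝ => τ * E) Filter.atTop Filter.atTop :=
    Filter.tendsto_id.atTop_mul_const hE
  have h2 := (Real.tendsto_exp_neg_atTop_nhds_zero.comp h1).const_mul C
  simpa using h2

omit [AddCancelCommMonoid X] in
/-- entries of the coordinate matrix tend to those of the identity -/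
lemma fl_entry [AddCancelCommMonoid X] {n : ℕ} (ex : 𝒜 → X) (wt : X →+ ℕ)
    (s : 𝒜 → X → X → ℝ) (m : X)
    (hs0 : ∀ a, ∀ m', ¬ (wt m' < wt (ex a + m)) → s a m m' = 0)
    (ω : 𝒜 → ℝ) (c : Fin n → 𝒜 → ℝ) (h h' : X → ℝ) (sg : Finset 𝒜)
    (h1 : ∀ a, a ∉ sg → h' (ex a + m) < h m + ω a)
    (h2 : ∀ a, a ∈ sg → h' (ex a + m) = h m + ω a)
    (a₀ : 𝒜) (ha₀ : a₀ ∈ sg) (ν : Fin n → ℝ)
    (hν : ∀ a ∈ sg, ∑ j, ν j * c j a = if a = a₀ then 1 else 0)
    (Λ : ℝ) (hΛ0 : 0 ≤ Λ) (m'' : X) (hΛ : ∀ a, h' m'' < h m + ω a + Λ) :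
    Filter.Tendsto (fun τ : ℝ => ∑ a, ((∑ j, ν j * c j a) *
        ((if m'' = ex a + m then 1 else 0) + s a m m'')) *
          Real.exp (-(τ * flE ex wt ω h h' Λ a m m''))) Filter.atTop
      (nhds (if m'' = ex a₀ + m then 1 else 0)) := by
  have hlim : (if m'' = ex a₀ + m then (1 : ℝ) else 0) =
      ∑ a, (if a = a₀ then (if m'' = ex a₀ + m then (1 : ℝ) else 0) else 0) := by
    simp
  rw [hlim]
  apply tendsto_finsetSum
  intro a _
  by_cases hm : m'' = ex a + m
  · have hs : s a m m'' = 0 := hs0 a m'' (by rw [hm]; exact lt_irrefl _)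
    have hE : flE ex wt ω h h' Λ a m m'' = h m + ω a - h' (ex a + m) := by
      rw [flE, hm, map_add]
      push_cast
      ring
    by_cases ha : a ∈ sg
    · have hE0 : flE ex wt ω h h' Λ a m m'' = 0 := by
        rw [hE, h2 a ha]; ring
      rw [hE0, hs, if_pos hm, hν a ha]
      by_cases haa : a = a₀
      · subst haa
        simp [hm]
      · simp [haa]
    · have hE0 : 0 < flE ex wt ω h h' Λ a m m'' := by
        rw [hE]; linarith [h1 a ha]
      have haa : a ≠ a₀ := fun h => ha (h ▸ ha₀)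
      rw [if_neg haa]
      exact fl_tendsto_exp _ hE0 _
  · rw [if_neg hm]
    have hr : (if a = a₀ then (if m'' = ex a₀ + m then (1 : ℝ) else 0) else 0) = 0 := by
      by_cases haa : a = a₀
      · subst haa; simp [hm]
      · simp [haa]
    rw [hr]
    by_cases hw : wt m'' < wt (ex a + m)
    · apply fl_tendsto_exp
      have hw' : (wt m'' : ℝ) + 1 ≤ wt (ex a) + wt m := by
        rw [map_add] at hw
        exact_mod_cast hw
      have := hΛ a
      rw [flE]
      nlinarith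
    · rw [hs0 a m'' hw]
      simp

/-- the degeneration step -/
lemma fl_degen {n : ℕ} (ρ : 𝒜 → P) (ex : 𝒜 → X) (wt : X →+ ℕ)
    (Q Q' : Finset X) (F F' : X → P)
    (hadd : ∀ a, ∀ m ∈ Q, ex a + m ∈ Q')
    (s : 𝒜 → X → X → ℝ)
    (hs0 : ∀ a, ∀ m ∈ Q, ∀ m', ¬ (wt m' < wt (ex a + m)) → s a m m' = 0)
    (hs : ∀ a, ∀ m ∈ Q, ρ a * F m = F' (ex a + m) + ∑ m' ∈ Q', s a m m' • F' m')
    (ω : 𝒜 → ℝ) (c : Fin n → 𝒜 → ℝ) (h h' : X → ℝ) (sg : X → Finset 𝒜)
    (h1 : ∀ m ∈ Q, ∀ a, a ∉ sg m → h' (ex a + m) < h m + ω a)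
    (h2 : ∀ m ∈ Q, ∀ a, a ∈ sg m → h' (ex a + m) = h m + ω a)
    (hν : ∀ m ∈ Q, ∀ a₀ ∈ sg m, ∃ ν : Fin n → ℝ,
      ∀ a ∈ sg m, ∑ j, ν j * c j a = if a = a₀ then 1 else 0)
    (Λ : ℝ) (hΛ0 : 0 ≤ Λ) (hΛ : ∀ m ∈ Q, ∀ m' ∈ Q', ∀ a, h' m' < h m + ω a + Λ)
    (box : Finset X) (hbox : ∀ m' ∈ Q', m' ∉ box → ∃ m ∈ Q, ∃ a₀ ∈ sg m, m' = ex a₀ + m) :
    ∀ᶠ τ : ℝ in Filter.atTop, ∀ m' ∈ Q', F' m' ∈
      (⨆ j : Fin n, (Submodule.span ℝ (F '' (Q : Set X))).map (LinearMap.mulLeft ℝ
        (∑ a, (c j a * Real.exp (-(τ * (ω a + Λ * wt (ex a))))) • ρ a))) ⊔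
        Submodule.span ℝ (F' '' (box : Set X)) := by
  classical
  -- choose the data for the columns outside the box
  have hch : ∀ m' : Q', (m' : X) ∉ box → ∃ (m : X) (a₀ : 𝒜) (ν : Fin n → ℝ),
      m ∈ Q ∧ a₀ ∈ sg m ∧ (m' : X) = ex a₀ + m ∧
      ∀ a ∈ sg m, ∑ j, ν j * c j a = if a = a₀ then 1 else 0 := by
    intro m' hb
    obtain ⟨m, hm, a₀, ha₀, he⟩ := hbox m' m'.2 hb
    obtain ⟨ν, hν'⟩ := hν m hm a₀ ha₀
    exact ⟨m, a₀, ν, hm, ha₀, he, hν'⟩
  choose mm aa ν hmm haa hee hνν using hch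
  set M : ℝ → Matrix Q' Q' ℝ := fun τ m'' m' =>
    if hb : (m' : X) ∈ box then (if m'' = m' then 1 else 0) else
      ∑ a, ((∑ j, ν m' hb j * c j a) *
        ((if (m'' : X) = ex a + mm m' hb then 1 else 0) + s a (mm m' hb) m'')) *
          Real.exp (-(τ * flE ex wt ω h h' Λ a (mm m' hb) m'')) with hMdef
  have hM : Filter.Tendsto M Filter.atTop (nhds 1) := by
    refine tendsto_pi_nhds.2 fun m'' => tendsto_pi_nhds.2 fun m' => ?_
    by_cases hb : (m' : X) ∈ box
    · simp only [hMdef, dif_pos hb]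
      rw [Matrix.one_apply]
      exact tendsto_const_nhds
    · simp only [hMdef, dif_neg hb]
      have := fl_entry ex wt s (mm m' hb) (fun a m'' => hs0 a _ (hmm m' hb) m'') ω c h h'
        (sg (mm m' hb)) (h1 _ (hmm m' hb)) (h2 _ (hmm m' hb)) (aa m' hb) (haa m' hb) (ν m' hb)
        (hνν m' hb) Λ hΛ0 m'' (fun a => hΛ _ (hmm m' hb) _ m''.2 a)
      rw [← hee m' hb] at this
      rw [Matrix.one_apply]
      simpa only [Subtype.ext_iff] using this
  have hdet : Filter.Tendsto (fun τ => (M τ).det) Filter.atTop (nhds 1) := by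
    have h3 : Filter.Tendsto (fun τ => (M τ).det) Filter.atTop (nhds (1 : Matrix Q' Q' ℝ).det) :=
      ((Continuous.matrix_det (continuous_id (X := Matrix Q' Q' ℝ))).tendsto 1).comp hM
    rwa [Matrix.det_one] at h3
  filter_upwards [hdet.eventually_ne one_ne_zero] with τ hτ
  set θ : Fin n → P := fun j => ∑ a, (c j a * Real.exp (-(τ * (ω a + Λ * wt (ex a))))) • ρ a
    with hθ
  set W : Submodule ℝ P := (⨆ j : Fin n, (Submodule.span ℝ (F '' (Q : Set X))).map
    (LinearMap.mulLeft ℝ (θ j))) ⊔ Submodule.span ℝ (F' '' (box : Set X)) with hW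
  set Ft : X → P := fun m'' => Real.exp (-(τ * (h' m'' + Λ * wt m''))) • F' m'' with hFt
  have hG : ∀ m' : Q', ∑ m'' : Q', M τ m'' m' • Ft m'' ∈ W := by
    intro m'
    by_cases hb : (m' : X) ∈ box
    · have e : ∑ m'' : Q', M τ m'' m' • Ft m'' = Ft m' := by
        simp only [hMdef, dif_pos hb]
        simp
      rw [e]
      apply Submodule.mem_sup_right
      exact Submodule.smul_mem _ _ (Submodule.subset_span ⟨m', hb, rfl⟩)
    · have e : ∑ m'' : Q', M τ m'' m' • Ft m'' = ∑ j, ν m' hb j • (θ j *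
          (Real.exp (-(τ * (h (mm m' hb) + Λ * wt (mm m' hb)))) • F (mm m' hb))) := by
        set m := mm m' hb with hm
        set E0 := Real.exp (-(τ * (h m + Λ * wt m))) with hE0
        have hmQ : m ∈ Q := hmm m' hb
        have r1 : ∀ a, ρ a * F m =
            ∑ m'' : Q', ((if (m'' : X) = ex a + m then 1 else 0) + s a m m'') • F' m'' := by
          intro a
          rw [hs a m hmQ]
          simp only [add_smul, Finset.sum_add_distrib]
          congr 1
          · have h6 := hadd a m hmQ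
            rw [Finset.sum_eq_single (⟨ex a + m, h6⟩ : Q')]
            · simp
            · intro b _ hb'
              rw [if_neg, zero_smul]
              intro h7
              exact hb' (Subtype.ext h7)
            · intro h7
              exact absurd (Finset.mem_univ _) h7
          · rw [Finset.sum_coe_sort Q' (fun m'' => s a m m'' • F' m'')]
        have r2 : ∀ m'' : Q', M τ m'' m' • Ft m'' = ∑ a, ∑ j, (ν m' hb j * c j a *
            ((if (m'' : X) = ex a + m then 1 else 0) + s a m m'') *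
            (Real.exp (-(τ * (ω a + Λ * wt (ex a)))) * E0)) • F' m'' := by
          intro m''
          simp only [hMdef, dif_neg hb, hFt, smul_smul]
          rw [Finset.sum_mul, Finset.sum_smul]
          refine Finset.sum_congr rfl fun a _ => ?_
          rw [← Finset.sum_smul]
          congr 1
          rw [← hm]
          have r3 : Real.exp (-(τ * flE ex wt ω h h' Λ a m m'')) *
              Real.exp (-(τ * (h' m'' + Λ * wt (m'' : X)))) =
              Real.exp (-(τ * (ω a + Λ * wt (ex a)))) * E0 := by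
            rw [hE0, ← Real.exp_add, ← Real.exp_add, flE]
            congr 1
            ring
          rw [mul_assoc, r3, ← Finset.sum_mul, ← Finset.sum_mul]
        have r4 : ∀ j, θ j * (E0 • F m) = ∑ a, ∑ m'' : Q', (c j a *
            ((if (m'' : X) = ex a + m then 1 else 0) + s a m m'') *
            (Real.exp (-(τ * (ω a + Λ * wt (ex a)))) * E0)) • F' m'' := by
          intro j
          rw [hθ]
          simp only
          rw [Finset.sum_mul]
          refine Finset.sum_congr rfl fun a _ => ?_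
          rw [smul_mul_smul_comm, r1 a, Finset.smul_sum]
          refine Finset.sum_congr rfl fun m'' _ => ?_
          rw [smul_smul]
          congr 1
          ring
        rw [Finset.sum_congr rfl fun m'' _ => r2 m'']
        simp only [r4, Finset.smul_sum, smul_smul]
        rw [Finset.sum_comm]
        rw [Finset.sum_comm (s := (Finset.univ : Finset (Fin n)))]
        refine Finset.sum_congr rfl fun a _ => ?_
        rw [Finset.sum_comm]
        refine Finset.sum_congr rfl fun j _ => Finset.sum_congr rfl fun m'' _ => ?_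
        congr 1
        ring
      rw [e]
      apply Submodule.mem_sup_left
      apply Submodule.sum_mem
      intro j _
      apply Submodule.smul_mem
      apply Submodule.mem_iSup_of_mem j
      refine ⟨_, Submodule.smul_mem _ _ (Submodule.subset_span ⟨_, hmm m' hb, rfl⟩), rfl⟩
  intro x hx
  have hinv : M τ * (M τ)⁻¹ = 1 := Matrix.mul_nonsing_inv _ (isUnit_iff_ne_zero.2 hτ)
  have e : Ft x = ∑ m' : Q', (M τ)⁻¹ m' ⟨x, hx⟩ • ∑ m'' : Q', M τ m'' m' • Ft m'' := by
    simp only [Finset.smul_sum, smul_smul]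
    rw [Finset.sum_comm]
    simp only [← Finset.sum_smul]
    have : ∀ m'' : Q', ∑ m' : Q', (M τ)⁻¹ m' ⟨x, hx⟩ * M τ m'' m' = if m'' = ⟨x, hx⟩ then 1 else 0 := by
      intro m''
      rw [← Matrix.one_apply, ← hinv, Matrix.mul_apply]
      refine Finset.sum_congr rfl fun m' _ => mul_comm _ _
    simp only [this]
    simp
  have h4 : Ft x ∈ W := by
    rw [e]
    exact Submodule.sum_mem _ fun m' _ => Submodule.smul_mem _ _ (hG m')
  have h5 : F' x = Real.exp (τ * (h' x + Λ * wt x)) • Ft x := by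
    rw [hFt]
    simp only [smul_smul]
    rw [← Real.exp_add]
    simp
  rw [h5]
  exact Submodule.smul_mem _ _ h4

/-- coefficients from the triangularity hypothesis -/
lemma fl_coeff (Q' : Finset X) (F' : X → P) (wt : X →+ ℕ) (w : ℕ) (g : P)
    (hg : g ∈ Submodule.span ℝ (F' '' {m' | m' ∈ Q' ∧ wt m' < w})) :
    ∃ s : X → ℝ, (∀ m', ¬ (wt m' < w) → s m' = 0) ∧ g = ∑ m' ∈ Q', s m' • F' m' := by
  classical
  set D : Finset X := Q'.filter fun m' => wt m' < w with hD
  have e : ({m' | m' ∈ Q' ∧ wt m' < w} : Set X) = (D : Set X) := by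
    ext m'; simp [hD]
  rw [e, Submodule.mem_span_image_finset_iff_exists_fun'] at hg
  obtain ⟨c, hc⟩ := hg
  refine ⟨fun m' => if wt m' < w then c m' else 0, fun m' h => if_neg h, ?_⟩
  rw [← hc, hD, Finset.sum_filter]
  refine Finset.sum_congr rfl fun m' _ => ?_
  by_cases h : wt m' < w
  · simp only [if_pos h]
  · simp only [if_neg h, zero_smul]

variable [FiniteDimensional ℝ V] {I : Type} [Fintype I]

theorem free_lemma (vec : 𝒜 → V) (deg : V →ₗ[ℝ] ℝ) (hdeg : ∀ a, deg (vec a) = 1)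
    (ρ : 𝒜 → P) (ex : 𝒜 → X) (wt : X →+ ℕ)
    (Q : I → ℕ → Finset X) (hQ0 : ∀ i, Q i 0 = ∅) (F : I → ℕ → X → P)
    (hF : ∀ i S, LinearIndependent ℝ (fun m : Q i S => F i S m))
    (hadd : ∀ i S a, ∀ m ∈ Q i S, ex a + m ∈ Q i (S + 1))
    (tri : ∀ i S a, ∀ m ∈ Q i S, ρ a * F i S m - F i (S + 1) (ex a + m) ∈ Submodule.span ℝ
      (F i (S + 1) '' {m' | m' ∈ Q i (S + 1) ∧ wt m' < wt (ex a + m)}))
    (pos : I → X → V) (hpos : ∀ i S a, ∀ m ∈ Q i S, pos i (ex a + m) = pos i m + vec a)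
    (k : ℕ) (hgen : ∀ i, ∀ S ≤ k, ∀ m ∈ Q i S, Gen vec (pos i m))
    (hsub : ∀ i S a, ∀ m ∈ Q i (S + 1), InCone vec (pos i m - vec a) →
      ∃ m' ∈ Q i S, m = ex a + m') :
    ∃ θ : Fin (finrank ℝ V) → P, (∀ j, θ j ∈ Submodule.span ℝ (Set.range ρ)) ∧
      ∀ i, FreeUpTo θ (fun S => Submodule.span ℝ (F i S '' (Q i S : Set X))) k := by
  classical
  obtain ⟨ω, c, hh, sg, co, T1, T2, T3, T4, T5⟩ := exists_triangulation vec deg hdeg
  -- structure constants
  have hcoef : ∀ i S a m, ∃ s : X → ℝ, m ∈ Q i S →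
      (∀ m', ¬ (wt m' < wt (ex a + m)) → s m' = 0) ∧
      ρ a * F i S m = F i (S + 1) (ex a + m) + ∑ m' ∈ Q i (S + 1), s m' • F i (S + 1) m' := by
    intro i S a m
    by_cases hm : m ∈ Q i S
    · obtain ⟨s, h1, h2⟩ := fl_coeff _ _ wt _ _ (tri i S a m hm)
      exact ⟨s, fun _ => ⟨h1, by rw [← h2]; ring⟩⟩
    · exact ⟨0, fun h => absurd h hm⟩
  choose s hs using hcoef
  set box : I → ℕ → Finset X := fun i S =>
    (Q i S).filter fun m => ∀ a ∈ sg (pos i m), co (pos i m) a ≤ 1 with hbox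
  obtain ⟨Λ, hΛ0, hΛ⟩ : ∃ Λ : ℝ, 0 ≤ Λ ∧ ∀ i, ∀ S ∈ Finset.range k, ∀ m ∈ Q i S,
      ∀ m' ∈ Q i (S + 1), ∀ a, hh (pos i m') < hh (pos i m) + ω a + Λ := by
    have h1 : ∀ᶠ Λ : ℝ in Filter.atTop, 0 ≤ Λ ∧ ∀ i, ∀ S ∈ Finset.range k, ∀ m ∈ Q i S,
        ∀ m' ∈ Q i (S + 1), ∀ a, hh (pos i m') < hh (pos i m) + ω a + Λ := by
      refine (Filter.eventually_ge_atTop 0).and ?_
      simp only [Filter.eventually_all, Filter.eventually_all_finset]
      intro i S _ m _ m' _ a
      filter_upwards [Filter.eventually_gt_atTop (hh (pos i m') - (hh (pos i m) + ω a))] with Λ h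
      linarith
    exact h1.exists
  -- the cells do not change when a generator of the cell is subtracted
  have hbox2 : ∀ i, ∀ S < k, ∀ m' ∈ Q i (S + 1), m' ∉ box i (S + 1) →
      ∃ m ∈ Q i S, ∃ a₀ ∈ sg (pos i m), m' = ex a₀ + m := by
    intro i S hS m' hm' hnb
    have h1 : ¬ ∀ a ∈ sg (pos i m'), co (pos i m') a ≤ 1 := fun h =>
      hnb (Finset.mem_filter.2 ⟨hm', h⟩)
    push Not at h1
    obtain ⟨a, ha, hca⟩ := h1
    have hg := hgen i (S + 1) hS m' hm'
    obtain ⟨t1, t2, t3, t4, t5⟩ := T1 _ hg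
    have e1 : pos i m' - vec a = ∑ b, (co (pos i m') b - if b = a then 1 else 0) • vec b := by
      simp only [sub_smul, Finset.sum_sub_distrib]
      rw [← t5]
      simp
    have e2 : ∀ b, 0 ≤ co (pos i m') b - if b = a then 1 else 0 := by
      intro b
      by_cases hb : b = a
      · subst hb
        simp only [if_true]
        linarith
      · rw [if_neg hb, sub_zero]
        by_cases hb' : b ∈ sg (pos i m')
        · exact (t3 b hb').le
        · exact (t4 b hb').ge
    obtain ⟨m, hm, he⟩ := hsub i S a m' hm' ⟨_, e2, e1⟩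
    refine ⟨m, hm, a, ?_, he⟩
    have e3 : pos i m = pos i m' - vec a := by
      rw [he, hpos i S a m hm, add_sub_cancel_right]
    have e4 : sg (pos i m) = sg (pos i m') := by
      apply T5 _ _ (hgen i S (by omega) m hm) hg
      refine ⟨_, e2, ?_, e3.trans e1⟩
      intro b hb
      rw [t4 b hb, if_neg, sub_zero]
      rintro rfl
      exact hb ha
    rw [e4]
    exact ha
  have hτ : ∀ᶠ τ : ℝ in Filter.atTop, ∀ i, ∀ S ∈ Finset.range k, ∀ m' ∈ Q i (S + 1),
      F i (S + 1) m' ∈ (⨆ j : Fin (finrank ℝ V), (Submodule.span ℝ (F i S '' (Q i S : Set X))).map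
        (LinearMap.mulLeft ℝ (∑ a, (c j a * Real.exp (-(τ * (ω a + Λ * wt (ex a))))) • ρ a))) ⊔
        Submodule.span ℝ (F i (S + 1) '' (box i (S + 1) : Set X)) := by
    rw [Filter.eventually_all]
    intro i
    rw [Filter.eventually_all_finset]
    intro S hS
    have hSk : S < k := Finset.mem_range.1 hS
    apply fl_degen ρ ex wt (Q i S) (Q i (S + 1)) (F i S) (F i (S + 1)) (hadd i S)
      (fun a m => s i S a m) (fun a m hm => (hs i S a m hm).1) (fun a m hm => (hs i S a m hm).2)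
      ω c (fun m => hh (pos i m)) (fun m => hh (pos i m)) (fun m => sg (pos i m))
    · intro m hm a ha
      have g1 := hgen i S hSk.le m hm
      have g2 := hgen i (S + 1) hSk _ (hadd i S a m hm)
      rw [hpos i S a m hm] at g2 ⊢
      exact T2 _ a g1 g2 ha
    · intro m hm a ha
      have g1 := hgen i S hSk.le m hm
      have g2 := hgen i (S + 1) hSk _ (hadd i S a m hm)
      rw [hpos i S a m hm] at g2 ⊢
      exact (T3 _ a g1 g2 ha).1
    · intro m hm a₀ ha₀
      exact T4 _ (hgen i S hSk.le m hm) a₀ ha₀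
    · exact hΛ0
    · exact hΛ i S hS
    · exact hbox2 i S hSk
  obtain ⟨τ, hτ⟩ := hτ.exists
  set θ : Fin (finrank ℝ V) → P := fun j =>
    ∑ a, (c j a * Real.exp (-(τ * (ω a + Λ * wt (ex a))))) • ρ a with hθ
  refine ⟨θ, fun j => ?_, fun i => ?_⟩
  · exact Submodule.sum_mem _ fun a _ => Submodule.smul_mem _ _ (Submodule.subset_span ⟨a, rfl⟩)
  set B : ℕ → Submodule ℝ P := fun S => Submodule.span ℝ (F i S '' (Q i S : Set X)) with hB
  have hfin : ∀ S, FiniteDimensional ℝ (B S) := fun S =>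
    FiniteDimensional.span_of_finite ℝ ((Q i S).finite_toSet.image _)
  have hθB : ∀ S j, ∀ f ∈ B S, θ j * f ∈ B (S + 1) := by
    intro S j f hf
    induction hf using Submodule.span_induction with
    | mem x hx =>
      obtain ⟨m, hm, rfl⟩ := hx
      rw [hθ]
      simp only [Finset.sum_mul, smul_mul_assoc]
      refine Submodule.sum_mem _ fun a _ => Submodule.smul_mem _ _ ?_
      rw [(hs i S a m hm).2]
      refine Submodule.add_mem _ (Submodule.subset_span ⟨_, hadd i S a m hm, rfl⟩) ?_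
      exact Submodule.sum_mem _ fun m' hm' =>
        Submodule.smul_mem _ _ (Submodule.subset_span ⟨m', hm', rfl⟩)
    | zero => simp
    | add x y _ _ hx hy => rw [mul_add]; exact Submodule.add_mem _ hx hy
    | smul r x _ hx => rw [mul_smul_comm]; exact Submodule.smul_mem _ _ hx
  have hqq : ∀ l ≤ k, qq θ B l ≤ (box i l).card := by
    intro l hl
    cases l with
    | zero =>
      have : B 0 = ⊥ := by
        simp only [hB, hQ0 i]
        simp
      rw [qq, this, finrank_bot]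
      simp
    | succ S =>
      rw [qq, Nat.sub_le_iff_le_add]
      have hle : B (S + 1) ≤ TB θ B (S + 1) ⊔
          Submodule.span ℝ (F i (S + 1) '' (box i (S + 1) : Set X)) := by
        simp only [hB]
        rw [Submodule.span_le]
        rintro _ ⟨m', hm', rfl⟩
        exact hτ i S (Finset.mem_range.2 hl) m' hm'
      have hf1 : FiniteDimensional ℝ (TB θ B (S + 1)) := by
        unfold TB
        infer_instance
      have hf2 : FiniteDimensional ℝ
          (Submodule.span ℝ (F i (S + 1) '' (box i (S + 1) : Set X))) :=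
        FiniteDimensional.span_of_finite ℝ ((box i (S + 1)).finite_toSet.image _)
      have h1 := Submodule.finrank_mono hle
      have h2 := Submodule.finrank_add_le_finrank_add_finrank (TB θ B (S + 1))
        (Submodule.span ℝ (F i (S + 1) '' (box i (S + 1) : Set X)))
      have h3 : finrank ℝ (Submodule.span ℝ (F i (S + 1) '' (box i (S + 1) : Set X))) ≤
          (box i (S + 1)).card := by
        rw [← Finset.coe_image]
        exact (finrank_span_finset_le_card _).trans Finset.card_image_le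
      omega
  intro S hS
  apply le_antisymm
  · exact finrank_le_sum θ B hfin hθB S
  · calc ∑ l ∈ Finset.range (S + 1), Nat.multichoose (finrank ℝ V) (S - l) * qq θ B l
        ≤ ∑ l ∈ Finset.range (S + 1), Nat.multichoose (finrank ℝ V) (S - l) * (box i l).card := by
          refine Finset.sum_le_sum fun l hl => Nat.mul_le_mul_left _ (hqq l ?_)
          have := Finset.mem_range.1 hl
          omega
      _ ≤ (Q i S).card := by
          apply fl_count vec ex (Q i) (hadd i) (pos i) (hpos i) k (hgen i) sg co T1 T5 (box i)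
          · intro S; exact Finset.filter_subset _ _
          · intro S m hm; exact (Finset.mem_filter.1 hm).2
          · exact hS
      _ = finrank ℝ (B S) := by
          have h1 := finrank_span_eq_card (hF i S)
          rw [Fintype.card_coe] at h1
          rw [← h1]
          change _ = finrank ℝ (Submodule.span ℝ (F i S '' (Q i S : Set X)))
          rw [Set.image_eq_range]
          rfl

end FL

end Pool.Agent.HYP
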