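import Pool.Agent.HYP.Basic
import Pool.Agent.HYP.Count

set_option autoImplicit false

namespace Pool.Agent.HYP

open Finset

/-- shift data: at every `z`-node the three functionals lie in `(0,1)` -/
def sh_Shift : (T : Tr) → (Leaf T → ℝ) → (Node T → ℝ) → Prop
  | .leaf _, _, _ => True
  | .node l r, a, u =>
      sh_Shift l (fun x => a (Sum.inl x)) (fun x => u (some (Sum.inl x))) ∧
      sh_Shift r (fun x => a (Sum.inr x)) (fun x => u (some (Sum.inr x))) ∧
      (r.isY = false →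
        (0 < u none ∧ u none < 1) ∧
        (0 < lab l (fun x => a (Sum.inl x)) (fun x => u (some (Sum.inl x))) - u none ∧
          lab l (fun x => a (Sum.inl x)) (fun x => u (some (Sum.inl x))) - u none < 1) ∧
        (0 < lab r (fun x => a (Sum.inr x)) (fun x => u (some (Sum.inr x))) - u none ∧
          lab r (fun x => a (Sum.inr x)) (fun x => u (some (Sum.inr x))) - u none < 1))

/-- admissibility at `z`-nodes only -/
def sh_AdmZ {R : Type} [Ring R] [LE R] : (T : Tr) → (Leaf T → R) → (Node T → R) → Prop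
  | .leaf _, _, _ => True
  | .node l r, a, e =>
      sh_AdmZ l (fun x => a (Sum.inl x)) (fun x => e (some (Sum.inl x))) ∧
      sh_AdmZ r (fun x => a (Sum.inr x)) (fun x => e (some (Sum.inr x))) ∧
      (r.isY = false → 0 ≤ e none ∧
        e none ≤ lab l (fun x => a (Sum.inl x)) (fun x => e (some (Sum.inl x))) ∧
        e none ≤ lab r (fun x => a (Sum.inr x)) (fun x => e (some (Sum.inr x))))

/-- the pattern at the `y`-nodes: `x ∈ {0,…,b}`, `b ∈ {0,1}` -/
def sh_Pat {R : Type} [Ring R] : (T : Tr) → (Leaf T → R) → (Node T → R) → Prop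
  | .leaf _, _, _ => True
  | .node l (.leaf false), a, e =>
      sh_Pat l (fun x => a (Sum.inl x)) (fun x => e (some (Sum.inl x))) ∧
      ((e none = 0 ∧ a (Sum.inr ()) = 0) ∨ (e none = 0 ∧ a (Sum.inr ()) = 1) ∨
        (e none = 1 ∧ a (Sum.inr ()) = 1))
  | .node l r, a, e =>
      sh_Pat l (fun x => a (Sum.inl x)) (fun x => e (some (Sum.inl x))) ∧
      sh_Pat r (fun x => a (Sum.inr x)) (fun x => e (some (Sum.inr x)))

theorem sh_lab_cast (T : Tr) (a : Leaf T → ℤ) (e : Node T → ℤ) :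
    lab T (fun x => (a x : ℝ)) (fun x => (e x : ℝ)) = ((lab T a e : ℤ) : ℝ) := by
  induction T with
  | leaf c => rfl
  | node l r ihl ihr =>
    simp only [lab]
    rw [ihl, ihr]
    push_cast
    ring

/-- integer functional + shift in `(0,1)` is nonnegative iff the integer is -/
theorem sh_int {z : ℤ} {s : ℝ} (h0 : 0 < s) (h1 : s < 1) : (0 : ℝ) ≤ z + s ↔ 0 ≤ z := by
  constructor
  · intro h
    by_contra hz
    have : z ≤ -1 := by omega
    have : (z : ℝ) ≤ -1 := by exact_mod_cast this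
    linarith
  · intro h
    have : (0 : ℝ) ≤ z := by exact_mod_cast h
    linarith

theorem sh_AdmZ_iff (T : Tr) (a : Leaf T → ℤ) (e : Node T → ℤ) (au : Leaf T → ℝ)
    (u : Node T → ℝ) (h : sh_Shift T au u) :
    sh_AdmZ T a e ↔ sh_AdmZ T (fun x => (a x : ℝ) + au x) (fun x => (e x : ℝ) + u x) := by
  induction T with
  | leaf c => exact Iff.rfl
  | node l r ihl ihr =>
    obtain ⟨h1, h2, h3⟩ := h
    simp only [sh_AdmZ]
    refine and_congr (ihl _ _ _ _ h1) (and_congr (ihr _ _ _ _ h2) ?_)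
    refine imp_congr_right fun hr => ?_
    obtain ⟨⟨p1, p2⟩, ⟨p3, p4⟩, p5, p6⟩ := h3 hr
    have e1 : lab l (fun x => (a (Sum.inl x) : ℝ) + au (Sum.inl x))
        (fun x => (e (some (Sum.inl x)) : ℝ) + u (some (Sum.inl x))) =
        ((lab l (fun x => a (Sum.inl x)) (fun x => e (some (Sum.inl x))) : ℤ) : ℝ) +
        lab l (fun x => au (Sum.inl x)) (fun x => u (some (Sum.inl x))) := by
      rw [← sh_lab_cast, ← lab_add]
      rfl
    have e2 : lab r (fun x => (a (Sum.inr x) : ℝ) + au (Sum.inr x))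
        (fun x => (e (some (Sum.inr x)) : ℝ) + u (some (Sum.inr x))) =
        ((lab r (fun x => a (Sum.inr x)) (fun x => e (some (Sum.inr x))) : ℤ) : ℝ) +
        lab r (fun x => au (Sum.inr x)) (fun x => u (some (Sum.inr x))) := by
      rw [← sh_lab_cast, ← lab_add]
      rfl
    rw [e1, e2]
    refine and_congr (sh_int p1 p2).symm (and_congr ?_ ?_)
    · rw [← sub_nonneg, ← sub_nonneg (b := (e none : ℝ) + u none), ← sh_int p3 p4]
      push_cast
      constructor <;> intro h <;> linarith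
    · rw [← sub_nonneg, ← sub_nonneg (b := (e none : ℝ) + u none), ← sh_int p5 p6]
      push_cast
      constructor <;> intro h <;> linarith

theorem sh_Pat_z {R : Type} [Ring R] (l r : Tr) (hr : r.isY = false) (a : Leaf (.node l r) → R)
    (e : Node (.node l r) → R) : sh_Pat (.node l r) a e ↔
      sh_Pat l (fun x => a (Sum.inl x)) (fun x => e (some (Sum.inl x))) ∧
      sh_Pat r (fun x => a (Sum.inr x)) (fun x => e (some (Sum.inr x))) := by
  match r, hr with
  | .leaf true, _ => exact Iff.rfl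
  | .node _ _, _ => exact Iff.rfl

theorem sh_AdmZ_of_Adm {R : Type} [Ring R] [LE R] (T : Tr) (a : Leaf T → R) (e : Node T → R)
    (h : Adm T a e) : sh_AdmZ T a e := by
  induction T with
  | leaf c => trivial
  | node l r ihl ihr =>
    obtain ⟨h1, h2, h3, h4, h5⟩ := h
    exact ⟨ihl _ _ h1, ihr _ _ h2, fun _ => ⟨h3, h4, h5⟩⟩

theorem sh_isY {r : Tr} (h : r.isY = true) : r = .leaf false := by
  match r, h with
  | .leaf false, _ => rfl

theorem sh_Pat_of_Adm (T : Tr) (a : Leaf T → ℤ) (e : Node T → ℤ) (h : Adm T a e)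
    (hy : ∀ x, col T x = false → a x = 0 ∨ a x = 1) : sh_Pat T a e := by
  induction T with
  | leaf c => trivial
  | node l r ihl ihr =>
    obtain ⟨h1, h2, h3, h4, h5⟩ := h
    by_cases hr : r.isY = true
    · obtain rfl := sh_isY hr
      refine ⟨ihl _ _ h1 fun x hx => hy (Sum.inl x) hx, ?_⟩
      have h6 := hy (Sum.inr ()) rfl
      have h7 : e none ≤ a (Sum.inr ()) := h5
      omega
    · rw [sh_Pat_z _ _ (by simpa using hr)]
      exact ⟨ihl _ _ h1 fun x hx => hy (Sum.inl x) hx, ihr _ _ h2 fun x hx => hy (Sum.inr x) hx⟩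

theorem sh_Pat_congr {R : Type} [Ring R] (T : Tr) (a a' : Leaf T → R) (e e' : Node T → R)
    (h : sh_Pat T a e) (ha : ∀ x, col T x = false → a' x = a x)
    (he : ∀ ν, isZ T ν = false → e' ν = e ν) : sh_Pat T a' e' := by
  induction T with
  | leaf c => trivial
  | node l r ihl ihr =>
    by_cases hr : r.isY = true
    · obtain rfl := sh_isY hr
      refine ⟨ihl _ _ _ _ h.1 (fun x hx => ha (Sum.inl x) hx)
        (fun x hx => he (some (Sum.inl x)) hx), ?_⟩
      have h1 : a' (Sum.inr ()) = a (Sum.inr ()) := ha (Sum.inr ()) rfl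
      have h2 : e' none = e none := he none rfl
      rw [h1, h2]
      exact h.2
    · have hr' : r.isY = false := by simpa using hr
      rw [sh_Pat_z _ _ hr'] at h ⊢
      exact ⟨ihl _ _ _ _ h.1 (fun x hx => ha (Sum.inl x) hx)
        (fun x hx => he (some (Sum.inl x)) hx), ihr _ _ _ _ h.2 (fun x hx => ha (Sum.inr x) hx)
        (fun x hx => he (some (Sum.inr x)) hx)⟩

section

variable (R : Type) [CommRing R] [LinearOrder R] [IsStrictOrderedRing R]

/-- for trees with a `z`-node as root -/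
def sh_Q0 (T : Tr) : Prop := ∀ (a : Leaf T → R) (e : Node T → R), sh_Pat T a e → sh_AdmZ T a e →
  Adm T a e ∧ 0 ≤ lab T a e

def sh_Q1 (T : Tr) : Prop := ∀ (a : Leaf T → R) (e : Node T → R), sh_Pat T a e → sh_AdmZ T a e →
  0 ≤ lab T a e → Adm T a e

variable {R}

theorem sh_Q1_leaf (c : Bool) : sh_Q1 R (.leaf c) := fun _ _ _ _ _ => trivial

theorem sh_Q1_of_Q0 {T : Tr} (h : sh_Q0 R T) : sh_Q1 R T := fun a e h1 h2 _ => (h a e h1 h2).1

theorem sh_Q0_node {l r : Tr} (hr : r.isY = false) (h1 : sh_Q1 R l) (h2 : sh_Q1 R r) :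
    sh_Q0 R (.node l r) := by
  intro a e hp h
  rw [sh_Pat_z _ _ hr] at hp
  obtain ⟨q1, q2, q3⟩ := h
  obtain ⟨p1, p2, p3⟩ := q3 hr
  refine ⟨⟨h1 _ _ hp.1 q1 (p1.trans p2), h2 _ _ hp.2 q2 (p1.trans p3), p1, p2, p3⟩, ?_⟩
  simp only [lab]
  linarith

theorem sh_Q1_wrap {c : Tr} (h : sh_Q0 R c) : sh_Q1 R (.node c (.leaf false)) := by
  intro a e hp hz hl
  obtain ⟨hp1, hp2⟩ := hp
  obtain ⟨q1, q2⟩ := h _ _ hp1 hz.1
  have hl' : 0 ≤ lab c (fun x => a (Sum.inl x)) (fun x => e (some (Sum.inl x))) +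
    a (Sum.inr ()) - 2 * e none := hl
  refine ⟨q1, trivial, ?_, ?_, ?_⟩
  · rcases hp2 with ⟨h1, h2⟩ | ⟨h1, h2⟩ | ⟨h1, h2⟩ <;> rw [h1]
    exact zero_le_one
  · rcases hp2 with ⟨h1, h2⟩ | ⟨h1, h2⟩ | ⟨h1, h2⟩
    · rw [h1]; exact q2
    · rw [h1]; exact q2
    · rw [h1, h2] at hl'
      rw [h1]
      linarith
  · show e none ≤ a (Sum.inr ())
    rcases hp2 with ⟨h1, h2⟩ | ⟨h1, h2⟩ | ⟨h1, h2⟩ <;> rw [h1, h2]
    exact zero_le_one

theorem sh_Q0_cherry : sh_Q0 R (.node (.leaf true) (.leaf true)) :=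
  sh_Q0_node rfl (sh_Q1_leaf _) (sh_Q1_leaf _)

theorem sh_Q0_XT (r : ℕ) : sh_Q0 R (XT r) := by
  induction r with
  | zero => exact sh_Q0_cherry
  | succ r ih => exact sh_Q0_node rfl (sh_Q1_wrap ih) (sh_Q1_wrap sh_Q0_cherry)

theorem sh_Q0_TT (r : ℕ) (par : Bool) : sh_Q0 R (TT r par) := by
  cases par
  · exact sh_Q0_node rfl (sh_Q1_of_Q0 (sh_Q0_XT r)) (sh_Q1_wrap sh_Q0_cherry)
  · exact sh_Q0_node rfl (sh_Q1_of_Q0 (sh_Q0_XT r)) (sh_Q1_leaf _)

theorem sh_Adm_iff (r : ℕ) (par : Bool) (a : Leaf (TT r par) → R) (e : Node (TT r par) → R)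
    (h : sh_Pat (TT r par) a e) : Adm (TT r par) a e ↔ sh_AdmZ (TT r par) a e :=
  ⟨sh_AdmZ_of_Adm _ _ _, fun h2 => (sh_Q0_TT r par a e h h2).1⟩

end

theorem sh_lab_continuous {V : Type} [TopologicalSpace V] (T : Tr) (a : V → Leaf T → ℝ)
    (u : V → Node T → ℝ) (ha : ∀ x, Continuous fun v => a v x)
    (hu : ∀ x, Continuous fun v => u v x) : Continuous fun v => lab T (a v) (u v) := by
  induction T with
  | leaf c => exact ha ()
  | node l r ihl ihr =>
    simp only [lab]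
    exact ((ihl _ _ (fun x => ha (Sum.inl x)) (fun x => hu (some (Sum.inl x)))).add
      (ihr _ _ (fun x => ha (Sum.inr x)) (fun x => hu (some (Sum.inr x))))).sub
      ((hu none).const_smul 2 |>.congr fun v => by simp [two_mul])

theorem sh_open {V : Type} [TopologicalSpace V] (T : Tr) (a : V → Leaf T → ℝ)
    (u : V → Node T → ℝ) (ha : ∀ x, Continuous fun v => a v x)
    (hu : ∀ x, Continuous fun v => u v x) : IsOpen {v | sh_Shift T (a v) (u v)} := by
  induction T with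
  | leaf c => exact isOpen_univ
  | node l r ihl ihr =>
    have i1 := ihl _ _ (fun x => ha (Sum.inl x)) (fun x => hu (some (Sum.inl x)))
    have i2 := ihr _ _ (fun x => ha (Sum.inr x)) (fun x => hu (some (Sum.inr x)))
    have c1 := sh_lab_continuous l _ _ (fun x => ha (Sum.inl x)) (fun x => hu (some (Sum.inl x)))
    have c2 := sh_lab_continuous r _ _ (fun x => ha (Sum.inr x)) (fun x => hu (some (Sum.inr x)))
    have c0 := hu none
    by_cases hr : r.isY = false
    · have : {v | sh_Shift (.node l r) (a v) (u v)} =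
          {v | sh_Shift l (fun x => a v (Sum.inl x)) (fun x => u v (some (Sum.inl x)))} ∩
          ({v | sh_Shift r (fun x => a v (Sum.inr x)) (fun x => u v (some (Sum.inr x)))} ∩
          (({v | 0 < u v none} ∩ {v | u v none < 1}) ∩
          (({v | 0 < lab l (fun x => a v (Sum.inl x)) (fun x => u v (some (Sum.inl x))) -
            u v none} ∩
          {v | lab l (fun x => a v (Sum.inl x)) (fun x => u v (some (Sum.inl x))) -
            u v none < 1}) ∩
          ({v | 0 < lab r (fun x => a v (Sum.inr x)) (fun x => u v (some (Sum.inr x))) -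
            u v none} ∩
          {v | lab r (fun x => a v (Sum.inr x)) (fun x => u v (some (Sum.inr x))) -
            u v none < 1})))) := by
        ext v
        exact ⟨fun h => ⟨h.1, h.2.1, h.2.2 hr⟩, fun h => ⟨h.1, h.2.1, fun _ => h.2.2⟩⟩
      rw [this]
      exact i1.inter (i2.inter (((isOpen_lt continuous_const c0).inter
        (isOpen_lt c0 continuous_const)).inter
        (((isOpen_lt continuous_const (c1.sub c0)).inter
          (isOpen_lt (c1.sub c0) continuous_const)).inter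
        ((isOpen_lt continuous_const (c2.sub c0)).inter
          (isOpen_lt (c2.sub c0) continuous_const)))))
    · have : {v | sh_Shift (.node l r) (a v) (u v)} =
          {v | sh_Shift l (fun x => a v (Sum.inl x)) (fun x => u v (some (Sum.inl x)))} ∩
          {v | sh_Shift r (fun x => a v (Sum.inr x)) (fun x => u v (some (Sum.inr x)))} := by
        ext v
        exact ⟨fun h => ⟨h.1, h.2.1⟩, fun h => ⟨h.1, h.2, fun h' => absurd h' hr⟩⟩
      rw [this]
      exact i1.inter i2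

/-! ### explicit shifts -/

/-- glue functions on the nodes -/
def sh_glue {R : Type} {l r : Tr} (c : R) (u : Node l → R) (v : Node r → R) : Node (.node l r) → R
  | none => c
  | some (Sum.inl x) => u x
  | some (Sum.inr x) => v x

/-- values at the `y`-nodes: `u ν = - x ν` -/
def sh_Y (T : Tr) (x u : Node T → ℝ) : Prop := ∀ ν, isZ T ν = false → u ν = - x ν

/-- `z`-leaves `1 + σ`, `y`-leaves `-b` -/
def sh_A (T : Tr) (σ : ℝ) (b : Leaf T → ℝ) : Leaf T → ℝ := fun x => if col T x then 1 + σ else - b x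

/-- pattern of a `y`-node over a tree with top label shift `1 + (b - 2x)(1 - α)` (or `1`) -/
theorem sh_after {b x α : ℝ} (h : (x = 0 ∧ b = 0) ∨ (x = 0 ∧ b = 1) ∨ (x = 1 ∧ b = 1))
    (h0 : 0 ≤ α) (h1 : α ≤ 1) :
    ∃ w, α ≤ w ∧ w ≤ 2 - α ∧ |w - b + 2 * x - 1| ≤ α := by
  rcases h with ⟨rfl, rfl⟩ | ⟨rfl, rfl⟩ | ⟨rfl, rfl⟩
  · exact ⟨1, h1, by linarith, by simp [h0]⟩
  · exact ⟨2 - α, by linarith, le_rfl, by
      rw [show (2 - α - 1 + 2 * 0 - 1 : ℝ) = -α by ring, abs_neg, abs_of_nonneg h0]⟩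
  · exact ⟨α, le_rfl, by linarith, by
      rw [show (α - 1 + 2 * 1 - 1 : ℝ) = α by ring, abs_of_nonneg h0]⟩

/-- a cherry with top label shift `w` -/
theorem sh_cherry (σ w : ℝ) (b : Leaf (.node (.leaf true) (.leaf true)) → ℝ)
    (x : Node (.node (.leaf true) (.leaf true)) → ℝ) (hσ : 0 ≤ σ) (h0 : 2 * σ < w) (h1 : w < 2) :
    ∃ u, sh_Y _ x u ∧ sh_Shift (.node (.leaf true) (.leaf true)) (sh_A _ σ b) u ∧
      lab (.node (.leaf true) (.leaf true)) (sh_A _ σ b) u = w := by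
  refine ⟨fun _ => (2 * (1 + σ) - w) / 2, ?_, ⟨trivial, trivial, fun _ => ?_⟩, ?_⟩
  · intro ν hν
    match ν, hν with
    | none, h => cases h
  · show (0 < (2 * (1 + σ) - w) / 2 ∧ (2 * (1 + σ) - w) / 2 < 1) ∧
      (0 < (1 + σ) - (2 * (1 + σ) - w) / 2 ∧ (1 + σ) - (2 * (1 + σ) - w) / 2 < 1) ∧
      (0 < (1 + σ) - (2 * (1 + σ) - w) / 2 ∧ (1 + σ) - (2 * (1 + σ) - w) / 2 < 1)
    refine ⟨⟨?_, ?_⟩, ⟨?_, ?_⟩, ?_, ?_⟩ <;> linarith
  · show (1 + σ) + (1 + σ) - 2 * ((2 * (1 + σ) - w) / 2) = w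
    ring

/-- wrap a tree with a `y`-leaf -/
theorem sh_wrap (c : Tr) (σ α : ℝ) (h0 : 0 ≤ α) (h1 : α ≤ 1)
    (b : Leaf (.node c (.leaf false)) → ℝ) (x : Node (.node c (.leaf false)) → ℝ)
    (hp : sh_Pat (.node c (.leaf false)) b x)
    (hc : ∀ w, α ≤ w → w ≤ 2 - α → ∃ u, sh_Y c (fun ν => x (some (Sum.inl ν))) u ∧
      sh_Shift c (sh_A c σ (fun y => b (Sum.inl y))) u ∧
      lab c (sh_A c σ (fun y => b (Sum.inl y))) u = w) :
    ∃ u, sh_Y _ x u ∧ sh_Shift (.node c (.leaf false)) (sh_A _ σ b) u ∧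
      |lab (.node c (.leaf false)) (sh_A _ σ b) u - 1| ≤ α := by
  obtain ⟨w, w1, w2, w3⟩ := sh_after hp.2 h0 h1
  obtain ⟨u, u1, u2, u3⟩ := hc w w1 w2
  refine ⟨sh_glue (- x none) u (fun ν => nomatch ν), ?_, ⟨u2, trivial, fun h => ?_⟩, ?_⟩
  · intro ν hν
    match ν, hν with
    | none, _ => rfl
    | some (Sum.inl ν), h => exact u1 ν h
  · cases h
  · have : lab (.node c (.leaf false)) (sh_A _ σ b)
        (sh_glue (- x none) u (fun ν => nomatch ν)) = w - b (Sum.inr ()) + 2 * x none := by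
      show lab c (sh_A c σ (fun y => b (Sum.inl y))) u + -b (Sum.inr ()) - 2 * (- x none) = _
      rw [u3]; ring
    rw [this]
    exact w3

/-- join two trees at a `z`-node -/
theorem sh_join (l r : Tr) (hr : r.isY = false) (σ : ℝ) (b : Leaf (.node l r) → ℝ)
    (x : Node (.node l r) → ℝ) (ul : Node l → ℝ) (ur : Node r → ℝ)
    (hl1 : sh_Y l (fun ν => x (some (Sum.inl ν))) ul)
    (hl2 : sh_Shift l (sh_A l σ (fun y => b (Sum.inl y))) ul)
    (hr1 : sh_Y r (fun ν => x (some (Sum.inr ν))) ur)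
    (hr2 : sh_Shift r (sh_A r σ (fun y => b (Sum.inr y))) ur) (w A B : ℝ)
    (hA : lab l (sh_A l σ (fun y => b (Sum.inl y))) ul = A)
    (hB : lab r (sh_A r σ (fun y => b (Sum.inr y))) ur = B)
    (h1 : w < A + B) (h2 : A + B - w < 2) (h3 : 0 < A - B + w) (h4 : A - B + w < 2)
    (h5 : 0 < B - A + w) (h6 : B - A + w < 2) :
    ∃ u, sh_Y _ x u ∧ sh_Shift (.node l r) (sh_A _ σ b) u ∧
      lab (.node l r) (sh_A _ σ b) u = w := by
  refine ⟨sh_glue ((A + B - w) / 2) ul ur, ?_, ⟨hl2, hr2, fun _ => ?_⟩, ?_⟩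
  · intro ν hν
    match ν, hν with
    | none, h =>
      exfalso
      have : (!r.isY) = false := h
      rw [hr] at this
      cases this
    | some (Sum.inl ν), h => exact hl1 ν h
    | some (Sum.inr ν), h => exact hr1 ν h
  · show (0 < (A + B - w) / 2 ∧ (A + B - w) / 2 < 1) ∧
      (0 < lab l (sh_A l σ (fun y => b (Sum.inl y))) ul - (A + B - w) / 2 ∧
        lab l (sh_A l σ (fun y => b (Sum.inl y))) ul - (A + B - w) / 2 < 1) ∧
      (0 < lab r (sh_A r σ (fun y => b (Sum.inr y))) ur - (A + B - w) / 2 ∧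
        lab r (sh_A r σ (fun y => b (Sum.inr y))) ur - (A + B - w) / 2 < 1)
    rw [hA, hB]
    refine ⟨⟨?_, ?_⟩, ⟨?_, ?_⟩, ?_, ?_⟩ <;> linarith
  · show lab l (sh_A l σ (fun y => b (Sum.inl y))) ul +
      lab r (sh_A r σ (fun y => b (Sum.inr y))) ur - 2 * ((A + B - w) / 2) = w
    rw [hA, hB]; ring

theorem sh_leg (σ α : ℝ) (h0 : 2 * σ < α) (h1 : α ≤ 1) (hσ : 0 ≤ σ) (b : Leaf Leg → ℝ)
    (x : Node Leg → ℝ) (hp : sh_Pat Leg b x) :
    ∃ u, sh_Y Leg x u ∧ sh_Shift Leg (sh_A _ σ b) u ∧ |lab Leg (sh_A _ σ b) u - 1| ≤ α := by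
  refine sh_wrap _ σ α (by linarith) h1 b x hp fun w w1 w2 => ?_
  exact sh_cherry σ w _ _ hσ (by linarith) (by linarith)

/-- `XT r` can be given any top label shift in `[(2r+1)α, 2-(2r+1)α]` -/
theorem sh_XT (σ α : ℝ) (h0 : 2 * σ < α) (hσ : 0 ≤ σ) : ∀ (r : ℕ), (2 * r + 1) * α ≤ 1 →
    ∀ (b : Leaf (XT r) → ℝ) (x : Node (XT r) → ℝ), sh_Pat (XT r) b x →
    ∀ w, (2 * r + 1) * α ≤ w → w ≤ 2 - (2 * r + 1) * α →
    ∃ u, sh_Y (XT r) x u ∧ sh_Shift (XT r) (sh_A _ σ b) u ∧ lab (XT r) (sh_A _ σ b) u = w := by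
  intro r
  induction r with
  | zero =>
    intro h b x _ w w1 w2
    simp only [Nat.cast_zero, mul_zero, zero_add, one_mul] at w1 w2
    exact sh_cherry σ w b x hσ (by linarith) (by linarith)
  | succ r ih =>
    intro h b x hp w w1 w2
    push_cast at h w1 w2
    have hα : 0 < α := by linarith
    have hr0 : (0 : ℝ) ≤ r := Nat.cast_nonneg r
    have hrα : 0 ≤ r * α := by positivity
    obtain ⟨hp1, hp2⟩ := (sh_Pat_z (.node (XT r) (.leaf false)) Leg rfl b x).1 hp
    obtain ⟨ul, l1, l2, l3⟩ := sh_wrap (XT r) σ ((2 * r + 1) * α) (by nlinarith) (by nlinarith) _ _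
      hp1 (ih (by nlinarith) _ _ hp1.1)
    obtain ⟨ur, r1, r2, r3⟩ := sh_leg σ α h0 (by nlinarith) hσ _ _ hp2
    rw [abs_le] at l3 r3
    refine sh_join (.node (XT r) (.leaf false)) Leg rfl σ b x ul ur l1 l2 r1 r2 w _ _ rfl rfl
      ?_ ?_ ?_ ?_ ?_ ?_ <;> nlinarith

theorem sh_leg0 (σ : ℝ) (hσ : 0 ≤ σ) (hσ' : 2 * σ < 1) (b : Leaf Leg → ℝ)
    (x : Node Leg → ℝ) (hp : sh_Pat Leg b x) (hb : b (Sum.inr ()) = 0) :
    ∃ u, sh_Y Leg x u ∧ sh_Shift Leg (sh_A _ σ b) u ∧ lab Leg (sh_A _ σ b) u = 1 := by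
  have hx : x none = 0 := by
    rcases hp.2 with ⟨h1, h2⟩ | ⟨h1, h2⟩ | ⟨h1, h2⟩
    · exact h1
    · exact h1
    · have h2' : b (Sum.inr ()) = 1 := h2
      rw [hb] at h2'
      exact absurd h2' zero_ne_one
  obtain ⟨u, u1, u2, u3⟩ := sh_cherry σ 1 (fun y => b (Sum.inl y))
    (fun ν => x (some (Sum.inl ν))) hσ hσ' (by norm_num)
  refine ⟨sh_glue (- x none) u (fun ν => nomatch ν), ?_, ⟨u2, trivial, fun h => ?_⟩, ?_⟩
  · intro ν hν
    match ν, hν with
    | none, _ => rfl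
    | some (Sum.inl ν), h => exact u1 ν h
  · cases h
  · show lab (.node (.leaf true) (.leaf true)) (sh_A _ σ (fun y => b (Sum.inl y))) u +
      -b (Sum.inr ()) - 2 * (- x none) = 1
    rw [u3, hb, hx]; ring

theorem sh_root (r : ℕ) (par : Bool) (J : ℕ) (hJ : 2 ≤ J) (N : ℕ) (hN : zc (TT r par) = N)
    (hJN : J ≤ N) (b : Leaf (TT r par) → ℝ) (x : Node (TT r par) → ℝ)
    (hp : sh_Pat (TT r par) b x) (β : ℝ)
    (hβ : β = 1 ∨ (β = 0 ∧ ∀ y, spec r par y → b y = 0)) :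
    ∃ (σ : ℝ) (u : Node (TT r par) → ℝ), sh_Y _ x u ∧ sh_Shift _ (sh_A _ σ b) u ∧
      lab _ (sh_A _ σ b) u = β + σ * J := by
  have hN2 : 2 * r + 3 ≤ N := by
    rw [zc_TT] at hN
    split_ifs at hN <;> omega
  have hN0 : (0 : ℝ) < N := by
    have : 0 < N := by omega
    exact_mod_cast this
  obtain ⟨α, hα⟩ : ∃ α : ℝ, α = 1 / (4 * N) := ⟨_, rfl⟩
  have hα0 : 0 < α := by rw [hα]; positivity
  have hαN : α * N = 1 / 4 := by rw [hα]; field_simp
  have hN2' : (2 * r + 3 : ℝ) ≤ N := by exact_mod_cast hN2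
  have hr0 : (0 : ℝ) ≤ r := Nat.cast_nonneg r
  have h1 : (2 * r + 3) * α ≤ 1 / 4 := by nlinarith
  have hJ' : (2 : ℝ) ≤ J := by exact_mod_cast hJ
  have hJN' : (J : ℝ) ≤ N := by exact_mod_cast hJN
  have hJα : (J : ℝ) * α ≤ 1 / 4 := by nlinarith
  have hα1 : α ≤ 1 / 4 := by nlinarith
  have hXT : ∀ σ : ℝ, 0 ≤ σ → 2 * σ < α → ∀ (b : Leaf (XT r) → ℝ) (x : Node (XT r) → ℝ),
      sh_Pat (XT r) b x → ∃ u, sh_Y (XT r) x u ∧ sh_Shift (XT r) (sh_A _ σ b) u ∧
      lab (XT r) (sh_A _ σ b) u = 1 := by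
    intro σ h0 h2 b x hp
    exact sh_XT σ α h2 h0 r (by nlinarith) b x hp 1 (by nlinarith) (by nlinarith)
  cases par with
  | true =>
    obtain ⟨hp1, hp2⟩ := (sh_Pat_z (XT r) (.leaf true) rfl b x).1 hp
    rcases hβ with rfl | ⟨rfl, _⟩
    · obtain ⟨ul, l1, l2, l3⟩ := hXT 0 le_rfl (by simpa using hα0) _ _ hp1
      refine ⟨0, sh_join (XT r) (.leaf true) rfl 0 b x ul (fun ν => nomatch ν) l1 l2
        (fun ν => nomatch ν) trivial (1 + 0 * J) 1 (1 + 0) l3 rfl ?_ ?_ ?_ ?_ ?_ ?_⟩ <;> norm_num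
    · obtain ⟨ul, l1, l2, l3⟩ := hXT (α / 4) (by positivity) (by linarith) _ _ hp1
      refine ⟨α / 4, sh_join (XT r) (.leaf true) rfl (α / 4) b x ul (fun ν => nomatch ν) l1 l2
        (fun ν => nomatch ν) trivial (0 + α / 4 * J) 1 (1 + α / 4) l3 rfl ?_ ?_ ?_ ?_ ?_ ?_⟩ <;>
        nlinarith
  | false =>
    obtain ⟨hp1, hp2⟩ := (sh_Pat_z (XT r) Leg rfl b x).1 hp
    rcases hβ with rfl | ⟨rfl, hb⟩
    · obtain ⟨ul, l1, l2, l3⟩ := hXT 0 le_rfl (by simpa using hα0) _ _ hp1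
      obtain ⟨ur, r1, r2, r3⟩ := sh_leg 0 α (by simpa using hα0) (by linarith) le_rfl _ _ hp2
      rw [abs_le] at r3
      refine ⟨0, sh_join (XT r) Leg rfl 0 b x ul ur l1 l2 r1 r2 (1 + 0 * J) 1 _ l3 rfl
        ?_ ?_ ?_ ?_ ?_ ?_⟩ <;> linarith
    · obtain ⟨ul, l1, l2, l3⟩ := hXT (α / 4) (by positivity) (by linarith) _ _ hp1
      obtain ⟨ur, r1, r2, r3⟩ := sh_leg0 (α / 4) (by positivity) (by linarith) _ _ hp2
        (hb _ rfl)
      refine ⟨α / 4, sh_join (XT r) Leg rfl (α / 4) b x ul ur l1 l2 r1 r2 (0 + α / 4 * J) 1 1 l3 r3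
        ?_ ?_ ?_ ?_ ?_ ?_⟩ <;> nlinarith

theorem shift_exists (r : ℕ) (par : Bool) (p J : ℕ) (hp : 1 ≤ p) (hJ : 2 ≤ J)
    (hN : zc (TT r par) = 2 * p + J) (b : Leaf (TT r par) → ℤ) (hb : ∀ x, b x = 0 ∨ b x = 1)
    (β κ : ℤ) (hβ : β = 1 ∨ (β = 0 ∧ ∀ x, spec r par x → b x = 0))
    (hκ : 2 * κ = zc (TT r par) - (∑ x, if col (TT r par) x then 0 else b x) - β)
    (S₀ : ℤ) (e₀ : Node (TT r par) → ℤ) (h₀ : Adm (TT r par) (lbl (TT r par) (S₀ - 1) b) e₀) :
    ∃ U : Set (ZN (TT r par) → ℝ), IsOpen U ∧ U.Nonempty ∧ ∀ u ∈ U, ∀ (S : ℤ)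
      (e : Node (TT r par) → ℤ), (∀ ν, isZ (TT r par) ν = false → e ν = e₀ ν) →
      ∑ ν, e ν = S * p - κ →
      (Adm (TT r par) (lbl (TT r par) (S - 1) b) e ↔
        CR (TT r par) p (fun ν => (e ν.1 : ℝ) + u ν)) := by
  classical
  obtain ⟨T, hT⟩ : ∃ T, T = TT r par := ⟨_, rfl⟩
  have hp0 : (0 : ℝ) < p := by exact_mod_cast hp
  -- the pattern
  have hpat : sh_Pat (TT r par) (lbl (TT r par) (S₀ - 1) b) e₀ :=
    sh_Pat_of_Adm _ _ _ h₀ fun x hx => by simp only [lbl, hx]; simpa using hb x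
  -- real pattern
  have hcast : ∀ (T : Tr) (a : Leaf T → ℤ) (e : Node T → ℤ), sh_Pat T a e →
      sh_Pat T (fun x => (a x : ℝ)) (fun ν => (e ν : ℝ)) := by
    intro T
    induction T with
    | leaf c => intro _ _ _; trivial
    | node l r ihl ihr =>
      intro a e h
      by_cases hr : r.isY = true
      · obtain rfl := sh_isY hr
        refine ⟨ihl _ _ h.1, ?_⟩
        rcases h.2 with ⟨h1, h2⟩ | ⟨h1, h2⟩ | ⟨h1, h2⟩ <;> simp [h1, h2]
      · rw [sh_Pat_z _ _ (by simpa using hr)] at h ⊢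
        exact ⟨ihl _ _ h.1, ihr _ _ h.2⟩
  have hpatR : sh_Pat (TT r par) (fun x => (b x : ℝ)) (fun ν => (e₀ ν : ℝ)) := by
    refine sh_Pat_congr _ _ _ _ _ (hcast _ _ _ hpat) (fun x hx => ?_) (fun ν _ => rfl)
    simp [lbl, hx]
  obtain ⟨σ, u₀, hu1, hu2, hu3⟩ := sh_root r par J hJ _ rfl (by omega) (fun x => (b x : ℝ))
    (fun ν => (e₀ ν : ℝ)) hpatR (β : ℝ) (by
      rcases hβ with h | ⟨h, h'⟩
      · left; exact_mod_cast h
      · right
        exact ⟨by exact_mod_cast h, fun y hy => by exact_mod_cast h' y hy⟩)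
  -- shift data
  obtain ⟨sX, hsX⟩ : ∃ sX : ℝ, sX = ∑ ν, if isZ (TT r par) ν = true then 0 else (e₀ ν : ℝ) :=
    ⟨_, rfl⟩
  let uS : (ZN (TT r par) → ℝ) → ℝ := fun v => (∑ ν, v ν - sX - κ) / p
  let uu : (ZN (TT r par) → ℝ) → Node (TT r par) → ℝ := fun v ν =>
    if h : isZ (TT r par) ν = true then v ⟨ν, h⟩ else - (e₀ ν : ℝ)
  have hsum : ∀ (g : Node (TT r par) → ℝ), ∑ ν, g ν =
      ∑ ν : ZN (TT r par), g ν.1 + ∑ ν, if isZ (TT r par) ν = true then 0 else g ν := by
    intro g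
    rw [← Finset.sum_subtype (Finset.univ.filter fun ν => isZ (TT r par) ν = true) (by simp) g,
      Finset.sum_filter, ← Finset.sum_add_distrib]
    refine Finset.sum_congr rfl fun ν _ => ?_
    split_ifs <;> simp
  refine ⟨{v | sh_Shift (TT r par) (sh_A _ (uS v) (fun x => (b x : ℝ))) (uu v)}, ?_, ?_, ?_⟩
  · apply sh_open
    · intro x
      unfold sh_A
      by_cases hx : col (TT r par) x = true
      · simp only [hx, if_true]
        fun_prop
      · simp only [hx]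
        exact continuous_const
    · intro ν
      by_cases hν : isZ (TT r par) ν = true
      · simp only [uu, hν, dif_pos]
        exact continuous_apply _
      · simp only [uu, hν]
        exact continuous_const
  · refine ⟨fun ν => u₀ ν.1, ?_⟩
    have e1 : uu (fun ν => u₀ ν.1) = u₀ := by
      funext ν
      by_cases hν : isZ (TT r par) ν = true
      · simp [uu, hν]
      · simp only [uu, dif_neg hν]
        exact (hu1 ν (by simpa using hν)).symm
    have e2 : uS (fun ν => u₀ ν.1) = σ := by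
      have h1 := lab_eq (TT r par) (sh_A _ σ (fun x => (b x : ℝ))) u₀
      rw [hu3, hsum u₀] at h1
      have h2 : (∑ ν, if isZ (TT r par) ν = true then 0 else u₀ ν) = - sX := by
        rw [hsX, ← Finset.sum_neg_distrib]
        refine Finset.sum_congr rfl fun ν _ => ?_
        by_cases hν : isZ (TT r par) ν = true
        · simp [hν]
        · simp only [hν, if_false]
          exact hu1 ν (by simpa using hν)
      have h3 : ∑ x, sh_A (TT r par) σ (fun x => (b x : ℝ)) x =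
          (zc (TT r par) : ℝ) * (1 + σ) - ((∑ x, if col (TT r par) x then 0 else b x : ℤ) : ℝ) := by
        rw [zc_eq]
        push_cast
        rw [Finset.sum_mul, ← Finset.sum_sub_distrib]
        refine Finset.sum_congr rfl fun x _ => ?_
        unfold sh_A
        by_cases hx : col (TT r par) x = true <;> simp [hx]
      have h4 : (2 * κ : ℝ) = (zc (TT r par) : ℝ) -
          ((∑ x, if col (TT r par) x then 0 else b x : ℤ) : ℝ) - β := by
        exact_mod_cast hκ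
      have h5 : (zc (TT r par) : ℝ) = 2 * p + J := by exact_mod_cast hN
      rw [h2, h3] at h1
      show (∑ ν : ZN (TT r par), u₀ ν.1 - sX - κ) / p = σ
      rw [div_eq_iff hp0.ne']
      rw [h5] at h1 h4
      linarith
    show sh_Shift (TT r par) (sh_A _ (uS fun ν => u₀ ν.1) (fun x => (b x : ℝ)))
      (uu fun ν => u₀ ν.1)
    rw [e1, e2]
    exact hu2
  · intro v hv S e he hS
    have hv' : sh_Shift (TT r par) (sh_A _ (uS v) (fun x => (b x : ℝ))) (uu v) := hv
    have hpe : sh_Pat (TT r par) (lbl (TT r par) (S - 1) b) e := by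
      refine sh_Pat_congr _ _ _ _ _ hpat (fun x hx => ?_) he
      simp [lbl, hx]
    rw [sh_Adm_iff r par _ _ hpe, sh_AdmZ_iff _ _ _ _ _ hv']
    have hS' : (∑ ν : ZN (TT r par), ((e ν.1 : ℝ) + v ν)) / p = S + uS v := by
      have h1 := hsum (fun ν => (e ν : ℝ))
      have h2 : (∑ ν, if isZ (TT r par) ν = true then 0 else (e ν : ℝ)) = sX := by
        rw [hsX]
        refine Finset.sum_congr rfl fun ν _ => ?_
        by_cases hν : isZ (TT r par) ν = true
        · simp [hν]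
        · simp only [hν, if_false]
          rw [he ν (by simpa using hν)]
      have h3 : (∑ ν, (e ν : ℝ)) = S * p - κ := by exact_mod_cast hS
      rw [h2, h3] at h1
      show _ = S + (∑ ν, v ν - sX - κ) / p
      rw [Finset.sum_add_distrib]
      field_simp
      linarith
    have f1 : (fun x => ((lbl (TT r par) (S - 1) b x : ℤ) : ℝ) +
        sh_A _ (uS v) (fun x => (b x : ℝ)) x) =
        lbl (TT r par) ((∑ ν : ZN (TT r par), ((e ν.1 : ℝ) + v ν)) / p) 0 := by
      funext x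
      rw [hS']
      unfold lbl sh_A
      by_cases hx : col (TT r par) x = true
      · simp only [hx, if_true]
        push_cast
        ring
      · simp [hx]
    have f2 : (fun ν => (e ν : ℝ) + uu v ν) =
        ext (TT r par) (fun ν => (e ν.1 : ℝ) + v ν) := by
      funext ν
      unfold ext
      by_cases hν : isZ (TT r par) ν = true
      · simp [uu, hν]
      · simp only [uu, dif_neg hν]
        rw [he ν (by simpa using hν)]
        ring
    rw [f1, f2]
    unfold CR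
    rw [sh_Adm_iff]
    refine sh_Pat_congr (TT r par) (fun _ => 0) _ (fun _ => 0) _ ?_ (fun x hx => ?_)
      (fun ν hν => ?_)
    · have : ∀ T : Tr, sh_Pat T (fun _ => (0 : ℝ)) (fun _ => 0) := by
        intro T
        induction T with
        | leaf c => trivial
        | node l r ihl ihr =>
          by_cases hr : r.isY = true
          · obtain rfl := sh_isY hr
            exact ⟨ihl, Or.inl ⟨rfl, rfl⟩⟩
          · rw [sh_Pat_z _ _ (by simpa using hr)]
            exact ⟨ihl, ihr⟩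
      exact this _
    · simp [lbl, hx]
    · simp [ext, hν]

end Pool.Agent.HYP
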