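import Pool.Agent.HYP.Defs

/-!
# MP_31bda2_co: the operator `F` on polynomials with bounded exponents
-/

set_option autoImplicit false

namespace Pool.Agent.HYP

open MvPolynomial Finset Module

section S

variable {ι : Type} [Fintype ι]

/-- the exponents of `PS a d` -/
def s_set (a : ι → ℤ) (d : ℤ) : Set (ι →₀ ℕ) :=
  {m | (∀ i, (m i : ℤ) ≤ a i) ∧ ∑ i, (m i : ℤ) = d}

theorem s_mem_set {a : ι → ℤ} {d : ℤ} {m : ι →₀ ℕ} :
    m ∈ s_set a d ↔ (∀ i, (m i : ℤ) ≤ a i) ∧ ∑ i, (m i : ℤ) = d := Iff.rfl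

theorem s_mem_PS {a : ι → ℤ} {d : ℤ} {f : MvPolynomial ι ℝ} :
    f ∈ PS a d ↔ ∀ m ∈ f.support, (∀ i, (m i : ℤ) ≤ a i) ∧ ∑ i, (m i : ℤ) = d := Iff.rfl

theorem s_PS_eq (a : ι → ℤ) (d : ℤ) : PS a d = restrictSupport ℝ (s_set a d) := by
  ext f
  rw [mem_restrictSupport_iff]
  rfl

theorem s_finite (a : ι → ℤ) (d : ℤ) : (s_set a d).Finite := by
  classical
  have h : (s_set a d) ⊆ (Finsupp.equivFunOnFinite : (ι →₀ ℕ) ≃ (ι → ℕ)) ⁻¹'
      ((Fintype.piFinset fun i => Finset.range (a i + 1).toNat) : Finset (ι → ℕ)) := by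
    intro m hm
    rw [s_mem_set] at hm
    simp only [Set.mem_preimage, mem_coe, Fintype.mem_piFinset, mem_range,
      Finsupp.equivFunOnFinite_apply]
    intro i
    have := hm.1 i
    omega
  exact (Set.Finite.preimage (Equiv.injective _).injOn (Finset.finite_toSet _)).subset h

theorem finiteDimensional_PS (a : ι → ℤ) (d : ℤ) : FiniteDimensional ℝ (PS a d) := by
  rw [s_PS_eq]
  have := (s_finite a d).to_subtype
  exact Module.Finite.of_basis (basisRestrictSupport ℝ (s_set a d))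

theorem finrank_PS [DecidableEq ι] (a : ι → ℤ) (d : ℤ) :
    (finrank ℝ (PS a d) : ℤ) = cnt a d := by
  rw [s_PS_eq, Module.finrank_eq_nat_card_basis (basisRestrictSupport ℝ (s_set a d))]
  unfold cnt
  rw [Nat.card_coe_set_eq, ← Set.ncard_image_of_injective (s_set a d)
    (Finsupp.equivFunOnFinite : (ι →₀ ℕ) ≃ (ι → ℕ)).injective, ← Set.ncard_coe_finset]
  congr 2
  ext m
  simp only [Set.mem_image, coe_filter, Fintype.mem_piFinset, mem_range]
  constructor
  · rintro ⟨x, hx, rfl⟩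
    rw [s_mem_set] at hx
    refine ⟨fun i => ?_, hx.2⟩
    have := hx.1 i
    simp only [Finsupp.equivFunOnFinite_apply]
    omega
  · rintro ⟨h1, h2⟩
    refine ⟨Finsupp.equivFunOnFinite.symm m, ?_, Equiv.apply_symm_apply _ _⟩
    rw [s_mem_set]
    refine ⟨fun i => ?_, h2⟩
    have := h1 i
    simp only [Finsupp.equivFunOnFinite_symm_apply_apply]
    omega

theorem PS_mul {a a' : ι → ℤ} {d d' : ℤ} {f g : MvPolynomial ι ℝ} (hf : f ∈ PS a d)
    (hg : g ∈ PS a' d') : f * g ∈ PS (a + a') (d + d') := by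
  classical
  rw [s_mem_PS] at *
  intro m hm
  obtain ⟨x, hx, y, hy, rfl⟩ := Finset.mem_add.mp (support_mul f g hm)
  obtain ⟨x1, x2⟩ := hf x hx
  obtain ⟨y1, y2⟩ := hg y hy
  refine ⟨fun i => ?_, ?_⟩
  · simp only [Finsupp.add_apply, Pi.add_apply]
    push_cast
    exact add_le_add (x1 i) (y1 i)
  · simp only [Finsupp.add_apply]
    push_cast
    rw [sum_add_distrib, x2, y2]

theorem s_FF (f : MvPolynomial ι ℝ) : FF f = ∑ i, pderiv i f := by
  simp [FF, LinearMap.sum_apply]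

theorem FF_mul (f g : MvPolynomial ι ℝ) : FF (f * g) = FF f * g + f * FF g := by
  simp only [s_FF, pderiv_mul, sum_add_distrib, sum_mul, mul_sum]

theorem s_pderiv_mem {a : ι → ℤ} {d : ℤ} {f : MvPolynomial ι ℝ} (hf : f ∈ PS a d) (i : ι) :
    pderiv i f ∈ PS a (d - 1) := by
  classical
  rw [s_mem_PS] at *
  intro m hm
  rw [MvPolynomial.mem_support_iff, coeff_pderiv] at hm
  have h := hf (m + Finsupp.single i 1) (by
    rw [MvPolynomial.mem_support_iff]
    exact left_ne_zero_of_mul hm)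
  obtain ⟨h1, h2⟩ := h
  refine ⟨fun j => ?_, ?_⟩
  · have := h1 j
    simp only [Finsupp.add_apply] at this
    push_cast at this
    have h0 : (0 : ℤ) ≤ ((Finsupp.single i 1 : ι →₀ ℕ) j : ℤ) := Int.natCast_nonneg _
    omega
  · simp only [Finsupp.add_apply] at h2
    push_cast at h2
    rw [sum_add_distrib] at h2
    have : ∑ j, ((Finsupp.single i 1 : ι →₀ ℕ) j : ℤ) = 1 := by
      rw [Finset.sum_eq_single i]
      · simp
      · intro j _ hj
        rw [Finsupp.single_eq_of_ne hj]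
        rfl
      · simp
    omega

theorem FF_mem {a : ι → ℤ} {d : ℤ} {f : MvPolynomial ι ℝ} (hf : f ∈ PS a d) :
    FF f ∈ PS a (d - 1) := by
  rw [s_FF]
  exact Submodule.sum_mem _ (fun i _ => s_pderiv_mem hf i)

theorem Inv_mul {a a' : ι → ℤ} {d d' : ℤ} {f g : MvPolynomial ι ℝ} (hf : f ∈ Inv a d)
    (hg : g ∈ Inv a' d') : f * g ∈ Inv (a + a') (d + d') := by
  unfold Inv at *
  rw [Submodule.mem_inf, LinearMap.mem_ker] at *
  refine ⟨PS_mul hf.1 hg.1, ?_⟩
  rw [FF_mul, hf.2, hg.2]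
  simp

/-! ### The raising operator -/

/-- one summand of the raising operator -/
noncomputable def s_E1 (a : ι → ℤ) (i : ι) : MvPolynomial ι ℝ →ₗ[ℝ] MvPolynomial ι ℝ :=
  (a i : ℝ) • LinearMap.mulLeft ℝ (X i) -
    LinearMap.mulLeft ℝ (X i ^ 2) ∘ₗ (pderiv i : Derivation ℝ (MvPolynomial ι ℝ)
      (MvPolynomial ι ℝ)).toLinearMap

/-- the raising operator -/
noncomputable def s_E (a : ι → ℤ) : MvPolynomial ι ℝ →ₗ[ℝ] MvPolynomial ι ℝ := ∑ i, s_E1 a i

omit [Fintype ι] in
theorem s_E1_apply (a : ι → ℤ) (i : ι) (f : MvPolynomial ι ℝ) :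
    s_E1 a i f = (a i : ℝ) • (X i * f) - X i ^ 2 * pderiv i f := by
  simp [s_E1]

theorem s_E_apply (a : ι → ℤ) (f : MvPolynomial ι ℝ) :
    s_E a f = ∑ i, ((a i : ℝ) • (X i * f) - X i ^ 2 * pderiv i f) := by
  simp only [s_E, LinearMap.sum_apply, s_E1_apply]

theorem s_sum_single (i : ι) : ∑ j, ((Finsupp.single i 1 : ι →₀ ℕ) j : ℤ) = 1 := by
  classical
  rw [Finset.sum_eq_single i]
  · simp
  · intro j _ hj
    rw [Finsupp.single_eq_of_ne hj]
    rfl
  · simp

theorem s_E_mem {a : ι → ℤ} {d : ℤ} {f : MvPolynomial ι ℝ} (hf : f ∈ PS a d) :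
    s_E a f ∈ PS a (d + 1) := by
  classical
  have key : PS a d ≤ (PS a (d + 1)).comap (s_E a) := by
    rw [s_PS_eq a d, restrictSupport_eq_span, Submodule.span_le]
    rintro _ ⟨m, hm, rfl⟩
    rw [s_mem_set] at hm
    rw [SetLike.mem_coe, Submodule.mem_comap, s_E_apply]
    refine Submodule.sum_mem _ (fun i _ => ?_)
    have e : (a i : ℝ) • (X i * monomial m (1 : ℝ)) - X i ^ 2 * pderiv i (monomial m (1 : ℝ)) =
        monomial (m + Finsupp.single i 1) ((a i : ℝ) - m i) := by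
      rw [pow_two, mul_assoc, X_mul_pderiv_monomial, mul_smul_comm, X, monomial_mul, one_mul,
        smul_monomial, smul_monomial, add_comm m, ← map_sub]
      simp
    simp only
    rw [e, s_PS_eq, monomial_mem_restrictSupport]
    by_cases h : (a i : ℝ) - m i = 0
    · exact Or.inr h
    · left
      rw [s_mem_set]
      have hi := hm.1 i
      have hne : (m i : ℤ) ≠ a i := by
        intro h'
        apply h
        rw [← h']
        push_cast
        ring
      refine ⟨fun j => ?_, ?_⟩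
      · by_cases hj : j = i
        · subst hj
          simp only [Finsupp.add_apply, Finsupp.single_eq_same]
          push_cast
          omega
        · simp only [Finsupp.add_apply, Finsupp.single_eq_of_ne hj]
          exact_mod_cast hm.1 j
      · simp only [Finsupp.add_apply]
        push_cast
        rw [sum_add_distrib, s_sum_single, hm.2]
  exact key hf

/-- Euler's identity -/
theorem s_euler {a : ι → ℤ} {d : ℤ} {f : MvPolynomial ι ℝ} (hf : f ∈ PS a d) :
    ∑ i, X i * pderiv i f = (d : ℝ) • f := by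
  classical
  rw [s_PS_eq a d, restrictSupport_eq_span] at hf
  induction hf using Submodule.span_induction with
  | mem x hx =>
    obtain ⟨m, hm, rfl⟩ := hx
    rw [s_mem_set] at hm
    simp only [X_mul_pderiv_monomial]
    rw [← hm.2, ← sum_smul]
    push_cast
    rw [← Nat.cast_smul_eq_nsmul ℝ]
    push_cast
    rfl
  | zero => simp
  | add x y _ _ hx hy => simp only [map_add, mul_add, sum_add_distrib, hx, hy, smul_add]
  | smul c x _ hx =>
    simp only [Derivation.map_smul, mul_smul_comm, ← smul_sum, hx]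
    rw [smul_comm]

omit [Fintype ι] in
theorem s_pderiv_comm (i j : ι) (f : MvPolynomial ι ℝ) :
    pderiv i (pderiv j f) = pderiv j (pderiv i f) := by
  classical
  by_cases h : i = j
  · rw [h]
  · ext m
    rw [coeff_pderiv, coeff_pderiv, coeff_pderiv, coeff_pderiv]
    simp only [Finsupp.add_apply, Finsupp.single_eq_of_ne h, Finsupp.single_eq_of_ne (Ne.symm h)]
    rw [add_right_comm]
    push_cast
    ring

theorem s_FF_pderiv (i : ι) (f : MvPolynomial ι ℝ) : FF (pderiv i f) = pderiv i (FF f) := by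
  rw [s_FF, s_FF, map_sum]
  exact sum_congr rfl (fun j _ => s_pderiv_comm j i f)

theorem s_FF_X (i : ι) : FF (X i : MvPolynomial ι ℝ) = 1 := by
  classical
  rw [s_FF, Finset.sum_eq_single i]
  · exact pderiv_X_self i
  · intro j _ hj
    exact pderiv_X_of_ne (Ne.symm hj)
  · simp

theorem s_comm (a : ι → ℤ) {d : ℤ} {f : MvPolynomial ι ℝ} (hf : f ∈ PS a d) :
    FF (s_E a f) = s_E a (FF f) + ((∑ i, (a i : ℝ)) - 2 * d) • f := by
  have h1 : ∀ i, FF ((a i : ℝ) • (X i * f) - X i ^ 2 * pderiv i f) =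
      ((a i : ℝ) • (X i * FF f) - X i ^ 2 * pderiv i (FF f)) + (a i : ℝ) • f -
        (2 : ℝ) • (X i * pderiv i f) := by
    intro i
    rw [map_sub, map_smul, FF_mul, FF_mul, s_FF_X, pow_two, FF_mul, s_FF_X, s_FF_pderiv]
    simp only [one_mul, mul_one, smul_add, two_smul]
    ring_nf
  rw [s_E_apply, map_sum, sum_congr rfl (fun i _ => h1 i), sum_sub_distrib, sum_add_distrib,
    ← s_E_apply, ← sum_smul, ← smul_sum, s_euler hf, smul_smul, sub_smul]
  abel

theorem s_E_pow_mem {a : ι → ℤ} {d : ℤ} {f : MvPolynomial ι ℝ} (hf : f ∈ PS a d) (m : ℕ) :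
    (s_E a ^ m) f ∈ PS a (d + m) := by
  induction m with
  | zero => simpa using hf
  | succ m ih =>
    rw [pow_succ', Module.End.mul_apply]
    have := s_E_mem ih
    rw [add_assoc] at this
    exact_mod_cast this

theorem s_F_pow_mem {a : ι → ℤ} {d : ℤ} {f : MvPolynomial ι ℝ} (hf : f ∈ PS a d) (m : ℕ) :
    (FF ^ m) f ∈ PS a (d - m) := by
  induction m with
  | zero => simpa using hf
  | succ m ih =>
    rw [pow_succ', Module.End.mul_apply]
    have := FF_mem ih
    rw [sub_sub] at this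
    exact_mod_cast this

theorem s_FE {a : ι → ℤ} {f : ℤ} {y : MvPolynomial ι ℝ} (hy : y ∈ PS a f) (h0 : FF y = 0)
    (m : ℕ) : FF ((s_E a ^ (m + 1)) y) =
      (((m : ℝ) + 1) * ((∑ i, (a i : ℝ)) - 2 * f - m)) • (s_E a ^ m) y := by
  induction m with
  | zero =>
    rw [zero_add, pow_one, s_comm a hy, h0, pow_zero]
    simp
  | succ m ih =>
    rw [pow_succ' (s_E a) (m + 1), Module.End.mul_apply, s_comm a (s_E_pow_mem hy (m + 1)), ih,
      map_smul, ← Module.End.mul_apply, ← pow_succ', ← add_smul]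
    congr 1
    push_cast
    ring

theorem s_FFEE {a : ι → ℤ} {f : ℤ} {y : MvPolynomial ι ℝ} (hy : y ∈ PS a f) (h0 : FF y = 0)
    (m : ℕ) : (FF ^ m) ((s_E a ^ m) y) =
      (∏ i ∈ range m, (((i : ℝ) + 1) * ((∑ i, (a i : ℝ)) - 2 * f - i))) • y := by
  induction m with
  | zero => simp
  | succ m ih =>
    rw [pow_succ FF, Module.End.mul_apply, s_FE hy h0, map_smul, ih, smul_smul, prod_range_succ,
      mul_comm]

theorem s_PS_neg {a : ι → ℤ} {d : ℤ} (hd : d < 0) {g : MvPolynomial ι ℝ} (hg : g ∈ PS a d) :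
    g = 0 := by
  rw [s_mem_PS] at hg
  rw [← MvPolynomial.support_eq_empty, Finset.eq_empty_iff_forall_notMem]
  intro m hm
  have h := (hg m hm).2
  have : (0 : ℤ) ≤ ∑ i, (m i : ℤ) := Finset.sum_nonneg (fun i _ => Int.natCast_nonneg _)
  omega

/-- `F^m : P_a[f+m] → P_a[f]` is onto if `2 f + m ≤ ∑ a`. -/
theorem FF_pow_surj (a : ι → ℤ) (f : ℤ) (m : ℕ) (h : 2 * f + m ≤ ∑ i, a i) :
    ∀ g ∈ PS a f, ∃ h ∈ PS a (f + m), (FF ^ m) h = g := by
  have main : ∀ (N : ℕ) (f : ℤ) (m : ℕ), f < N → 2 * f + m ≤ ∑ i, a i →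
      ∀ g ∈ PS a f, ∃ h ∈ PS a (f + m), (FF ^ m) h = g := by
    intro N
    induction N with
    | zero =>
      intro f m hf _ g hg
      refine ⟨0, Submodule.zero_mem _, ?_⟩
      rw [map_zero, s_PS_neg (by exact_mod_cast hf) hg]
    | succ N ih =>
      intro f m hf h g hg
      obtain ⟨x, hx, hFx⟩ := ih (f - 1) (m + 1) (by push_cast at hf; omega)
        (by push_cast; omega) (FF g) (FF_mem hg)
      have hx' : x ∈ PS a (f + m) := by
        have e : f - 1 + ((m + 1 : ℕ) : ℤ) = f + m := by push_cast; ring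
        rwa [e] at hx
      have hy : g - (FF ^ m) x ∈ PS a f := by
        refine Submodule.sub_mem _ hg ?_
        have := s_F_pow_mem hx' m
        rwa [add_sub_cancel_right] at this
      have h0 : FF (g - (FF ^ m) x) = 0 := by
        rw [map_sub, ← Module.End.mul_apply, ← pow_succ', hFx, sub_self]
      set c : ℝ := ∏ i ∈ range m, (((i : ℝ) + 1) * ((∑ i, (a i : ℝ)) - 2 * f - i)) with hc
      have hc0 : c ≠ 0 := by
        rw [hc, prod_ne_zero_iff]
        intro i hi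
        rw [mem_range] at hi
        have h1 : (2 * (f : ℝ) + m) ≤ ∑ i, (a i : ℝ) := by exact_mod_cast h
        have h2 : (i : ℝ) + 1 ≤ m := by exact_mod_cast hi
        have h3 : (0 : ℝ) < (∑ i, (a i : ℝ)) - 2 * f - i := by linarith
        positivity
      refine ⟨x + c⁻¹ • (s_E a ^ m) (g - (FF ^ m) x), ?_, ?_⟩
      · exact Submodule.add_mem _ hx' (Submodule.smul_mem _ _ (s_E_pow_mem hy m))
      · rw [map_add, map_smul, s_FFEE hy h0, ← hc, smul_smul, inv_mul_cancel₀ hc0, one_smul]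
        abel
  exact main (f.toNat + 1) f m (by push_cast; omega) h

omit [Fintype ι] in
theorem s_rank {p q : Submodule ℝ (MvPolynomial ι ℝ)} [FiniteDimensional ℝ p]
    (L : MvPolynomial ι ℝ →ₗ[ℝ] MvPolynomial ι ℝ) (h : p.map L = q) :
    (finrank ℝ (p ⊓ LinearMap.ker L : Submodule ℝ (MvPolynomial ι ℝ)) : ℤ) =
      finrank ℝ p - finrank ℝ q := by
  have h1 := LinearMap.finrank_range_add_finrank_ker (L.domRestrict p)
  have h2 : LinearMap.range (L.domRestrict p) = q := by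
    rw [← h, LinearMap.range_domRestrict]
  have h3 : finrank ℝ (LinearMap.ker (L.domRestrict p)) =
      finrank ℝ (p ⊓ LinearMap.ker L : Submodule ℝ (MvPolynomial ι ℝ)) := by
    have e : (LinearMap.ker (L.domRestrict p)).map p.subtype = p ⊓ LinearMap.ker L := by
      ext x
      simp only [Submodule.mem_map, LinearMap.mem_ker, Submodule.mem_inf]
      constructor
      · rintro ⟨y, hy, rfl⟩
        exact ⟨y.2, hy⟩
      · rintro ⟨h1, h2⟩
        exact ⟨⟨x, h1⟩, h2, rfl⟩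
    rw [← e]
    exact (Submodule.finrank_map_subtype_eq p _).symm
  rw [h2, h3] at h1
  omega

theorem finrank_Inv [DecidableEq ι] (a : ι → ℤ) (d : ℤ) (h : 2 * d ≤ ∑ i, a i + 1) :
    (finrank ℝ (Inv a d) : ℤ) = cnt a d - cnt a (d - 1) := by
  have := finiteDimensional_PS a d
  have e : (PS a d).map FF = PS a (d - 1) := by
    apply le_antisymm
    · rintro _ ⟨f, hf, rfl⟩
      exact FF_mem hf
    · intro g hg
      obtain ⟨x, hx, hF⟩ := FF_pow_surj a (d - 1) 1 (by push_cast; omega) g hg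
      refine ⟨x, ?_, ?_⟩
      · have e : d - 1 + ((1 : ℕ) : ℤ) = d := by push_cast; ring
        rwa [e] at hx
      · rwa [pow_one] at hF
  unfold Inv
  rw [s_rank FF e, finrank_PS, finrank_PS]

theorem s_map_pow (a : ι → ℤ) (d : ℤ) (m : ℕ) (h : 2 * (d - m) + m ≤ ∑ i, a i) :
    (PS a d).map (FF ^ m) = PS a (d - m) := by
  apply le_antisymm
  · rintro _ ⟨f, hf, rfl⟩
    exact s_F_pow_mem hf m
  · intro g hg
    obtain ⟨x, hx, hF⟩ := FF_pow_surj a (d - m) m h g hg
    refine ⟨x, ?_, hF⟩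
    rwa [sub_add_cancel] at hx

theorem finrank_BA [DecidableEq ι] (a : ι → ℤ) (d : ℤ) (μ : ℕ)
    (h : 2 * d - μ - 1 ≤ ∑ i, a i) :
    (finrank ℝ (PS a d ⊓ LinearMap.ker (FF ^ (μ + 1)) : Submodule ℝ (MvPolynomial ι ℝ)) : ℤ) -
      finrank ℝ (PS a (d - 1) ⊓ LinearMap.ker (FF ^ μ) : Submodule ℝ (MvPolynomial ι ℝ)) =
      cnt a d - cnt a (d - 1) := by
  have := finiteDimensional_PS a d
  have := finiteDimensional_PS a (d - 1)
  rw [s_rank (FF ^ (μ + 1)) (s_map_pow a d (μ + 1) (by push_cast; omega)),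
    s_rank (FF ^ μ) (s_map_pow a (d - 1) μ (by omega)), finrank_PS, finrank_PS, finrank_PS,
    finrank_PS]
  have e : d - ((μ + 1 : ℕ) : ℤ) = d - 1 - (μ : ℤ) := by push_cast; ring
  rw [e]
  ring

theorem FF_onto (a : ι → ℤ) (d : ℤ) (μ : ℕ) (h : 2 * d - 1 ≤ ∑ i, a i) :
    ∀ g ∈ (PS a (d - 1) ⊓ LinearMap.ker (FF ^ μ) : Submodule ℝ (MvPolynomial ι ℝ)),
      ∃ f ∈ (PS a d ⊓ LinearMap.ker (FF ^ (μ + 1)) : Submodule ℝ (MvPolynomial ι ℝ)),
        FF f = g := by
  intro g hg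
  rw [Submodule.mem_inf, LinearMap.mem_ker] at hg
  obtain ⟨x, hx, hF⟩ := FF_pow_surj a (d - 1) 1 (by push_cast; omega) g hg.1
  rw [pow_one] at hF
  have e : d - 1 + ((1 : ℕ) : ℤ) = d := by push_cast; ring
  rw [e] at hx
  refine ⟨x, ?_, hF⟩
  rw [Submodule.mem_inf, LinearMap.mem_ker]
  refine ⟨hx, ?_⟩
  rw [pow_succ, Module.End.mul_apply, hF, hg.2]

end S

end Pool.Agent.HYP
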