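import Pool.Agent.HYP.Defs

/-!
# MP_31bda2_co, module L: products of differences with given leading exponent
-/

set_option autoImplicit false

namespace Pool.Agent.HYP

open MvPolynomial Finset

/-! ### weights -/

theorem l_wte_add (T : Tr) (e e' : Node T → ℕ) : wte T (e + e') = wte T e + wte T e' := by
  simp [wte, add_mul, Finset.sum_add_distrib]

theorem Lead.mul (T : Tr) {g g' : MvPolynomial (Node T) ℝ} {e e' : Node T → ℕ} (h : Lead T g e)
    (h' : Lead T g' e') : Lead T (g * g') (e + e') := by
  classical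
  obtain ⟨h1, h2⟩ := h
  obtain ⟨h1', h2'⟩ := h'
  have hE : (Finsupp.equivFunOnFinite.symm (e + e') : Node T →₀ ℕ) =
      Finsupp.equivFunOnFinite.symm e + Finsupp.equivFunOnFinite.symm e' := by
    ext ν; simp
  have hle : ∀ m ∈ g.support, wte T m ≤ wte T e := by
    intro m hm
    by_cases hme : m = Finsupp.equivFunOnFinite.symm e
    · subst hme; simp
    · exact (h2 m hm hme).le
  have hle' : ∀ m ∈ g'.support, wte T m ≤ wte T e' := by
    intro m hm
    by_cases hme : m = Finsupp.equivFunOnFinite.symm e'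
    · subst hme; simp
    · exact (h2' m hm hme).le
  refine ⟨?_, ?_⟩
  · rw [hE, coeff_mul]
    rw [Finset.sum_eq_single (Finsupp.equivFunOnFinite.symm e, Finsupp.equivFunOnFinite.symm e')]
    · rw [h1, h1', one_mul]
    · rintro ⟨x, y⟩ hxy hne
      rw [HasAntidiagonal.mem_antidiagonal] at hxy
      dsimp only at hxy ⊢
      by_contra hcon
      have hx : x ∈ g.support := by
        rw [mem_support_iff]; intro h0; exact hcon (by rw [h0, zero_mul])
      have hy : y ∈ g'.support := by
        rw [mem_support_iff]; intro h0; exact hcon (by rw [h0, mul_zero])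
      have hw : wte T x + wte T y = wte T e + wte T e' := by
        have := congrArg (fun z : Node T →₀ ℕ => wte T z) hxy
        simp only [Finsupp.coe_add, l_wte_add, Finsupp.coe_equivFunOnFinite_symm] at this
        exact this
      have hxe : x = Finsupp.equivFunOnFinite.symm e := by
        by_contra hxe
        have := h2 x hx hxe
        have := hle' y hy
        omega
      have hye : y = Finsupp.equivFunOnFinite.symm e' := by
        by_contra hye
        have := h2' y hy hye
        have := hle x hx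
        omega
      exact hne (by rw [hxe, hye])
    · intro hnot
      exact absurd (by rw [HasAntidiagonal.mem_antidiagonal]) hnot
  · intro m hm hne
    have hm' := MvPolynomial.support_mul _ _ hm
    rw [Finset.mem_add] at hm'
    obtain ⟨x, hx, y, hy, rfl⟩ := hm'
    rw [Finsupp.coe_add, l_wte_add, l_wte_add]
    by_cases hxe : x = Finsupp.equivFunOnFinite.symm e
    · by_cases hye : y = Finsupp.equivFunOnFinite.symm e'
      · exact absurd (by rw [hxe, hye, hE]) hne
      · have := h2' y hy hye
        have := hle x hx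
        omega
    · have := h2 x hx hxe
      have := hle' y hy
      omega

theorem l_Lead_add (T : Tr) {g h : MvPolynomial (Node T) ℝ} {e : Node T → ℕ} (hg : Lead T g e)
    (hh : ∀ m ∈ h.support, wte T m < wte T e) : Lead T (g + h) e := by
  classical
  obtain ⟨h1, h2⟩ := hg
  refine ⟨?_, ?_⟩
  · rw [coeff_add, h1]
    have : coeff (Finsupp.equivFunOnFinite.symm e) h = 0 := by
      by_contra hc
      have := hh _ (mem_support_iff.2 hc)
      simp at this
    rw [this, add_zero]
  · intro m hm hne
    rcases Finset.mem_union.1 (MvPolynomial.support_add hm) with h' | h'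
    · exact h2 m h' hne
    · exact hh m h'

theorem l_Lead_one (T : Tr) : Lead T 1 0 := by
  classical
  refine ⟨?_, ?_⟩
  · have : (Finsupp.equivFunOnFinite.symm (0 : Node T → ℕ) : Node T →₀ ℕ) = 0 := by
      ext ν; simp
    rw [this]; simp
  · intro m hm hne
    have hm0 : m = 0 := by
      rw [mem_support_iff, MvPolynomial.coeff_one] at hm
      by_contra h0
      exact hm (by rw [if_neg (Ne.symm h0)])
    exfalso
    apply hne
    rw [hm0]
    ext ν; simp


/-! ### products of differences -/

section Diff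

variable {ι κ : Type}

/-- products of differences of two variables -/
def LDiff (f : MvPolynomial ι ℝ) : Prop :=
  f ∈ Submonoid.closure {g : MvPolynomial ι ℝ | ∃ i j, g = X i - X j}

theorem l_diff_one : LDiff (1 : MvPolynomial ι ℝ) := Submonoid.one_mem _

theorem l_diff_mul {f g : MvPolynomial ι ℝ} (hf : LDiff f) (hg : LDiff g) : LDiff (f * g) :=
  Submonoid.mul_mem _ hf hg

theorem l_diff_X (i j : ι) : LDiff (X i - X j : MvPolynomial ι ℝ) :=
  Submonoid.subset_closure ⟨i, j, rfl⟩

theorem l_diff_rename (φ : ι → κ) {f : MvPolynomial ι ℝ} (hf : LDiff f) :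
    LDiff (rename φ f) := by
  induction hf using Submonoid.closure_induction with
  | mem x hx =>
    obtain ⟨i, j, rfl⟩ := hx
    rw [map_sub, rename_X, rename_X]
    exact l_diff_X _ _
  | one => rw [map_one]; exact l_diff_one
  | mul x y _ _ hx hy => rw [map_mul]; exact l_diff_mul hx hy

theorem l_diff_FF [Fintype ι] {f : MvPolynomial ι ℝ} (hf : LDiff f) : FF f = 0 := by
  classical
  have hFFX : ∀ i : ι, FF (X i : MvPolynomial ι ℝ) = 1 := by
    intro i
    unfold FF
    rw [LinearMap.sum_apply]
    rw [Finset.sum_eq_single i]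
    · simp
    · intro j _ hj
      simp [pderiv_X_of_ne (Ne.symm hj)]
    · simp
  have hmul : ∀ f g : MvPolynomial ι ℝ, FF (f * g) = FF f * g + f * FF g := by
    intro f g
    unfold FF
    simp only [LinearMap.sum_apply, Derivation.coeFn_coe, Derivation.leibniz, smul_eq_mul,
      Finset.sum_add_distrib, Finset.sum_mul, Finset.mul_sum]
    rw [add_comm]
    congr 1
    exact Finset.sum_congr rfl fun i _ => mul_comm _ _
  induction hf using Submonoid.closure_induction with
  | mem x hx =>
    obtain ⟨i, j, rfl⟩ := hx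
    rw [map_sub, hFFX, hFFX, sub_self]
  | one =>
    have h := hmul 1 1
    rw [mul_one, mul_one, one_mul] at h
    exact left_eq_add.mp h
  | mul x y _ _ hx hy => rw [hmul, hx, hy, zero_mul, mul_zero, add_zero]

theorem l_diff_shift {R : Type} [CommRing R] [Algebra ℝ R] {f : MvPolynomial ι ℝ}
    (hf : LDiff f) (v : ι → R) (c : R) : aeval (fun i => v i + c) f = aeval v f := by
  induction hf using Submonoid.closure_induction with
  | mem x hx =>
    obtain ⟨i, j, rfl⟩ := hx
    simp
  | one => simp
  | mul x y _ _ hx hy => rw [map_mul, map_mul, hx, hy]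

end Diff

/-! ### sums over leaves and nodes -/

theorem l_sum_leaf {M : Type} [AddCommMonoid M] (l r : Tr) (g : Leaf (.node l r) → M) :
    ∑ x, g x = ∑ x : Leaf l, g (Sum.inl x) + ∑ x : Leaf r, g (Sum.inr x) :=
  Fintype.sum_sum_type g

/-- embedding of the nodes of the left child -/
def l_il (l r : Tr) : Node l → Node (.node l r) := fun ν => some (Sum.inl ν)

/-- embedding of the nodes of the right child -/
def l_ir (l r : Tr) : Node r → Node (.node l r) := fun ν => some (Sum.inr ν)

/-- the root node -/
def l_nn (l r : Tr) : Node (.node l r) := none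

/-- embedding of the leaves of the left child -/
def l_jl (l r : Tr) : Leaf l → Leaf (.node l r) := fun x => Sum.inl x

/-- embedding of the leaves of the right child -/
def l_jr (l r : Tr) : Leaf r → Leaf (.node l r) := fun x => Sum.inr x

theorem l_sum_node {M : Type} [AddCommMonoid M] (l r : Tr) (g : Node (.node l r) → M) :
    ∑ x, g x = g (l_nn l r) + (∑ x : Node l, g (l_il l r x) +
      ∑ x : Node r, g (l_ir l r x)) := by
  have h1 : ∑ x, g x = g none + ∑ x : Node l ⊕ Node r, g (some x) :=
    Fintype.sum_option g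
  rw [h1]
  congr 1
  exact Fintype.sum_sum_type _

theorem l_sum_leaf' {M : Type} [AddCommMonoid M] (l r : Tr) (g : Leaf (.node l r) → M) :
    ∑ x, g x = ∑ x : Leaf l, g (l_jl l r x) + ∑ x : Leaf r, g (l_jr l r x) :=
  Fintype.sum_sum_type g

theorem l_wte_node (l r : Tr) (e : Node (.node l r) → ℕ) :
    wte (.node l r) e = e (l_nn l r) * dep (.node l r) +
      (wte l (fun x => e (l_il l r x)) + wte r (fun x => e (l_ir l r x))) := by
  unfold wte
  rw [l_sum_node]
  rfl

theorem l_node_cases {l r : Tr} {p : Node (.node l r) → Prop} (h0 : p (l_nn l r))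
    (h1 : ∀ x : Node l, p (l_il l r x)) (h2 : ∀ x : Node r, p (l_ir l r x)) :
    ∀ ν, p ν := by
  intro ν
  have key : ∀ ν : Option (Node l ⊕ Node r), p ν := by
    rintro (_ | (x | x))
    · exact h0
    · exact h1 x
    · exact h2 x
  exact key ν

theorem l_leaf_cases {l r : Tr} {p : Leaf (.node l r) → Prop}
    (h1 : ∀ x : Leaf l, p (l_jl l r x)) (h2 : ∀ x : Leaf r, p (l_jr l r x)) :
    ∀ ν, p ν := by
  intro ν
  have key : ∀ ν : Leaf l ⊕ Leaf r, p ν := by
    rintro (x | x)
    · exact h1 x
    · exact h2 x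
  exact key ν

theorem l_il_inj (l r : Tr) : Function.Injective (l_il l r) := by
  intro x y h
  exact Sum.inl_injective (Option.some_injective _ h)

theorem l_ir_inj (l r : Tr) : Function.Injective (l_ir l r) := by
  intro x y h
  exact Sum.inr_injective (Option.some_injective _ h)

theorem l_jl_inj (l r : Tr) : Function.Injective (l_jl l r) := Sum.inl_injective

theorem l_jr_inj (l r : Tr) : Function.Injective (l_jr l r) := Sum.inr_injective

theorem l_il_nn (l r : Tr) (x : Node l) : l_il l r x ≠ l_nn l r := Option.some_ne_none _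

theorem l_ir_nn (l r : Tr) (x : Node r) : l_ir l r x ≠ l_nn l r := Option.some_ne_none _

theorem l_il_ir (l r : Tr) (x : Node l) (y : Node r) : l_il l r x ≠ l_ir l r y := fun h =>
  Sum.inl_ne_inr (Option.some_injective _ h)

theorem l_jl_jr (l r : Tr) (x : Leaf l) (y : Leaf r) : l_jl l r x ≠ l_jr l r y := fun h =>
  Sum.inl_ne_inr h

theorem l_map_il_nn (l r : Tr) (m : Node l →₀ ℕ) :
    Finsupp.mapDomain (l_il l r) m (l_nn l r) = 0 := by
  apply Finsupp.mapDomain_of_notMem_range
  rintro ⟨x, hx⟩
  exact l_il_nn l r x hx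

theorem l_map_ir_nn (l r : Tr) (m : Node r →₀ ℕ) :
    Finsupp.mapDomain (l_ir l r) m (l_nn l r) = 0 := by
  apply Finsupp.mapDomain_of_notMem_range
  rintro ⟨x, hx⟩
  exact l_ir_nn l r x hx

theorem l_map_il_il (l r : Tr) (m : Node l →₀ ℕ) (x : Node l) :
    Finsupp.mapDomain (l_il l r) m (l_il l r x) = m x :=
  Finsupp.mapDomain_apply (l_il_inj l r) m x

theorem l_map_ir_ir (l r : Tr) (m : Node r →₀ ℕ) (x : Node r) :
    Finsupp.mapDomain (l_ir l r) m (l_ir l r x) = m x :=
  Finsupp.mapDomain_apply (l_ir_inj l r) m x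

theorem l_map_il_ir (l r : Tr) (m : Node l →₀ ℕ) (x : Node r) :
    Finsupp.mapDomain (l_il l r) m (l_ir l r x) = 0 := by
  apply Finsupp.mapDomain_of_notMem_range
  rintro ⟨y, hy⟩
  exact l_il_ir l r y x hy

theorem l_map_ir_il (l r : Tr) (m : Node r →₀ ℕ) (x : Node l) :
    Finsupp.mapDomain (l_ir l r) m (l_il l r x) = 0 := by
  apply Finsupp.mapDomain_of_notMem_range
  rintro ⟨y, hy⟩
  exact l_il_ir l r x y hy.symm

theorem l_wte_zero (T : Tr) : wte T (fun _ => 0) = 0 := by simp [wte]

theorem l_wte_il (l r : Tr) (m : Node l →₀ ℕ) :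
    wte (.node l r) (Finsupp.mapDomain (l_il l r) m) = wte l m := by
  rw [l_wte_node]
  simp only [l_map_il_nn, l_map_il_il, l_map_il_ir, l_wte_zero]
  simp

theorem l_wte_ir (l r : Tr) (m : Node r →₀ ℕ) :
    wte (.node l r) (Finsupp.mapDomain (l_ir l r) m) = wte r m := by
  rw [l_wte_node]
  simp only [l_map_ir_nn, l_map_ir_ir, l_map_ir_il, l_wte_zero]
  simp

theorem l_wte_nn (l r : Tr) (k : ℕ) :
    wte (.node l r) (Finsupp.single (l_nn l r) k) = k * dep (.node l r) := by
  rw [l_wte_node]
  have h1 : ∀ x : Node l, (Finsupp.single (l_nn l r) k) (l_il l r x)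
      = 0 := fun x => Finsupp.single_eq_of_ne (l_il_nn l r x)
  have h2 : ∀ x : Node r, (Finsupp.single (l_nn l r) k) (l_ir l r x)
      = 0 := fun x => Finsupp.single_eq_of_ne (l_ir_nn l r x)
  simp only [h1, h2, Finsupp.single_eq_same, l_wte_zero]
  simp

theorem l_posn_l (l r : Tr) (x : Leaf l) :
    posn (.node l r) (l_jl l r x) = rename (l_il l r) (posn l x) := rfl

theorem l_posn_r (l r : Tr) (x : Leaf r) :
    posn (.node l r) (l_jr l r x) = rename (l_ir l r) (posn r x) + X (l_nn l r) := rfl

theorem l_supp_il (l r : Tr) (g : MvPolynomial (Node l) ℝ) (w : ℕ)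
    (h : ∀ m ∈ g.support, wte l m ≤ w) :
    ∀ m ∈ (rename (l_il l r) g).support, wte (.node l r) m ≤ w := by
  classical
  intro m hm
  rw [support_rename_of_injective (l_il_inj l r), Finset.mem_image] at hm
  obtain ⟨m', hm', rfl⟩ := hm
  rw [l_wte_il]
  exact h m' hm'

theorem l_supp_ir (l r : Tr) (g : MvPolynomial (Node r) ℝ) (w : ℕ)
    (h : ∀ m ∈ g.support, wte r m ≤ w) :
    ∀ m ∈ (rename (l_ir l r) g).support, wte (.node l r) m ≤ w := by
  classical
  intro m hm
  rw [support_rename_of_injective (l_ir_inj l r), Finset.mem_image] at hm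
  obtain ⟨m', hm', rfl⟩ := hm
  rw [l_wte_ir]
  exact h m' hm'

theorem l_dep_l (l r : Tr) : dep l < dep (.node l r) := by simp only [dep]; omega

theorem l_dep_r (l r : Tr) : dep r < dep (.node l r) := by simp only [dep]; omega

theorem l_posn_wte (T : Tr) : ∀ (x : Leaf T), ∀ m ∈ (posn T x).support, wte T m ≤ dep T := by
  classical
  induction T with
  | leaf c =>
    intro x m hm
    have : posn (.leaf c) x = 0 := rfl
    rw [this] at hm
    simp at hm
  | node l r ihl ihr =>
    refine l_leaf_cases ?_ ?_
    · intro x m hm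
      rw [l_posn_l] at hm
      have := l_supp_il l r _ _ (ihl x) m hm
      have := l_dep_l l r
      omega
    · intro x m hm
      rw [l_posn_r] at hm
      rcases Finset.mem_union.1 (MvPolynomial.support_add hm) with h | h
      · have := l_supp_ir l r _ _ (ihr x) m h
        have := l_dep_r l r
        omega
      · rw [support_X, Finset.mem_singleton] at h
        subst h
        rw [l_wte_nn, one_mul]

/-! ### leading exponents -/

theorem l_Lead_il (l r : Tr) {g : MvPolynomial (Node l) ℝ} {e : Node l → ℕ} (h : Lead l g e)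
    (E : Node (.node l r) → ℕ) (h0 : E (l_nn l r) = 0) (h1 : ∀ x, E (l_il l r x) = e x)
    (h2 : ∀ x, E (l_ir l r x) = 0) : Lead (.node l r) (rename (l_il l r) g) E := by
  classical
  have hE : (Finsupp.equivFunOnFinite.symm E : Node (.node l r) →₀ ℕ) =
      Finsupp.mapDomain (l_il l r) (Finsupp.equivFunOnFinite.symm e) := by
    apply Finsupp.ext
    refine l_node_cases ?_ ?_ ?_
    · rw [l_map_il_nn]; exact h0
    · intro x; rw [l_map_il_il]; exact h1 x
    · intro x; rw [l_map_il_ir]; exact h2 x
  have hw : wte (.node l r) E = wte l e := by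
    have := l_wte_il l r (Finsupp.equivFunOnFinite.symm e)
    rw [← hE] at this
    simpa using this
  refine ⟨?_, ?_⟩
  · rw [hE, coeff_rename_mapDomain _ (l_il_inj l r)]
    exact h.1
  · intro m hm hne
    rw [support_rename_of_injective (l_il_inj l r), Finset.mem_image] at hm
    obtain ⟨m', hm', rfl⟩ := hm
    rw [l_wte_il, hw]
    exact h.2 m' hm' fun hcon => hne (by rw [hcon, hE])

theorem l_Lead_ir (l r : Tr) {g : MvPolynomial (Node r) ℝ} {e : Node r → ℕ} (h : Lead r g e)
    (E : Node (.node l r) → ℕ) (h0 : E (l_nn l r) = 0) (h1 : ∀ x, E (l_ir l r x) = e x)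
    (h2 : ∀ x, E (l_il l r x) = 0) : Lead (.node l r) (rename (l_ir l r) g) E := by
  classical
  have hE : (Finsupp.equivFunOnFinite.symm E : Node (.node l r) →₀ ℕ) =
      Finsupp.mapDomain (l_ir l r) (Finsupp.equivFunOnFinite.symm e) := by
    apply Finsupp.ext
    refine l_node_cases ?_ ?_ ?_
    · rw [l_map_ir_nn]; exact h0
    · intro x; rw [l_map_ir_il]; exact h2 x
    · intro x; rw [l_map_ir_ir]; exact h1 x
  have hw : wte (.node l r) E = wte r e := by
    have := l_wte_ir l r (Finsupp.equivFunOnFinite.symm e)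
    rw [← hE] at this
    simpa using this
  refine ⟨?_, ?_⟩
  · rw [hE, coeff_rename_mapDomain _ (l_ir_inj l r)]
    exact h.1
  · intro m hm hne
    rw [support_rename_of_injective (l_ir_inj l r), Finset.mem_image] at hm
    obtain ⟨m', hm', rfl⟩ := hm
    rw [l_wte_ir, hw]
    exact h.2 m' hm' fun hcon => hne (by rw [hcon, hE])

theorem l_Lead_X (l r : Tr) (E : Node (.node l r) → ℕ) (h0 : E (l_nn l r) = 1)
    (h1 : ∀ x, E (l_il l r x) = 0) (h2 : ∀ x, E (l_ir l r x) = 0) :
    Lead (.node l r) (X (l_nn l r)) E := by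
  classical
  have hE : (Finsupp.equivFunOnFinite.symm E : Node (.node l r) →₀ ℕ) =
      Finsupp.single (l_nn l r) 1 := by
    apply Finsupp.ext
    refine l_node_cases ?_ ?_ ?_
    · rw [Finsupp.single_eq_same]; exact h0
    · intro x; rw [Finsupp.single_eq_of_ne (l_il_nn l r x)]; exact h1 x
    · intro x; rw [Finsupp.single_eq_of_ne (l_ir_nn l r x)]; exact h2 x
  refine ⟨?_, ?_⟩
  · rw [hE, coeff_X]
    simp
  · intro m hm hne
    rw [support_X, Finset.mem_singleton] at hm
    exact absurd (hm.trans hE.symm) hne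

/-! ### bounded exponents -/

theorem l_PS_mul {ι : Type} [Fintype ι] {a a' : ι → ℤ} {d d' : ℤ} {f g : MvPolynomial ι ℝ}
    (hf : f ∈ PS a d) (hg : g ∈ PS a' d') : f * g ∈ PS (a + a') (d + d') := by
  classical
  intro m hm
  have hm' := MvPolynomial.support_mul _ _ hm
  rw [Finset.mem_add] at hm'
  obtain ⟨x, hx, y, hy, rfl⟩ := hm'
  obtain ⟨hx1, hx2⟩ := hf x hx
  obtain ⟨hy1, hy2⟩ := hg y hy
  refine ⟨?_, ?_⟩
  · intro i
    have := hx1 i
    have := hy1 i
    simp only [Finsupp.coe_add, Pi.add_apply, Nat.cast_add]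
    omega
  · simp only [Finsupp.coe_add, Pi.add_apply, Nat.cast_add, Finset.sum_add_distrib]
    rw [hx2, hy2]

theorem l_PS_X {ι : Type} [Fintype ι] [DecidableEq ι] (i : ι) :
    (X i : MvPolynomial ι ℝ) ∈ PS (Pi.single i 1) 1 := by
  classical
  intro m hm
  rw [support_X, Finset.mem_singleton] at hm
  subst hm
  refine ⟨?_, ?_⟩
  · intro j
    by_cases hj : j = i
    · subst hj; simp
    · rw [Finsupp.single_eq_of_ne hj, Pi.single_eq_of_ne hj]; simp
  · rw [Finset.sum_eq_single i]
    · simp
    · intro j _ hj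
      rw [Finsupp.single_eq_of_ne hj]; simp
    · simp

theorem l_PS_mono {ι : Type} [Fintype ι] {a a' : ι → ℤ} {d : ℤ} {f : MvPolynomial ι ℝ}
    (hf : f ∈ PS a d) (h : ∀ i, a i ≤ a' i) : f ∈ PS a' d := by
  intro m hm
  obtain ⟨h1, h2⟩ := hf m hm
  exact ⟨fun i => (h1 i).trans (h i), h2⟩

theorem l_PS_diff {ι : Type} [Fintype ι] [DecidableEq ι] (i j : ι) :
    (X i - X j : MvPolynomial ι ℝ) ∈ PS (Pi.single i 1 + Pi.single j 1) 1 := by
  have h1 : (0 : ι → ℤ) ≤ Pi.single i 1 := Pi.single_nonneg.2 zero_le_one
  have h2 : (0 : ι → ℤ) ≤ Pi.single j 1 := Pi.single_nonneg.2 zero_le_one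
  refine Submodule.sub_mem _ (l_PS_mono (l_PS_X i) ?_) (l_PS_mono (l_PS_X j) ?_)
  · intro k
    have := h2 k
    simp only [Pi.add_apply, Pi.zero_apply] at this ⊢
    omega
  · intro k
    have := h1 k
    simp only [Pi.add_apply, Pi.zero_apply] at this ⊢
    omega

theorem l_PS_rename {ι κ : Type} [Fintype ι] [Fintype κ] (φ : ι → κ) (hφ : Function.Injective φ)
    {a : ι → ℤ} {b : κ → ℤ} {d : ℤ} {f : MvPolynomial ι ℝ} (hf : f ∈ PS a d)
    (h1 : ∀ i, b (φ i) = a i) (h2 : ∀ k, k ∉ Set.range φ → 0 ≤ b k) :
    rename φ f ∈ PS b d := by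
  classical
  intro m hm
  rw [support_rename_of_injective hφ, Finset.mem_image] at hm
  obtain ⟨m', hm', rfl⟩ := hm
  obtain ⟨hx1, hx2⟩ := hf m' hm'
  refine ⟨?_, ?_⟩
  · intro k
    by_cases hk : k ∈ Set.range φ
    · obtain ⟨i, rfl⟩ := hk
      rw [Finsupp.mapDomain_apply hφ, h1]
      exact hx1 i
    · rw [Finsupp.mapDomain_of_notMem_range _ _ hk]
      exact_mod_cast h2 k hk
  · rw [← hx2, ← Finset.sum_subset (Finset.subset_univ (Finset.univ.image φ))]
    · rw [Finset.sum_image fun x _ y _ h => hφ h]
      exact Finset.sum_congr rfl fun i _ => by rw [Finsupp.mapDomain_apply hφ]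
    · intro k _ hk
      rw [Finsupp.mapDomain_of_notMem_range]
      · simp
      · rintro ⟨i, rfl⟩
        exact hk (Finset.mem_image_of_mem _ (Finset.mem_univ i))


theorem l_Phi_l (l r : Tr) (f : MvPolynomial (Leaf l) ℝ) :
    Phi (.node l r) (rename (l_jl l r) f) = rename (l_il l r) (Phi l f) := by
  unfold Phi
  rw [aeval_rename, comp_aeval_apply]
  rfl

theorem l_Phi_r (l r : Tr) (f : MvPolynomial (Leaf r) ℝ) (hf : LDiff f) :
    Phi (.node l r) (rename (l_jr l r) f) = rename (l_ir l r) (Phi r f) := by
  unfold Phi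
  rw [aeval_rename, comp_aeval_apply]
  exact l_diff_shift hf (fun i => rename (l_ir l r) (posn r i)) (X (l_nn l r))

theorem l_Lead_diff (l r : Tr) (x : Leaf l) (y : Leaf r) :
    Lead (.node l r) (Phi (.node l r) (X (l_jr l r y) - X (l_jl l r x)))
      (Pi.single (l_nn l r) 1) := by
  classical
  have e1 : Phi (.node l r) (X (l_jr l r y) - X (l_jl l r x)) = X (l_nn l r) +
      (rename (l_ir l r) (posn r y) - rename (l_il l r) (posn l x)) := by
    unfold Phi
    rw [map_sub, aeval_X, aeval_X, l_posn_l, l_posn_r]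
    ring
  rw [e1]
  have hw : wte (.node l r) (Pi.single (l_nn l r) 1) = dep (.node l r) := by
    have := l_wte_nn l r 1
    rw [one_mul] at this
    rw [← this]
    congr 1
    funext ν
    rw [Finsupp.single_apply, Pi.single_apply]
    simp only [eq_comm]
  refine l_Lead_add _ (l_Lead_X l r _ ?_ ?_ ?_) ?_
  · exact Pi.single_eq_same _ _
  · intro z; exact Pi.single_eq_of_ne (l_il_nn l r z) _
  · intro z; exact Pi.single_eq_of_ne (l_ir_nn l r z) _
  · intro m hm
    rw [hw]
    rcases Finset.mem_union.1 (MvPolynomial.support_sub _ _ _ hm) with h | h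
    · exact (l_supp_ir l r _ _ (l_posn_wte r y) m h).trans_lt (l_dep_r l r)
    · exact (l_supp_il l r _ _ (l_posn_wte l x) m h).trans_lt (l_dep_l l r)

theorem l_exists_pos {ι : Type} [Fintype ι] (c : ι → ℤ) (h : 0 < ∑ x, c x) : ∃ x, 0 < c x := by
  by_contra hcon
  push Not at hcon
  have := Finset.sum_nonpos (s := Finset.univ) (f := c) fun x _ => hcon x
  omega

theorem l_exists (T : Tr) : ∀ (a : Leaf T → ℤ) (_ : ∀ x, 0 ≤ a x) (e : Node T → ℕ)
    (_ : Adm T a (fun ν => (e ν : ℤ))),
    ∃ (f : MvPolynomial (Leaf T) ℝ) (cap : Leaf T → ℤ), (∀ x, 0 ≤ cap x) ∧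
      ∑ x, cap x = lab T a (fun ν => (e ν : ℤ)) ∧ f ∈ PS (a - cap) (∑ ν, (e ν : ℤ)) ∧
      LDiff f ∧ Lead T (Phi T f) e := by
  classical
  induction T with
  | leaf c =>
    intro a ha e he
    refine ⟨1, a, ha, ?_, ?_, l_diff_one, ?_⟩
    · have h1 : ∑ x, a x = ∑ x : Unit, a x := rfl
      rw [h1]
      simp [lab]
    · have h0 : ∑ ν, (e ν : ℤ) = 0 := by
        have h1 : ∑ ν, (e ν : ℤ) = ∑ ν : Empty, (e ν : ℤ) := rfl
        rw [h1]
        simp
      rw [h0, sub_self]
      intro m hm
      have hm0 : m = 0 := by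
        rw [mem_support_iff, MvPolynomial.coeff_one] at hm
        by_contra h0
        exact hm (by rw [if_neg (Ne.symm h0)])
      subst hm0
      simp
    · have he0 : e = 0 := by
        funext ν
        exact (show Empty from ν).elim
      rw [he0, map_one]
      exact l_Lead_one _
  | node l r ihl ihr =>
    intro a ha e he
    obtain ⟨hl, hr, h0, h1, h2⟩ := he
    obtain ⟨fl, cl, hcl, hsl, hpl, hdl, hLl⟩ := ihl (fun x => a (l_jl l r x)) (fun x => ha _)
      (fun ν => e (l_il l r ν)) hl
    obtain ⟨fr, cr, hcr, hsr, hpr, hdr, hLr⟩ := ihr (fun x => a (l_jr l r x)) (fun x => ha _)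
      (fun ν => e (l_ir l r ν)) hr
    have h1' : (e (l_nn l r) : ℤ) ≤ ∑ x, cl x := by rw [hsl]; exact h1
    have h2' : (e (l_nn l r) : ℤ) ≤ ∑ x, cr x := by rw [hsr]; exact h2
    have hlab : lab (.node l r) a (fun ν => (e ν : ℤ)) =
        ∑ x, cl x + ∑ x, cr x - 2 * (e (l_nn l r) : ℤ) := by
      rw [hsl, hsr]
      rfl
    have key : ∀ t : ℕ, t ≤ e (l_nn l r) → ∃ (f : MvPolynomial (Leaf (.node l r)) ℝ)
        (cap : Leaf (.node l r) → ℤ), (∀ x, 0 ≤ cap x) ∧
        ∑ x, cap (l_jl l r x) = ∑ x, cl x - t ∧ ∑ x, cap (l_jr l r x) = ∑ x, cr x - t ∧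
        f ∈ PS (a - cap) (∑ ν, (e (l_il l r ν) : ℤ) + ∑ ν, (e (l_ir l r ν) : ℤ) + t) ∧
        LDiff f ∧ Lead (.node l r) (Phi (.node l r) f) (Function.update e (l_nn l r) t) := by
      intro t
      induction t with
      | zero =>
        intro _
        refine ⟨rename (l_jl l r) fl * rename (l_jr l r) fr, fun x => Sum.elim cl cr x, ?_, ?_,
          ?_, ?_, l_diff_mul (l_diff_rename _ hdl) (l_diff_rename _ hdr), ?_⟩
        · exact l_leaf_cases (fun x => hcl x) (fun x => hcr x)
        · rw [Nat.cast_zero, sub_zero]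
          rfl
        · rw [Nat.cast_zero, sub_zero]
          rfl
        · have p1 : rename (l_jl l r) fl ∈ PS (fun x : Leaf (.node l r) =>
              (Sum.elim ((fun x => a (l_jl l r x)) - cl) 0 x : ℤ)) (∑ ν, (e (l_il l r ν) : ℤ)) := by
            apply l_PS_rename _ (l_jl_inj l r) hpl
            · intro i; rfl
            · refine l_leaf_cases ?_ ?_
              · intro x hx; exact absurd ⟨x, rfl⟩ hx
              · intro x _; exact le_refl (0 : ℤ)
          have p2 : rename (l_jr l r) fr ∈ PS (fun x : Leaf (.node l r) =>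
              (Sum.elim 0 ((fun x => a (l_jr l r x)) - cr) x : ℤ)) (∑ ν, (e (l_ir l r ν) : ℤ)) := by
            apply l_PS_rename _ (l_jr_inj l r) hpr
            · intro i; rfl
            · refine l_leaf_cases ?_ ?_
              · intro x _; exact le_refl (0 : ℤ)
              · intro x hx; exact absurd ⟨x, rfl⟩ hx
          have p3 := l_PS_mul p1 p2
          rw [Nat.cast_zero, add_zero]
          refine l_PS_mono p3 ?_
          refine l_leaf_cases ?_ ?_
          · intro x
            have : ((fun x : Leaf (.node l r) =>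
              (Sum.elim ((fun x => a (l_jl l r x)) - cl) 0 x : ℤ)) + fun x : Leaf (.node l r) =>
              (Sum.elim 0 ((fun x => a (l_jr l r x)) - cr) x : ℤ)) (l_jl l r x) =
                (a (l_jl l r x) - cl x) + 0 := rfl
            rw [this, add_zero]
            exact le_refl _
          · intro x
            have : ((fun x : Leaf (.node l r) =>
              (Sum.elim ((fun x => a (l_jl l r x)) - cl) 0 x : ℤ)) + fun x : Leaf (.node l r) =>
              (Sum.elim 0 ((fun x => a (l_jr l r x)) - cr) x : ℤ)) (l_jr l r x) =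
                0 + (a (l_jr l r x) - cr x) := rfl
            rw [this, zero_add]
            exact le_refl _
        · rw [map_mul, l_Phi_l, l_Phi_r l r fr hdr]
          have hE : Function.update e (l_nn l r) 0 =
              (fun ν : Node (.node l r) => (Option.elim (show Option (Node l ⊕ Node r) from ν) 0
                (Sum.elim (fun ν => e (l_il l r ν)) (fun _ => 0)) : ℕ)) +
              (fun ν : Node (.node l r) => (Option.elim (show Option (Node l ⊕ Node r) from ν) 0
                (Sum.elim (fun _ => 0) (fun ν => e (l_ir l r ν))) : ℕ)) := by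
            funext ν
            revert ν
            refine l_node_cases ?_ ?_ ?_
            · rw [Function.update_self]; rfl
            · intro x; rw [Function.update_of_ne (l_il_nn l r x)]; rfl
            · intro x
              rw [Function.update_of_ne (l_ir_nn l r x)]
              exact (zero_add _).symm
          rw [hE]
          refine Lead.mul _ (l_Lead_il l r hLl _ ?_ ?_ ?_) (l_Lead_ir l r hLr _ ?_ ?_ ?_)
          · rfl
          · intro x; rfl
          · intro x; rfl
          · rfl
          · intro x; rfl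
          · intro x; rfl
      | succ t iht =>
        intro ht
        obtain ⟨f, cap, hc0, hc1, hc2, hc3, hc4, hc5⟩ := iht (by omega)
        have ht' : ((t : ℤ) + 1) ≤ e (l_nn l r) := by exact_mod_cast ht
        obtain ⟨x, hx⟩ := l_exists_pos (fun x => cap (l_jl l r x)) (by rw [hc1]; omega)
        obtain ⟨y, hy⟩ := l_exists_pos (fun x => cap (l_jr l r x)) (by rw [hc2]; omega)
        refine ⟨f * (X (l_jr l r y) - X (l_jl l r x)),
          cap - (Pi.single (l_jr l r y) 1 + Pi.single (l_jl l r x) 1), ?_, ?_, ?_, ?_,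
          l_diff_mul hc4 (l_diff_X _ _), ?_⟩
        · refine l_leaf_cases ?_ ?_
          · intro z
            have hz := hc0 (l_jl l r z)
            simp only [Pi.sub_apply, Pi.add_apply]
            rw [Pi.single_eq_of_ne (l_jl_jr l r z y)]
            by_cases hzx : z = x
            · subst hzx
              rw [Pi.single_eq_same]
              omega
            · rw [Pi.single_eq_of_ne fun h => hzx (l_jl_inj l r h)]
              omega
          · intro z
            have hz := hc0 (l_jr l r z)
            simp only [Pi.sub_apply, Pi.add_apply]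
            rw [Pi.single_eq_of_ne (l_jl_jr l r x z).symm (M := fun _ => ℤ)]
            by_cases hzy : z = y
            · subst hzy
              rw [Pi.single_eq_same]
              omega
            · rw [Pi.single_eq_of_ne fun h => hzy (l_jr_inj l r h)]
              omega
        · simp only [Pi.sub_apply, Pi.add_apply, Finset.sum_sub_distrib, Finset.sum_add_distrib]
          rw [hc1]
          have s1 : ∑ z : Leaf l, (Pi.single (l_jr l r y) 1 : Leaf (.node l r) → ℤ) (l_jl l r z)
              = 0 := Finset.sum_eq_zero fun z _ => Pi.single_eq_of_ne (l_jl_jr l r z y) _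
          have s2 : ∑ z : Leaf l, (Pi.single (l_jl l r x) 1 : Leaf (.node l r) → ℤ) (l_jl l r z)
              = 1 := by
            rw [Finset.sum_eq_single x]
            · exact Pi.single_eq_same _ _
            · intro z _ hz
              exact Pi.single_eq_of_ne (fun h => hz (l_jl_inj l r h)) _
            · intro h; exact absurd (Finset.mem_univ _) h
          rw [s1, s2]
          push_cast
          ring
        · simp only [Pi.sub_apply, Pi.add_apply, Finset.sum_sub_distrib, Finset.sum_add_distrib]
          rw [hc2]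
          have s1 : ∑ z : Leaf r, (Pi.single (l_jl l r x) 1 : Leaf (.node l r) → ℤ) (l_jr l r z)
              = 0 := Finset.sum_eq_zero fun z _ => Pi.single_eq_of_ne (l_jl_jr l r x z).symm _
          have s2 : ∑ z : Leaf r, (Pi.single (l_jr l r y) 1 : Leaf (.node l r) → ℤ) (l_jr l r z)
              = 1 := by
            rw [Finset.sum_eq_single y]
            · exact Pi.single_eq_same _ _
            · intro z _ hz
              exact Pi.single_eq_of_ne (fun h => hz (l_jr_inj l r h)) _
            · intro h; exact absurd (Finset.mem_univ _) h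
          rw [s1, s2]
          push_cast
          ring
        · have p3 := l_PS_mul hc3 (l_PS_diff (l_jr l r y) (l_jl l r x))
          have e1 : a - (cap - (Pi.single (l_jr l r y) 1 + Pi.single (l_jl l r x) 1)) =
              a - cap + (Pi.single (l_jr l r y) 1 + Pi.single (l_jl l r x) 1) := by
            abel
          rw [e1]
          rwa [add_assoc (∑ ν, (e (l_il l r ν) : ℤ) + ∑ ν, (e (l_ir l r ν) : ℤ)) (t : ℤ) 1,
            ← Nat.cast_succ] at p3
        · rw [map_mul]
          have hE : Function.update e (l_nn l r) (t + 1) =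
              Function.update e (l_nn l r) t + Pi.single (l_nn l r) 1 := by
            funext ν
            by_cases hν : ν = l_nn l r
            · subst hν
              rw [Function.update_self, Pi.add_apply, Function.update_self, Pi.single_eq_same]
            · rw [Function.update_of_ne hν, Pi.add_apply, Function.update_of_ne hν,
                Pi.single_eq_of_ne hν, add_zero]
          rw [hE]
          exact hc5.mul _ (l_Lead_diff l r x y)
    obtain ⟨f, cap, hc0, hc1, hc2, hc3, hc4, hc5⟩ := key (e (l_nn l r)) le_rfl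
    refine ⟨f, cap, hc0, ?_, ?_, hc4, ?_⟩
    · rw [l_sum_leaf', hc1, hc2, hlab]
      ring
    · rw [l_sum_node]
      have e1 : (e (l_nn l r) : ℤ) + (∑ x : Node l, (e (l_il l r x) : ℤ) +
          ∑ x : Node r, (e (l_ir l r x) : ℤ)) = ∑ ν, (e (l_il l r ν) : ℤ) +
          ∑ ν, (e (l_ir l r ν) : ℤ) + (e (l_nn l r) : ℤ) := by ring
      rw [e1]
      exact hc3
    · rw [Function.update_eq_self] at hc5
      exact hc5

theorem exists_graph (T : Tr) (a : Leaf T → ℤ) (ha : ∀ x, 0 ≤ a x) (e : Node T → ℕ)
    (he : Adm T a (fun ν => (e ν : ℤ))) :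
    ∃ f ∈ Inv a (∑ ν, (e ν : ℤ)), Lead T (Phi T f) e := by
  obtain ⟨f, cap, h0, _, h2, h3, h4⟩ := l_exists T a ha e he
  refine ⟨f, Submodule.mem_inf.2 ⟨l_PS_mono h2 fun i => ?_, ?_⟩, h4⟩
  · have := h0 i
    simp only [Pi.sub_apply]
    omega
  · rw [LinearMap.mem_ker]
    exact l_diff_FF h3

end Pool.Agent.HYP
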