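import Pool.Agent.HYP.Defs
import Pool.Agent.HYP.Sl2
import Pool.Agent.HYP.Count
import Pool.Agent.HYP.Graph

/-! # A basis of the invariants indexed by the admissible exponents, multiplication is triangular -/

set_option autoImplicit false

namespace Pool.Agent.HYP

open MvPolynomial Finset Module

/-- the exponent as a finitely supported function -/
noncomputable abbrev tb_fs {T : Tr} (e : Node T → ℕ) : Node T →₀ ℕ :=
  Finsupp.equivFunOnFinite.symm e

theorem tb_fs_inj {T : Tr} {e e' : Node T → ℕ} (h : tb_fs e = tb_fs e') : e = e' :=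
  Finsupp.equivFunOnFinite.symm.injective h

/-- a nonzero coefficient at `e0` of something with leading exponent `e`. -/
theorem Lead.tb_le {T : Tr} {g : MvPolynomial (Node T) ℝ} {e e0 : Node T → ℕ} (h : Lead T g e)
    (hc : coeff (tb_fs e0) g ≠ 0) (hne : e0 ≠ e) : wte T e0 < wte T e := by
  have h1 : tb_fs e0 ∈ g.support := mem_support_iff.mpr hc
  have h2 := h.2 _ h1 (fun h3 => hne (tb_fs_inj h3))
  exact h2

/-- coefficient of a combination at an exponent of maximal weight. -/
theorem tb_coeff_max {T : Tr} (s : Finset (Node T → ℕ))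
    (g : (Node T → ℕ) → MvPolynomial (Node T) ℝ) (hg : ∀ e ∈ s, Lead T (g e) e)
    (c : (Node T → ℕ) → ℝ) (e0 : Node T → ℕ) (h0 : e0 ∈ s)
    (hmax : ∀ e ∈ s, c e ≠ 0 → wte T e ≤ wte T e0) :
    coeff (tb_fs e0) (∑ e ∈ s, c e • g e) = c e0 := by
  rw [coeff_sum, Finset.sum_eq_single e0]
  · rw [coeff_smul, (hg e0 h0).1, smul_eq_mul, mul_one]
  · intro e he hne
    rw [coeff_smul, smul_eq_mul]
    by_contra hcon
    have h1 : c e ≠ 0 := fun h => hcon (by rw [h, zero_mul])
    have h2 : coeff (tb_fs e0) (g e) ≠ 0 := fun h => hcon (by rw [h, mul_zero])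
    have h3 := (hg e he).tb_le h2 (Ne.symm hne)
    have h4 := hmax e he h1
    omega
  · intro h
    exact absurd h0 h

/-- coefficient of a combination at an exponent of larger weight. -/
theorem tb_coeff_zero {T : Tr} (s : Finset (Node T → ℕ))
    (g : (Node T → ℕ) → MvPolynomial (Node T) ℝ) (hg : ∀ e ∈ s, Lead T (g e) e)
    (c : (Node T → ℕ) → ℝ) (e0 : Node T → ℕ)
    (hmax : ∀ e ∈ s, c e ≠ 0 → wte T e < wte T e0) :
    coeff (tb_fs e0) (∑ e ∈ s, c e • g e) = 0 := by
  rw [coeff_sum]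
  refine Finset.sum_eq_zero fun e he => ?_
  rw [coeff_smul, smul_eq_mul]
  by_contra hcon
  have h1 : c e ≠ 0 := fun h => hcon (by rw [h, zero_mul])
  have h2 : coeff (tb_fs e0) (g e) ≠ 0 := fun h => hcon (by rw [h, mul_zero])
  have h4 := hmax e he h1
  have h3 := (hg e he).tb_le h2 (by rintro rfl; omega)
  omega

theorem tree_basis (T : Tr) :
    ∃ f : (Leaf T → ℤ) → (Node T → ℕ) → MvPolynomial (Leaf T) ℝ,
      (∀ (a : Leaf T → ℤ) (w d : ℤ), (∀ x, 0 ≤ a x) → 0 ≤ w → 2 * d = ∑ x, a x - w →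
        LinearIndependent ℝ (fun e : QQ T a w => f a e) ∧
        Submodule.span ℝ (f a '' QQ T a w) = Inv a d) ∧
      (∀ (a a' : Leaf T → ℤ) (w w' : ℤ) (e e' : Node T → ℕ), (∀ x, 0 ≤ a x) → (∀ x, 0 ≤ a' x) →
        0 ≤ w → 0 ≤ w' → e ∈ QQ T a w → e' ∈ QQ T a' w' →
        f a' e' * f a e - f (a' + a) (e' + e) ∈ Submodule.span ℝ
          (f (a' + a) '' {e'' | e'' ∈ QQ T (a' + a) (w' + w) ∧ wte T e'' < wte T (e' + e)})) := by
  classical
  let f : (Leaf T → ℤ) → (Node T → ℕ) → MvPolynomial (Leaf T) ℝ := fun a e =>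
    if h : (∀ x, 0 ≤ a x) ∧ Adm T a (fun ν => (e ν : ℤ)) then
      Classical.choose (exists_graph T a h.1 e h.2) else 0
  have hf : ∀ a e, (∀ x, 0 ≤ a x) → Adm T a (fun ν => (e ν : ℤ)) →
      f a e ∈ Inv a (∑ ν, (e ν : ℤ)) ∧ Lead T (Phi T (f a e)) e := by
    intro a e ha he
    have h : (∀ x, 0 ≤ a x) ∧ Adm T a (fun ν => (e ν : ℤ)) := ⟨ha, he⟩
    have h1 : f a e = Classical.choose (exists_graph T a h.1 e h.2) := dif_pos h
    rw [h1]
    exact Classical.choose_spec (exists_graph T a h.1 e h.2)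
  -- degree of the elements of `QQ`
  have hdeg : ∀ (a : Leaf T → ℤ) (w d : ℤ) (e : Node T → ℕ), 2 * d = ∑ x, a x - w →
      e ∈ QQ T a w → ∑ ν, (e ν : ℤ) = d := by
    intro a w d e hd he
    have h1 := lab_eq T a (fun ν => (e ν : ℤ))
    rw [he.2] at h1
    linarith
  have hmem : ∀ (a : Leaf T → ℤ) (w d : ℤ) (e : Node T → ℕ), (∀ x, 0 ≤ a x) →
      2 * d = ∑ x, a x - w → e ∈ QQ T a w → f a e ∈ Inv a d := by
    intro a w d e ha hd he
    have := (hf a e ha he.1).1
    rwa [hdeg a w d e hd he] at this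
  have hlead : ∀ (a : Leaf T → ℤ) (w : ℤ) (e : Node T → ℕ), (∀ x, 0 ≤ a x) → e ∈ QQ T a w →
      Lead T (Phi T (f a e)) e := fun a w e ha he => (hf a e ha he.1).2
  -- linear independence
  have hli : ∀ (a : Leaf T → ℤ) (w : ℤ), (∀ x, 0 ≤ a x) →
      LinearIndependent ℝ (fun e : QQ T a w => f a e) := by
    intro a w ha
    rw [linearIndependent_iff']
    intro s g hs i hi
    by_contra hgi
    -- pass to a finset of exponents
    let c : (Node T → ℕ) → ℝ := fun e => if h : e ∈ QQ T a w then g ⟨e, h⟩ else 0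
    have hc : ∀ e : QQ T a w, c e = g e := fun e => by
      simp only [c]
      rw [dif_pos e.2]
    let s' : Finset (Node T → ℕ) := s.map (Function.Embedding.subtype _)
    have hs'm : ∀ e ∈ s', e ∈ QQ T a w := by
      intro e he
      simp only [s', Finset.mem_map, Function.Embedding.subtype_apply] at he
      obtain ⟨x, _, rfl⟩ := he
      exact x.2
    have hsum : ∑ e ∈ s', c e • f a e = 0 := by
      rw [← hs]
      simp only [s', Finset.sum_map, Function.Embedding.subtype_apply]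
      exact Finset.sum_congr rfl fun e _ => by rw [hc]
    obtain ⟨e0, he0, hmax⟩ := Finset.exists_max_image (s'.filter fun e => c e ≠ 0) (wte T)
      ⟨i, Finset.mem_filter.mpr ⟨Finset.mem_map.mpr ⟨i, hi, rfl⟩, by rw [hc]; exact hgi⟩⟩
    rw [Finset.mem_filter] at he0
    have h1 := tb_coeff_max s' (fun e => Phi T (f a e)) (fun e he => hlead a w e ha (hs'm e he)) c e0
      he0.1 (fun e he hce => hmax e (Finset.mem_filter.mpr ⟨he, hce⟩))
    have h2 : ∑ e ∈ s', c e • Phi T (f a e) = 0 := by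
      have := congrArg (Phi T) hsum
      rw [map_sum, map_zero] at this
      rw [← this]
      exact Finset.sum_congr rfl fun e _ => by rw [map_smul]
    rw [h2, coeff_zero] at h1
    exact he0.2 h1.symm
  have hspan : ∀ (a : Leaf T → ℤ) (w d : ℤ), (∀ x, 0 ≤ a x) → 0 ≤ w → 2 * d = ∑ x, a x - w →
      Submodule.span ℝ (f a '' QQ T a w) = Inv a d := by
    intro a w d ha hw hd
    have : FiniteDimensional ℝ (PS a d) := finiteDimensional_PS a d
    have : FiniteDimensional ℝ (Inv a d) :=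
      Submodule.finiteDimensional_of_le (inf_le_left : Inv a d ≤ PS a d)
    refine Submodule.eq_of_le_of_finrank_eq ?_ ?_
    · rw [Submodule.span_le]
      rintro _ ⟨e, he, rfl⟩
      exact hmem a w d e ha hd he
    · have : Fintype (QQ T a w) := (QQ_finite T a w).fintype
      have h1 : finrank ℝ (Submodule.span ℝ (f a '' QQ T a w)) = (QQ T a w).ncard := by
        have h2 := finrank_span_eq_card (hli a w ha)
        have h3 : Set.range (fun e : QQ T a w => f a e) = f a '' QQ T a w := by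
          ext x
          simp
        rw [h3] at h2
        rw [h2, ← Nat.card_eq_fintype_card, Nat.card_coe_set_eq]
      have h4 := ncard_QQ T a ha w d hw hd
      have h5 := finrank_Inv a d (by linarith)
      have h6 : ((finrank ℝ (Submodule.span ℝ (f a '' QQ T a w)) : ℕ) : ℤ)
          = (finrank ℝ (Inv a d) : ℤ) := by rw [h1, h4, h5]
      exact_mod_cast h6
  refine ⟨f, fun a w d ha hw hd => ⟨hli a w ha, hspan a w d ha hw hd⟩, ?_⟩
  intro a a' w w' e e' ha ha' hw hw' he he'
  have haa : ∀ x, 0 ≤ (a' + a) x := fun x => add_nonneg (ha' x) (ha x)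
  -- the sum is admissible
  have hcast : (fun ν => (((e' + e) ν : ℕ) : ℤ)) = (fun ν => (e' ν : ℤ)) + (fun ν => (e ν : ℤ)) := by
    funext ν
    simp
  have hQ : e' + e ∈ QQ T (a' + a) (w' + w) := by
    refine ⟨?_, ?_⟩
    · rw [hcast]
      exact Adm.add T he'.1 he.1
    · have h1 := he.2
      have h2 := he'.2
      rw [lab_eq] at h1 h2 ⊢
      simp only [Pi.add_apply, Finset.sum_add_distrib, Nat.cast_add]
      linarith
  set d := ∑ ν, (e ν : ℤ) with hd
  set d' := ∑ ν, (e' ν : ℤ) with hd'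
  have h2d : 2 * d = ∑ x, a x - w := by
    have h1 := he.2
    rw [lab_eq] at h1
    linarith
  have h2d' : 2 * d' = ∑ x, a' x - w' := by
    have h1 := he'.2
    rw [lab_eq] at h1
    linarith
  have h2dd : 2 * (d' + d) = ∑ x, (a' + a) x - (w' + w) := by
    simp only [Pi.add_apply, Finset.sum_add_distrib]
    linarith
  have hg : f a' e' * f a e ∈ Inv (a' + a) (d' + d) :=
    Inv_mul (hf a' e' ha' he'.1).1 (hf a e ha he.1).1
  rw [← hspan (a' + a) (w' + w) (d' + d) haa (add_nonneg hw' hw) h2dd] at hg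
  -- coordinates
  have hfin := QQ_finite T (a' + a) (w' + w)
  set s : Finset (Node T → ℕ) := hfin.toFinset with hs
  have hsm : ∀ x, x ∈ s ↔ x ∈ QQ T (a' + a) (w' + w) := fun x => hfin.mem_toFinset
  obtain ⟨c, hc⟩ : ∃ c : (Node T → ℕ) → ℝ, f a' e' * f a e = ∑ x ∈ s, c x • f (a' + a) x := by
    have h1 : f (a' + a) '' QQ T (a' + a) (w' + w) = f (a' + a) '' (s : Set (Node T → ℕ)) := by
      rw [hs, hfin.coe_toFinset]
    rw [h1, Submodule.mem_span_image_finset_iff_exists_fun'] at hg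
    obtain ⟨c, hc⟩ := hg
    exact ⟨c, hc.symm⟩
  have hL : ∀ x ∈ s, Lead T (Phi T (f (a' + a) x)) x := fun x hx =>
    hlead _ _ x haa ((hsm x).mp hx)
  have hPhi : Phi T (f a' e' * f a e) = ∑ x ∈ s, c x • Phi T (f (a' + a) x) := by
    rw [hc, map_sum]
    exact Finset.sum_congr rfl fun x _ => by rw [map_smul]
  have hlead' : Lead T (Phi T (f a' e' * f a e)) (e' + e) := by
    rw [map_mul]
    exact Lead.mul T (hlead a' w' e' ha' he') (hlead a w e ha he)
  -- a maximiser is `e' + e`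
  have hne : (s.filter fun x => c x ≠ 0).Nonempty := by
    by_contra hcon
    rw [Finset.not_nonempty_iff_eq_empty, Finset.filter_eq_empty_iff] at hcon
    have h1 : Phi T (f a' e' * f a e) = 0 := by
      rw [hPhi]
      refine Finset.sum_eq_zero fun x hx => ?_
      have := hcon hx
      rw [not_not] at this
      rw [this, zero_smul]
    have h2 := hlead'.1
    rw [h1, coeff_zero] at h2
    exact zero_ne_one h2
  have hstep : ∀ e0 ∈ s, c e0 ≠ 0 → (∀ x ∈ s, c x ≠ 0 → wte T x ≤ wte T e0) → e0 = e' + e := by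
    intro e0 h0 hc0 hmax
    have h1 := tb_coeff_max s (fun x => Phi T (f (a' + a) x)) hL c e0 h0 hmax
    rw [← hPhi] at h1
    by_contra hne0
    have h2 : wte T e0 < wte T (e' + e) := hlead'.tb_le (by rw [h1]; exact hc0) hne0
    have h3 := tb_coeff_zero s (fun x => Phi T (f (a' + a) x)) hL c (e' + e)
      (fun x hx hcx => lt_of_le_of_lt (hmax x hx hcx) h2)
    rw [← hPhi, hlead'.1] at h3
    exact one_ne_zero h3
  obtain ⟨e0, he0, hmax⟩ := Finset.exists_max_image _ (wte T) hne
  rw [Finset.mem_filter] at he0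
  have hmax' : ∀ x ∈ s, c x ≠ 0 → wte T x ≤ wte T e0 := fun x hx hcx =>
    hmax x (Finset.mem_filter.mpr ⟨hx, hcx⟩)
  have he0' : e0 = e' + e := hstep e0 he0.1 he0.2 hmax'
  subst he0'
  have hone : c (e' + e) = 1 := by
    have h1 := tb_coeff_max s (fun x => Phi T (f (a' + a) x)) hL c (e' + e) he0.1 hmax'
    rw [← hPhi, hlead'.1] at h1
    exact h1.symm
  have hlt : ∀ x ∈ s, c x ≠ 0 → x ≠ e' + e → wte T x < wte T (e' + e) := by
    intro x hx hcx hxne
    refine lt_of_le_of_ne (hmax' x hx hcx) fun heq => hxne ?_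
    exact hstep x hx hcx (fun y hy hcy => by rw [heq]; exact hmax' y hy hcy)
  have hfinal : f a' e' * f a e - f (a' + a) (e' + e)
      = ∑ x ∈ s.erase (e' + e), c x • f (a' + a) x := by
    rw [hc, ← Finset.add_sum_erase s _ he0.1, hone, one_smul]
    ring
  rw [hfinal]
  refine Submodule.sum_mem _ fun x hx => ?_
  rw [Finset.mem_erase] at hx
  by_cases hcx : c x = 0
  · rw [hcx, zero_smul]; exact Submodule.zero_mem _
  · refine Submodule.smul_mem _ _ (Submodule.subset_span ⟨x, ⟨(hsm x).mp hx.2, ?_⟩, rfl⟩)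
    exact hlt x hx.2 hcx hx.1

end Pool.Agent.HYP
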