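import Pool.Agent.HYP.Basic
import Pool.Agent.HYP.Sl2
import Pool.Agent.HYP.Count
import Pool.Agent.HYP.TreeBasis
import Pool.Agent.HYP.FreeLemma
import Pool.Agent.HYP.Cone
import Pool.Agent.HYP.Shift

/-!
# Module FA: the modules `Mod` are free (numerically, in degrees `≤ k`)

Blueprint: `Pool/Agent/HYP/BLUEPRINT.md`.
-/

set_option autoImplicit false

namespace Pool.Agent.HYP

open MvPolynomial Finset Module

/-- a nonempty open set is not covered by finitely many proper affine subspaces -/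
theorem exists_generic {V : Type} [NormedAddCommGroup V] [NormedSpace ℝ V] [FiniteDimensional ℝ V]
    (U : Set V) (hU : IsOpen U) (hne : U.Nonempty) (s : Finset (V × Submodule ℝ V))
    (hs : ∀ q ∈ s, q.2 ≠ ⊤) : ∃ u ∈ U, ∀ q ∈ s, q.1 + u ∉ q.2 := by
  classical
  induction s using Finset.induction_on generalizing U with
  | empty =>
    obtain ⟨u, hu⟩ := hne
    exact ⟨u, hu, by simp⟩
  | insert q s hq ih =>
    have hclosed : IsClosed {u : V | q.1 + u ∈ q.2} :=
      (Submodule.closed_of_finiteDimensional q.2).preimage (continuous_const.add continuous_id)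
    have hne' : (U ∩ {u : V | q.1 + u ∈ q.2}ᶜ).Nonempty := by
      obtain ⟨u, hu⟩ := hne
      by_cases h : q.1 + u ∈ q.2
      · obtain ⟨v, hv⟩ : ∃ v, v ∉ q.2 := by
          by_contra hcon
          push Not at hcon
          exact hs q (Finset.mem_insert_self _ _) ((Submodule.eq_top_iff').2 hcon)
        have hc : Continuous fun t : ℝ => u + t • v := by fun_prop
        have hnhds : ∀ᶠ t in nhdsWithin (0 : ℝ) {0}ᶜ, u + t • v ∈ U := by
          have : ∀ᶠ t in nhds (0 : ℝ), u + t • v ∈ U := by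
            have := hc.continuousAt (x := 0) |>.eventually_mem (hU.mem_nhds (by simpa using hu))
            exact this
          exact this.filter_mono nhdsWithin_le_nhds
        obtain ⟨t, ht, ht0⟩ := (hnhds.and self_mem_nhdsWithin).exists
        refine ⟨u + t • v, ht, fun hmem => hv ?_⟩
        have h1 : t • v ∈ q.2 := by
          have := q.2.sub_mem hmem h
          have e : q.1 + (u + t • v) - (q.1 + u) = t • v := by abel
          rwa [e] at this
        exact (Submodule.smul_mem_iff _ (by simpa using ht0)).1 h1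
      · exact ⟨u, hu, h⟩
    obtain ⟨u, ⟨hu, hu'⟩, h⟩ := ih (U ∩ {u : V | q.1 + u ∈ q.2}ᶜ)
      (hU.inter hclosed.isOpen_compl) hne' (fun q' hq' => hs q' (Finset.mem_insert_of_mem hq'))
    refine ⟨u, hu, fun q' hq' => ?_⟩
    rcases Finset.mem_insert.1 hq' with rfl | h'
    · exact hu'
    · exact h q' h'

theorem f_adm_nonneg {R : Type} [Ring R] [LE R] : ∀ (T : Tr) (a : Leaf T → R) (e : Node T → R),
    Adm T a e → ∀ ν, 0 ≤ e ν
  | .leaf _, _, _, _ => fun ν => (ν : Empty).elim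
  | .node l r, a, e, h => by
    obtain ⟨hl, hr, h0, -, -⟩ := h
    intro ν
    match ν with
    | none => exact h0
    | some (Sum.inl x) => exact f_adm_nonneg l _ _ hl x
    | some (Sum.inr x) => exact f_adm_nonneg r _ _ hr x

theorem f_XT_neg : ∀ (r : ℕ) (b : Leaf (XT r) → ℤ)
    (e : Node (XT r) → ℤ), ¬ Adm (XT r) (lbl (XT r) (-1) b) e
  | 0, b, e, h => by
    obtain ⟨-, -, h0, h1, -⟩ := h
    have : e none ≤ -1 := h1
    omega
  | r + 1, b, e, h => by
    obtain ⟨⟨h, -, -, -, -⟩, -, -, -, -⟩ := h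
    exact f_XT_neg r _ _ h

theorem f_TT_neg (r : ℕ) (par : Bool) (b : Leaf (TT r par) → ℤ) (e : Node (TT r par) → ℤ) :
    ¬ Adm (TT r par) (lbl (TT r par) (-1) b) e := by
  intro h
  cases par
  · obtain ⟨h, -, -, -, -⟩ := h
    exact f_XT_neg r _ _ h
  · obtain ⟨h, -, -, -, -⟩ := h
    exact f_XT_neg r _ _ h

theorem f_lbl_add (T : Tr) (s : ℤ) (b : Leaf T → ℤ) :
    lbl T 1 0 + lbl T s b = lbl T (1 + s) b := by
  funext x
  simp only [Pi.add_apply, lbl]
  split <;> simp

theorem f_sum_lbl (T : Tr) (s : ℤ) (b : Leaf T → ℤ) :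
    ∑ x, lbl T s b x = zc T * s + ∑ x, if col T x then 0 else b x := by
  have h1 : ∀ x, lbl T s b x = (if col T x = true then s else 0) + if col T x then 0 else b x := by
    intro x
    simp only [lbl]
    split <;> simp
  rw [Finset.sum_congr rfl fun x _ => h1 x, Finset.sum_add_distrib]
  congr 1
  rw [← Finset.sum_filter, Finset.sum_const, zc, nsmul_eq_mul]

theorem f_lbl_nonneg (T : Tr) (s : ℤ) (b : Leaf T → ℤ) (hs : 0 ≤ s) (hb : ∀ x, 0 ≤ b x) :
    ∀ x, 0 ≤ lbl T s b x := by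
  intro x
  simp only [lbl]
  split
  · exact hs
  · exact hb x

theorem f_Inv_bot {ι : Type} [Fintype ι] (a : ι → ℤ) (d : ℤ) (x : ι) (hx : a x < 0) :
    Inv a d = ⊥ := by
  rw [eq_bot_iff]
  intro f hf
  have hf' : f ∈ PS a d := hf.1
  rw [Submodule.mem_bot]
  by_contra hne
  obtain ⟨m, hm⟩ := Finset.nonempty_of_ne_empty
    (fun h => hne (MvPolynomial.support_eq_empty.1 h))
  have := (hf' m hm).1 x
  omega

theorem f_QQ_add (T : Tr) {a a' : Leaf T → ℤ} {w w' : ℤ} {e e' : Node T → ℕ}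
    (h' : e' ∈ QQ T a' w') (h : e ∈ QQ T a w) : e' + e ∈ QQ T (a' + a) (w' + w) := by
  have h1 : (fun ν => ((e' + e) ν : ℤ)) = (fun ν => (e' ν : ℤ)) + fun ν => (e ν : ℤ) := by
    funext ν
    simp
  refine ⟨?_, ?_⟩
  · rw [h1]
    exact h'.1.add T h.1
  · rw [h1, lab_add, h'.2, h.2]

theorem f_exists_true : ∀ (r : ℕ), ∃ x : Leaf (XT r), col (XT r) x = true
  | 0 => ⟨Sum.inl (), rfl⟩
  | r + 1 => by
    obtain ⟨x, hx⟩ := f_exists_true r
    exact ⟨Sum.inl (Sum.inl x), hx⟩

theorem f_exists_true' (r : ℕ) (par : Bool) : ∃ x : Leaf (TT r par), col (TT r par) x = true := by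
  obtain ⟨x, hx⟩ := f_exists_true r
  cases par
  · exact ⟨Sum.inl x, hx⟩
  · exact ⟨Sum.inl x, hx⟩

/-- the part of an exponent vector at the `y`-nodes -/
def f_yp (T : Tr) (e : Node T → ℕ) : {ν : Node T // ¬ isZ T ν = true} → ℕ := fun ν => e ν.1

/-- the exponents of degree `S` -/
noncomputable def f_Q (T : Tr) (b : Leaf T → ℤ) (J : ℕ) (β : ℤ) : ℕ → Finset (Node T → ℕ)
  | 0 => ∅
  | S + 1 => (QQ_finite T (lbl T (S : ℤ) b) (((S : ℤ) + 1) * J - β)).toFinset

theorem f_mem_Q (T : Tr) (b : Leaf T → ℤ) (J : ℕ) (β : ℤ) (S : ℕ) (e : Node T → ℕ) :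
    e ∈ f_Q T b J β (S + 1) ↔ e ∈ QQ T (lbl T (S : ℤ) b) (((S : ℤ) + 1) * J - β) := by
  simp [f_Q]

/-- weight as an additive homomorphism -/
def f_wt (T : Tr) : (Node T → ℕ) →+ ℕ where
  toFun := wte T
  map_zero' := by simp [wte]
  map_add' e e' := by simp [wte, add_mul, Finset.sum_add_distrib]

/-- the `z`-part as a real vector -/
def f_zp (T : Tr) (e : Node T → ℕ) : ZN T → ℝ := fun ν => (e ν.1 : ℝ)

theorem f_zp_add (T : Tr) (e e' : Node T → ℕ) : f_zp T (e + e') = f_zp T e + f_zp T e' := by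
  funext ν
  simp [f_zp]

theorem f_sum_zp (T : Tr) (e : Node T → ℕ) (he : ∀ ν, isZ T ν = false → e ν = 0) :
    ∑ ν, f_zp T e ν = ∑ ν, (e ν : ℝ) := by
  classical
  have h1 : ∑ ν, (e ν : ℝ) = ∑ ν ∈ Finset.univ.filter (fun ν => isZ T ν = true), (e ν : ℝ) := by
    rw [Finset.sum_filter]
    refine Finset.sum_congr rfl fun ν _ => ?_
    split
    · rfl
    · rw [he ν (by simpa using ‹¬ isZ T ν = true›)]
      simp
  rw [h1]
  exact (Finset.sum_subtype (Finset.univ.filter (fun ν => isZ T ν = true)) (by simp)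
    (fun ν => (e ν : ℝ))).symm

/-- sums of the degree-one exponents -/
theorem f_sum_AA (r : ℕ) (par : Bool) (p J : ℕ) (hN : zc (TT r par) = 2 * p + J)
    (e : Node (TT r par) → ℕ) (he : e ∈ AA (TT r par) J) :
    ∑ ν, (e ν : ℤ) = p := by
  obtain ⟨h1, h2⟩ := he
  rw [lab_eq, f_sum_lbl] at h2
  have : (zc (TT r par) : ℤ) = 2 * p + J := by exact_mod_cast hN
  simp at h2
  omega

/-- span of a finite set of degree-one exponents -/
noncomputable def f_sp (T : Tr) (J : ℕ) (s : Finset (AA T J)) : Submodule ℝ (ZN T → ℝ) :=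
  Submodule.span ℝ ((fun a : AA T J => f_zp T a.1) '' (s : Set (AA T J)))

section Main

variable (r : ℕ) (par : Bool) (p J : ℕ)

theorem f_CR_of_InCone [Fintype (AA (TT r par) J)] (hp : 1 ≤ p)
    (hN : zc (TT r par) = 2 * p + J) (x : ZN (TT r par) → ℝ)
    (h : InCone (fun a : AA (TT r par) J => f_zp (TT r par) a.1) x) : CR (TT r par) p x := by
  classical
  obtain ⟨c, hc, hx⟩ := h
  have key := CR_of_cone r par p J hp hN
    ((Finset.univ : Finset (AA (TT r par) J)).map (Function.Embedding.subtype _))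
    (by
      intro e he
      simp only [Finset.coe_map, Set.mem_image] at he
      obtain ⟨a, -, rfl⟩ := he
      exact a.2)
    (fun e => if h : e ∈ AA (TT r par) J then c ⟨e, h⟩ else 0)
    (by
      intro e he
      split
      · exact hc _
      · exact le_rfl)
  convert key using 1
  rw [hx]
  funext ν
  simp [Finset.sum_apply, f_zp]

theorem f_InCone_of_CR [Fintype (AA (TT r par) J)] (hp : 1 ≤ p) (hJ : 2 ≤ J)
    (hN : zc (TT r par) = 2 * p + J) (x : ZN (TT r par) → ℝ) (h : CR (TT r par) p x) :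
    InCone (fun a : AA (TT r par) J => f_zp (TT r par) a.1) x := by
  classical
  obtain ⟨s, c, hs, hc, hx⟩ := cone_of_CR r par p J hp hJ hN x h
  refine ⟨fun a => if a.1 ∈ s then c a.1 else 0, ?_, ?_⟩
  · intro a
    dsimp only
    split
    · exact hc _ ‹_›
    · exact le_rfl
  · rw [hx]
    funext ν
    simp only [Finset.sum_apply, Pi.smul_apply, smul_eq_mul, f_zp, ite_mul, zero_mul]
    rw [← Finset.sum_filter]
    refine Finset.sum_bij' (fun e he => ⟨e, hs he⟩) (fun a _ => a.1) ?_ ?_ ?_ ?_ ?_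
    · intro e he
      simpa using he
    · intro a ha
      simpa using ha
    · intro e he
      rfl
    · intro a ha
      rfl
    · intro e he
      rfl

theorem f_exists_u (hp : 1 ≤ p) (hJ : 2 ≤ J)
    (hN : zc (TT r par) = 2 * p + J) (b : Leaf (TT r par) → ℤ) (hb : ∀ x, b x = 0 ∨ b x = 1)
    (β κ : ℤ) (hβ : β = 1 ∨ (β = 0 ∧ ∀ x, spec r par x → b x = 0))
    (hκ : 2 * κ = zc (TT r par) - (∑ x, if col (TT r par) x then 0 else b x) - β)
    (G : Finset ((ZN (TT r par) → ℝ) × Submodule ℝ (ZN (TT r par) → ℝ)))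
    (hG : ∀ q ∈ G, q.2 ≠ ⊤) (y : {ν : Node (TT r par) // ¬ isZ (TT r par) ν = true} → ℕ) :
    ∃ u : ZN (TT r par) → ℝ, (∀ q ∈ G, q.1 + u ∉ q.2) ∧
      ∀ (S₀ : ℤ) (e₀ : Node (TT r par) → ℕ),
        Adm (TT r par) (lbl (TT r par) (S₀ - 1) b) (fun ν => (e₀ ν : ℤ)) →
        f_yp (TT r par) e₀ = y → ∀ (S : ℤ) (e : Node (TT r par) → ℤ),
        (∀ ν, isZ (TT r par) ν = false → e ν = e₀ ν) → ∑ ν, e ν = S * p - κ →
        (Adm (TT r par) (lbl (TT r par) (S - 1) b) e ↔
          CR (TT r par) p (fun ν => (e ν.1 : ℝ) + u ν)) := by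
  by_cases hex : ∃ (S₀ : ℤ) (e₀ : Node (TT r par) → ℕ),
        Adm (TT r par) (lbl (TT r par) (S₀ - 1) b) (fun ν => (e₀ ν : ℤ)) ∧
        f_yp (TT r par) e₀ = y
  · obtain ⟨S₀, e₀, h₀, hy₀⟩ := hex
    obtain ⟨U, hU, hne, h⟩ := shift_exists r par p J hp hJ hN b hb β κ hβ hκ S₀ _ h₀
    obtain ⟨u, hu, hu'⟩ := exists_generic U hU hne G hG
    refine ⟨u, hu', fun S₁ e₁ h₁ hy₁ S e he hsum => h u hu S e (fun ν hν => ?_) hsum⟩
    rw [he ν hν]
    have := congrFun (hy₁.trans hy₀.symm) ⟨ν, by simp [hν]⟩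
    simp only [f_yp] at this
    exact_mod_cast this
  · obtain ⟨u, -, hu'⟩ := exists_generic Set.univ isOpen_univ Set.univ_nonempty G hG
    exact ⟨u, hu', fun S₁ e₁ h₁ hy₁ => (hex ⟨S₁, e₁, h₁, hy₁⟩).elim⟩

theorem free_family (r : ℕ) (par : Bool) (p J : ℕ) (hp : 1 ≤ p) (hJ : 2 ≤ J)
    (hN : zc (TT r par) = 2 * p + J) {I : Type} [Fintype I] (b : I → Leaf (TT r par) → ℤ)
    (hb : ∀ i x, b i x = 0 ∨ b i x = 1)
    (β κ : I → ℤ) (hβ : ∀ i, β i = 1 ∨ (β i = 0 ∧ ∀ x, spec r par x → b i x = 0))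
    (hκ : ∀ i, 2 * κ i = zc (TT r par) - (∑ x, if col (TT r par) x then 0 else b i x) - β i)
    (k : ℕ) :
    ∃ θ : Fin (zc (TT r par) - 1) → MvPolynomial (Leaf (TT r par)) ℝ,
      (∀ j, θ j ∈ Inv (lbl (TT r par) 1 0) (p : ℤ)) ∧
      ∀ i, FreeUpTo θ (Mod (TT r par) (b i) p (κ i)) k := by
  classical
  have hNZ : (zc (TT r par) : ℤ) = 2 * p + J := by exact_mod_cast hN
  have hJZ : (2 : ℤ) ≤ J := by exact_mod_cast hJ
  have hbn : ∀ i x, 0 ≤ b i x := by
    intro i x
    rcases hb i x with h | h <;> rw [h] <;> norm_num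
  have hβ1 : ∀ i, β i ≤ 1 := by
    intro i
    rcases hβ i with h | ⟨h, -⟩ <;> rw [h] <;> norm_num
  have hfin : (AA (TT r par) J).Finite := QQ_finite _ _ _
  have : Fintype (AA (TT r par) J) := hfin.fintype
  obtain ⟨f, hf1, hf2⟩ := tree_basis (TT r par)
  -- level data
  have hwS : ∀ i (S : ℕ), 0 ≤ ((S : ℤ) + 1) * J - β i := by
    intro i S
    have h1 : (1 : ℤ) * 2 ≤ ((S : ℤ) + 1) * J :=
      mul_le_mul (by omega) hJZ (by norm_num) (by omega)
    have := hβ1 i
    omega
  have hdS : ∀ i (S : ℕ), 2 * (((S + 1 : ℕ) : ℤ) * p - κ i) =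
      ∑ x, lbl (TT r par) (S : ℤ) (b i) x - (((S : ℤ) + 1) * J - β i) := by
    intro i S
    rw [f_sum_lbl]
    have h1 := hκ i
    push_cast
    linear_combination (-1 : ℤ) * h1 + (-(S : ℤ) - 1) * hNZ
  -- generic subspaces
  let G : I → Finset ((ZN (TT r par) → ℝ) × Submodule ℝ (ZN (TT r par) → ℝ)) := fun i =>
    (((Finset.range (k + 1)).biUnion (f_Q (TT r par) (b i) J (β i))) ×ˢ
      ((Finset.univ : Finset (Finset (AA (TT r par) J))).filter fun s =>
        f_sp (TT r par) J s ≠ ⊤)).image fun q => (f_zp (TT r par) q.1, f_sp (TT r par) J q.2)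
  have hG : ∀ i, ∀ q ∈ G i, q.2 ≠ ⊤ := by
    intro i q hq
    simp only [G, Finset.mem_image, Finset.mem_product, Finset.mem_filter] at hq
    obtain ⟨q', ⟨-, -, h⟩, rfl⟩ := hq
    exact h
  choose u hu1 hu2 using fun i => f_exists_u r par p J hp hJ hN (b i) (hb i) (β i) (κ i) (hβ i)
    (hκ i) (G i) (hG i)
  have hyp : ∀ (a : Node (TT r par) → ℕ), a ∈ AA (TT r par) J → ∀ m : Node (TT r par) → ℕ,
      f_yp (TT r par) (a + m) = f_yp (TT r par) m := by
    intro a ha m
    funext ν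
    simp [f_yp, AA_y _ J a ha ν.1 (by simpa using ν.2)]
  have key := free_lemma (V := ZN (TT r par) → ℝ) (P := MvPolynomial (Leaf (TT r par)) ℝ)
    (𝒜 := AA (TT r par) J) (X := Node (TT r par) → ℕ) (I := I)
    (fun a => f_zp (TT r par) a.1)
    ((1 / (p : ℝ)) • ∑ ν, LinearMap.proj ν)
    (by
      intro a
      have h1 := f_sum_zp (TT r par) a.1 (AA_y _ J a.1 a.2)
      have h2 := f_sum_AA r par p J hN a.1 a.2
      have h3 : (∑ ν, (a.1 ν : ℝ)) = p := by exact_mod_cast h2
      have hp' : (p : ℝ) ≠ 0 := by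
        have : (1 : ℝ) ≤ p := by exact_mod_cast hp
        positivity
      simp only [LinearMap.smul_apply, LinearMap.sum_apply, LinearMap.proj_apply, smul_eq_mul]
      rw [h1, h3]
      field_simp)
    (fun a => f (lbl (TT r par) 1 0) a.1) (fun a => a.1) (f_wt (TT r par))
    (fun i => f_Q (TT r par) (b i) J (β i)) (fun i => rfl)
    (fun i S => f (lbl (TT r par) ((S : ℤ) - 1) (b i)))
    (by
      intro i S
      rcases S with _ | S
      · have : IsEmpty {m // m ∈ f_Q (TT r par) (b i) J (β i) 0} :=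
          ⟨fun m => Finset.notMem_empty m.1 m.2⟩
        exact linearIndependent_empty_type
      · have h1 := (hf1 (lbl (TT r par) (S : ℤ) (b i)) (((S : ℤ) + 1) * J - β i)
          (((S + 1 : ℕ) : ℤ) * p - κ i) (f_lbl_nonneg _ _ _ (by omega) (hbn i)) (hwS i S)
          (hdS i S)).1
        have h2 : (((S + 1 : ℕ) : ℤ) - 1) = S := by push_cast; ring
        rw [h2]
        exact h1.comp (fun m : f_Q (TT r par) (b i) J (β i) (S + 1) =>
          (⟨m.1, (f_mem_Q _ _ _ _ _ _).1 m.2⟩ : QQ (TT r par) (lbl (TT r par) (S : ℤ) (b i))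
            (((S : ℤ) + 1) * J - β i)))
          (fun m m' h => Subtype.ext (by simpa using h)))
    (by
      rintro i (_ | S) a m hm
      · exact (Finset.notMem_empty m hm).elim
      · have h1 := f_QQ_add (TT r par) a.2 ((f_mem_Q _ _ _ _ _ _).1 hm)
        rw [f_lbl_add] at h1
        refine (f_mem_Q _ _ _ _ _ _).2 ?_
        have e1 : (((S + 1 : ℕ) : ℤ)) = 1 + S := by push_cast; ring
        have e2 : (1 + (S : ℤ) + 1) * J - β i = J + (((S : ℤ) + 1) * J - β i) := by ring
        rw [e1, e2]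
        exact h1)
    (by
      rintro i (_ | S) a m hm
      · exact (Finset.notMem_empty m hm).elim
      · have hm' := (f_mem_Q _ _ _ _ _ _).1 hm
        have h1 := hf2 (lbl (TT r par) (S : ℤ) (b i)) (lbl (TT r par) 1 0)
          (((S : ℤ) + 1) * J - β i) J m a.1 (f_lbl_nonneg _ _ _ (by omega) (hbn i))
          (f_lbl_nonneg _ _ _ (by norm_num) (by simp)) (hwS i S) (by omega) hm' a.2
        rw [f_lbl_add] at h1
        have e1 : (((S + 1 : ℕ) : ℤ) - 1) = S := by push_cast; ring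
        have e2 : (((S + 1 + 1 : ℕ) : ℤ) - 1) = 1 + S := by push_cast; ring
        rw [e1, e2]
        refine Submodule.span_mono (Set.image_mono ?_) h1
        rintro e ⟨he1, he2⟩
        refine ⟨(f_mem_Q _ _ _ _ _ _).2 ?_, he2⟩
        have e3 : (((S + 1 : ℕ) : ℤ)) = 1 + S := by push_cast; ring
        have e4 : (1 + (S : ℤ) + 1) * J - β i = J + (((S : ℤ) + 1) * J - β i) := by ring
        rw [e3, e4]
        exact he1)
    (fun i m => f_zp (TT r par) m + u i (f_yp (TT r par) m))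
    (by
      intro i S a m hm
      rw [hyp a.1 a.2 m, f_zp_add]
      abel)
    k
    (by
      rintro i (_ | S) hS m hm
      · exact (Finset.notMem_empty m hm).elim
      · have hm' := (f_mem_Q _ _ _ _ _ _).1 hm
        refine ⟨f_InCone_of_CR r par p J hp hJ hN _ ?_, ?_⟩
        · have e1 : (((S + 1 : ℕ) : ℤ) - 1) = S := by push_cast; ring
          have h1 := (hu2 i (f_yp (TT r par) m) ((S + 1 : ℕ) : ℤ) m (by rw [e1]; exact hm'.1)
            rfl ((S + 1 : ℕ) : ℤ) (fun ν => (m ν : ℤ)) (fun ν _ => rfl) (by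
              have h2 := hm'.2
              rw [lab_eq] at h2
              have h3 := hdS i S
              linarith)).1 (by rw [e1]; exact hm'.1)
          have h4 : f_zp (TT r par) m + u i (f_yp (TT r par) m) =
              fun ν : ZN (TT r par) => (((m ν.1 : ℕ) : ℤ) : ℝ) + u i (f_yp (TT r par) m) ν := by
            funext ν
            simp [f_zp]
          rw [h4]
          exact h1
        · intro s hs hmem
          refine hu1 i (f_yp (TT r par) m) (f_zp (TT r par) m, f_sp (TT r par) J s) ?_ hmem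
          simp only [G, Finset.mem_image, Finset.mem_product, Finset.mem_filter,
            Finset.mem_biUnion, Finset.mem_range]
          exact ⟨(m, s), ⟨⟨S + 1, by omega, hm⟩, Finset.mem_univ _, hs⟩, rfl⟩)
    (by
      rintro i S a m hm hcone
      have hm' := (f_mem_Q _ _ _ _ _ _).1 hm
      have e1 : (((S + 1 : ℕ) : ℤ) - 1) = S := by push_cast; ring
      have hsum : ∑ ν, (m ν : ℤ) = ((S + 1 : ℕ) : ℤ) * p - κ i := by
        have h2 := hm'.2
        rw [lab_eq] at h2
        have h3 := hdS i S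
        linarith
      have hsa := f_sum_AA r par p J hN a.1 a.2
      have h1 := f_CR_of_InCone r par p J hp hN _ hcone
      have h2 := (hu2 i (f_yp (TT r par) m) ((S + 1 : ℕ) : ℤ) m (by rw [e1]; exact hm'.1)
            rfl (S : ℤ) (fun ν => (m ν : ℤ) - (a.1 ν : ℤ)) (fun ν hν => by
              simp [AA_y _ J a.1 a.2 ν hν]) (by
              rw [Finset.sum_sub_distrib, hsum, hsa]
              push_cast
              ring)).2 (by
              convert h1 using 1
              funext ν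
              simp only [Pi.add_apply, Pi.sub_apply, f_zp]
              push_cast
              ring)
      have h3 : ∀ ν, a.1 ν ≤ m ν := by
        intro ν
        have := f_adm_nonneg _ _ _ h2 ν
        omega
      have h4 : m = a.1 + fun ν => m ν - a.1 ν := by
        funext ν
        simp only [Pi.add_apply]
        have := h3 ν
        omega
      have h5 : (fun ν => (m ν : ℤ) - (a.1 ν : ℤ)) = fun ν => ((m ν - a.1 ν : ℕ) : ℤ) := by
        funext ν
        rw [Nat.cast_sub (h3 ν)]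
      rcases S with _ | S
      · exfalso
        exact f_TT_neg r par (b i) _ (by simpa using h2)
      · have e2 : (((S + 1 : ℕ) : ℤ) - 1) = S := by push_cast; ring
        refine ⟨fun ν => m ν - a.1 ν, (f_mem_Q _ _ _ _ _ _).2 ⟨?_, ?_⟩, h4⟩
        · rw [← h5, ← e2]
          exact h2
        · rw [← h5, lab_eq, Finset.sum_sub_distrib, hsum, hsa]
          have h6 := hdS i S
          push_cast at h6 ⊢
          linarith)
  have hfr : finrank ℝ (ZN (TT r par) → ℝ) = zc (TT r par) - 1 := by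
    rw [Module.finrank_fintype_fun_eq_card, card_ZN]
  rw [hfr] at key
  obtain ⟨θ, hθ1, hθ2⟩ := key
  refine ⟨θ, fun j => ?_, fun i => ?_⟩
  · have h1 := (hf1 (lbl (TT r par) 1 0) J p (f_lbl_nonneg _ _ _ (by norm_num) (by simp))
      (by omega) (by rw [f_sum_lbl]; simp; omega)).2
    change θ j ∈ Inv (lbl (TT r par) 1 0) (p : ℤ)
    rw [← h1]
    have h3 := hθ1 j
    refine (Submodule.span_mono ?_ : _ ≤ _) h3
    rintro _ ⟨a, rfl⟩
    exact ⟨a.1, a.2, rfl⟩
  · have h1 : Mod (TT r par) (b i) p (κ i) = fun S : ℕ => Submodule.span ℝ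
        (f (lbl (TT r par) ((S : ℤ) - 1) (b i)) '' (f_Q (TT r par) (b i) J (β i) S :
          Set (Node (TT r par) → ℕ))) := by
      funext S
      rcases S with _ | S
      · obtain ⟨x, hx⟩ := f_exists_true' r par
        simp only [Mod, f_Q, Finset.coe_empty, Set.image_empty, Submodule.span_empty]
        exact f_Inv_bot _ _ x (by simp [lbl, hx])
      · have h2 := (hf1 (lbl (TT r par) (S : ℤ) (b i)) (((S : ℤ) + 1) * J - β i)
          (((S + 1 : ℕ) : ℤ) * p - κ i) (f_lbl_nonneg _ _ _ (by omega) (hbn i)) (hwS i S)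
          (hdS i S)).2
        have e2 : (((S + 1 : ℕ) : ℤ) - 1) = S := by push_cast; ring
        simp only [Mod]
        rw [e2, ← h2]
        congr 2
        ext e
        simp [f_mem_Q]
    rw [h1]
    exact hθ2 i

end Main

end Pool.Agent.HYP
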