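import Pool.Agent.HYP.Defs

/-!
# Module PI: polarization

`ker F^{M+1}` on polynomials without the variables `Y` (`M = |Y|`) is a retract of the
`F`-invariants with exponents `≤ 1` in the variables `Y`.
-/

set_option autoImplicit false

namespace Pool.Agent.HYP

open MvPolynomial Finset Module

namespace Polar

set_option linter.unusedSectionVars false

variable {ι : Type} [Fintype ι] [DecidableEq ι]

theorem FF_apply (f : MvPolynomial ι ℝ) : FF f = ∑ i, pderiv i f := by
  simp [FF, LinearMap.sum_apply]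

theorem FF_mul (f g : MvPolynomial ι ℝ) : FF (f * g) = FF f * g + f * FF g := by
  simp only [FF_apply, Derivation.leibniz, smul_eq_mul, sum_add_distrib, sum_mul, mul_sum]
  rw [add_comm]
  congr 1
  exact sum_congr rfl fun i _ => mul_comm _ _

theorem FF_X (i : ι) : FF (X i : MvPolynomial ι ℝ) = 1 := by
  rw [FF_apply, sum_eq_single i]
  · exact pderiv_X_self i
  · intro j _ hj
    exact pderiv_X_of_ne hj.symm
  · intro h; exact absurd (mem_univ i) h

theorem monomial_mem_PS {a : ι → ℤ} {d : ℤ} {m : ι →₀ ℕ} {c : ℝ}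
    (h : c ≠ 0 → (∀ i, (m i : ℤ) ≤ a i) ∧ ∑ i, (m i : ℤ) = d) : monomial m c ∈ PS a d := by
  intro m' hm'
  rw [MvPolynomial.mem_support_iff, coeff_monomial] at hm'
  split_ifs at hm' with h1
  · subst h1; exact h hm'
  · exact absurd rfl hm'

/-- a linear map sends `PS a d` into a submodule if it does so on monomials -/
theorem induction_PS {a : ι → ℤ} {d : ℤ} {M : Type} [AddCommGroup M] [Module ℝ M]
    (L : MvPolynomial ι ℝ →ₗ[ℝ] M) (S : Submodule ℝ M)
    (h : ∀ m : ι →₀ ℕ, (∀ i, (m i : ℤ) ≤ a i) → ∑ i, (m i : ℤ) = d → ∀ c : ℝ,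
      L (monomial m c) ∈ S) : ∀ f ∈ PS a d, L f ∈ S := by
  intro f hf
  rw [f.as_sum, map_sum]
  exact Submodule.sum_mem _ fun m hm => h m (hf m hm).1 (hf m hm).2 _

theorem FF_mem {a : ι → ℤ} {d : ℤ} {f : MvPolynomial ι ℝ} (hf : f ∈ PS a d) :
    FF f ∈ PS a (d - 1) := by
  refine induction_PS FF _ ?_ f hf
  intro m h1 h2 c
  rw [FF_apply]
  refine Submodule.sum_mem _ fun i _ => ?_
  rw [pderiv_monomial]
  refine monomial_mem_PS fun hc => ?_
  have hmi : m i ≠ 0 := by
    intro h0
    rw [h0] at hc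
    simp at hc
  have key : ∀ j, ((m - Finsupp.single i 1 : ι →₀ ℕ) j : ℤ) = (m j : ℤ) - if j = i then 1 else 0 := by
    intro j
    rw [Finsupp.tsub_apply, Finsupp.single_apply]
    by_cases hj : j = i
    · subst hj
      simp only [if_true]
      omega
    · have : ¬ i = j := fun h => hj h.symm
      simp [hj, this]
  constructor
  · intro j
    rw [key]
    have := h1 j
    split_ifs <;> omega
  · rw [sum_congr rfl fun j _ => key j, sum_sub_distrib, h2]
    simp

theorem FFpow_mem {a : ι → ℤ} {d : ℤ} {f : MvPolynomial ι ℝ} (hf : f ∈ PS a d) (k : ℕ) :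
    (FF ^ k) f ∈ PS a (d - k) := by
  induction k with
  | zero => simpa using hf
  | succ k ih =>
    rw [pow_succ', Module.End.mul_apply]
    have := FF_mem ih
    have e : d - ((k + 1 : ℕ) : ℤ) = d - k - 1 := by push_cast; ring
    rw [e]; exact this

theorem PS_mul {a a' : ι → ℤ} {d d' : ℤ} {f g : MvPolynomial ι ℝ} (hf : f ∈ PS a d)
    (hg : g ∈ PS a' d') : f * g ∈ PS (a + a') (d + d') := by
  intro m hm
  obtain ⟨m1, h1, m2, h2, rfl⟩ := Finset.mem_add.1 (support_mul f g hm)
  obtain ⟨a1, b1⟩ := hf m1 h1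
  obtain ⟨a2, b2⟩ := hg m2 h2
  constructor
  · intro i
    have := a1 i
    have := a2 i
    simp only [Finsupp.add_apply, Pi.add_apply]
    push_cast
    linarith
  · simp only [Finsupp.add_apply]
    push_cast
    rw [sum_add_distrib, b1, b2]

theorem PS_mono {a a' : ι → ℤ} {d : ℤ} (h : ∀ i, a i ≤ a' i) {f : MvPolynomial ι ℝ}
    (hf : f ∈ PS a d) : f ∈ PS a' d := fun m hm =>
  ⟨fun i => ((hf m hm).1 i).trans (h i), (hf m hm).2⟩

theorem X_mem (i : ι) : (X i : MvPolynomial ι ℝ) ∈ PS (fun x => if x = i then 1 else 0) 1 := by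
  refine monomial_mem_PS fun _ => ?_
  constructor
  · intro j
    rw [Finsupp.single_apply]
    by_cases hj : j = i
    · subst hj; simp
    · have : ¬ i = j := fun h => hj h.symm
      simp [hj, this]
  · simp only [Finsupp.single_apply]
    rw [sum_eq_single i]
    · simp
    · intro j _ hj
      have : ¬ i = j := fun h => hj h.symm
      simp [this]
    · intro h; exact absurd (mem_univ i) h

/-! ### elementary symmetric polynomials of a set of variables -/

noncomputable def es (Y : Finset ι) (k : ℕ) : MvPolynomial ι ℝ :=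
  ∑ I ∈ Y.powersetCard k, ∏ y ∈ I, X y

theorem es_zero (Y : Finset ι) : es Y 0 = 1 := by
  simp [es]

theorem es_empty_succ (k : ℕ) : es (∅ : Finset ι) (k + 1) = 0 := by
  unfold es
  rw [powersetCard_eq_empty.2 (by simp), sum_empty]

theorem es_insert {y : ι} {Y : Finset ι} (hy : y ∉ Y) (k : ℕ) :
    es (insert y Y) (k + 1) = es Y (k + 1) + X y * es Y k := by
  unfold es
  rw [powersetCard_succ_insert hy, sum_union, mul_sum]
  · congr 1
    rw [sum_image]
    · refine sum_congr rfl fun I hI => ?_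
      rw [prod_insert]
      intro h
      exact hy ((mem_powersetCard.1 hI).1 h)
    · intro I hI J hJ hIJ
      have h1 : y ∉ I := fun h => hy ((mem_powersetCard.1 hI).1 h)
      have h2 : y ∉ J := fun h => hy ((mem_powersetCard.1 hJ).1 h)
      rw [← erase_insert h1, ← erase_insert h2, hIJ]
  · rw [disjoint_left]
    intro I hI hI'
    obtain ⟨J, hJ, rfl⟩ := mem_image.1 hI'
    exact hy ((mem_powersetCard.1 hI).1 (mem_insert_self _ _))

theorem FF_one : FF (1 : MvPolynomial ι ℝ) = 0 := by
  rw [FF_apply]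
  exact sum_eq_zero fun i _ => by simp

theorem FF_es (Y : Finset ι) : ∀ k : ℕ,
    FF (es Y (k + 1)) = ((Y.card : ℝ) - k) • es Y k := by
  induction Y using Finset.induction_on with
  | empty =>
    intro k
    rw [es_empty_succ, map_zero]
    cases k with
    | zero => simp
    | succ k => rw [es_empty_succ, smul_zero]
  | insert y Y hy ih =>
    intro k
    rw [es_insert hy, map_add, FF_mul, FF_X, one_mul, card_insert_of_notMem hy]
    cases k with
    | zero =>
      rw [ih, es_zero, es_zero, FF_one, mul_zero, add_zero]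
      push_cast
      module
    | succ k =>
      rw [ih, ih, es_insert hy]
      push_cast
      rw [mul_smul_comm]
      module

theorem es_mem (Y : Finset ι) : ∀ k : ℕ, es Y k ∈ PS (fun x => if x ∈ Y then 1 else 0) (k : ℤ) := by
  induction Y using Finset.induction_on with
  | empty =>
    intro k
    cases k with
    | zero =>
      rw [es_zero]
      refine monomial_mem_PS fun _ => ⟨fun i => by simp, by simp⟩
    | succ k =>
      rw [es_empty_succ]; exact Submodule.zero_mem _
  | insert y Y hy ih =>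
    intro k
    cases k with
    | zero =>
      rw [es_zero]
      refine monomial_mem_PS fun _ => ⟨fun i => ?_, by simp⟩
      simp only [Finsupp.coe_zero, Pi.zero_apply, Nat.cast_zero]
      split_ifs <;> norm_num
    | succ k =>
      rw [es_insert hy]
      refine Submodule.add_mem _ (PS_mono ?_ (ih (k + 1))) ?_
      · intro i
        by_cases h : i ∈ Y
        · simp [h]
        · simp only [h, if_false]
          split_ifs <;> norm_num
      · have h := PS_mul (X_mem y) (ih k)
        have e : ((k + 1 : ℕ) : ℤ) = 1 + k := by push_cast; ring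
        rw [e]
        refine PS_mono ?_ h
        intro i
        simp only [Pi.add_apply, mem_insert]
        by_cases h : i = y
        · subst h; simp [hy]
        · simp [h]

/-! ### the projection -/

noncomputable def pr (Y : Finset ι) : MvPolynomial ι ℝ →ₐ[ℝ] MvPolynomial ι ℝ :=
  aeval (fun x => if x ∈ Y then 0 else X x)

theorem pr_X (Y : Finset ι) (i : ι) : pr Y (X i) = if i ∈ Y then 0 else X i := by
  simp [pr]

theorem pr_monomial (Y : Finset ι) (m : ι →₀ ℕ) (c : ℝ) :
    pr Y (monomial m c) = if ∀ y ∈ Y, m y = 0 then monomial m c else 0 := by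
  rw [pr, aeval_monomial, Finsupp.prod]
  split_ifs with h
  · rw [monomial_eq, Finsupp.prod]
    congr 1
    refine prod_congr rfl fun i hi => ?_
    have : i ∉ Y := fun hY => (Finsupp.mem_support_iff.1 hi) (h i hY)
    rw [if_neg this]
  · push Not at h
    obtain ⟨y, hy, hm⟩ := h
    rw [prod_eq_zero (i := y) (Finsupp.mem_support_iff.2 hm), mul_zero]
    rw [if_pos hy, zero_pow hm]

theorem pr_eq_self (Y : Finset ι) (f : MvPolynomial ι ℝ) (h : ∀ m ∈ f.support, ∀ y ∈ Y, m y = 0) :
    pr Y f = f := by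
  conv_lhs => rw [f.as_sum]
  rw [map_sum]
  conv_rhs => rw [f.as_sum]
  refine sum_congr rfl fun m hm => ?_
  rw [pr_monomial, if_pos (h m hm)]

theorem pr_es_succ (Y : Finset ι) (Y' : Finset ι) (hY : Y' ⊆ Y) : ∀ k : ℕ,
    pr Y (es Y' (k + 1)) = 0 := by
  induction Y' using Finset.induction_on with
  | empty =>
    intro k
    rw [es_empty_succ, map_zero]
  | insert y Y' hy ih =>
    intro k
    rw [es_insert hy, map_add, map_mul, pr_X, if_pos (hY (mem_insert_self _ _)), zero_mul,
      ih ((subset_insert _ _).trans hY), add_zero]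

/-- derivative in the direction of the variables `Y` -/
noncomputable def FY (Y : Finset ι) : MvPolynomial ι ℝ →ₗ[ℝ] MvPolynomial ι ℝ :=
  ∑ i ∈ Y, ((pderiv i : Derivation ℝ (MvPolynomial ι ℝ) (MvPolynomial ι ℝ)) :
    MvPolynomial ι ℝ →ₗ[ℝ] MvPolynomial ι ℝ)

theorem FY_apply (Y : Finset ι) (f : MvPolynomial ι ℝ) : FY Y f = ∑ i ∈ Y, pderiv i f := by
  simp [FY, LinearMap.sum_apply]

theorem FY_univ : (FY (univ : Finset ι)) = FF := rfl

theorem pderiv_comm (i j : ι) (f : MvPolynomial ι ℝ) :
    pderiv i (pderiv j f) = pderiv j (pderiv i f) := by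
  induction f using MvPolynomial.induction_on with
  | C a => simp
  | add p q hp hq => simp only [map_add, hp, hq]
  | mul_X p n hp =>
    simp only [Derivation.leibniz, smul_eq_mul, map_add, hp]
    have h1 : ∀ k l : ι, pderiv k (pderiv l (X n : MvPolynomial ι ℝ)) = 0 := by
      intro k l
      rw [pderiv_X, Pi.single_apply]
      split_ifs <;> simp
    rw [h1, h1]
    ring

theorem FF_FY (Y : Finset ι) (f : MvPolynomial ι ℝ) : FF (FY Y f) = FY Y (FF f) := by
  simp only [FF_apply, FY_apply, map_sum]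
  rw [sum_comm]
  refine sum_congr rfl fun i _ => sum_congr rfl fun j _ => pderiv_comm _ _ _

theorem pderiv_pr (Y : Finset ι) (i : ι) (f : MvPolynomial ι ℝ) :
    pderiv i (pr Y f) = if i ∈ Y then 0 else pr Y (pderiv i f) := by
  induction f using MvPolynomial.induction_on with
  | C a => simp [pr]
  | add p q hp hq =>
    simp only [map_add, hp, hq]
    split_ifs <;> simp
  | mul_X p n hp =>
    simp only [map_mul, Derivation.leibniz, smul_eq_mul, map_add, hp, pr_X]
    by_cases hi : i ∈ Y
    · simp only [hi, if_true, mul_zero, add_zero]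
      by_cases hn : n ∈ Y
      · simp [hn]
      · rw [if_neg hn, pderiv_X_of_ne (show n ≠ i by rintro rfl; exact hn hi), mul_zero]
    · simp only [hi, if_false]
      by_cases hn : n ∈ Y
      · rw [if_pos hn, map_zero, mul_zero, zero_mul, pderiv_X_of_ne (show n ≠ i by rintro rfl; exact hi hn),
          map_zero, mul_zero]
      · rw [if_neg hn]
        congr 2
        rw [pderiv_X, Pi.single_apply]
        split_ifs <;> simp

theorem FF_pr (Y : Finset ι) (f : MvPolynomial ι ℝ) :
    FF (pr Y f) = pr Y (FF f) - pr Y (FY Y f) := by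
  rw [FF_apply, FF_apply, FY_apply, map_sum, map_sum]
  simp only [pderiv_pr]
  rw [eq_sub_iff_add_eq, ← sum_filter_add_sum_filter_not univ (· ∈ Y) (fun i => pr Y (pderiv i f)),
    sum_ite, sum_const_zero, zero_add, add_comm]
  congr 1
  refine sum_congr ?_ fun _ _ => rfl
  ext x; simp

theorem FFpow_pr (Y : Finset ι) (f : MvPolynomial ι ℝ) (hf : FF f = 0) (k : ℕ) :
    FF ((FY Y ^ k) f) = 0 ∧ (FF ^ k) (pr Y f) = (-1 : ℝ) ^ k • pr Y ((FY Y ^ k) f) := by
  induction k with
  | zero => simpa using hf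
  | succ k ih =>
    obtain ⟨h1, h2⟩ := ih
    refine ⟨?_, ?_⟩
    · rw [pow_succ', Module.End.mul_apply, FF_FY, h1, map_zero]
    · rw [pow_succ', Module.End.mul_apply, h2, map_smul, FF_pr, h1, map_zero, zero_sub,
        pow_succ' (FY Y) k, Module.End.mul_apply, pow_succ (-1 : ℝ) k]
      module

theorem FY_support (Y : Finset ι) (f : MvPolynomial ι ℝ) (D : ℕ)
    (h : ∀ m ∈ f.support, ∑ y ∈ Y, m y ≤ D) :
    ∀ m ∈ (FY Y f).support, ∑ y ∈ Y, m y + 1 ≤ D := by
  intro m hm
  rw [FY_apply] at hm
  obtain ⟨i, hi, hmi⟩ : ∃ i ∈ Y, m ∈ (pderiv i f).support := by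
    have := support_sum hm
    simpa using this
  rw [f.as_sum, map_sum] at hmi
  obtain ⟨m', hm', hmm⟩ : ∃ m' ∈ f.support, m ∈ (pderiv i (monomial m' (coeff m' f))).support := by
    have := support_sum hmi
    simpa only [mem_biUnion] using this
  rw [pderiv_monomial, MvPolynomial.mem_support_iff, coeff_monomial] at hmm
  split_ifs at hmm with h1
  · have hmi : m' i ≠ 0 := by
      intro h0
      rw [h0] at hmm
      simp at hmm
    have h2 := h m' hm'
    rw [← h1]
    have key : ∀ j, m' j = (m' - Finsupp.single i 1 : ι →₀ ℕ) j + if j = i then 1 else 0 := by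
      intro j
      rw [Finsupp.tsub_apply, Finsupp.single_apply]
      by_cases hj : j = i
      · subst hj
        simp only [if_true]
        omega
      · have : ¬ i = j := fun h => hj h.symm
        simp [hj, this]
    rw [sum_congr rfl fun j _ => key j, sum_add_distrib, sum_ite_eq' Y i, if_pos hi] at h2
    exact h2
  · exact absurd rfl hmm

theorem FYpow_eq_zero (Y : Finset ι) (D : ℕ) : ∀ (f : MvPolynomial ι ℝ),
    (∀ m ∈ f.support, ∑ y ∈ Y, m y ≤ D) → (FY Y ^ (D + 1)) f = 0 := by
  induction D with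
  | zero =>
    intro f h
    have h1 := FY_support Y f 0 h
    rw [zero_add, pow_one, ← MvPolynomial.support_eq_empty, eq_empty_iff_forall_notMem]
    intro m hm
    have := h1 m hm
    omega
  | succ D ih =>
    intro f h
    have h1 := FY_support Y f (D + 1) h
    rw [pow_succ, Module.End.mul_apply]
    exact ih _ fun m hm => by have := h1 m hm; omega

/-! ### the inclusion -/

noncomputable def cc (M k : ℕ) : ℝ := (-1) ^ k * ((M - k).factorial : ℝ) / (M.factorial : ℝ)

theorem cc_zero (M : ℕ) : cc M 0 = 1 := by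
  unfold cc
  have : (M.factorial : ℝ) ≠ 0 := by positivity
  simp [this]

theorem cc_succ {M k : ℕ} (h : k < M) : cc M (k + 1) * ((M : ℝ) - k) + cc M k = 0 := by
  unfold cc
  have h1 : M - k = (M - (k + 1)) + 1 := by omega
  have h2 : ((M : ℝ) - k) = ((M - (k + 1) : ℕ) : ℝ) + 1 := by
    have : M = (M - (k + 1)) + (k + 1) := by omega
    have h3 : (M : ℝ) = ((M - (k + 1) : ℕ) : ℝ) + (k + 1) := by exact_mod_cast this
    rw [h3]; ring
  rw [h2, h1, Nat.factorial_succ, pow_succ]
  push_cast
  ring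

noncomputable def inc (Y : Finset ι) : MvPolynomial ι ℝ →ₗ[ℝ] MvPolynomial ι ℝ :=
  ∑ k ∈ range (Y.card + 1), cc Y.card k • (LinearMap.mulLeft ℝ (es Y k) ∘ₗ (FF ^ k))

theorem inc_apply (Y : Finset ι) (g : MvPolynomial ι ℝ) :
    inc Y g = ∑ k ∈ range (Y.card + 1), cc Y.card k • (es Y k * (FF ^ k) g) := by
  simp [inc, LinearMap.sum_apply]

theorem FF_inc (Y : Finset ι) (g : MvPolynomial ι ℝ) (hg : (FF ^ (Y.card + 1)) g = 0) :
    FF (inc Y g) = 0 := by
  rw [inc_apply, map_sum]
  have h1 : ∀ k, FF (cc Y.card k • (es Y k * (FF ^ k) g)) =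
      cc Y.card k • (FF (es Y k) * (FF ^ k) g) + cc Y.card k • (es Y k * (FF ^ (k + 1)) g) := by
    intro k
    rw [map_smul, FF_mul, smul_add, pow_succ' FF k, Module.End.mul_apply]
  rw [sum_congr rfl fun k _ => h1 k, sum_add_distrib, sum_range_succ', sum_range_succ
    (fun k => cc Y.card k • (es Y k * (FF ^ (k + 1)) g)), hg, es_zero, FF_one, zero_mul, mul_zero,
    smul_zero, smul_zero, add_zero, add_zero, ← sum_add_distrib]
  refine sum_eq_zero fun k hk => ?_
  rw [mem_range] at hk
  rw [FF_es, smul_mul_assoc, smul_smul, ← add_smul, cc_succ hk, zero_smul]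

theorem inc_mul (Y : Finset ι) (θ g : MvPolynomial ι ℝ) (hθ : FF θ = 0) :
    inc Y (θ * g) = θ * inc Y g := by
  have h : ∀ k, (FF ^ k) (θ * g) = θ * (FF ^ k) g := by
    intro k
    induction k with
    | zero => rfl
    | succ k ih =>
      rw [pow_succ', Module.End.mul_apply, ih, FF_mul, hθ, zero_mul, zero_add, Module.End.mul_apply]
  rw [inc_apply, inc_apply, mul_sum]
  refine sum_congr rfl fun k _ => ?_
  rw [h, mul_smul_comm]
  congr 1
  ring

theorem inc_mem (Y : Finset ι) {a : ι → ℤ} {d : ℤ} (ha : ∀ y ∈ Y, a y = 0)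
    {g : MvPolynomial ι ℝ} (hg : g ∈ PS a d) :
    inc Y g ∈ PS (fun x => if x ∈ Y then 1 else a x) d := by
  rw [inc_apply]
  refine Submodule.sum_mem _ fun k _ => Submodule.smul_mem _ _ ?_
  have h := PS_mul (es_mem Y k) (FFpow_mem hg k)
  have e : (k : ℤ) + (d - k) = d := by ring
  rw [e] at h
  refine PS_mono ?_ h
  intro i
  simp only [Pi.add_apply]
  by_cases hi : i ∈ Y
  · simp [hi, ha i hi]
  · simp [hi]

theorem pr_inc (Y : Finset ι) {a : ι → ℤ} {d : ℤ} (ha : ∀ y ∈ Y, a y = 0)
    {g : MvPolynomial ι ℝ} (hg : g ∈ PS a d) : pr Y (inc Y g) = g := by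
  rw [inc_apply, sum_range_succ', map_add, map_sum]
  rw [sum_eq_zero, zero_add, cc_zero, one_smul, es_zero, one_mul, pow_zero, Module.End.one_apply]
  · refine pr_eq_self Y g fun m hm y hy => ?_
    have := (hg m hm).1 y
    rw [ha y hy] at this
    omega
  · intro k _
    rw [map_smul, map_mul, pr_es_succ Y Y subset_rfl, zero_mul, smul_zero]

end Polar

open Polar in
theorem polarization {ι : Type} [Fintype ι] [DecidableEq ι] (Y : Finset ι) :
    ∃ (inc pr : MvPolynomial ι ℝ →ₗ[ℝ] MvPolynomial ι ℝ),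
      (∀ (a : ι → ℤ) (d : ℤ), (∀ y ∈ Y, a y = 0) →
        (∀ g ∈ (PS a d ⊓ LinearMap.ker (FF ^ (Y.card + 1)) : Submodule ℝ (MvPolynomial ι ℝ)),
          inc g ∈ Inv (fun x => if x ∈ Y then 1 else a x) d ∧ pr (inc g) = g) ∧
        (∀ f ∈ Inv (fun x => if x ∈ Y then 1 else a x) d,
          pr f ∈ (PS a d ⊓ LinearMap.ker (FF ^ (Y.card + 1)) : Submodule ℝ (MvPolynomial ι ℝ)))) ∧
      (∀ θ : MvPolynomial ι ℝ, FF θ = 0 → (∀ m ∈ θ.support, ∀ y ∈ Y, m y = 0) →
        (∀ g, inc (θ * g) = θ * inc g) ∧ (∀ g, pr (θ * g) = θ * pr g)) := by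
  refine ⟨Polar.inc Y, (Polar.pr Y).toLinearMap, ?_, ?_⟩
  · intro a d ha
    refine ⟨?_, ?_⟩
    · rintro g ⟨hg, hk⟩
      exact ⟨⟨inc_mem Y ha hg, FF_inc Y g hk⟩, pr_inc Y ha hg⟩
    · rintro f ⟨hf, hk⟩
      refine ⟨?_, ?_⟩
      · refine induction_PS (a := fun x => if x ∈ Y then 1 else a x) (d := d)
          (Polar.pr Y).toLinearMap (PS a d) ?_ f hf
        intro m h1 h2 c
        rw [AlgHom.toLinearMap_apply, pr_monomial]
        split_ifs with h
        · refine monomial_mem_PS fun _ => ⟨fun i => ?_, h2⟩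
          have := h1 i
          by_cases hi : i ∈ Y
          · rw [h i hi, ha i hi]; rfl
          · simpa [hi] using this
        · exact Submodule.zero_mem _
      · change (FF ^ (Y.card + 1)) (Polar.pr Y f) = 0
        rw [(FFpow_pr Y f hk _).2, FYpow_eq_zero Y,
          map_zero, smul_zero]
        intro m hm
        calc ∑ y ∈ Y, m y ≤ ∑ y ∈ Y, 1 := by
              refine sum_le_sum fun y hy => ?_
              have := (hf m hm).1 y
              simp only [hy, if_true] at this
              exact_mod_cast this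
          _ = Y.card := by simp
  · intro θ hθ hm
    refine ⟨fun g => inc_mul Y θ g hθ, fun g => ?_⟩
    rw [AlgHom.toLinearMap_apply, AlgHom.toLinearMap_apply, map_mul, pr_eq_self Y θ hm]

end Pool.Agent.HYP
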