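import Pool.Agent.HYP.Graded
import Pool.Agent.HYP.Sl2
import Pool.Agent.HYP.Polar
import Pool.Agent.HYP.Family
import Pool.Agent.HYP.Basic

set_option autoImplicit false

namespace Pool.Agent.HYP

open MvPolynomial Finset Module

/-- number of `y`-leaves -/
def dn_yc (T : Tr) : ℕ := (Finset.univ.filter fun x : Leaf T => col T x = false).card

theorem dn_yc_eq (T : Tr) : dn_yc T = ∑ x, if col T x = false then 1 else 0 := by
  simp [dn_yc]

theorem dn_yc_node (l r : Tr) : dn_yc (.node l r) = dn_yc l + dn_yc r := by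
  rw [dn_yc_eq, dn_yc_eq, dn_yc_eq, sum_leaf_node]
  rfl

theorem dn_yc_leaf (c : Bool) : dn_yc (.leaf c) = if c then 0 else 1 := by
  cases c
  · rfl
  · rfl

theorem dn_yc_XT (r : ℕ) : dn_yc (XT r) = 2 * r := by
  induction r with
  | zero => simp [XT, dn_yc_node, dn_yc_leaf]
  | succ r ih => simp [XT, Leg, dn_yc_node, dn_yc_leaf, ih]; ring

theorem dn_yc_TT (r : ℕ) (par : Bool) : dn_yc (TT r par) = if par then 2 * r else 2 * r + 1 := by
  cases par <;> simp [TT, Leg, dn_yc_node, dn_yc_leaf, dn_yc_XT]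

theorem dn_cnt (T : Tr) (S : ℕ) (d : ℤ) :
    cnt (lbl T ((S : ℤ) - 1) 0) d = cz (zc T) S d := by
  classical
  unfold cnt cz
  have e : Fin (zc T) ≃ {x : Leaf T // col T x = true} := by
    refine (Fintype.equivFinOfCardEq ?_).symm
    rw [Fintype.card_subtype]
    rfl
  refine congrArg Nat.cast ?_
  have hsum : ∀ g : Leaf T → ℤ, (∀ x, col T x = false → g x = 0) →
      ∑ x, g x = ∑ j, g (e j).1 := by
    intro g hg
    rw [← Equiv.sum_comp e.symm (fun j => g (e j).1)]
    simp only [Equiv.apply_symm_apply]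
    rw [← Finset.sum_subtype (Finset.univ.filter fun x : Leaf T => col T x = true) (by simp) g]
    symm
    apply Finset.sum_subset (Finset.subset_univ _)
    intro x _ hx
    apply hg
    simpa using hx
  have hz : ∀ x, col T x = true → (lbl T ((S : ℤ) - 1) 0 x + 1).toNat = S := by
    intro x hx
    simp [lbl, hx]
  have hy : ∀ x, col T x = false → (lbl T ((S : ℤ) - 1) 0 x + 1).toNat = 1 := by
    intro x hx
    simp [lbl, hx]
  refine Finset.card_bij' (fun m hm j => ⟨m (e j).1, ?_⟩)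
    (fun x _ l => if h : col T l = true then (x (e.symm ⟨l, h⟩) : ℕ) else 0) ?_ ?_ ?_ ?_
  · have h1 := (Finset.mem_filter.1 hm).1
    rw [Fintype.mem_piFinset] at h1
    have h2 := Finset.mem_range.1 (h1 (e j).1)
    rwa [hz _ (e j).2] at h2
  · intro m hm
    have h1 := (Finset.mem_filter.1 hm)
    rw [Fintype.mem_piFinset] at h1
    simp only [Finset.mem_filter, Finset.mem_univ, true_and]
    rw [← h1.2]
    symm
    apply hsum (fun x => (m x : ℤ))
    intro x hx
    have h2 := Finset.mem_range.1 (h1.1 x)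
    rw [hy x hx] at h2
    simp only [Nat.lt_one_iff] at h2
    simp [h2]
  · intro x hx
    simp only [Finset.mem_filter, Finset.mem_univ, true_and] at hx
    simp only [Finset.mem_filter, Fintype.mem_piFinset, Finset.mem_range]
    constructor
    · intro l
      by_cases h : col T l = true
      · rw [hz l h, dif_pos h]
        exact (x (e.symm ⟨l, h⟩)).2
      · rw [hy l (by simpa using h), dif_neg h]
        exact Nat.one_pos
    · rw [← hx, hsum]
      · apply Finset.sum_congr rfl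
        intro j _
        have h : col T (e j).1 = true := (e j).2
        rw [dif_pos h]
        simp
      · intro l hl
        simp [hl]
  · intro m hm
    have h1 := (Finset.mem_filter.1 hm)
    rw [Fintype.mem_piFinset] at h1
    funext l
    by_cases h : col T l = true
    · simp [h]
    · have h2 := Finset.mem_range.1 (h1.1 l)
      rw [hy l (by simpa using h)] at h2
      rw [dif_neg h]
      omega
  · intro x hx
    funext j
    ext
    have h : col T (e j).1 = true := (e j).2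
    simp [h]

theorem dn_FFpow_mul {ι : Type} [Fintype ι] [DecidableEq ι] (θ g : MvPolynomial ι ℝ)
    (h : FF θ = 0) (m : ℕ) : (FF ^ m) (θ * g) = θ * (FF ^ m) g := by
  induction m with
  | zero => simp
  | succ m ih =>
    rw [pow_succ', Module.End.mul_apply, ih, FF_mul, h, zero_mul, zero_add, Module.End.mul_apply]

/-- the modules `B` and `A` -/
noncomputable def dn_B (T : Tr) (p : ℕ) (κ : ℤ) (m : ℕ) (S : ℕ) :
    Submodule ℝ (MvPolynomial (Leaf T) ℝ) :=
  PS (lbl T ((S : ℤ) - 1) 0) ((S : ℤ) * p - κ) ⊓ LinearMap.ker (FF ^ m)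

theorem dn_lbl_succ (T : Tr) (S : ℕ) (b : Leaf T → ℤ) :
    lbl T 1 0 + lbl T ((S : ℤ) - 1) b = lbl T (((S + 1 : ℕ) : ℤ) - 1) b := by
  funext x
  simp only [lbl, Pi.add_apply]
  split_ifs
  · push_cast; ring
  · simp

theorem dn_mul_mem (T : Tr) (p : ℕ) (κ : ℤ) (m : ℕ) (θ : MvPolynomial (Leaf T) ℝ)
    (hθ : θ ∈ Inv (lbl T 1 0) (p : ℤ)) (S : ℕ) (f : MvPolynomial (Leaf T) ℝ)
    (hf : f ∈ dn_B T p κ m S) : θ * f ∈ dn_B T p κ m (S + 1) := by
  obtain ⟨h1, h2⟩ := Submodule.mem_inf.1 hf
  obtain ⟨h3, h4⟩ := Submodule.mem_inf.1 hθ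
  refine Submodule.mem_inf.2 ⟨?_, ?_⟩
  · have := PS_mul h3 h1
    rw [dn_lbl_succ] at this
    convert this using 2
    push_cast; ring
  · rw [LinearMap.mem_ker] at *
    rw [dn_FFpow_mul θ f h4, h2, mul_zero]

theorem dn_fin (T : Tr) (p : ℕ) (κ : ℤ) (m : ℕ) (S : ℕ) : FiniteDimensional ℝ (dn_B T p κ m S) := by
  have := finiteDimensional_PS (lbl T ((S : ℤ) - 1) 0) ((S : ℤ) * p - κ)
  exact Submodule.finiteDimensional_of_le (inf_le_left :
    dn_B T p κ m S ≤ PS (lbl T ((S : ℤ) - 1) 0) ((S : ℤ) * p - κ))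

theorem dn_fin' (T : Tr) (b : Leaf T → ℤ) (p : ℕ) (κ : ℤ) (S : ℕ) :
    FiniteDimensional ℝ (Mod T b p κ S) := by
  have := finiteDimensional_PS (lbl T ((S : ℤ) - 1) b) ((S : ℤ) * p - κ)
  exact Submodule.finiteDimensional_of_le (inf_le_left :
    Mod T b p κ S ≤ PS (lbl T ((S : ℤ) - 1) b) ((S : ℤ) * p - κ))

theorem dn_mul_mem' (T : Tr) (b : Leaf T → ℤ) (p : ℕ) (κ : ℤ) (θ : MvPolynomial (Leaf T) ℝ)
    (hθ : θ ∈ Inv (lbl T 1 0) (p : ℤ)) (S : ℕ) (f : MvPolynomial (Leaf T) ℝ)
    (hf : f ∈ Mod T b p κ S) : θ * f ∈ Mod T b p κ (S + 1) := by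
  have := Inv_mul hθ hf
  rw [dn_lbl_succ] at this
  unfold Mod
  convert this using 2
  push_cast; ring

/-- transfer of freeness from `Mod` to `dn_B` -/
theorem dn_transfer (T : Tr) (p : ℕ) (κ : ℤ) (Y : Finset (Leaf T)) (hY : ∀ y ∈ Y, col T y = false)
    {n : ℕ} (θ : Fin n → MvPolynomial (Leaf T) ℝ) (hθ : ∀ j, θ j ∈ Inv (lbl T 1 0) (p : ℤ)) (k : ℕ)
    (h : FreeUpTo θ (Mod T (fun x => if x ∈ Y then 1 else 0) p κ) k) :
    FreeUpTo θ (dn_B T p κ (Y.card + 1)) k := by
  obtain ⟨inc, pr, h1, h2⟩ := polarization Y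
  have hlbl : ∀ S : ℕ, (fun x => if x ∈ Y then 1 else lbl T ((S : ℤ) - 1) (0 : Leaf T → ℤ) x) =
      lbl T ((S : ℤ) - 1) (fun x => if x ∈ Y then 1 else 0) := by
    intro S
    funext x
    by_cases hx : x ∈ Y
    · simp [hx, lbl, hY x hx]
    · simp [hx, lbl]
  have h0 : ∀ (S : ℕ), ∀ y ∈ Y, lbl T ((S : ℤ) - 1) (0 : Leaf T → ℤ) y = 0 := by
    intro S y hy
    simp [lbl, hY y hy]
  have hθ2 : ∀ j, FF (θ j) = 0 := fun j => LinearMap.mem_ker.1 (Submodule.mem_inf.1 (hθ j)).2
  have hθ3 : ∀ j, ∀ m ∈ (θ j).support, ∀ y ∈ Y, m y = 0 := by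
    intro j m hm y hy
    have := ((Submodule.mem_inf.1 (hθ j)).1 m hm).1 y
    simp [lbl, hY y hy] at this
    exact this
  refine FreeUpTo.retract θ θ _ _ (fun S => dn_fin T p κ _ S)
    (fun S j f hf => dn_mul_mem T p κ _ (θ j) (hθ j) S f hf)
    (fun S => dn_fin' T _ p κ S) (fun S j f hf => dn_mul_mem' T _ p κ (θ j) (hθ j) S f hf)
    inc pr ?_ ?_ ?_ ?_ ?_ k h
  · intro S g hg
    have := ((h1 _ _ (h0 S)).1 g hg).1
    rw [hlbl] at this
    exact this
  · intro S f hf
    apply (h1 _ _ (h0 S)).2 f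
    rw [hlbl]
    exact hf
  · intro S g hg
    exact ((h1 _ _ (h0 S)).1 g hg).2
  · intro S j g _
    exact (h2 (θ j) (hθ2 j) (hθ3 j)).1 g
  · intro S j g _
    exact (h2 (θ j) (hθ2 j) (hθ3 j)).2 g

theorem dn_free_bot {P : Type} [CommRing P] [Algebra ℝ P] {n : ℕ} (θ : Fin n → P) (k : ℕ)
    (B : ℕ → Submodule ℝ P) (hB : ∀ S, B S = ⊥) : FreeUpTo θ B k := by
  intro S _
  have : ∀ l, qq θ B l = 0 := by
    intro l
    unfold qq
    rw [hB l]
    simp
  simp only [this, mul_zero, Finset.sum_const_zero]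
  rw [hB S]
  exact finrank_bot ℝ P

theorem dn_sum_lbl (T : Tr) (S : ℤ) : ∑ x, lbl T S 0 x = zc T * S := by
  unfold lbl zc
  simp only [Pi.zero_apply]
  rw [← Finset.sum_filter]
  simp

theorem D_nonneg (n p K k : ℕ) (hp : 1 ≤ p) (hJ : 2 * p + 2 ≤ n + 1) (hK : 1 ≤ K)
    (hKn : 2 * K ≤ n) (hk : n - 2 * K ≤ k * (n + 1 - 2 * p)) :
    0 ≤ ∑ l ∈ Finset.range (k + 1), (-1 : ℤ) ^ l * (n.choose l : ℤ) *
      (cz (n + 1) (k - l) (((k - l : ℕ) : ℤ) * p - K) -
        cz (n + 1) (k - l) (((k - l : ℕ) : ℤ) * p - K - 1)) := by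
  classical
  -- choose the tree
  obtain ⟨r, par, hr⟩ : ∃ (r : ℕ) (par : Bool), zc (TT r par) = n + 1 := by
    rcases Nat.even_or_odd (n + 1) with ⟨m, hm⟩ | ⟨m, hm⟩
    · refine ⟨m - 2, false, ?_⟩
      rw [zc_TT]
      simp
      omega
    · refine ⟨m - 1, true, ?_⟩
      rw [zc_TT]
      simp
      omega
  obtain ⟨μ, hμ⟩ : ∃ μ, μ = n - 2 * K := ⟨_, rfl⟩
  obtain ⟨J, hJ'⟩ : ∃ J, J = n + 1 - 2 * p := ⟨_, rfl⟩
  have hyc : dn_yc (TT r par) = n - 2 := by
    rw [dn_yc_TT]
    rw [zc_TT] at hr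
    cases par <;> simp at hr ⊢ <;> omega
  -- the sets of active y-leaves
  obtain ⟨YB, hYB1, hYB2⟩ : ∃ Y : Finset (Leaf (TT r par)), (∀ y ∈ Y, col (TT r par) y = false) ∧ Y.card = μ := by
    have : μ ≤ (Finset.univ.filter fun x : Leaf (TT r par) => col (TT r par) x = false).card := by
      show μ ≤ dn_yc (TT r par)
      rw [hyc]; omega
    obtain ⟨Y, hY, hc⟩ := Finset.exists_subset_card_eq this
    exact ⟨Y, fun y hy => by simpa using hY hy, hc⟩
  obtain ⟨YA, hYA1, hYA2, hYA3⟩ : ∃ Y : Finset (Leaf (TT r par)), (∀ y ∈ Y, col (TT r par) y = false) ∧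
      (∀ y ∈ Y, ¬ spec r par y) ∧ Y.card = μ - 1 := by
    have : μ - 1 ≤ (Finset.univ.filter fun x : Leaf (TT r par) => col (TT r par) x = false ∧ ¬ spec r par x).card := by
      have h1 : dn_yc (TT r par) - 1 ≤ (Finset.univ.filter fun x : Leaf (TT r par) =>
          col (TT r par) x = false ∧ ¬ spec r par x).card := by
        cases par with
        | true =>
          have : (Finset.univ.filter fun x : Leaf (TT r true) => col (TT r true) x = false ∧
              ¬ spec r true x) =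
              (Finset.univ.filter fun x : Leaf (TT r true) => col (TT r true) x = false) := by
            ext x; simp [spec]
          rw [this]
          exact Nat.sub_le _ _
        | false =>
          obtain ⟨y0, hy0⟩ : ∃ y0 : Leaf (TT r false), ∀ x, spec r false x ↔ x = y0 :=
            ⟨(Sum.inr (Sum.inr ()) : Leaf (XT r) ⊕ (Leaf (.node (.leaf true) (.leaf true)) ⊕
              Leaf (.leaf false))), fun x => Iff.rfl⟩
          have : (Finset.univ.filter fun x : Leaf (TT r false) => col (TT r false) x = false ∧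
              ¬ spec r false x) =
              (Finset.univ.filter fun x : Leaf (TT r false) => col (TT r false) x = false).erase
                y0 := by
            ext x
            simp only [hy0, Finset.mem_erase, Finset.mem_filter, Finset.mem_univ, true_and]
            tauto
          rw [this]
          exact Finset.pred_card_le_card_erase
      rw [hyc] at h1
      omega
    obtain ⟨Y, hY, hc⟩ := Finset.exists_subset_card_eq this
    refine ⟨Y, fun y hy => ?_, fun y hy => ?_, hc⟩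
    · exact ((Finset.mem_filter.1 (hY hy)).2).1
    · exact ((Finset.mem_filter.1 (hY hy)).2).2
  have hsumY : ∀ Y : Finset (Leaf (TT r par)), (∀ y ∈ Y, col (TT r par) y = false) →
      (∑ x, if col (TT r par) x then (0 : ℤ) else (if x ∈ Y then 1 else 0)) = Y.card := by
    intro Y hY
    have : ∀ x, (if col (TT r par) x then (0 : ℤ) else (if x ∈ Y then 1 else 0)) =
        if x ∈ Y then 1 else 0 := by
      intro x
      by_cases hx : x ∈ Y
      · simp [hx, hY x hx]
      · simp [hx]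
    simp only [this]
    simp
  -- common parameters
  obtain ⟨θ, hθ, hFB, hFA⟩ : ∃ θ : Fin n → MvPolynomial (Leaf (TT r par)) ℝ,
      (∀ j, θ j ∈ Inv (lbl (TT r par) 1 0) (p : ℤ)) ∧ FreeUpTo θ (dn_B (TT r par) p K (μ + 1)) k ∧
      FreeUpTo θ (dn_B (TT r par) p (K + 1) μ) k := by
    have hn : zc (TT r par) - 1 = n := by rw [hr]; simp
    rw [← hn]
    rcases Nat.eq_zero_or_pos μ with h0 | h0
    · obtain ⟨θ, h1, h2⟩ := free_family r par p J hp (by omega) (by rw [hr]; omega)
        (I := Unit) (fun _ x => if x ∈ YB then 1 else 0)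
        (fun _ x => by split_ifs <;> simp) (fun _ => 1) (fun _ => K)
        (fun _ => Or.inl rfl) (fun _ => by
          rw [hsumY YB hYB1, hYB2, hr]; push_cast; omega) k
      refine ⟨θ, h1, ?_, ?_⟩
      · rw [← hYB2]
        exact dn_transfer (TT r par) p K YB hYB1 θ h1 k (h2 ())
      · rw [h0]
        apply dn_free_bot
        intro S
        unfold dn_B
        rw [pow_zero, eq_bot_iff]
        rintro x ⟨_, hx⟩
        simpa using hx
    · obtain ⟨θ, h1, h2⟩ := free_family r par p J hp (by omega) (by rw [hr]; omega)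
        (I := Bool) (fun i x => if i then (if x ∈ YB then 1 else 0) else (if x ∈ YA then 1 else 0))
        (fun i x => by split_ifs <;> simp) (fun i => if i then 1 else 0)
        (fun i => if i then K else K + 1)
        (fun i => by
          cases i
          · right
            refine ⟨rfl, fun x hx => ?_⟩
            have : x ∉ YA := fun h => hYA2 x h hx
            simp [this]
          · left; rfl) (fun i => by
          cases i
          · simp only [Bool.false_eq_true, if_false]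
            rw [hsumY YA hYA1, hYA3, hr]; push_cast [Nat.cast_sub h0]; omega
          · simp only [if_true]
            rw [hsumY YB hYB1, hYB2, hr]; push_cast; omega) k
      refine ⟨θ, h1, ?_, ?_⟩
      · rw [← hYB2]
        apply dn_transfer (TT r par) p K YB hYB1 θ h1 k
        simpa using h2 true
      · have : μ = YA.card + 1 := by omega
        rw [this]
        apply dn_transfer (TT r par) p (K + 1) YA hYA1 θ h1 k
        simpa using h2 false
  have hE : ∀ (S : ℕ), ∀ f ∈ dn_B (TT r par) p K (μ + 1) S, FF f ∈ dn_B (TT r par) p (K + 1) μ S := by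
    intro S f hf
    obtain ⟨h1, h2⟩ := Submodule.mem_inf.1 hf
    refine Submodule.mem_inf.2 ⟨?_, ?_⟩
    · have := FF_mem h1
      convert this using 2
      ring
    · rw [LinearMap.mem_ker] at *
      rw [← Module.End.mul_apply, ← pow_succ]
      exact h2
  have key := diff_nonneg θ (dn_B (TT r par) p K (μ + 1)) (dn_B (TT r par) p (K + 1) μ)
    (fun S => dn_fin (TT r par) p _ _ S) (fun S j f hf => dn_mul_mem (TT r par) p _ _ (θ j) (hθ j) S f hf)
    (fun S => dn_fin (TT r par) p _ _ S) (fun S j f hf => dn_mul_mem (TT r par) p _ _ (θ j) (hθ j) S f hf)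
    FF hE (fun S j f _ => by
      rw [FF_mul, LinearMap.mem_ker.1 (Submodule.mem_inf.1 (hθ j)).2, zero_mul, zero_add]) k ?_
    hFB hFA
  · refine key.trans (le_of_eq ?_)
    apply Finset.sum_congr rfl
    intro l _
    congr 1
    obtain ⟨S, hS⟩ : ∃ S, S = k - l := ⟨_, rfl⟩
    rw [← hS]
    have h1 := finrank_BA (lbl (TT r par) ((S : ℤ) - 1) 0) ((S : ℤ) * p - K) μ (by
      rw [dn_sum_lbl, hr]
      have h2 : (2 * p : ℤ) ≤ n + 1 := by omega
      have h3 : (0 : ℤ) ≤ S := by positivity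
      have h4 : (μ : ℤ) = n - 2 * K := by omega
      push_cast
      nlinarith)
    rw [dn_cnt (TT r par) S, dn_cnt (TT r par) S, hr] at h1
    rw [← h1]
    unfold dn_B
    rw [show (S : ℤ) * p - (K + 1) = (S : ℤ) * p - K - 1 by ring]
  · intro g hg
    have h1 := FF_onto (lbl (TT r par) ((k : ℤ) - 1) 0) ((k : ℤ) * p - K) μ (by
      rw [dn_sum_lbl, hr]
      have h2 : ((n - 2 * K : ℕ) : ℤ) ≤ ((k * (n + 1 - 2 * p) : ℕ) : ℤ) := by exact_mod_cast hk
      push_cast [Nat.cast_sub hKn, Nat.cast_sub (show 2 * p ≤ n + 1 by omega)] at h2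
      push_cast
      nlinarith) g (by
        unfold dn_B at hg
        rw [show (k : ℤ) * p - (K + 1) = (k : ℤ) * p - K - 1 by ring] at hg
        exact hg)
    exact h1

end Pool.Agent.HYP
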