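import Pool.Agent.HYP.Defs

set_option autoImplicit false

namespace Pool.Agent.HYP

open MvPolynomial Finset Module Filter Topology

/-- If `M` is invertible and `∑ y, M x y • v y ∈ W` for all `x` then all `v y ∈ W`. -/
theorem fl_span {P : Type} [AddCommGroup P] [Module ℝ P] {ι : Type} [Fintype ι] [DecidableEq ι]
    (v : ι → P) (W : Submodule ℝ P) (M : Matrix ι ι ℝ) (hdet : M.det ≠ 0)
    (hM : ∀ x, ∑ y, M x y • v y ∈ W) (y : ι) : v y ∈ W := by
  have h1 : ∑ x, M⁻¹ y x • ∑ z, M x z • v z = v y := by
    have h2 : ∀ z, ∑ x, M⁻¹ y x * M x z = (1 : Matrix ι ι ℝ) y z := by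
      intro z
      rw [← Matrix.nonsing_inv_mul M (isUnit_iff_ne_zero.2 hdet), Matrix.mul_apply]
    calc ∑ x, M⁻¹ y x • ∑ z, M x z • v z = ∑ x, ∑ z, (M⁻¹ y x * M x z) • v z := by
          refine sum_congr rfl fun x _ => ?_
          rw [smul_sum]
          exact sum_congr rfl fun z _ => smul_smul _ _ _
      _ = ∑ z, (∑ x, M⁻¹ y x * M x z) • v z := by
          rw [sum_comm]
          exact sum_congr rfl fun z _ => (sum_smul ..).symm
      _ = v y := by
          rw [sum_congr rfl fun z _ => by rw [h2 z, Matrix.one_apply]]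
          simp
  rw [← h1]
  exact Submodule.sum_mem _ fun x _ => Submodule.smul_mem _ _ (hM x)

/-- `exp (-u r) → 0` for `r > 0`. -/
theorem fl_exp {r : ℝ} (hr : 0 < r) : Tendsto (fun u : ℝ => Real.exp (-u * r)) atTop (𝓝 0) := by
  have h1 : Tendsto (fun u : ℝ => u * r) atTop atTop := tendsto_id.atTop_mul_const hr
  have h2 := Real.tendsto_exp_neg_atTop_nhds_zero.comp h1
  refine h2.congr fun u => ?_
  simp [Function.comp]

/-- One step of the degeneration. -/
theorem fl_step {P : Type} [CommRing P] [Algebra ℝ P] {𝒜 : Type} [Fintype 𝒜] [DecidableEq 𝒜]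
    {X : Type} [AddCommMonoid X] [DecidableEq X] {n : ℕ}
    (ρ : 𝒜 → P) (ex : 𝒜 → X) (wt : X →+ ℕ) (Q' : Finset X) (F F' : X → P) (m : X)
    (hadd : ∀ a, ex a + m ∈ Q')
    (tri : ∀ a, ρ a * F m - F' (ex a + m) ∈ Submodule.span ℝ
      (F' '' {m' | m' ∈ Q' ∧ wt m' < wt (ex a + m)}))
    (ω : 𝒜 → ℝ) (c : Fin n → 𝒜 → ℝ) (h h' : X → ℝ) (Λ : ℝ) (hΛ0 : 0 ≤ Λ)
    (hΛ : ∀ a, ∀ m' ∈ Q', 0 < ω a + h m - h' m' + Λ)
    (σ : Finset 𝒜) (h1 : ∀ a, a ∉ σ → h' (ex a + m) < h m + ω a)
    (h2 : ∀ a ∈ σ, h' (ex a + m) = h m + ω a)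
    (a₀ : 𝒜) (ha₀ : a₀ ∈ σ) (ν : Fin n → ℝ)
    (hν : ∀ a ∈ σ, ∑ j, ν j * c j a = if a = a₀ then 1 else 0) :
    ∃ M : ℝ → Q' → ℝ,
      (∀ y : Q', Tendsto (fun u => M u y) atTop (𝓝 (if (y : X) = ex a₀ + m then 1 else 0))) ∧
      ∀ u, ∑ y : Q', M u y • (Real.exp (-u * (h' y + Λ * wt y)) • F' y) =
        ∑ j, ν j • ((∑ a, (c j a * Real.exp (-u * (ω a + Λ * wt (ex a)))) • ρ a) *
          (Real.exp (-u * (h m + Λ * wt m)) • F m)) := by
  classical
  have hs : ∀ a, ∃ s : X → ℝ, (∀ y ∈ Q', s y ≠ 0 → wt y < wt (ex a + m)) ∧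
      ρ a * F m = F' (ex a + m) + ∑ y : Q', s y • F' y := by
    intro a
    have h3 := tri a
    have h4 : {m' | m' ∈ Q' ∧ wt m' < wt (ex a + m)} =
        ((Q'.filter fun m' => wt m' < wt (ex a + m) : Finset X) : Set X) := by
      ext x; simp
    rw [h4, Submodule.mem_span_image_finset_iff_exists_fun] at h3
    obtain ⟨s, hs⟩ := h3
    refine ⟨fun y => if hy : y ∈ Q'.filter (fun m' => wt m' < wt (ex a + m)) then s ⟨y, hy⟩ else 0,
      fun y _ hy => ?_, ?_⟩
    · by_contra hc
      have hc' : y ∉ Q'.filter (fun m' => wt m' < wt (ex a + m)) :=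
        fun h => hc (mem_filter.1 h).2
      exact hy (dif_neg hc')
    · rw [Finset.sum_coe_sort Q' fun y => (if hy : y ∈ Q'.filter (fun m' => wt m' < wt (ex a + m))
        then s ⟨y, hy⟩ else 0) • F' y, ← sub_eq_iff_eq_add', ← hs,
        ← Finset.sum_subset (filter_subset (fun m' => wt m' < wt (ex a + m)) Q'),
        ← Finset.sum_coe_sort (Q'.filter fun m' => wt m' < wt (ex a + m))]
      · refine sum_congr rfl fun y _ => ?_
        rw [dif_pos y.2]
      · intro y _ hy
        rw [dif_neg hy, zero_smul]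
  choose s hs1 hs2 using hs
  refine ⟨fun u y => ∑ a, (∑ j, ν j * c j a) *
    ((if (y : X) = ex a + m then Real.exp (-u * (ω a + h m - h' y)) else 0) +
      s a y * Real.exp (-u * (ω a + h m - h' y + Λ * ((wt (ex a) : ℝ) + wt m - wt y)))),
    fun y => ?_, fun u => ?_⟩
  · have hlim : (if (y : X) = ex a₀ + m then (1 : ℝ) else 0) = ∑ a, (∑ j, ν j * c j a) *
        ((if (y : X) = ex a + m then (if a ∈ σ then 1 else 0) else 0) + s a y * 0) := by
      rw [Finset.sum_eq_single a₀]
      · rw [hν a₀ ha₀]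
        simp [ha₀]
      · intro a _ ha
        by_cases haσ : a ∈ σ
        · rw [hν a haσ, if_neg ha]
          simp
        · simp [haσ]
      · simp
    rw [hlim]
    refine tendsto_finsetSum _ fun a _ => Tendsto.const_mul _ (Tendsto.add ?_ ?_)
    · by_cases hy : (y : X) = ex a + m
      · simp only [hy, if_true]
        by_cases haσ : a ∈ σ
        · simp only [haσ, if_true]
          have h0 : ω a + h m - (h m + ω a) = 0 := by ring
          rw [h2 a haσ, h0]
          simp
        · simp only [haσ, if_false]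
          exact fl_exp (by linarith [h1 a haσ])
      · simp only [hy, if_false]
        exact tendsto_const_nhds
    · by_cases hsy : s a y = 0
      · simp [hsy]
      · refine Tendsto.const_mul _ (fl_exp ?_)
        have h5 := hs1 a y y.2 hsy
        rw [map_add] at h5
        have h6 : (1 : ℝ) ≤ (wt (ex a) : ℝ) + wt m - wt (y : X) := by
          have : (wt (y : X) : ℝ) + 1 ≤ (wt (ex a) : ℝ) + wt m := by exact_mod_cast h5
          linarith
        have h7 := hΛ a y y.2
        nlinarith
  · have key : ∀ a, ρ a * F m = ∑ y : Q', ((if (y : X) = ex a + m then 1 else 0) + s a y) •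
        F' y := by
      intro a
      rw [hs2 a]
      simp only [add_smul, sum_add_distrib]
      congr 1
      rw [Finset.sum_eq_single (⟨ex a + m, hadd a⟩ : Q')]
      · simp
      · intro y _ hy
        have : (y : X) ≠ ex a + m := fun hc => hy (Subtype.ext hc)
        simp [this]
      · simp
    have e1 : ∀ (a : 𝒜) (y : Q'), ((if (y : X) = ex a + m then
        Real.exp (-u * (ω a + h m - h' y)) else 0) + s a y *
          Real.exp (-u * (ω a + h m - h' y + Λ * ((wt (ex a) : ℝ) + wt m - wt (y : X))))) *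
          Real.exp (-u * (h' y + Λ * wt (y : X))) =
        Real.exp (-u * (ω a + Λ * wt (ex a))) * Real.exp (-u * (h m + Λ * wt m)) *
          ((if (y : X) = ex a + m then 1 else 0) + s a y) := by
      intro a y
      have e2 : Real.exp (-u * (ω a + h m - h' y + Λ * ((wt (ex a) : ℝ) + wt m - wt (y : X)))) *
          Real.exp (-u * (h' y + Λ * wt (y : X))) =
          Real.exp (-u * (ω a + Λ * wt (ex a))) * Real.exp (-u * (h m + Λ * wt m)) := by
        rw [← Real.exp_add, ← Real.exp_add]
        congr 1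
        ring
      have e3 : (if (y : X) = ex a + m then Real.exp (-u * (ω a + h m - h' y)) else 0) *
          Real.exp (-u * (h' y + Λ * wt (y : X))) =
          Real.exp (-u * (ω a + Λ * wt (ex a))) * Real.exp (-u * (h m + Λ * wt m)) *
            (if (y : X) = ex a + m then 1 else 0) := by
        split_ifs with hy
        · rw [mul_one, ← Real.exp_add, ← Real.exp_add]
          congr 1
          have : (wt (y : X) : ℝ) = wt (ex a) + wt m := by
            rw [hy, map_add]; push_cast; ring
          rw [this]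
          ring
        · simp
      rw [add_mul, mul_assoc (s a y), e2, e3]
      ring
    calc ∑ y : Q', (∑ a, (∑ j, ν j * c j a) *
            ((if (y : X) = ex a + m then Real.exp (-u * (ω a + h m - h' y)) else 0) +
              s a y * Real.exp (-u * (ω a + h m - h' y + Λ * ((wt (ex a) : ℝ) + wt m - wt (y : X)))))) •
              (Real.exp (-u * (h' y + Λ * wt (y : X))) • F' y)
        = ∑ y : Q', ∑ a, ((∑ j, ν j * c j a) * (Real.exp (-u * (ω a + Λ * wt (ex a))) *
            Real.exp (-u * (h m + Λ * wt m)) *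
            ((if (y : X) = ex a + m then 1 else 0) + s a y))) • F' y := by
          refine sum_congr rfl fun y _ => ?_
          rw [smul_smul, sum_mul, sum_smul]
          refine sum_congr rfl fun a _ => ?_
          rw [mul_assoc, e1 a y]
      _ = ∑ a, ((∑ j, ν j * c j a) * (Real.exp (-u * (ω a + Λ * wt (ex a))) *
            Real.exp (-u * (h m + Λ * wt m)))) • (ρ a * F m) := by
          rw [sum_comm]
          refine sum_congr rfl fun a _ => ?_
          rw [key a, smul_sum]
          refine sum_congr rfl fun y _ => ?_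
          rw [smul_smul]
          congr 1
          ring
      _ = _ := by
          simp only [sum_mul, smul_sum, sum_smul]
          rw [sum_comm]
          refine sum_congr rfl fun j _ => sum_congr rfl fun a _ => ?_
          simp only [smul_mul_assoc, mul_smul_comm, smul_smul]
          congr 1
          ring

end Pool.Agent.HYP
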