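import Pool.Agent.HYP.Defs

/-!
# Module TR: translation from the alternating sums of box counts to the h*-vector
-/

set_option autoImplicit false

namespace Pool.Agent.HYP

open Finset

/-- the geometric series over the integers -/
noncomputable def tr_gs : PowerSeries ℤ := PowerSeries.mk fun _ => 1

theorem tr_gs_mul : tr_gs * (1 - PowerSeries.X) = 1 := by
  ext1 n
  rw [mul_sub, mul_one, map_sub, tr_gs, PowerSeries.coeff_mk]
  rcases n with _ | n
  · simp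
  · rw [PowerSeries.coeff_succ_mul_X, PowerSeries.coeff_mk, PowerSeries.coeff_one,
      if_neg (by omega)]
    ring

/-- number of `y : Fin N → ℕ` with sum `d` -/
noncomputable def tr_W (N : ℕ) (d : ℤ) : ℤ :=
  if 0 ≤ d then PowerSeries.coeff d.toNat (tr_gs ^ N) else 0

theorem tr_W_neg {N : ℕ} {d : ℤ} (h : d < 0) : tr_W N d = 0 := by
  rw [tr_W, if_neg (by omega)]

theorem tr_W_nat (N d : ℕ) : tr_W N (d : ℤ) = PowerSeries.coeff d (tr_gs ^ N) := by
  simp [tr_W]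

theorem tr_W_diff (N : ℕ) (d : ℤ) : tr_W (N + 1) d - tr_W (N + 1) (d - 1) = tr_W N d := by
  have key : tr_gs ^ (N + 1) * (1 - PowerSeries.X) = tr_gs ^ N := by
    rw [pow_succ, mul_assoc, tr_gs_mul, mul_one]
  rcases lt_trichotomy d 0 with h | h | h
  · rw [tr_W_neg h, tr_W_neg h, tr_W_neg (by omega)]
    ring
  · subst h
    rw [tr_W_neg (by omega : (0 : ℤ) - 1 < 0)]
    have e : (0 : ℤ) = ((0 : ℕ) : ℤ) := rfl
    rw [e, tr_W_nat, tr_W_nat, ← key, mul_sub, mul_one, map_sub]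
    simp
  · obtain ⟨m, rfl⟩ : ∃ m : ℕ, d = ((m + 1 : ℕ) : ℤ) := ⟨(d - 1).toNat, by omega⟩
    have e : (((m + 1 : ℕ) : ℤ) - 1) = ((m : ℕ) : ℤ) := by push_cast; ring
    rw [e, tr_W_nat, tr_W_nat, tr_W_nat, ← key, mul_sub, mul_one, map_sub,
      PowerSeries.coeff_succ_mul_X]

theorem tr_geom (S : ℕ) : (∑ a : Fin S, (PowerSeries.X : PowerSeries ℤ) ^ (a : ℕ))
    = (1 - PowerSeries.X ^ S) * tr_gs := by
  have h1 : (∑ a : Fin S, (PowerSeries.X : PowerSeries ℤ) ^ (a : ℕ))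
      = ∑ a ∈ range S, (PowerSeries.X : PowerSeries ℤ) ^ a := by
    rw [Finset.sum_range]
  have h2 := geom_sum_mul_neg (PowerSeries.X : PowerSeries ℤ) S
  rw [h1, ← h2, mul_assoc, mul_comm (1 - PowerSeries.X) tr_gs, tr_gs_mul, mul_one]

theorem tr_cz (N S : ℕ) (d : ℤ) :
    cz N S d = ∑ b ∈ range (N + 1), (-1 : ℤ) ^ b * (N.choose b : ℤ) * tr_W N (d - b * S) := by
  rcases lt_or_ge d 0 with h | h
  · have h1 : cz N S d = 0 := by
      rw [cz]
      norm_cast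
      rw [Finset.card_eq_zero, Finset.filter_eq_empty_iff]
      intro x _ hx
      have : (0 : ℤ) ≤ ∑ i, ((x i : ℕ) : ℤ) := Finset.sum_nonneg fun i _ => by positivity
      omega
    rw [h1]
    symm
    refine Finset.sum_eq_zero fun b _ => ?_
    rw [tr_W_neg, mul_zero]
    have : (0 : ℤ) ≤ (b : ℤ) * S := by positivity
    omega
  · obtain ⟨m, rfl⟩ : ∃ m : ℕ, d = (m : ℤ) := ⟨d.toNat, by omega⟩
    have h1 : cz N S m = PowerSeries.coeff m ((∑ a : Fin S, (PowerSeries.X : PowerSeries ℤ) ^ (a : ℕ)) ^ N) := by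
      rw [Fintype.sum_pow, map_sum, cz, Finset.card_filter, Nat.cast_sum]
      refine Finset.sum_congr rfl fun x _ => ?_
      rw [Finset.prod_pow_eq_pow_sum, PowerSeries.coeff_X_pow]
      by_cases hx : ∑ i, (x i : ℕ) = m
      · rw [if_pos hx.symm, if_pos (by exact_mod_cast hx)]
        simp
      · rw [if_neg (show ¬ m = ∑ i, (x i : ℕ) from fun e => hx e.symm),
          if_neg (show ¬ ∑ i, ((x i : ℕ) : ℤ) = (m : ℤ) from fun e => hx (by exact_mod_cast e))]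
        simp
    rw [h1, tr_geom, mul_pow, sub_eq_add_neg, add_comm, add_pow, Finset.sum_mul, map_sum]
    refine Finset.sum_congr rfl fun b _ => ?_
    rw [one_pow, mul_one, neg_pow, ← pow_mul]
    have h2 : (-1 : PowerSeries ℤ) ^ b * PowerSeries.X ^ (S * b) * ((N.choose b : ℕ) : PowerSeries ℤ)
        * tr_gs ^ N = PowerSeries.C ((-1 : ℤ) ^ b * (N.choose b : ℤ))
          * (PowerSeries.X ^ (S * b) * tr_gs ^ N) := by
      rw [map_mul, map_pow, map_neg, map_one]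
      have : (PowerSeries.C ((N.choose b : ℕ) : ℤ) : PowerSeries ℤ) = ((N.choose b : ℕ) : PowerSeries ℤ) := by
        simp
      rw [this]
      ring
    rw [h2, PowerSeries.coeff_C_mul, PowerSeries.coeff_X_pow_mul']
    congr 1
    split_ifs with h3
    · have e : ((m : ℤ) - b * S) = ((m - S * b : ℕ) : ℤ) := by
        rw [Nat.cast_sub h3]; push_cast; ring
      rw [e, tr_W_nat]
    · rw [tr_W_neg]
      have h4 : (m : ℤ) < ((S * b : ℕ) : ℤ) := by exact_mod_cast (not_le.mp h3)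
      push_cast at h4
      nlinarith

/-- Pascal's rule for an alternating convolution. -/
theorem tr_pascal (n : ℕ) (f : ℕ → ℤ) (m : ℕ) :
    ∑ b ∈ range (m + 2), (-1 : ℤ) ^ b * ((n + 1).choose b : ℤ) * f (m + 1 - b)
      = ∑ b ∈ range (m + 2), (-1 : ℤ) ^ b * (n.choose b : ℤ) * f (m + 1 - b)
        - ∑ b ∈ range (m + 1), (-1 : ℤ) ^ b * (n.choose b : ℤ) * f (m - b) := by
  rw [Finset.sum_range_succ' _ (m + 1), Finset.sum_range_succ' _ (m + 1)]
  simp only [Nat.reduceSubDiff, Nat.choose_zero_right, pow_zero, Nat.cast_one, mul_one, one_mul,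
    Nat.sub_zero]
  have : ∀ b ∈ range (m + 1), (-1 : ℤ) ^ (b + 1) * ((n + 1).choose (b + 1) : ℤ) * f (m - b)
      = (-1 : ℤ) ^ (b + 1) * (n.choose (b + 1) : ℤ) * f (m - b)
        - (-1 : ℤ) ^ b * (n.choose b : ℤ) * f (m - b) := by
    intro b _
    rw [Nat.choose_succ_succ]
    push_cast
    ring
  rw [Finset.sum_congr rfl this, Finset.sum_sub_distrib]
  ring

/-- The h*-entries as a double alternating sum. -/
theorem tr_h (n k : ℕ) (hk : 1 ≤ k) (hkn : k ≤ n) (L : ℕ → ℕ)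
    (hL : ∀ t : ℕ, L t = ((Finset.univ : Finset (Fin n → Fin (t + 1))).filter
          (fun x => ∑ i, (x i : ℕ) = k * t)).card) (h : ℕ → ℤ)
    (hh : ∀ i : ℕ, h i = ∑ j ∈ range (i + 1),
          (-1 : ℤ) ^ j * (n.choose j : ℤ) * (L (i - j) : ℤ)) (i : ℕ) :
    h i = ∑ l ∈ range (k + 1), (-1 : ℤ) ^ l * (n.choose l : ℤ) *
      ∑ b ∈ range (i + 2), (-1 : ℤ) ^ b * (n.choose b : ℤ) *
        tr_W n (((k - l : ℕ) : ℤ) * ((i + 1 - b : ℕ) : ℤ) - k) := by
  have hLc : ∀ t : ℕ, (L t : ℤ) = ∑ l ∈ range (k + 1), (-1 : ℤ) ^ l * (n.choose l : ℤ) *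
      tr_W n (((k - l : ℕ) : ℤ) * ((t + 1 : ℕ) : ℤ) - k) := by
    intro t
    have h1 : (L t : ℤ) = cz n (t + 1) ((k : ℤ) * t) := by
      rw [hL, cz]
      congr 2
      ext x
      simp only [Finset.mem_filter, Finset.mem_univ, true_and]
      constructor
      · intro hx; exact_mod_cast hx
      · intro hx; exact_mod_cast hx
    rw [h1, tr_cz]
    have hsub : range (k + 1) ⊆ range (n + 1) := Finset.range_subset_range.mpr (by omega)
    symm
    rw [← Finset.sum_subset hsub]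
    · refine Finset.sum_congr rfl fun l hl => ?_
      rw [Finset.mem_range] at hl
      congr 2
      rw [Nat.cast_sub (by omega)]
      push_cast
      ring
    · intro l _ hl
      rw [Finset.mem_range, not_lt] at hl
      rw [tr_W_neg, mul_zero]
      have h2 : ((k : ℤ) + 1) ≤ (l : ℤ) := by exact_mod_cast hl
      push_cast
      nlinarith [show (0 : ℤ) ≤ (t : ℤ) from by positivity, show (1 : ℤ) ≤ (k : ℤ) from by
        exact_mod_cast hk]
  rw [hh]
  simp only [hLc, Finset.mul_sum]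
  rw [Finset.sum_comm]
  refine Finset.sum_congr rfl fun l _ => ?_
  rw [Finset.sum_range_succ _ (i + 1)]
  have hz : (-1 : ℤ) ^ l * (n.choose l : ℤ) * ((-1 : ℤ) ^ (i + 1) * (n.choose (i + 1) : ℤ) *
      tr_W n (((k - l : ℕ) : ℤ) * ((i + 1 - (i + 1) : ℕ) : ℤ) - k)) = 0 := by
    rw [Nat.sub_self, tr_W_neg]
    · ring
    · have : (1 : ℤ) ≤ (k : ℤ) := by exact_mod_cast hk
      push_cast
      linarith
  rw [hz, add_zero]
  refine Finset.sum_congr rfl fun b hb => ?_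
  rw [Finset.mem_range] at hb
  rw [show i - b + 1 = i + 1 - b by omega]
  ring

/-- The box-count side. -/
theorem tr_D (n p k l : ℕ) (hk : 1 ≤ k) (hpn : p ≤ n + 1) :
    cz (n + 1) (k - l) (((k - l : ℕ) : ℤ) * p - k) - cz (n + 1) (k - l) (((k - l : ℕ) : ℤ) * p - k - 1)
      = ∑ b ∈ range (p + 1), (-1 : ℤ) ^ b * ((n + 1).choose b : ℤ) *
        tr_W n (((k - l : ℕ) : ℤ) * ((p - b : ℕ) : ℤ) - k) := by
  rw [tr_cz, tr_cz, ← Finset.sum_sub_distrib]
  have h1 : ∀ b ∈ range (n + 1 + 1), (-1 : ℤ) ^ b * ((n + 1).choose b : ℤ) *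
      tr_W (n + 1) (((k - l : ℕ) : ℤ) * p - k - b * ((k - l : ℕ) : ℤ))
      - (-1 : ℤ) ^ b * ((n + 1).choose b : ℤ) *
      tr_W (n + 1) (((k - l : ℕ) : ℤ) * p - k - 1 - b * ((k - l : ℕ) : ℤ))
      = (-1 : ℤ) ^ b * ((n + 1).choose b : ℤ) *
        tr_W n (((k - l : ℕ) : ℤ) * p - k - b * ((k - l : ℕ) : ℤ)) := by
    intro b _
    rw [← tr_W_diff n]
    rw [show ((k - l : ℕ) : ℤ) * p - k - 1 - b * ((k - l : ℕ) : ℤ)
      = ((k - l : ℕ) : ℤ) * p - k - b * ((k - l : ℕ) : ℤ) - 1 by ring]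
    ring
  rw [Finset.sum_congr rfl h1]
  have hsub : range (p + 1) ⊆ range (n + 1 + 1) := Finset.range_subset_range.mpr (by omega)
  symm
  rw [← Finset.sum_subset hsub]
  · refine Finset.sum_congr rfl fun b hb => ?_
    rw [Finset.mem_range] at hb
    congr 2
    rw [Nat.cast_sub (by omega : b ≤ p)]
    ring
  · intro b _ hb
    rw [Finset.mem_range, not_lt] at hb
    rw [tr_W_neg, mul_zero]
    have h2 : ((p : ℤ) + 1) ≤ (b : ℤ) := by exact_mod_cast hb
    have h3 : (0 : ℤ) ≤ ((k - l : ℕ) : ℤ) := by positivity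
    have h4 : (1 : ℤ) ≤ (k : ℤ) := by exact_mod_cast hk
    nlinarith

theorem tr_main (n k : ℕ) (hk : 1 ≤ k) (hkn : k ≤ n) (L : ℕ → ℕ)
    (hL : ∀ t : ℕ, L t = ((Finset.univ : Finset (Fin n → Fin (t + 1))).filter
          (fun x => ∑ i, (x i : ℕ) = k * t)).card) (h : ℕ → ℤ)
    (hh : ∀ i : ℕ, h i = ∑ j ∈ range (i + 1),
          (-1 : ℤ) ^ j * (n.choose j : ℤ) * (L (i - j) : ℤ)) (i : ℕ) (hi : i + 2 ≤ n + 1) :
    h (i + 1) - h i = ∑ l ∈ Finset.range (k + 1), (-1 : ℤ) ^ l * (n.choose l : ℤ) *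
      (cz (n + 1) (k - l) (((k - l : ℕ) : ℤ) * ((i + 2 : ℕ) : ℤ) - k) -
        cz (n + 1) (k - l) (((k - l : ℕ) : ℤ) * ((i + 2 : ℕ) : ℤ) - k - 1)) := by
  rw [tr_h n k hk hkn L hL h hh (i + 1), tr_h n k hk hkn L hL h hh i, ← Finset.sum_sub_distrib]
  refine Finset.sum_congr rfl fun l _ => ?_
  rw [tr_D n (i + 2) k l hk hi, ← mul_sub]
  congr 1
  exact (tr_pascal n (fun T => tr_W n (((k - l : ℕ) : ℤ) * ((T : ℕ) : ℤ) - k)) (i + 1)).symm

/-- The ascending half from the nonnegativity of the alternating sums of box counts. -/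
theorem asc_of_D_nonneg
    (hD : ∀ n p K k : ℕ, 1 ≤ p → 2 * p + 2 ≤ n + 1 → 1 ≤ K → 2 * K ≤ n →
      n - 2 * K ≤ k * (n + 1 - 2 * p) →
      0 ≤ ∑ l ∈ Finset.range (k + 1), (-1 : ℤ) ^ l * (n.choose l : ℤ) *
      (cz (n + 1) (k - l) (((k - l : ℕ) : ℤ) * p - K) -
        cz (n + 1) (k - l) (((k - l : ℕ) : ℤ) * p - K - 1)))
    (n k : ℕ) (hk : 2 ≤ k) (hkn : 2 * k ≤ n) (L : ℕ → ℕ)
    (hL : ∀ t : ℕ, L t = ((Finset.univ : Finset (Fin n → Fin (t + 1))).filter
          (fun x => ∑ i, (x i : ℕ) = k * t)).card) (h : ℕ → ℤ)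
    (hh : ∀ i : ℕ, h i = ∑ j ∈ range (i + 1),
          (-1 : ℤ) ^ j * (n.choose j : ℤ) * (L (i - j) : ℤ)) (i : ℕ)
    (hi : 2 * i + 3 + n / k ≤ n) : h i ≤ h (i + 1) := by
  have hq : 2 ≤ n / k := by
    rw [Nat.le_div_iff_mul_le (by omega)]
    exact hkn
  have h1 := hD n (i + 2) k k (by omega) (by omega) (by omega) hkn (by
    have h2 : n / k ≤ n + 1 - 2 * (i + 2) := by omega
    have h3 : k * (n / k) ≤ k * (n + 1 - 2 * (i + 2)) := Nat.mul_le_mul_left k h2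
    have h4 : n < k * (n / k) + k := by
      have := Nat.lt_mul_div_succ n (by omega : 0 < k)
      rw [mul_add, mul_one] at this
      exact this
    omega)
  rw [← tr_main n k (by omega) (by omega) L hL h hh i (by omega)] at h1
  linarith

end Pool.Agent.HYP
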